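import Mathlib

/-!
The complete Boolean algebra of the regular open subsets of a preorder (conditions: smaller is
stronger).
-/

namespace Pool.Agent.LibTk83

universe u v

/-- Regular open subsets of a preorder. -/
structure RO (P : Type u) [Preorder P] where
  carrier : Set P
  lower : ∀ p q, q ≤ p → p ∈ carrier → q ∈ carrier
  reg : ∀ p, (∀ q, q ≤ p → ∃ r, r ≤ q ∧ r ∈ carrier) → p ∈ carrier

namespace RO

variable {P : Type u} [Preorder P]

instance : SetLike (RO P) P where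
  coe := RO.carrier
  coe_injective := by
    rintro ⟨s, _, _⟩ ⟨t, _, _⟩ h
    simp only at h
    subst h
    rfl

theorem mem_of_le {b : RO P} {p q : P} (h : q ≤ p) (hp : p ∈ b) : q ∈ b := b.lower p q h hp

theorem mem_of_dense {b : RO P} {p : P} (h : ∀ q, q ≤ p → ∃ r, r ≤ q ∧ r ∈ b) : p ∈ b := b.reg p h

@[ext] theorem ext {a b : RO P} (h : ∀ p, p ∈ a ↔ p ∈ b) : a = b := SetLike.ext h

/-- The regular open set generated by a set of conditions. -/
def gen (S : Set P) : RO P where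
  carrier := {p | ∀ q, q ≤ p → ∃ r, r ≤ q ∧ ∃ s ∈ S, r ≤ s}
  lower := fun p q h hp r hr => hp r (hr.trans h)
  reg := by
    intro p hp q hq
    obtain ⟨r, hr, hr'⟩ := hp q hq
    obtain ⟨t, ht, s, hs, hts⟩ := hr' r le_rfl
    exact ⟨t, ht.trans hr, s, hs, hts⟩

theorem mem_gen {S : Set P} {p : P} : p ∈ gen S ↔ ∀ q, q ≤ p → ∃ r, r ≤ q ∧ ∃ s ∈ S, r ≤ s :=
  Iff.rfl

/-- Arbitrary intersections. -/
def inter (S : Set (RO P)) : RO P where
  carrier := {p | ∀ b ∈ S, p ∈ b}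
  lower := fun p q h hp b hb => mem_of_le h (hp b hb)
  reg := by
    intro p hp b hb
    refine mem_of_dense fun q hq => ?_
    obtain ⟨r, hr, hr'⟩ := hp q hq
    exact ⟨r, hr, hr' b hb⟩

/-- The complement. -/
def cmp (b : RO P) : RO P where
  carrier := {p | ∀ q, q ≤ p → q ∉ b}
  lower := fun p q h hp r hr => hp r (hr.trans h)
  reg := by
    intro p hp q hq hqb
    obtain ⟨r, hr, hr'⟩ := hp q hq
    exact hr' r le_rfl (mem_of_le hr hqb)

theorem mem_cmp {b : RO P} {p : P} : p ∈ cmp b ↔ ∀ q, q ≤ p → q ∉ b := Iff.rfl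

instance : PartialOrder (RO P) where
  le a b := ∀ ⦃p⦄, p ∈ a → p ∈ b
  le_refl _ _ h := h
  le_trans _ _ _ h h' _ hp := h' (h hp)
  le_antisymm _ _ h h' := ext fun _ => ⟨fun hp => h hp, fun hp => h' hp⟩

instance : InfSet (RO P) := ⟨inter⟩

theorem le_def {a b : RO P} : a ≤ b ↔ ∀ p, p ∈ a → p ∈ b := Iff.rfl

theorem mem_sInf {S : Set (RO P)} {p : P} : p ∈ sInf S ↔ ∀ b ∈ S, p ∈ b := Iff.rfl

theorem isGLB_inter (S : Set (RO P)) : IsGLB S (sInf S) :=
  ⟨fun b hb p hp => hp b hb, fun _ hb p hp c hc => hb hc hp⟩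

noncomputable instance : CompleteLattice (RO P) := completeLatticeOfInf _ isGLB_inter

theorem mem_iInf {ι : Sort v} {b : ι → RO P} {p : P} : p ∈ ⨅ i, b i ↔ ∀ i, p ∈ b i := by
  rw [iInf, mem_sInf]
  simp

theorem mem_inf {a b : RO P} {p : P} : p ∈ a ⊓ b ↔ p ∈ a ∧ p ∈ b := by
  rw [← sInf_pair, mem_sInf]
  simp

theorem mem_top {p : P} : p ∈ (⊤ : RO P) := by
  rw [← sInf_empty, mem_sInf]
  simp

theorem mem_sSup {S : Set (RO P)} {p : P} :
    p ∈ sSup S ↔ ∀ q, q ≤ p → ∃ r, r ≤ q ∧ ∃ b ∈ S, r ∈ b := by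
  constructor
  · intro hp
    have h : sSup S ≤ gen {q | ∃ b ∈ S, q ∈ b} := by
      refine sSup_le fun b hb q hq => ?_
      exact fun r hr => ⟨r, le_rfl, r, ⟨b, hb, mem_of_le hr hq⟩, le_rfl⟩
    intro q hq
    obtain ⟨r, hr, s, ⟨b, hb, hs⟩, hrs⟩ := h hp q hq
    exact ⟨r, hr, b, hb, mem_of_le hrs hs⟩
  · intro h
    refine mem_of_dense fun q hq => ?_
    obtain ⟨r, hr, b, hb, hrb⟩ := h q hq
    exact ⟨r, hr, le_sSup hb hrb⟩

theorem mem_iSup {ι : Sort v} {b : ι → RO P} {p : P} :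
    p ∈ ⨆ i, b i ↔ ∀ q, q ≤ p → ∃ r, r ≤ q ∧ ∃ i, r ∈ b i := by
  rw [iSup, mem_sSup]
  simp

theorem mem_sup {a b : RO P} {p : P} :
    p ∈ a ⊔ b ↔ ∀ q, q ≤ p → ∃ r, r ≤ q ∧ (r ∈ a ∨ r ∈ b) := by
  rw [← sSup_pair, mem_sSup]
  simp

theorem not_mem_bot {p : P} : p ∉ (⊥ : RO P) := by
  rw [← sSup_empty, mem_sSup]
  intro h
  obtain ⟨r, -, b, hb, -⟩ := h p le_rfl
  exact hb

noncomputable instance : CompleteBooleanAlgebra (RO P) :=
  { (inferInstance : CompleteLattice (RO P)) with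
    compl := cmp
    sdiff := fun a b => a ⊓ cmp b
    himp := fun a b => b ⊔ cmp a
    le_sup_inf := by
      intro a b c p hp
      rw [mem_inf, mem_sup, mem_sup] at hp
      rw [mem_sup]
      intro q hq
      obtain ⟨r, hr, h1⟩ := hp.1 q hq
      obtain ⟨s, hs, h2⟩ := hp.2 r (hr.trans hq)
      refine ⟨s, hs.trans hr, ?_⟩
      rcases h1 with h1 | h1
      · exact Or.inl (mem_of_le hs h1)
      · rcases h2 with h2 | h2
        · exact Or.inl h2
        · exact Or.inr (mem_inf.2 ⟨mem_of_le hs h1, h2⟩)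
    sdiff_eq := fun _ _ => rfl
    himp_eq := fun _ _ => rfl
    inf_compl_le_bot := by
      intro a p hp
      rw [mem_inf] at hp
      exact absurd hp.1 (hp.2 p le_rfl)
    top_le_sup_compl := by
      intro a p _
      rw [mem_sup]
      intro q hq
      by_cases h : ∃ r, r ≤ q ∧ r ∈ a
      · obtain ⟨r, hr, hra⟩ := h
        exact ⟨r, hr, Or.inl hra⟩
      · push Not at h
        exact ⟨q, le_rfl, Or.inr h⟩ }

theorem mem_compl {b : RO P} {p : P} : p ∈ bᶜ ↔ ∀ q, q ≤ p → q ∉ b := Iff.rfl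

theorem mem_himp {a b : RO P} {p : P} : p ∈ a ⇨ b ↔ ∀ q, q ≤ p → q ∈ a → q ∈ b := by
  rw [himp_eq, mem_sup]
  constructor
  · intro h q hq hqa
    refine mem_of_dense fun r hr => ?_
    obtain ⟨s, hs, h1⟩ := h r (hr.trans hq)
    refine ⟨s, hs, ?_⟩
    rcases h1 with h1 | h1
    · exact h1
    · exact absurd (mem_of_le (hs.trans hr) hqa) (h1 s le_rfl)
  · intro h q hq
    by_cases h' : ∃ r, r ≤ q ∧ r ∈ a
    · obtain ⟨r, hr, hra⟩ := h'
      exact ⟨r, hr, Or.inl (h r (hr.trans hq) hra)⟩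
    · push Not at h'
      exact ⟨q, le_rfl, Or.inr h'⟩

theorem eq_top_iff' {b : RO P} : b = ⊤ ↔ ∀ p, ∃ q, q ≤ p ∧ q ∈ b := by
  constructor
  · rintro rfl p
    exact ⟨p, le_rfl, mem_top⟩
  · intro h
    refine top_le_iff.1 fun p _ => mem_of_dense fun q _ => h q

theorem ne_bot_iff {b : RO P} : b ≠ ⊥ ↔ ∃ p, p ∈ b := by
  constructor
  · intro h
    by_contra hcon
    push Not at hcon
    exact h (le_bot_iff.1 fun p hp => absurd hp (hcon p))
  · rintro ⟨p, hp⟩ rfl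
    exact not_mem_bot hp

/-- The regular open set generated by one condition. -/
def of (p : P) : RO P := gen {p}

theorem mem_of {p q : P} : q ∈ of p ↔ ∀ r, r ≤ q → ∃ s, s ≤ r ∧ s ≤ p := by
  unfold of
  rw [mem_gen]
  simp

theorem self_mem_of (p : P) : p ∈ of p := mem_of.2 fun r hr => ⟨r, le_rfl, hr⟩

theorem of_le_iff {p : P} {b : RO P} : of p ≤ b ↔ p ∈ b := by
  constructor
  · intro h
    exact h (self_mem_of p)
  · intro h q hq
    refine mem_of_dense fun r hr => ?_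
    obtain ⟨s, hs, hsp⟩ := mem_of.1 hq r hr
    exact ⟨s, hs, mem_of_le hsp h⟩

theorem of_ne_bot (p : P) : of p ≠ ⊥ := ne_bot_iff.2 ⟨p, self_mem_of p⟩

theorem gen_eq_iSup (S : Set P) : gen S = ⨆ s ∈ S, of s := by
  apply le_antisymm
  · intro p hp
    rw [mem_iSup]
    intro q hq
    obtain ⟨r, hr, s, hs, hrs⟩ := hp q hq
    refine ⟨r, hr, s, ?_⟩
    rw [mem_iSup]
    exact fun t ht => ⟨t, le_rfl, hs, mem_of_le (ht.trans hrs) (self_mem_of s)⟩
  · refine iSup₂_le fun s hs => ?_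
    rw [of_le_iff]
    exact fun q hq => ⟨q, le_rfl, s, hs, hq⟩

instance [Nonempty P] : Nontrivial (RO P) := by
  obtain ⟨p⟩ := ‹Nonempty P›
  exact ⟨⟨of p, ⊥, of_ne_bot p⟩⟩

end RO

/-- A projection between preorders. -/
structure OpenMap {P : Type u} {Q : Type v} [Preorder P] [Preorder Q] (π : P → Q) : Prop where
  mono : ∀ p q, p ≤ q → π p ≤ π q
  lift : ∀ p q, q ≤ π p → ∃ p', p' ≤ p ∧ π p' ≤ q

namespace RO

variable {P : Type u} {Q : Type v} [Preorder P] [Preorder Q] {π : P → Q}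

/-- The complete embedding given by a projection. -/
def comap (hπ : OpenMap π) (b : RO Q) : RO P where
  carrier := {p | π p ∈ b}
  lower := fun p q h hp => mem_of_le (hπ.mono _ _ h) hp
  reg := by
    intro p hp
    refine mem_of_dense fun q hq => ?_
    obtain ⟨p', hp', hq'⟩ := hπ.lift p q hq
    obtain ⟨r, hr, hrb⟩ := hp p' hp'
    exact ⟨π r, (hπ.mono _ _ hr).trans hq', hrb⟩

theorem mem_comap (hπ : OpenMap π) {b : RO Q} {p : P} : p ∈ comap hπ b ↔ π p ∈ b := Iff.rfl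

theorem comap_iInf (hπ : OpenMap π) {ι : Sort*} (b : ι → RO Q) :
    comap hπ (⨅ i, b i) = ⨅ i, comap hπ (b i) := by
  ext p
  simp only [mem_comap, mem_iInf]

theorem comap_inf (hπ : OpenMap π) (a b : RO Q) : comap hπ (a ⊓ b) = comap hπ a ⊓ comap hπ b := by
  ext p
  simp only [mem_comap, mem_inf]

theorem comap_compl (hπ : OpenMap π) (a : RO Q) : comap hπ aᶜ = (comap hπ a)ᶜ := by
  ext p
  simp only [mem_comap, mem_compl]
  constructor
  · intro h q hq
    exact h _ (hπ.mono _ _ hq)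
  · intro h q hq hqa
    obtain ⟨p', hp', hq'⟩ := hπ.lift p q hq
    exact h p' hp' (mem_of_le hq' hqa)

theorem comap_iSup (hπ : OpenMap π) {ι : Sort*} (b : ι → RO Q) :
    comap hπ (⨆ i, b i) = ⨆ i, comap hπ (b i) := by
  have h : ∀ c : RO Q, comap hπ c = (comap hπ cᶜ)ᶜ := fun c => by rw [comap_compl, compl_compl]
  rw [h, compl_iSup, comap_iInf, compl_iInf]
  exact iSup_congr fun i => (h _).symm

theorem comap_sup (hπ : OpenMap π) (a b : RO Q) : comap hπ (a ⊔ b) = comap hπ a ⊔ comap hπ b := by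
  have h : ∀ c : RO Q, comap hπ c = (comap hπ cᶜ)ᶜ := fun c => by rw [comap_compl, compl_compl]
  rw [h, compl_sup, comap_inf, compl_inf, ← h, ← h]

theorem comap_top (hπ : OpenMap π) : comap hπ (⊤ : RO Q) = ⊤ := by
  ext p
  simp only [mem_comap, mem_top]

theorem comap_bot (hπ : OpenMap π) : comap hπ (⊥ : RO Q) = ⊥ := by
  ext p
  simp only [mem_comap, not_mem_bot]

theorem comap_mono (hπ : OpenMap π) {a b : RO Q} (h : a ≤ b) : comap hπ a ≤ comap hπ b :=
  fun _ hp => h hp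

end RO

end Pool.Agent.LibTk83
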