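import Pool.Agent.LibTk83.VDef

/-! Task V1: names of the elements of well-ordered types. -/

namespace Pool.Agent.LibTk83

open Pool.Agent.LibPlas90 Pool.Agent.LibPlas90.BSet

variable {B : Type} [CompleteBooleanAlgebra B] {J : Type} [LinearOrder J] [WellFoundedLT J]

theorem mem_chk (t : BSet B) (i : J) : mem t (chk i) = ⨆ j, ⨆ (_ : j < i), eq t (chk j) := by
  rw [chk_eq, mem_mk, iSup_subtype]
  simp only [top_inf_eq]

theorem mem_ck (t : BSet B) : mem t (ck B J) = ⨆ j : J, eq t (chk j) := by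
  rw [ck, mem_mk]
  simp only [top_inf_eq]

theorem mem_chk_of_lt {i j : J} (h : j < i) : mem (chk j : BSet B) (chk i) = ⊤ := by
  rw [mem_chk, eq_top_iff]
  refine le_iSup₂_of_le j h ?_
  rw [eq_refl]

theorem mem_chk_ck (j : J) : mem (chk j : BSet B) (ck B J) = ⊤ := by
  rw [mem_ck, eq_top_iff]
  refine le_iSup_of_le j ?_
  rw [eq_refl]

theorem V1_eq_chk : ∀ i : J, ∀ j, j < i → eq (chk i : BSet B) (chk j) = ⊥ := by
  intro i
  induction i using WellFoundedLT.induction with
  | ind i ih =>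
    intro j hj
    have h1 : eq (chk i : BSet B) (chk j) ≤ mem (chk j : BSet B) (chk j) := by
      have h2 := mem_congr_right (chk j : BSet B) (chk i) (chk j)
      rw [mem_chk_of_lt hj, inf_top_eq] at h2
      exact h2
    refine le_bot_iff.1 (h1.trans ?_)
    rw [mem_chk]
    exact iSup₂_le fun l hl => (ih j hj l hl).le

/- By induction on `i` prove `∀ j < i, eq (chk i) (chk j) = ⊥`: it is at most
`mem (chk j) (chk j) = ⨆ l < j, eq (chk j) (chk l) = ⊥` (`mem_congr_right`, `mem_chk_of_lt`). -/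
theorem eq_chk {i j : J} (h : i ≠ j) : eq (chk i : BSet B) (chk j) = ⊥ := by
  rcases lt_or_gt_of_ne h with h | h
  · rw [eq_symm]
    exact V1_eq_chk j i h
  · exact V1_eq_chk i j h

theorem all_ck {φ : BSet B → B} (h : Ext φ) : all (ck B J) φ = ⨅ i : J, φ (chk i) := by
  rw [ck, all_mk h]
  simp only [top_himp]

theorem ex_ck {φ : BSet B → B} (h : Ext φ) : ex (ck B J) φ = ⨆ i : J, φ (chk i) := by
  rw [ck, ex_mk h]
  simp only [top_inf_eq]

end Pool.Agent.LibTk83
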