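import Pool.Agent.LibTk83.V0
import Pool.Agent.LibTk83.V1

/-! Task V2: the natural numbers. -/

namespace Pool.Agent.LibTk83

open Pool.Agent.LibPlas90 Pool.Agent.LibPlas90.BSet

variable {B : Type} [CompleteBooleanAlgebra B]

theorem v2_isAdd_le (y x a t : BSet B) : isAdd y x a ⊓ mem t y ≤ mem t x ⊔ eq t a := by
  rw [← le_himp_iff]
  unfold isAdd equiv
  exact (iInf_le _ t).trans inf_le_left

theorem v2_isAdd_ge (y x a t : BSet B) : isAdd y x a ⊓ (mem t x ⊔ eq t a) ≤ mem t y := by
  rw [← le_himp_iff]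
  unfold isAdd equiv
  exact (iInf_le _ t).trans inf_le_right

theorem v2_isAdd_unique (y y' x a : BSet B) : isAdd y x a ⊓ isAdd y' x a ≤ eq y y' := by
  refine le_eq_of_forall _ _ _ (fun t => ?_) (fun t => ?_)
  · refine le_trans ?_ (v2_isAdd_ge y' x a t)
    refine le_inf (inf_le_left.trans inf_le_right) ?_
    exact (inf_le_inf_right _ inf_le_left).trans (v2_isAdd_le y x a t)
  · refine le_trans ?_ (v2_isAdd_ge y x a t)
    refine le_inf (inf_le_left.trans inf_le_left) ?_
    exact (inf_le_inf_right _ inf_le_right).trans (v2_isAdd_le y' x a t)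

theorem v2_isEmpty_mem (x t : BSet B) : isEmpty x ⊓ mem t x ≤ ⊥ := by
  have h : isEmpty x ≤ (mem t x)ᶜ := by
    unfold isEmpty
    exact iInf_le _ t
  refine (inf_le_inf_right _ h).trans ?_
  rw [compl_inf_eq_bot]

theorem v2_isEmpty_unique (x y : BSet B) : isEmpty x ⊓ isEmpty y ≤ eq x y := by
  refine le_eq_of_forall _ _ _ (fun t => ?_) (fun t => ?_)
  · exact ((inf_le_inf_right _ inf_le_left).trans (v2_isEmpty_mem x t)).trans bot_le
  · exact ((inf_le_inf_right _ inf_le_right).trans (v2_isEmpty_mem y t)).trans bot_le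

theorem v2_Ext_isAdd (y : BSet B) : Ext (fun x => isAdd y x x) := by
  intro x x'
  have h1 : eq x x' ⊓ isAdd y x x ≤ isAdd y x' x := Ext_isAdd_2 y x x x'
  have h2 : eq x x' ⊓ isAdd y x' x ≤ isAdd y x' x' := Ext_isAdd_3 y x' x x'
  exact (le_inf inf_le_left h1).trans h2

theorem v2_isEmpty_chk : isEmpty (chk (0 : ℕ) : BSet B) = ⊤ := by
  unfold isEmpty
  refine top_le_iff.mp (le_iInf fun t => ?_)
  rw [mem_chk]
  simp

theorem v2_isAdd_chk (n : ℕ) : isAdd (chk (n + 1) : BSet B) (chk n) (chk n) = ⊤ := by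
  unfold isAdd equiv
  refine top_le_iff.mp (le_iInf fun t => ?_)
  have h : mem t (chk (n + 1)) = mem t (chk n) ⊔ eq t (chk n) := by
    rw [mem_chk, mem_chk, Nat.iSup_lt_succ (fun j => eq t (chk j)) n]
  rw [h, himp_self, inf_idem]

/- `isEmpty (chk 0) = ⊤`; `isAdd (chk (n+1)) (chk n) (chk n) = ⊤` (`mem_chk`). The least one: for each
inductive `v` prove `isInd v ≤ mem (chk n) v` by induction on `n`, using that a set which is empty
equals `chk 0` and a `y` with `isAdd y (chk n) (chk n)` equals `chk (n+1)` (`le_eq_of_forall`). -/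
theorem isOmega_ck : isOmega (ck B ℕ) = ⊤ := by
  unfold isOmega
  refine top_le_iff.mp (le_inf ?_ (le_iInf fun v => ?_))
  · unfold isInd
    refine le_inf ?_ ?_
    · rw [ex_ck Ext_isEmpty]
      refine le_iSup_of_le 0 ?_
      rw [v2_isEmpty_chk]
    · have hE : Ext (fun x : BSet B => ex (ck B ℕ) fun y => isAdd y x x) :=
        Ext.ex (fun y => v2_Ext_isAdd y)
      rw [all_ck hE]
      refine le_iInf fun n => ?_
      have hE2 : Ext (fun y : BSet B => isAdd y (chk n) (chk n)) := Ext_isAdd_1 _ _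
      rw [ex_ck hE2]
      refine le_iSup_of_le (n + 1) ?_
      rw [v2_isAdd_chk]
  · rw [le_himp_iff, top_inf_eq]
    unfold sub
    rw [all_ck (Ext.mem_left v)]
    refine le_iInf fun n => ?_
    induction n with
    | zero =>
      refine (inf_le_left : isInd v ≤ _).trans ?_
      unfold ex
      refine iSup_le fun x => ?_
      have h1 : isEmpty x ≤ eq x (chk 0) := by
        refine le_trans ?_ (v2_isEmpty_unique x (chk 0))
        exact le_inf le_rfl (by rw [v2_isEmpty_chk]; exact le_top)
      refine (inf_le_inf_left _ h1).trans ?_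
      rw [inf_comm]
      exact mem_congr_left _ _ _
    | succ n ih =>
      have h1 : isInd v ≤ ex v (fun y => isAdd y (chk n) (chk n)) := by
        have h2 : isInd v ≤ (mem (chk n) v ⇨ ex v (fun y => isAdd y (chk n) (chk n))) :=
          (inf_le_right : isInd v ≤ _).trans (iInf_le _ (chk n))
        have h3 : isInd v ≤ (mem (chk n) v ⇨ ex v (fun y => isAdd y (chk n) (chk n))) ⊓
            mem (chk n) v := le_inf h2 ih
        exact h3.trans himp_inf_le
      refine h1.trans ?_
      unfold ex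
      refine iSup_le fun y => ?_
      have h4 : isAdd y (chk n) (chk n) ≤ eq y (chk (n + 1)) := by
        refine le_trans ?_ (v2_isAdd_unique y (chk (n + 1)) (chk n) (chk n))
        exact le_inf le_rfl (by rw [v2_isAdd_chk]; exact le_top)
      refine (inf_le_inf_left _ h4).trans ?_
      rw [inf_comm]
      exact mem_congr_left _ _ _

end Pool.Agent.LibTk83
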