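import Pool.Agent.LibTk83.V0
import Pool.Agent.LibTk83.V1

/-! Task V3: names of reals. -/

namespace Pool.Agent.LibTk83

open Pool.Agent.LibPlas90 Pool.Agent.LibPlas90.BSet

variable {B : Type} [CompleteBooleanAlgebra B]

theorem mem_rl (x : ℕ → B) (k : ℕ) : mem (chk k) (rl x) = x k := by
  unfold rl
  rw [mem_mk]
  apply le_antisymm
  · refine iSup_le fun j => ?_
    by_cases h : k = j
    · subst h
      exact inf_le_left
    · rw [eq_chk h, inf_bot_eq]
      exact bot_le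
  · refine le_iSup_of_le k ?_
    rw [BSet.eq_refl, inf_top_eq]

theorem all_rl {φ : BSet B → B} (h : Ext φ) (x : ℕ → B) :
    all (rl x) φ = ⨅ k, (x k ⇨ φ (chk k)) := by
  unfold rl
  exact all_mk h _ _ _

theorem sub_rl (x y : ℕ → B) : sub (rl x) (rl y) = ⨅ k, (x k ⇨ y k) := by
  unfold sub
  rw [all_rl (Ext.mem_left _)]
  exact iInf_congr fun k => by rw [mem_rl]

theorem eq_rl (x y : ℕ → B) : eq (rl x) (rl y) = ⨅ k, ((x k ⇨ y k) ⊓ (y k ⇨ x k)) := by
  have h : eq (rl x) (rl y) = (⨅ i, x i ⇨ mem (chk i) (rl y)) ⊓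
      (⨅ j, y j ⇨ mem (chk j) (rl x)) := by
    unfold rl
    exact eq_mk' _ _ _ _ _ _
  rw [h, iInf_inf_eq]
  congr 1
  · exact iInf_congr fun k => by rw [mem_rl]
  · exact iInf_congr fun k => by rw [mem_rl]

theorem sub_rl_ck (x : ℕ → B) : sub (rl x) (ck B ℕ) = ⊤ := by
  unfold sub
  rw [all_rl (Ext.mem_left _)]
  refine top_le_iff.mp (le_iInf fun k => ?_)
  rw [mem_chk_ck, himp_top]

theorem v3_sub_mem (x y t : BSet B) : sub x y ⊓ mem t x ≤ mem t y := by
  rw [← le_himp_iff]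
  unfold sub all
  exact iInf_le _ t

theorem sub_ck_le (X : BSet B) : sub X (ck B ℕ) ≤ eq X (rl fun k => mem (chk k) X) := by
  refine le_eq_of_forall _ _ _ (fun t => ?_) (fun t => ?_)
  · have h1 : sub X (ck B ℕ) ⊓ mem t X ≤ (⨆ j : ℕ, eq t (chk j)) ⊓ mem t X := by
      refine le_inf ?_ inf_le_right
      rw [← mem_ck]
      exact v3_sub_mem _ _ _
    refine h1.trans ?_
    rw [iSup_inf_eq]
    refine iSup_le fun j => ?_
    have h2 : eq t (chk j) ⊓ mem t X ≤ eq (chk j) t ⊓ mem (chk j) (rl fun k => mem (chk k) X) := by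
      refine le_inf ?_ ?_
      · rw [eq_symm]
        exact inf_le_left
      · rw [mem_rl]
        exact mem_congr_left _ _ _
    exact h2.trans (mem_congr_left _ _ _)
  · refine inf_le_right.trans ?_
    have h3 : mem t (rl fun k => mem (chk k) X) = ⨆ j : ℕ, mem (chk j) X ⊓ eq t (chk j) := rfl
    rw [h3]
    refine iSup_le fun j => ?_
    rw [inf_comm, eq_symm]
    exact mem_congr_left _ _ _

theorem iInf_sub_ck {φ : BSet B → B} (h : Ext φ) :
    ⨅ X : BSet B, (sub X (ck B ℕ) ⇨ φ X) = ⨅ x : ℕ → B, φ (rl x) := by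
  apply le_antisymm
  · refine le_iInf fun x => (iInf_le _ (rl x)).trans ?_
    rw [sub_rl_ck, top_himp]
  · refine le_iInf fun X => ?_
    rw [le_himp_iff]
    refine le_trans ?_ (h (rl fun k => mem (chk k) X) X)
    refine le_inf ?_ ?_
    · rw [eq_symm]
      exact inf_le_right.trans (sub_ck_le X)
    · exact inf_le_left.trans (iInf_le _ _)

end Pool.Agent.LibTk83
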