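import Mathlib

/-!
The countable chain condition.
-/

namespace Pool.Agent.LibTk83

/-- Uncountable families contain two different members which are compatible. -/
def CCC (P : Type) [Preorder P] : Prop :=
  ∀ (J : Type) (_ : Uncountable J) (p : J → P), ∃ i j, i ≠ j ∧ ∃ r, r ≤ p i ∧ r ≤ p j

end Pool.Agent.LibTk83
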