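import Pool.Agent.LibTk83.V0

/-! Task V13: the formulas on cardinalities respect equality. -/

namespace Pool.Agent.LibTk83

open Pool.Agent.LibPlas90 Pool.Agent.LibPlas90.BSet

variable {B : Type} [CompleteBooleanAlgebra B]

theorem Ext_isInj_2 (f Y : BSet B) : Ext (fun X => isInj f X Y) :=
  Ext.inf
    (Ext.inf (Ext_all_left fun x => ex Y fun y => rel f x y)
      (Ext_all_left fun x => all Y fun y => all Y fun y' => rel f x y ⊓ rel f x y' ⇨ eq y y'))
    (Ext_all (φ := fun X x => all X fun x' => all Y fun y => rel f x y ⊓ rel f x' y ⇨ eq x x')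
      fun x => Ext_all_left fun x' => all Y fun y => rel f x y ⊓ rel f x' y ⇨ eq x x')

theorem Ext_isInj_3 (f X : BSet B) : Ext (fun Y => isInj f X Y) :=
  Ext.inf
    (Ext.inf (Ext.all (R := X) (φ := fun Y x => ex Y fun y => rel f x y)
        fun x => Ext_ex_left fun y => rel f x y)
      (Ext.all (R := X) (φ := fun Y x => all Y fun y => all Y fun y' =>
          rel f x y ⊓ rel f x y' ⇨ eq y y')
        fun x => Ext_all (φ := fun Y y => all Y fun y' => rel f x y ⊓ rel f x y' ⇨ eq y y')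
          fun y => Ext_all_left fun y' => rel f x y ⊓ rel f x y' ⇨ eq y y'))
    (Ext.all (R := X) (φ := fun Y x => all X fun x' => all Y fun y =>
        rel f x y ⊓ rel f x' y ⇨ eq x x')
      fun x => Ext.all (R := X) (φ := fun Y x' => all Y fun y => rel f x y ⊓ rel f x' y ⇨ eq x x')
        fun x' => Ext_all_left fun y => rel f x y ⊓ rel f x' y ⇨ eq x x')

theorem Ext_embeds_left (Y : BSet B) : Ext (fun X => embeds X Y) :=
  Ext.iSup fun f => Ext_isInj_2 f Y

theorem Ext_equinum_left (Y : BSet B) : Ext (fun X => equinum X Y) :=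
  Ext.iSup fun f => Ext.inf (Ext_isInj_2 f Y)
    (Ext.all (R := Y) (φ := fun X y => ex X fun x => rel f x y)
      fun y => Ext_ex_left fun x => rel f x y)

theorem Ext_equinum_right (X : BSet B) : Ext (fun Y => equinum X Y) :=
  Ext.iSup fun f => Ext.inf (Ext_isInj_3 f X) (Ext_all_left fun y => ex X fun x => rel f x y)

private theorem V13_inf {a a' b b' c : B} (h : c ⊓ a ≤ a') (h' : c ⊓ b ≤ b') :
    c ⊓ (a ⊓ b) ≤ a' ⊓ b' :=
  le_inf ((inf_le_inf_left _ inf_le_left).trans h) ((inf_le_inf_left _ inf_le_right).trans h')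

private theorem V13_himp {a a' b b' c : B} (h : c ⊓ a' ≤ a) (h' : c ⊓ b ≤ b') :
    c ⊓ (a ⇨ b) ≤ a' ⇨ b' := by
  rw [le_himp_iff]
  refine le_trans ?_ h'
  refine le_inf (inf_le_left.trans inf_le_left) ?_
  calc c ⊓ (a ⇨ b) ⊓ a' ≤ (a ⇨ b) ⊓ a :=
        le_inf (inf_le_left.trans inf_le_right)
          ((le_inf (inf_le_left.trans inf_le_left) inf_le_right).trans h)
    _ ≤ b := himp_inf_le

private theorem V13_iInf {ι : Sort*} {a b : ι → B} {c : B} (h : ∀ i, c ⊓ a i ≤ b i) :
    c ⊓ ⨅ i, a i ≤ ⨅ i, b i :=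
  le_iInf fun i => (inf_le_inf_left _ (iInf_le _ i)).trans (h i)

private theorem V13_iSup {ι : Sort*} {a b : ι → B} {c : B} (h : ∀ i, c ⊓ a i ≤ b i) :
    c ⊓ ⨆ i, a i ≤ ⨆ i, b i := by
  rw [inf_iSup_eq]
  exact iSup_mono h

private theorem V13_refl {a c : B} : c ⊓ a ≤ a := inf_le_right

/- Under the exchange of `P` by `P'`. -/
theorem tukey_left {P P' Q : BSet B → B} {leP leQ : BSet B → BSet B → B} {c : B}
    (h : ∀ x, c ⊓ P x ≤ P' x) (h' : ∀ x, c ⊓ P' x ≤ P x) :
    c ⊓ tukey P Q leP leQ ≤ tukey P' Q leP leQ := by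
  unfold tukey
  refine V13_iSup fun f => V13_inf (V13_inf ?_ ?_) ?_
  · exact V13_iInf fun x => V13_himp (h' x) V13_refl
  · refine V13_iInf fun x => V13_iInf fun y => V13_iInf fun y' => V13_himp ?_ V13_refl
    exact V13_inf (V13_inf (V13_inf (V13_inf (h' x) V13_refl) V13_refl) V13_refl) V13_refl
  · refine V13_iInf fun X => V13_himp ?_ ?_
    · exact V13_inf (V13_iInf fun x => V13_himp V13_refl (h' x)) V13_refl
    · exact V13_iSup fun p => V13_inf (h p) V13_refl

theorem tukey_right {P Q Q' : BSet B → B} {leP leQ : BSet B → BSet B → B} {c : B}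
    (h : ∀ x, c ⊓ Q x ≤ Q' x) (h' : ∀ x, c ⊓ Q' x ≤ Q x) :
    c ⊓ tukey P Q leP leQ ≤ tukey P Q' leP leQ := by
  unfold tukey
  refine V13_iSup fun f => V13_inf (V13_inf ?_ ?_) ?_
  · exact V13_iInf fun x => V13_himp V13_refl (V13_iSup fun y => V13_inf (h y) V13_refl)
  · refine V13_iInf fun x => V13_iInf fun y => V13_iInf fun y' => V13_himp ?_ V13_refl
    exact V13_inf (V13_inf (V13_inf (V13_inf V13_refl (h' y)) (h' y')) V13_refl) V13_refl
  · refine V13_iInf fun X => V13_himp ?_ V13_refl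
    refine V13_inf V13_refl (V13_iSup fun q => V13_inf (h' q) ?_)
    exact V13_iInf fun x => V13_himp V13_refl
      (V13_iInf fun y => V13_himp (V13_inf (h y) V13_refl) V13_refl)

theorem Ext_inSpec (w : BSet B) : Ext (fun S => inSpec w S) := by
  have h : ∀ S S' x : BSet B, eq S S' ⊓ finSub S x ≤ finSub S' x :=
    fun S S' x => Ext_finSub_left x S S'
  have h' : ∀ S S' x : BSet B, eq S S' ⊓ finSub S' x ≤ finSub S x := by
    intro S S' x
    rw [eq_symm]
    exact Ext_finSub_left x S' S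
  refine Ext.inf (Ext.compl (Ext_embeds_left w)) (Ext.iSup fun U => Ext.inf (Ext.inf
    (Ext.const (isUltra U w)) ?_) ?_)
  · intro S S'
    exact tukey_left (h S S') (h' S S')
  · intro S S'
    exact tukey_right (h S S') (h' S S')

end Pool.Agent.LibTk83
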