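import Mathlib

/-!
Boolean-valued injections.
-/

namespace Pool.Agent.LibTk83

/-- Below `c`, the relation `r` is an injective function on the set `s` modulo the equivalence
relation `E`. -/
structure BInj {B : Type} [CompleteBooleanAlgebra B] {ι J : Type} (c : B) (s : ι → B)
    (E : ι → ι → B) (r : ι → J → B) : Prop where
  tot : ∀ i, c ⊓ s i ≤ ⨆ j, r i j
  ext : ∀ i i' j, c ⊓ s i ⊓ s i' ⊓ E i i' ⊓ r i j ≤ r i' j
  func : ∀ i j j', j ≠ j' → c ⊓ s i ⊓ r i j ⊓ r i j' ≤ ⊥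
  inj : ∀ i i' j, c ⊓ s i ⊓ s i' ⊓ r i j ⊓ r i' j ≤ E i i'

end Pool.Agent.LibTk83
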