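import Pool.Agent.LibTk83.V0
import Pool.Agent.LibTk83.V1
import Pool.Agent.LibTk83.BInj

/-! Task V5: names of relations and injections. -/

namespace Pool.Agent.LibTk83

open Pool.Agent.LibPlas90 Pool.Agent.LibPlas90.BSet

variable {B : Type} [CompleteBooleanAlgebra B] {ι κ : Type}

/- `rel_eq`, `eq_opr`. -/
theorem rel_relN (A : ι → BSet B) (C : κ → BSet B) (r : ι → κ → B) (x y : BSet B) :
    rel (relN A C r) x y = ⨆ i, ⨆ j, r i j ⊓ (eq x (A i) ⊓ eq y (C j)) := by
  rw [rel_eq, relN, mem_mk, iSup_prod]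
  exact iSup_congr fun i => iSup_congr fun j => by rw [eq_opr]

variable {J : Type} [LinearOrder J] [WellFoundedLT J]

private theorem V5_rel (A : ι → BSet B) (r : ι → J → B) (i : ι) (j : J) :
    rel (relN A chk r) (A i) (chk j) = ⨆ i', r i' j ⊓ eq (A i) (A i') := by
  rw [rel_relN]
  refine iSup_congr fun i' => ?_
  apply le_antisymm
  · refine iSup_le fun j' => ?_
    by_cases hj : j = j'
    · subst hj
      exact inf_le_inf_left _ inf_le_left
    · rw [eq_chk hj, inf_bot_eq, inf_bot_eq]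
      exact bot_le
  · refine le_iSup_of_le j ?_
    rw [eq_refl, inf_top_eq]

private theorem V5_le_all_mk {φ : BSet B → B} (h : Ext φ) {A : ι → BSet B} {s : ι → B} {c : B}
    (H : ∀ i, c ⊓ s i ≤ φ (A i)) : c ≤ all (mk ι A s) φ := by
  rw [all_mk h]
  exact le_iInf fun i => le_himp_iff.2 (H i)

private theorem V5_le_all_ck {φ : BSet B → B} (h : Ext φ) {c : B}
    (H : ∀ j : J, c ≤ φ (chk j)) : c ≤ all (ck B J) φ := by
  rw [all_ck h]
  exact le_iInf H

private theorem V5_rel_le {A : ι → BSet B} {s : ι → B} {c : B} {r : ι → J → B}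
    (h : BInj c s (fun i i' => eq (A i) (A i')) r) (i : ι) (j : J) :
    c ⊓ s i ⊓ rel (relN A chk fun i j => s i ⊓ r i j) (A i) (chk j) ≤ r i j := by
  rw [V5_rel, inf_iSup_eq]
  refine iSup_le fun i' => ?_
  refine le_trans ?_ (h.ext i' i j)
  have h1 : eq (A i) (A i') = eq (A i') (A i) := eq_symm _ _
  rw [h1]
  refine le_inf (le_inf (le_inf (le_inf ?_ ?_) ?_) ?_) ?_
  · exact inf_le_left.trans inf_le_left
  · exact inf_le_right.trans (inf_le_left.trans inf_le_left)
  · exact inf_le_left.trans inf_le_right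
  · exact inf_le_right.trans inf_le_right
  · exact inf_le_right.trans (inf_le_left.trans inf_le_right)

private theorem V5_le_rel (A : ι → BSet B) (s : ι → B) (r : ι → J → B) (i : ι) (j : J) :
    s i ⊓ r i j ≤ rel (relN A chk fun i j => s i ⊓ r i j) (A i) (chk j) := by
  rw [V5_rel]
  refine le_iSup_of_le i ?_
  rw [eq_refl, inf_top_eq]

/- `all_mk`, `all_ck`, `ex_ck` and `rel_relN`; `eq (chk j) (chk j') = ⊥` for `j ≠ j'`. -/
theorem isInj_of_BInj {A : ι → BSet B} {s : ι → B} {c : B} {r : ι → J → B}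
    (h : BInj c s (fun i i' => eq (A i) (A i')) r) :
    c ≤ isInj (relN A chk fun i j => s i ⊓ r i j) (mk ι A s) (ck B J) := by
  unfold isInj isMap
  refine le_inf (le_inf ?_ ?_) ?_
  · refine V5_le_all_mk (Ext.ex fun y => Ext.rel1 _ y) fun i => ?_
    rw [ex_ck (Ext.rel2 _ _)]
    calc c ⊓ s i ≤ s i ⊓ ⨆ j, r i j := le_inf inf_le_right (h.tot i)
      _ = ⨆ j, s i ⊓ r i j := inf_iSup_eq _ _
      _ ≤ _ := iSup_mono fun j => V5_le_rel A s r i j
  · refine V5_le_all_mk (Ext.all fun y => Ext.all fun y' =>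
      Ext.himp (Ext.inf (Ext.rel1 _ y) (Ext.rel1 _ y')) (Ext.const _)) fun i => ?_
    refine V5_le_all_ck (Ext.all fun y' => Ext.himp (Ext.inf (Ext.rel2 _ _) (Ext.const _))
      (Ext.eq_left y')) fun j => ?_
    refine V5_le_all_ck (Ext.himp (Ext.inf (Ext.const _) (Ext.rel2 _ _))
      (Ext.eq_right _)) fun j' => ?_
    rw [le_himp_iff]
    by_cases hj : j = j'
    · subst hj
      rw [eq_refl]
      exact le_top
    · refine le_trans ?_ ((h.func i j j' hj).trans bot_le)
      refine le_inf (le_inf inf_le_left ?_) ?_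
      · exact (inf_le_inf_left _ inf_le_left).trans (V5_rel_le h i j)
      · exact (inf_le_inf_left _ inf_le_right).trans (V5_rel_le h i j')
  · refine V5_le_all_mk (Ext.all fun x' => Ext.all fun y =>
      Ext.himp (Ext.inf (Ext.rel1 _ y) (Ext.const _)) (Ext.eq_left x')) fun i => ?_
    refine V5_le_all_mk (Ext.all fun y =>
      Ext.himp (Ext.inf (Ext.const _) (Ext.rel1 _ y)) (Ext.eq_right _)) fun i' => ?_
    refine V5_le_all_ck (Ext.himp (Ext.inf (Ext.rel2 _ _) (Ext.rel2 _ _))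
      (Ext.const _)) fun j => ?_
    rw [le_himp_iff]
    refine le_trans ?_ (h.inj i i' j)
    refine le_inf (le_inf inf_le_left ?_) ?_
    · exact (inf_le_inf inf_le_left inf_le_left).trans (V5_rel_le h i j)
    · refine le_trans ?_ (V5_rel_le h i' j)
      exact inf_le_inf (inf_le_inf_right _ inf_le_left) inf_le_right

theorem embeds_of_BInj {A : ι → BSet B} {s : ι → B} {c : B} {r : ι → J → B}
    (h : BInj c s (fun i i' => eq (A i) (A i')) r) :
    c ≤ embeds (mk ι A s) (ck B J) :=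
  le_iSup_of_le _ (isInj_of_BInj h)

theorem equinum_of_BInj {A : ι → BSet B} {s : ι → B} {c : B} {r : ι → J → B}
    (h : BInj c s (fun i i' => eq (A i) (A i')) r) (hs : ∀ j, c ≤ ⨆ i, s i ⊓ r i j) :
    c ≤ equinum (mk ι A s) (ck B J) := by
  refine le_iSup_of_le (relN A chk fun i j => s i ⊓ r i j) (le_inf (isInj_of_BInj h) ?_)
  refine V5_le_all_ck (Ext.ex fun x => Ext.rel2 _ x) fun j => ?_
  rw [ex_mk (Ext.rel1 _ _)]
  refine (hs j).trans (iSup_mono fun i => le_inf inf_le_left (V5_le_rel A s r i j))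

end Pool.Agent.LibTk83
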