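import Pool.Agent.LibTk83.V4

/-! Task V14: finite sets of elements of well-ordered types. -/

namespace Pool.Agent.LibTk83

open Pool.Agent.LibPlas90 Pool.Agent.LibPlas90.BSet

variable {B : Type} [CompleteBooleanAlgebra B] {J : Type} [LinearOrder J] [WellFoundedLT J]

theorem mem_chk_fsub_of_mem {F : Finset J} {i : J} (h : i ∈ F) :
    mem (chk i : BSet B) (fsub chk F) = ⊤ := by
  rw [mem_fsub]
  refine top_le_iff.mp (le_iSup_of_le i (le_iSup_of_le h ?_))
  rw [eq_refl]

theorem mem_chk_fsub_of_not_mem {F : Finset J} {i : J} (h : i ∉ F) :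
    mem (chk i : BSet B) (fsub chk F) = ⊥ := by
  rw [mem_fsub]
  refine le_bot_iff.mp (iSup_le fun e => iSup_le fun he => ?_)
  rw [eq_chk]
  intro h'
  exact h (h' ▸ he)

theorem sub_fsub_of_subset {F G : Finset J} (h : F ⊆ G) :
    sub (fsub chk F : BSet B) (fsub chk G) = ⊤ := by
  unfold sub
  rw [show (fsub chk F : BSet B) = mk {e // e ∈ F} (fun e => chk e.1) (fun _ => ⊤) from rfl,
    all_mk (Ext.mem_left _)]
  refine top_le_iff.mp (le_iInf fun e => ?_)
  rw [mem_chk_fsub_of_mem (h e.2), himp_top]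

private theorem V14_eq {F G : Finset J} {i : J} (hF : i ∈ F) (hG : i ∉ G) :
    eq (fsub chk F : BSet B) (fsub chk G) = ⊥ := by
  have h1 := mem_congr_right (chk i : BSet B) (fsub chk F) (fsub chk G)
  rw [mem_chk_fsub_of_mem hF, mem_chk_fsub_of_not_mem hG, inf_top_eq] at h1
  exact le_bot_iff.mp h1

theorem eq_fsub_chk {F G : Finset J} (h : F ≠ G) : eq (fsub chk F : BSet B) (fsub chk G) = ⊥ := by
  by_cases h1 : F ⊆ G
  · have h2 : ¬ G ⊆ F := fun h2 => h (Finset.Subset.antisymm h1 h2)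
    obtain ⟨i, hi, hi'⟩ := Finset.not_subset.mp h2
    rw [eq_symm]
    exact V14_eq hi hi'
  · obtain ⟨i, hi, hi'⟩ := Finset.not_subset.mp h1
    exact V14_eq hi hi'

theorem finSub_fsub (F : Finset J) : finSub (ck B J) (fsub chk F) = ⊤ := by
  unfold finSub
  rw [isFin_fsub, inf_top_eq]
  unfold sub
  rw [show (fsub chk F : BSet B) = mk {e // e ∈ F} (fun e => chk e.1) (fun _ => ⊤) from rfl,
    all_mk (Ext.mem_left _)]
  refine top_le_iff.mp (le_iInf fun e => ?_)
  rw [mem_chk_ck, himp_top]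

/- From `isFin_le`. -/
theorem finSub_le (E : BSet B) : finSub (ck B J) E ≤ ⨆ F : Finset J, eq E (fsub chk F) :=
  isFin_le chk E

end Pool.Agent.LibTk83
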