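import Pool.Agent.LibTk83.GrDef

/-! Task Q1: the stages, cardinal arithmetic. -/

namespace Pool.Agent.LibTk83

open Cardinal

theorem Q1_bounded {c : Cardinal.{0}} (hc : c.IsRegular) (C : Set c.ord.ToType) (hC : #C < c) :
    ∃ w, ∀ v ∈ C, v < w := by
  by_contra hcon
  have hcof : IsCofinal C := by
    intro x
    by_contra hx
    apply hcon
    refine ⟨x, fun v hv => ?_⟩
    by_contra hvx
    exact hx ⟨v, hv, not_lt.1 hvx⟩
  have h1 := Order.cof_le hcof
  rw [Ordinal.cof_toType, hc.cof_ord] at h1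
  exact absurd hC (not_lt.2 h1)

/- `W = WithTop ω₁.ToType` (or `(ω₁ + 1).ToType`); countable sets of elements of `ω₁` are bounded
(`Ordinal.omega1`, `Cardinal.isRegular_aleph_one`, cofinality). -/
theorem exists_stages : ∃ (W : Type) (_ : LinearOrder W) (_ : OrderBot W) (_ : OrderTop W)
    (_ : WellFoundedLT W), #W ≤ aleph 1 ∧ (⊥ : W) < ⊤ ∧
      ∀ C : Set W, C.Countable → (∀ w ∈ C, w < ⊤) → ∃ w < ⊤, ∀ v ∈ C, v < w := by
  have hne : Nonempty (aleph 1).ord.ToType := by
    rw [← Cardinal.mk_ne_zero_iff]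
    simp only [Cardinal.mk_toType, Cardinal.card_ord]
    exact isRegular_aleph_one.ne_zero
  let _ : OrderBot (aleph 1).ord.ToType :=
    { bot := wellFounded_lt.min Set.univ Set.univ_nonempty
      bot_le := fun a => not_lt.1 (wellFounded_lt.not_lt_min Set.univ (Set.mem_univ a)) }
  refine ⟨WithTop (aleph 1).ord.ToType, inferInstance, inferInstance, inferInstance,
    inferInstance, ?_, ?_, ?_⟩
  · have h : #(WithTop (aleph 1).ord.ToType) = #(Option (aleph 1).ord.ToType) := rfl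
    rw [h, Cardinal.mk_option, Cardinal.mk_toType, Cardinal.card_ord]
    rw [Cardinal.add_one_eq (Cardinal.aleph0_le_aleph 1)]
  · have h : (⊥ : WithTop (aleph 1).ord.ToType) = ((⊥ : (aleph 1).ord.ToType) :
        WithTop (aleph 1).ord.ToType) := rfl
    rw [h]
    exact WithTop.coe_lt_top _
  · intro C hC hlt
    have hD : ((fun x : (aleph 1).ord.ToType => (x : WithTop (aleph 1).ord.ToType)) ⁻¹' C).Countable
        := hC.preimage_of_injOn (fun a _ b _ h => WithTop.coe_injective h)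
    obtain ⟨w, hw⟩ := Q1_bounded isRegular_aleph_one _ (by
      refine lt_of_le_of_lt (Cardinal.le_aleph0_iff_set_countable.2 hD) ?_
      exact Cardinal.aleph0_lt_aleph_one)
    refine ⟨(w : WithTop (aleph 1).ord.ToType), WithTop.coe_lt_top w, fun v hv => ?_⟩
    obtain ⟨x, rfl⟩ := WithTop.ne_top_iff_exists.1 (hlt v hv).ne
    exact WithTop.coe_lt_coe.2 (hw x hv)

theorem aleph_one_le_II (n : ℕ) : aleph 1 ≤ #(II n) := by
  rw [mk_Gt]
  show aleph 1 ≤ aleph (n + 1 : ℕ)
  rw [Cardinal.aleph_le_aleph]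
  exact_mod_cast Nat.succ_le_succ (Nat.zero_le n)

theorem II_lt {m n : ℕ} (h : m < n) : #(II m) < #(II n) := by
  rw [mk_Gt, mk_Gt]
  show aleph (m + 1 : ℕ) < aleph (n + 1 : ℕ)
  rw [Cardinal.aleph_lt_aleph]
  exact_mod_cast Nat.succ_lt_succ h

theorem II_le (n : ℕ) : #(II n) ≤ aleph Ordinal.omega0 := by
  rw [mk_Gt]
  show aleph (n + 1 : ℕ) ≤ aleph Ordinal.omega0
  rw [Cardinal.aleph_le_aleph]
  exact (Ordinal.natCast_lt_omega0 (n + 1)).le

end Pool.Agent.LibTk83
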