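import Pool.Agent.LibTk83.RO
import Pool.Agent.LibTk83.CccDef

/-! Task C2. -/

namespace Pool.Agent.LibTk83

/- Abstract form of the construction of maximal antichains: `R` is a symmetric relation
(compatibility) on a type, such that in each uncountable family two different members are
related. Let `M ⊆ D` be maximal (`zorn_subset`) among the sets of which no two different members
are related; it is countable; each `d ∈ D` is in `M` or related to a member of `M`. -/
theorem exists_countable_max {α : Type} (R : α → α → Prop) (hs : ∀ a b, R a b → R b a)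
    (hc : ∀ (J : Type) (_ : Uncountable J) (p : J → α), ∃ i j, i ≠ j ∧ R (p i) (p j))
    (D : Set α) : ∃ M ⊆ D, M.Countable ∧ ∀ d ∈ D, ∃ m ∈ M, d = m ∨ R d m := by
  obtain ⟨M, hM⟩ := zorn_subset {M : Set α | M ⊆ D ∧ ∀ a ∈ M, ∀ b ∈ M, a ≠ b → ¬ R a b} (by
    intro c hc hchain
    refine ⟨⋃₀ c, ⟨?_, ?_⟩, fun s hs => Set.subset_sUnion_of_mem hs⟩
    · exact Set.sUnion_subset (fun s hs => (hc hs).1)
    · rintro a ⟨s, hs, has⟩ b ⟨t, ht, hbt⟩ hab
      rcases hchain.total hs ht with hst | hts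
      · exact (hc ht).2 a (hst has) b hbt hab
      · exact (hc hs).2 a has b (hts hbt) hab)
  refine ⟨M, hM.prop.1, ?_, ?_⟩
  · by_contra hcon
    have hunc : Uncountable M := by
      rw [← not_countable_iff]
      intro hcount
      exact hcon (Set.countable_coe_iff.mp hcount)
    obtain ⟨i, j, hij, hR⟩ := hc M hunc Subtype.val
    exact hM.prop.2 i.1 i.2 j.1 j.2 (fun h => hij (Subtype.ext h)) hR
  · intro d hd
    by_contra hcon
    push Not at hcon
    have hdM : d ∉ M := fun h => (hcon d h).1 rfl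
    have hins : insert d M ∈ {M : Set α | M ⊆ D ∧ ∀ a ∈ M, ∀ b ∈ M, a ≠ b → ¬ R a b} := by
      refine ⟨Set.insert_subset hd hM.prop.1, ?_⟩
      rintro a (rfl | ha) b (rfl | hb) hab
      · exact absurd rfl hab
      · exact (hcon b hb).2
      · exact fun h => (hcon a ha).2 (hs _ _ h)
      · exact hM.prop.2 a ha b hb hab
    exact hdM (hM.le_of_ge hins (Set.subset_insert d M) (Set.mem_insert d M))

/- Let `M` be a maximal antichain in `{r | ∃ s ∈ S, r ≤ s}` (`exists_countable_max` with `R` the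
compatibility); choose for `r ∈ M` some `s r ∈ S` with `r ≤ s r`; `S₀` is the set of these. -/
theorem exists_countable_gen {P : Type} [Preorder P] (hP : CCC P) (S : Set P) :
    ∃ S₀ ⊆ S, S₀.Countable ∧ RO.gen S₀ = RO.gen S := by
  classical
  obtain ⟨M, hMD, hMc, hM⟩ := exists_countable_max (fun a b : P => ∃ r, r ≤ a ∧ r ≤ b)
    (fun a b ⟨r, h1, h2⟩ => ⟨r, h2, h1⟩) (fun J hJ p => hP J hJ p) {r : P | ∃ s ∈ S, r ≤ s}
  have hMD' : ∀ r ∈ M, ∃ s ∈ S, r ≤ s := fun r hr => hMD hr
  choose! s hsS hrs using hMD'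
  refine ⟨s '' M, ?_, hMc.image s, ?_⟩
  · rintro _ ⟨m, hm, rfl⟩
    exact hsS m hm
  · ext p
    rw [RO.mem_gen, RO.mem_gen]
    constructor
    · intro hp q hq
      obtain ⟨r, hr, _, ⟨m, hm, rfl⟩, hrm⟩ := hp q hq
      exact ⟨r, hr, s m, hsS m hm, hrm⟩
    · intro hp q hq
      obtain ⟨r, hr, t, ht, hrt⟩ := hp q hq
      obtain ⟨m, hm, hrm⟩ := hM r ⟨t, ht, hrt⟩
      rcases hrm with rfl | ⟨u, hu1, hu2⟩
      · exact ⟨r, hr, s r, ⟨r, hm, rfl⟩, hrs r hm⟩
      · exact ⟨u, hu1.trans hr, s m, ⟨m, hm, rfl⟩, hu2.trans (hrs m hm)⟩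

end Pool.Agent.LibTk83
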