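import Mathlib

/-! Task C1: a weak form of the delta system lemma. -/

namespace Pool.Agent.LibTk83

theorem C1_aux {J X K : Type} [Countable K] (h : J → X → K) (n : ℕ) :
    ∀ (f : J → Set X) (S : Set J), ¬ S.Countable →
      (∀ i ∈ S, (f i).Finite ∧ (f i).ncard = n) →
      ∃ i ∈ S, ∃ j ∈ S, i ≠ j ∧ ∀ x ∈ f i ∩ f j, h i x = h j x := by
  induction n with
  | zero =>
    intro f S hS hf
    have hnt : S.Nontrivial := by
      rw [← Set.not_subsingleton_iff]
      exact fun hsub => hS hsub.countable
    obtain ⟨i, hi, j, hj, hij⟩ := hnt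
    refine ⟨i, hi, j, hj, hij, fun x hx => ?_⟩
    have h0 : f i = ∅ := (Set.ncard_eq_zero (hf i hi).1).mp (hf i hi).2
    rw [h0, Set.empty_inter] at hx
    exact absurd hx (Set.notMem_empty x)
  | succ n ih =>
    intro f S hS hf
    by_cases hA : ∃ x, ¬ {i ∈ S | x ∈ f i}.Countable
    · obtain ⟨x, hx⟩ := hA
      have hc : ∃ c : K, ¬ {i ∈ S | x ∈ f i ∧ h i x = c}.Countable := by
        by_contra hcon
        push Not at hcon
        apply hx
        refine (Set.countable_iUnion hcon).mono ?_
        rintro i ⟨hiS, hix⟩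
        exact Set.mem_iUnion.mpr ⟨h i x, hiS, hix, rfl⟩
      obtain ⟨c, hc⟩ := hc
      obtain ⟨i, hi, j, hj, hij, hagree⟩ := ih (fun i => f i \ {x})
        {i ∈ S | x ∈ f i ∧ h i x = c} hc (fun i hi => by
          refine ⟨(hf i hi.1).1.subset Set.sdiff_subset, ?_⟩
          have h1 := Set.ncard_sdiff_singleton_of_mem hi.2.1
          rw [h1, (hf i hi.1).2]
          rfl)
      refine ⟨i, hi.1, j, hj.1, hij, fun y hy => ?_⟩
      by_cases hyx : y = x
      · subst hyx
        rw [hi.2.2, hj.2.2]
      · exact hagree y ⟨⟨hy.1, hyx⟩, ⟨hy.2, hyx⟩⟩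
    · push Not at hA
      have hne : S.Nonempty := by
        rw [Set.nonempty_iff_ne_empty]
        intro h0
        rw [h0] at hS
        exact hS Set.countable_empty
      obtain ⟨i, hi⟩ := hne
      have hcount : (⋃ x ∈ f i, {j ∈ S | x ∈ f j}).Countable :=
        (hf i hi).1.countable.biUnion (fun x _ => hA x)
      have hex : ∃ j ∈ S, j ∉ (⋃ x ∈ f i, {j ∈ S | x ∈ f j}) ∪ {i} := by
        by_contra hcon
        push Not at hcon
        exact hS ((hcount.union (Set.countable_singleton i)).mono hcon)
      obtain ⟨j, hj, hjn⟩ := hex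
      refine ⟨i, hi, j, hj, ?_, fun x hx => ?_⟩
      · rintro rfl
        exact hjn (Or.inr rfl)
      · have hmem : j ∈ ⋃ x ∈ f i, {j ∈ S | x ∈ f j} := Set.mem_biUnion hx.1 ⟨hj, hx.2⟩
        exact absurd (Or.inl hmem) hjn

/- Some size `n` of `f i` occurs uncountably often (countable union of countable sets is
countable). Induction on `n`, for families on an arbitrary uncountable set of indices `S`
(generalize also `f`): `n = 0`: any two indices. `n + 1`: if some `x` is in `f i` for uncountably
many `i ∈ S`, then for some value `c` we have `x ∈ f i` and `h i x = c` for uncountably many `i`;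
apply the induction hypothesis to `f i \ {x}` on these. Otherwise choose `i ∈ S`; the indices `j`
with `f i ∩ f j ≠ ∅` are countably many, so there is `j ≠ i` with `f i ∩ f j = ∅`. -/
theorem delta {J X K : Type} [Uncountable J] [Countable K] (f : J → Set X)
    (hf : ∀ i, (f i).Finite) (h : J → X → K) :
    ∃ i j, i ≠ j ∧ ∀ x ∈ f i ∩ f j, h i x = h j x := by
  have hex : ∃ n : ℕ, ¬ {i : J | (f i).ncard = n}.Countable := by
    by_contra hcon
    push Not at hcon
    have h1 : (Set.univ : Set J).Countable := by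
      refine (Set.countable_iUnion hcon).mono ?_
      intro i _
      exact Set.mem_iUnion.mpr ⟨(f i).ncard, rfl⟩
    exact not_countable (Set.countable_univ_iff.mp h1)
  obtain ⟨n, hn⟩ := hex
  obtain ⟨i, _, j, _, hij, hagree⟩ := C1_aux h n f _ hn (fun i hi => ⟨hf i, hi⟩)
  exact ⟨i, j, hij, hagree⟩

end Pool.Agent.LibTk83
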