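import Pool.Agent.LibTk83.V13
import Pool.Agent.LibTk83.V1

/-! Task V11: names of sequences. -/

namespace Pool.Agent.LibTk83

open Pool.Agent.LibPlas90 Pool.Agent.LibPlas90.BSet

variable {B : Type} [CompleteBooleanAlgebra B]

theorem rel_sq (G : ℕ → BSet B) (n : ℕ) (S : BSet B) : rel (sq G) (chk n) S = eq S (G n) := by
  rw [rel_eq]
  unfold sq
  rw [mem_mk]
  apply le_antisymm
  · refine iSup_le fun m => ?_
    rw [top_inf_eq, eq_opr]
    by_cases h : n = m
    · subst h
      exact inf_le_right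
    · rw [eq_chk h, bot_inf_eq]
      exact bot_le
  · refine le_iSup_of_le n ?_
    rw [top_inf_eq, eq_opr, eq_refl, top_inf_eq]

private theorem V11_ExtSeq (F : BSet B) :
    Ext (fun n : BSet B => ⨆ S : BSet B, rel F n S ⊓ ⨅ T : BSet B, rel F n T ⇨ eq T S) :=
  Ext.iSup fun S => Ext.inf (Ext.rel1 F S)
    (Ext.iInf fun T => Ext.himp (Ext.rel1 F T) (Ext.const _))

theorem isSeq_sq (G : ℕ → BSet B) : isSeq (sq G) (ck B ℕ) = ⊤ := by
  unfold isSeq
  rw [all_ck (V11_ExtSeq _), eq_top_iff]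
  refine le_iInf fun n => le_iSup_of_le (G n) (le_inf ?_ (le_iInf fun T => ?_))
  · rw [rel_sq, eq_refl]
  · rw [rel_sq, himp_self]

theorem infSpec_of (G : ℕ → BSet B) (h : ∀ n, inSpec (ck B ℕ) (G n) = ⊤)
    (h' : ∀ n m, n ≠ m → equinum (G n) (G m) = ⊥) : infSpec (ck B ℕ) = ⊤ := by
  unfold infSpec
  rw [eq_top_iff]
  refine le_iSup_of_le (sq G) (le_inf (le_inf ?_ ?_) ?_)
  · rw [isSeq_sq]
  · rw [all_ck (Ext.iInf fun S => Ext.himp (Ext.rel1 _ S) (Ext.const _))]
    refine le_iInf fun n => le_iInf fun S => ?_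
    rw [rel_sq, le_himp_iff, top_inf_eq]
    have h1 := Ext_inSpec (ck B ℕ) (G n) S
    simp only at h1
    rw [h n, inf_top_eq, eq_symm] at h1
    exact h1
  · rw [all_ck (Ext.all fun m => Ext.iInf fun S => Ext.iInf fun T => Ext.himp
      (Ext.inf (Ext.inf (Ext.rel1 _ S) (Ext.const _)) (Ext.const _)) (Ext.eq_left m))]
    refine le_iInf fun n => ?_
    rw [all_ck (Ext.iInf fun S => Ext.iInf fun T => Ext.himp
      (Ext.inf (Ext.inf (Ext.const _) (Ext.rel1 _ T)) (Ext.const _)) (Ext.eq_right _))]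
    refine le_iInf fun m => le_iInf fun S => le_iInf fun T => ?_
    rw [rel_sq, rel_sq, le_himp_iff, top_inf_eq]
    by_cases hnm : n = m
    · subst hnm
      rw [eq_refl]
      exact le_top
    · have h1 := Ext_equinum_left T S (G n)
      have h2 := Ext_equinum_right (G n) T (G m)
      simp only at h1 h2
      calc eq S (G n) ⊓ eq T (G m) ⊓ equinum S T
          ≤ eq T (G m) ⊓ (eq S (G n) ⊓ equinum S T) := by
            refine le_inf (inf_le_left.trans inf_le_right) (le_inf (inf_le_left.trans inf_le_left)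
              inf_le_right)
        _ ≤ eq T (G m) ⊓ equinum (G n) T := inf_le_inf_left _ h1
        _ ≤ equinum (G n) (G m) := h2
        _ = ⊥ := h' n m hnm
        _ ≤ _ := bot_le

theorem ctblSpec_of (G : ℕ → BSet B)
    (h : ∀ (ι : Type) (A : ι → BSet B) (s : ι → B), inSpec (ck B ℕ) (mk ι A s) ≤
      ⨆ k, equinum (mk ι A s) (G k)) : ctblSpec (ck B ℕ) = ⊤ := by
  unfold ctblSpec
  rw [eq_top_iff]
  refine le_iSup_of_le (sq G) (le_inf ?_ (le_iInf fun S => ?_))
  · rw [isSeq_sq]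
  · rw [le_himp_iff, top_inf_eq,
      ex_ck (Ext.iSup fun T => Ext.inf (Ext.rel1 _ T) (Ext.const _))]
    cases S with
    | mk ι A s =>
      refine (h ι A s).trans (iSup_mono fun k => le_iSup_of_le (G k) ?_)
      rw [rel_sq, eq_refl, top_inf_eq]

end Pool.Agent.LibTk83
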