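import Mathlib

/-!
The Boolean-valued data of an ultrafilter of the largest Tukey type `[I]^{<ω}`.
-/

namespace Pool.Agent.LibTk83

universe u v

/-- A base `D i` (`i : I`) of a nonprincipal ultrafilter, and members `A i` (`i : I`) of the
ultrafilter such that each member is contained in finitely many of the `A i` only. -/
structure UData (B : Type u) [CompleteBooleanAlgebra B] (I : Type v) where
  D : I → ℕ → B
  A : I → ℕ → B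
  dir : ∀ i j, ⨆ l, ⨅ k, (D l k ⇨ D i k ⊓ D j k) = ⊤
  inf : ∀ i m, ⨆ k, ⨆ (_ : m ≤ k), D i k = ⊤
  nonpr : ∀ m, ⨆ i, (D i m)ᶜ = ⊤
  ultra : ∀ x : ℕ → B, ⨆ i, ((⨅ k, (D i k ⇨ x k)) ⊔ ⨅ k, (D i k ⇨ (x k)ᶜ)) = ⊤
  memA : ∀ j, ⨆ i, ⨅ k, (D i k ⇨ A j k) = ⊤
  top : ∀ i, ⨆ T : Finset I, ⨅ j, ⨅ (_ : j ∉ T), (⨅ k, (D i k ⇨ A j k))ᶜ = ⊤

end Pool.Agent.LibTk83
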