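import Pool.Agent.LibTk83.GrDef
import Pool.Agent.LibTk83.UData

/-!
The properties of the algebra which are used in the Boolean-valued universe.
-/

namespace Pool.Agent.LibTk83

/-- The properties of the algebra: ultrafilter data on `ω_(n+1)`; the cardinals `ω_(n+1)` are
different and uncountable; the reals are enumerated by `ω_(ω+1)`. -/
structure Model (B : Type) [CompleteBooleanAlgebra B] where
  U : ∀ n, UData B (II n)
  ns : ∀ m n, m < n → ∀ r : II m → II n → B, (∀ i j j', j ≠ j' → r i j ⊓ r i j' = ⊥) →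
    ⨅ j, ⨆ i, r i j = ⊥
  ns0 : ∀ n, ∀ r : ℕ → II n → B, (∀ i j j', j ≠ j' → r i j ⊓ r i j' = ⊥) →
    ⨅ j, ⨆ i, r i j = ⊥
  e : LL → ℕ → B
  he : ∀ X : ℕ → B, ⨆ j, ⨅ k, ((X k ⇨ e j k) ⊓ (e j k ⇨ X k)) = ⊤

end Pool.Agent.LibTk83
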