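import Pool.Agent.LibTk83.V13
import Pool.Agent.LibTk83.V1
import Pool.Agent.LibTk83.ModelDef

/-! Task V6: the sets `ω_(n+1)` have different uncountable cardinalities. -/

namespace Pool.Agent.LibTk83

open Pool.Agent.LibPlas90 Pool.Agent.LibPlas90.BSet

variable {B : Type} [CompleteBooleanAlgebra B]

private theorem V6_all_le {J : Type} [LinearOrder J] [WellFoundedLT J] {φ : BSet B → B} (j : J) :
    all (ck B J) φ ≤ φ (chk j) := by
  unfold all
  refine (iInf_le _ (chk j)).trans ?_
  rw [mem_chk_ck, top_himp]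

variable {J K : Type} [LinearOrder J] [WellFoundedLT J] [LinearOrder K] [WellFoundedLT K]

/-- An injection is total. -/
private theorem V6_tot (f : BSet B) (j : J) :
    isInj f (ck B J) (ck B K) ≤ ⨆ k : K, rel f (chk j) (chk k) := by
  rw [← ex_ck (Ext.rel2 f (chk j))]
  unfold isInj isMap
  exact (inf_le_left.trans inf_le_left).trans (V6_all_le (B := B) j)

/-- An injection is a function. -/
private theorem V6_func (f : BSet B) (j : J) {k k' : K} (h : k ≠ k') :
    isInj f (ck B J) (ck B K) ⊓ (rel f (chk j) (chk k) ⊓ rel f (chk j) (chk k')) = ⊥ := by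
  rw [← le_bot_iff, ← eq_chk (B := B) h, ← le_himp_iff]
  unfold isInj isMap
  refine (inf_le_left.trans inf_le_right).trans ?_
  exact ((V6_all_le (B := B) j).trans (V6_all_le (B := B) k)).trans (V6_all_le (B := B) k')

/-- An injection is injective. -/
private theorem V6_inj (f : BSet B) {j j' : J} (k : K) (h : j ≠ j') :
    isInj f (ck B J) (ck B K) ⊓ (rel f (chk j) (chk k) ⊓ rel f (chk j') (chk k)) = ⊥ := by
  rw [← le_bot_iff, ← eq_chk (B := B) h, ← le_himp_iff]
  unfold isInj isMap
  refine inf_le_right.trans ?_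
  exact ((V6_all_le (B := B) j).trans (V6_all_le (B := B) j')).trans (V6_all_le (B := B) k)

/- Let `b = isInj f (ck ω_(n+1)) (ck ℕ)` and `r k i = b ⊓ rel f (chk i) (chk k)`; it is functional
by the injectivity of `f` (and `eq_chk`), and `b ≤ ⨅ i, ⨆ k, r k i` because `f` is total
(`all_ck`, `ex_ck`; `Ext.rel1`, `Ext.rel2` of `LibPlas90/Pairs.lean`). -/
theorem embeds_ck (M : Model B) (n : ℕ) : embeds (ck B (II n)) (ck B ℕ) = ⊥ := by
  rw [← le_bot_iff]
  refine iSup_le fun f => ?_
  set b := isInj f (ck B (II n)) (ck B ℕ) with hb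
  have h1 := M.ns0 n (fun k i => b ⊓ rel f (chk i) (chk k)) (fun k i i' h => by
    rw [← le_bot_iff, ← V6_inj f k h]
    refine le_inf (inf_le_left.trans inf_le_left) (le_inf ?_ ?_)
    · exact inf_le_left.trans inf_le_right
    · exact inf_le_right.trans inf_le_right)
  rw [← h1]
  refine le_iInf fun i => ?_
  calc b ≤ b ⊓ ⨆ k : ℕ, rel f (chk i) (chk k) := le_inf le_rfl (V6_tot f i)
    _ = _ := inf_iSup_eq _ _

/- The same with `ns`, for `m < n` with `r j i = b ⊓ rel f (chk j) (chk i)` (functional because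
`f` is a map, total because `f` is onto), for `n < m` with `r i j = b ⊓ rel f (chk j) (chk i)`
(functional because `f` is injective). -/
theorem equinum_ck (M : Model B) {m n : ℕ} (h : m ≠ n) :
    equinum (ck B (II m)) (ck B (II n)) = ⊥ := by
  rw [← le_bot_iff]
  refine iSup_le fun f => ?_
  rcases lt_or_gt_of_ne h with hmn | hmn
  · set b := isInj f (ck B (II m)) (ck B (II n)) ⊓
      all (ck B (II n)) fun y => ex (ck B (II m)) fun x => rel f x y with hb
    have h1 := M.ns m n hmn (fun j i => b ⊓ rel f (chk j) (chk i)) (fun j i i' hi => by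
      rw [← le_bot_iff, ← V6_func f j hi]
      refine le_inf ((inf_le_left.trans inf_le_left).trans inf_le_left) (le_inf ?_ ?_)
      · exact inf_le_left.trans inf_le_right
      · exact inf_le_right.trans inf_le_right)
    rw [← h1]
    refine le_iInf fun i => ?_
    have h2 : b ≤ ⨆ j : II m, rel f (chk j) (chk i) := by
      rw [← ex_ck (Ext.rel1 f (chk i))]
      exact inf_le_right.trans (V6_all_le (B := B) i)
    calc b ≤ b ⊓ ⨆ j : II m, rel f (chk j) (chk i) := le_inf le_rfl h2
      _ = _ := inf_iSup_eq _ _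
  · refine inf_le_left.trans ?_
    set b := isInj f (ck B (II m)) (ck B (II n)) with hb
    have h1 := M.ns n m hmn (fun i j => b ⊓ rel f (chk j) (chk i)) (fun i j j' hj => by
      rw [← le_bot_iff, ← V6_inj f i hj]
      refine le_inf (inf_le_left.trans inf_le_left) (le_inf ?_ ?_)
      · exact inf_le_left.trans inf_le_right
      · exact inf_le_right.trans inf_le_right)
    rw [← h1]
    refine le_iInf fun j => ?_
    calc b ≤ b ⊓ ⨆ i : II n, rel f (chk j) (chk i) := le_inf le_rfl (V6_tot f j)
      _ = _ := inf_iSup_eq _ _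

end Pool.Agent.LibTk83
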