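import Mathlib

/-! Task X1: least elements and gaps in complete Boolean algebras. -/

namespace Pool.Agent.LibTk83

universe u

variable {B : Type u} [CompleteBooleanAlgebra B] {J : Type} [LinearOrder J] [WellFoundedLT J]

/- `Q j ≤ ⨆ j, Q j ⊓ ⨅ j' < j, (Q j')ᶜ` by induction on `j`:
`Q j = (Q j ⊓ ⨅ j' < j, (Q j')ᶜ) ⊔ ⨆ j' < j, (Q j ⊓ Q j')`. -/
theorem iSup_least (Q : J → B) : ⨆ j, (Q j ⊓ ⨅ j', ⨅ (_ : j' < j), (Q j')ᶜ) = ⨆ j, Q j := by
  apply le_antisymm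
  · exact iSup_mono fun j => inf_le_left
  · refine iSup_le fun j => ?_
    induction j using WellFoundedLT.induction with
    | ind j ih =>
      have h1 : (⨅ j', ⨅ (_ : j' < j), (Q j')ᶜ)ᶜ ≤
          ⨆ j, (Q j ⊓ ⨅ j', ⨅ (_ : j' < j), (Q j')ᶜ) := by
        rw [compl_iInf]
        refine iSup_le fun j' => ?_
        rw [compl_iInf]
        refine iSup_le fun hj' => ?_
        rw [compl_compl]
        exact ih j' hj'
      calc Q j = (Q j ⊓ ⨅ j', ⨅ (_ : j' < j), (Q j')ᶜ) ⊔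
            (Q j ⊓ (⨅ j', ⨅ (_ : j' < j), (Q j')ᶜ)ᶜ) := by
            rw [← inf_sup_left, sup_compl_eq_top, inf_top_eq]
        _ ≤ _ := sup_le (le_iSup (fun j => (Q j ⊓ ⨅ j', ⨅ (_ : j' < j), (Q j')ᶜ)) j)
            (inf_le_right.trans h1)

/- From `iSup_least` for `Q j = (R j)ᶜ`. -/
theorem iSup_gap (R : J → B) :
    (⨅ j, R j) ⊔ ⨆ j, ((⨅ j', ⨅ (_ : j' < j), R j') ⊓ (R j)ᶜ) = ⊤ := by
  have h := iSup_least (fun j => (R j)ᶜ)
  simp only [compl_compl] at h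
  have h2 : ⨆ j, ((⨅ j', ⨅ (_ : j' < j), R j') ⊓ (R j)ᶜ) = ⨆ j, (R j)ᶜ := by
    rw [← h]
    exact iSup_congr fun j => inf_comm _ _
  rw [h2, ← compl_iInf, sup_compl_eq_top]

/-- The recursion. -/
noncomputable def X1_c (T : J → B) : J → J → B :=
  (wellFounded_lt (α := J)).fix (C := fun _ => J → B) fun l ih r =>
    T l ⊓ ((⨅ r', ⨅ (_ : r' < r), ⨆ l', ⨆ (h : l' < l), ih l' h r') ⊓
      (⨆ l', ⨆ (h : l' < l), ih l' h r)ᶜ)

theorem X1_c_eq (T : J → B) (l r : J) : X1_c T l r =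
    T l ⊓ ((⨅ r', ⨅ (_ : r' < r), ⨆ l', ⨆ (_ : l' < l), X1_c T l' r') ⊓
      (⨆ l', ⨆ (_ : l' < l), X1_c T l' r)ᶜ) := by
  conv_lhs => rw [X1_c, WellFounded.fix_eq]
  rfl

/- Recursion on `l`: `c l r = T l ⊓ (⨅ r' < r, ⨆ l' < l, c l' r') ⊓ (⨆ l' < l, c l' r)ᶜ`
(`r` is the least value which is not taken before `l`). First `c l r = ⊥` for `l < r`, by
induction on `l`: `c l r ≤ ⨆ l' < l, c l' l`. For the first property use `iSup_gap` for
`R r = ⨆ l' < l, c l' r`; here `R l = ⊥`. -/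
theorem exists_collapse (T : J → B) : ∃ c : J → J → B, (∀ l, ⨆ r, c l r = T l) ∧
    (∀ l r r', r ≠ r' → c l r ⊓ c l r' = ⊥) ∧ (∀ l l' r, l ≠ l' → c l r ⊓ c l' r = ⊥) ∧
    ∀ r r', r' ≤ r → ⨆ l, c l r ≤ ⨆ l, c l r' := by
  have h1 : ∀ l r r', r' < r → X1_c T l r ≤ ⨆ l', ⨆ (_ : l' < l), X1_c T l' r' := by
    intro l r r' hr
    rw [X1_c_eq T l r]
    exact inf_le_right.trans (inf_le_left.trans (iInf₂_le r' hr))
  have h2 : ∀ l r, X1_c T l r ≤ (⨆ l', ⨆ (_ : l' < l), X1_c T l' r)ᶜ := by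
    intro l r
    conv_lhs => rw [X1_c_eq T l r]
    exact inf_le_right.trans inf_le_right
  have h0 : ∀ l r, l < r → X1_c T l r = ⊥ := by
    intro l
    induction l using WellFoundedLT.induction with
    | ind l ih =>
      intro r hr
      refine le_bot_iff.1 ((h1 l r l hr).trans ?_)
      exact iSup₂_le fun l' hl' => (ih l' hl' l hl').le
  refine ⟨X1_c T, ?_, ?_, ?_, ?_⟩
  · intro l
    have h := iSup_gap (fun r => ⨆ l', ⨆ (_ : l' < l), X1_c T l' r)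
    have h3 : (⨅ r, ⨆ l', ⨆ (_ : l' < l), X1_c T l' r) = ⊥ := by
      refine le_bot_iff.1 ((iInf_le _ l).trans ?_)
      exact iSup₂_le fun l' hl' => (h0 l' l hl').le
    rw [h3, bot_sup_eq] at h
    calc ⨆ r, X1_c T l r = ⨆ r, T l ⊓ ((⨅ r', ⨅ (_ : r' < r), ⨆ l', ⨆ (_ : l' < l),
          X1_c T l' r') ⊓ (⨆ l', ⨆ (_ : l' < l), X1_c T l' r)ᶜ) :=
          iSup_congr fun r => X1_c_eq T l r
      _ = T l ⊓ ⨆ r, ((⨅ r', ⨅ (_ : r' < r), ⨆ l', ⨆ (_ : l' < l),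
          X1_c T l' r') ⊓ (⨆ l', ⨆ (_ : l' < l), X1_c T l' r)ᶜ) := by rw [inf_iSup_eq]
      _ = T l := by rw [h, inf_top_eq]
  · have key : ∀ l r r', r < r' → X1_c T l r ⊓ X1_c T l r' = ⊥ := by
      intro l r r' hr
      refine le_bot_iff.1 ((inf_le_inf (h2 l r) (h1 l r' r hr)).trans ?_)
      rw [compl_inf_eq_bot]
    intro l r r' hr
    rcases lt_or_gt_of_ne hr with h | h
    · exact key l r r' h
    · rw [inf_comm]
      exact key l r' r h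
  · have key : ∀ l l' r, l < l' → X1_c T l r ⊓ X1_c T l' r = ⊥ := by
      intro l l' r hl
      have h3 : X1_c T l r ≤ ⨆ l'', ⨆ (_ : l'' < l'), X1_c T l'' r :=
        le_iSup₂_of_le l hl le_rfl
      refine le_bot_iff.1 ((inf_le_inf h3 (h2 l' r)).trans ?_)
      rw [inf_compl_eq_bot]
    intro l l' r hl
    rcases lt_or_gt_of_ne hl with h | h
    · exact key l l' r h
    · rw [inf_comm]
      exact key l' l r h
  · intro r r' hr
    rcases eq_or_lt_of_le hr with h | h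
    · rw [h]
    · refine iSup_le fun l => (h1 l r r' h).trans ?_
      exact iSup₂_le fun l' _ => le_iSup (fun l => X1_c T l r') l'

end Pool.Agent.LibTk83
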