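import Pool.Agent.LibTk83.FiltDef

/-! Task A1. -/

namespace Pool.Agent.LibTk83

universe u v

variable {B : Type u} [CompleteBooleanAlgebra B] {I : Type v}

/-- The conditions of `PosFilter` without maximality. -/
structure A1_Pre (T : Set (Set (I × Bool))) (A : I → ℕ → B) (H : Set (ℕ → B)) : Prop where
  cofin : ∀ X : ℕ → B, (∃ m, ∀ k, m ≤ k → X k = ⊤) → X ∈ H
  inf : ∀ X ∈ H, ∀ Y ∈ H, (fun k => X k ⊓ Y k) ∈ H
  up : ∀ X ∈ H, ∀ Y : ℕ → B, (∀ k, X k ≤ Y k) → Y ∈ H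
  pos : ∀ X ∈ H, ∀ g ∈ T, ∀ m : ℕ, ⨆ k, ⨆ (_ : m ≤ k), Ag A g k ⊓ X k = ⊤

/-- The start. -/
def A1_F0 (J : Set (ℕ → B)) : Set (ℕ → B) :=
  {X | ∃ s : Finset (ℕ → B), (∀ Y ∈ s, Y ∈ J) ∧ ∃ m : ℕ, ∀ k, m ≤ k → (⨅ Y ∈ s, Y k) ≤ X k}

theorem A1_pre_F0 (T : Set (Set (I × Bool))) (A : I → ℕ → B) (J : Set (ℕ → B))
    (hJ : ∀ s : Finset (ℕ → B), (∀ X ∈ s, X ∈ J) → ∀ g ∈ T, ∀ m : ℕ,
      ⨆ k, ⨆ (_ : m ≤ k), Ag A g k ⊓ (⨅ X ∈ s, X k) = ⊤) : A1_Pre T A (A1_F0 J) := by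
  classical
  refine ⟨?_, ?_, ?_, ?_⟩
  · rintro X ⟨m, hm⟩
    exact ⟨∅, by simp, m, fun k hk => by rw [hm k hk]; exact le_top⟩
  · rintro X ⟨s, hs, m, hm⟩ Y ⟨s', hs', m', hm'⟩
    refine ⟨s ∪ s', ?_, max m m', fun k hk => ?_⟩
    · intro Z hZ
      rcases Finset.mem_union.1 hZ with h | h
      · exact hs Z h
      · exact hs' Z h
    · refine le_inf ?_ ?_
      · exact (biInf_mono (fun Z hZ => Finset.mem_union_left s' hZ)).trans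
          (hm k ((le_max_left _ _).trans hk))
      · exact (biInf_mono (fun Z hZ => Finset.mem_union_right s hZ)).trans
          (hm' k ((le_max_right _ _).trans hk))
  · rintro X ⟨s, hs, m, hm⟩ Y hY
    exact ⟨s, hs, m, fun k hk => (hm k hk).trans (hY k)⟩
  · rintro X ⟨s, hs, m0, hm0⟩ g hg m
    rw [← top_le_iff, ← hJ s hs g hg (max m m0)]
    refine iSup_le (fun k => iSup_le (fun hk => ?_))
    refine le_iSup_of_le k (le_iSup_of_le ((le_max_left _ _).trans hk) ?_)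
    exact inf_le_inf le_rfl (hm0 k ((le_max_right _ _).trans hk))

/- Zorn (e.g. `zorn_subset_nonempty` on the sets `F` of names which satisfy `cofin`, `inf`, `up`,
`pos`). Start: `{X | ∃ s : Finset, s ⊆ J, ∃ m, ∀ k ≥ m, ⨅ Y ∈ s, Y k ≤ X k}`. Unions of chains are
fine. `max`: for `X` as in `max`, the set `{Z | ∃ Y ∈ H, ∀ k, Y k ⊓ X k ≤ Z k}` is a larger such
set, so it equals `H` and contains `X`. -/
theorem exists_posFilter (T : Set (Set (I × Bool))) (A : I → ℕ → B) (J : Set (ℕ → B))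
    (hJ : ∀ s : Finset (ℕ → B), (∀ X ∈ s, X ∈ J) → ∀ g ∈ T, ∀ m : ℕ,
      ⨆ k, ⨆ (_ : m ≤ k), Ag A g k ⊓ (⨅ X ∈ s, X k) = ⊤) :
    ∃ H, J ⊆ H ∧ PosFilter T A H := by
  classical
  obtain ⟨H, hH0, hH⟩ := zorn_subset_nonempty {F : Set (ℕ → B) | A1_Pre T A F} (by
    intro c hc hchain hne
    refine ⟨⋃₀ c, ?_, fun s hs => Set.subset_sUnion_of_mem hs⟩
    obtain ⟨F0, hF0⟩ := hne
    refine ⟨?_, ?_, ?_, ?_⟩
    · intro X hX
      exact ⟨F0, hF0, (hc hF0).cofin X hX⟩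
    · rintro X ⟨F, hF, hXF⟩ Y ⟨F', hF', hYF⟩
      rcases hchain.total hF hF' with h | h
      · exact ⟨F', hF', (hc hF').inf X (h hXF) Y hYF⟩
      · exact ⟨F, hF, (hc hF).inf X hXF Y (h hYF)⟩
    · rintro X ⟨F, hF, hXF⟩ Y hY
      exact ⟨F, hF, (hc hF).up X hXF Y hY⟩
    · rintro X ⟨F, hF, hXF⟩ g hg m
      exact (hc hF).pos X hXF g hg m) (A1_F0 J) (A1_pre_F0 T A J hJ)
  have hP : A1_Pre T A H := hH.prop
  refine ⟨H, ?_, hP.cofin, hP.inf, hP.up, hP.pos, ?_⟩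
  · intro X hX
    refine hH0 ⟨{X}, ?_, 0, fun k _ => ?_⟩
    · intro Y hY
      rw [Finset.mem_singleton.1 hY]
      exact hX
    · exact biInf_le (fun Y : ℕ → B => Y k) (Finset.mem_singleton_self X)
  · intro X hX
    have hF' : A1_Pre T A {Z | ∃ Y ∈ H, ∀ k, Y k ⊓ X k ≤ Z k} := by
      refine ⟨?_, ?_, ?_, ?_⟩
      · intro Z hZ
        exact ⟨Z, hP.cofin Z hZ, fun k => inf_le_left⟩
      · rintro Z ⟨Y, hY, hZ⟩ Z' ⟨Y', hY', hZ'⟩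
        refine ⟨_, hP.inf Y hY Y' hY', fun k => le_inf ?_ ?_⟩
        · exact (inf_le_inf_right _ inf_le_left).trans (hZ k)
        · exact (inf_le_inf_right _ inf_le_right).trans (hZ' k)
      · rintro Z ⟨Y, hY, hZ⟩ Z' hZ'
        exact ⟨Y, hY, fun k => (hZ k).trans (hZ' k)⟩
      · rintro Z ⟨Y, hY, hZ⟩ g hg m
        rw [← top_le_iff, ← hX Y hY g hg m]
        exact iSup_mono (fun k => iSup_mono (fun _ => inf_le_inf le_rfl (hZ k)))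
    have hsub : H ⊆ {Z | ∃ Y ∈ H, ∀ k, Y k ⊓ X k ≤ Z k} := fun Y hY => ⟨Y, hY, fun k => inf_le_left⟩
    have hle := hH.le_of_ge hF' hsub
    exact hle ⟨fun _ => ⊤, hP.cofin _ ⟨0, fun _ _ => rfl⟩, fun k => inf_le_right⟩

end Pool.Agent.LibTk83
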