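import Pool.Agent.LibTk83.FiltDef

/-! Task A2. -/

namespace Pool.Agent.LibTk83

universe u v

variable {B : Type u} [CompleteBooleanAlgebra B] {I : Type v}

theorem Ag_empty (A : I → ℕ → B) (k : ℕ) : Ag A ∅ k = ⊤ := by
  simp [Ag]

theorem Ag_union (A : I → ℕ → B) (g g' : Set (I × Bool)) (k : ℕ) :
    Ag A (g ∪ g') k = Ag A g k ⊓ Ag A g' k := by
  unfold Ag
  exact iInf_union

theorem Ag_anti (A : I → ℕ → B) {g g' : Set (I × Bool)} (h : g ⊆ g') (k : ℕ) :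
    Ag A g' k ≤ Ag A g k :=
  biInf_mono h

theorem Ag_bot (A : I → ℕ → B) {g : Set (I × Bool)} {ξ : I} (h : (ξ, true) ∈ g)
    (h' : (ξ, false) ∈ g) (k : ℕ) : Ag A g k = ⊥ := by
  rw [← le_bot_iff]
  have h1 : Ag A g k ≤ A ξ k := by
    refine (biInf_le (fun l => lit A l k) h).trans ?_
    simp [lit]
  have h2 : Ag A g k ≤ (A ξ k)ᶜ := by
    refine (biInf_le (fun l => lit A l k) h').trans ?_
    simp [lit]
  exact (le_inf h1 h2).trans (inf_compl_self _).le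

theorem Ag_pair (A : I → ℕ → B) (ξ : I) (k : ℕ) : Ag A {(ξ, true)} k = A ξ k := by
  unfold Ag
  rw [iInf_singleton]
  simp [lit]

variable {T : Set (Set (I × Bool))} {A : I → ℕ → B} {H : Set (ℕ → B)}

/-- Finite intersections. -/
theorem PosFilter.biInf (hH : PosFilter T A H) {α : Type*} {s : Set α} (hs : s.Finite)
    (f : α → ℕ → B) (hf : ∀ a ∈ s, f a ∈ H) : (fun k => ⨅ a ∈ s, f a k) ∈ H := by
  induction s, hs using Set.Finite.induction_on with
  | empty => exact hH.cofin _ ⟨0, fun k _ => by simp⟩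
  | @insert a s _ _ ih =>
    have h1 := hH.inf _ (hf a (Set.mem_insert a s)) _ (ih (fun b hb => hf b (Set.mem_insert_of_mem a hb)))
    refine hH.up _ h1 _ (fun k => ?_)
    rw [iInf_insert]

theorem Dec.mono (hH : PosFilter T A H) {X : ℕ → B} {b b' : B} {g g' : Set (I × Bool)}
    (h : Dec A H X b g) (hb : b' ≤ b) (hg : g ⊆ g') : Dec A H X b' g' := by
  refine hH.up _ h _ (fun k => ?_)
  exact sup_le_sup (sup_le_sup le_rfl (compl_le_compl (Ag_anti A hg k))) (compl_le_compl hb)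

theorem Dec.mono_left (hH : PosFilter T A H) {X Y : ℕ → B} {b : B} {g : Set (I × Bool)}
    (h : Dec A H X b g) (hb : ∀ k, X k ⊓ b ≤ Y k) : Dec A H Y b g := by
  refine hH.up _ h _ (fun k => ?_)
  have h1 : X k ≤ Y k ⊔ (Ag A g k)ᶜ ⊔ bᶜ := by
    calc X k = (X k ⊓ b) ⊔ (X k ⊓ bᶜ) := by rw [← inf_sup_left, sup_compl_eq_top, inf_top_eq]
      _ ≤ Y k ⊔ bᶜ := sup_le_sup (hb k) inf_le_right
      _ ≤ Y k ⊔ (Ag A g k)ᶜ ⊔ bᶜ := sup_le_sup le_sup_left le_rfl
  exact sup_le (sup_le h1 (le_sup_of_le_left le_sup_right)) le_sup_right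

end Pool.Agent.LibTk83
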