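import Pool.Agent.LibTk83.A4

/-! Task A3. -/

namespace Pool.Agent.LibTk83

universe u v

variable {B : Type u} [CompleteBooleanAlgebra B] {I : Type v}

variable {A : I → ℕ → B} {H : Set (ℕ → B)}

/-- The common part of the maximality arguments: a name `W` which is not in `H`. -/
theorem A3_key {T : Set (Set (I × Bool))} (hH : PosFilter T A H) {W : ℕ → B} (hW : W ∉ H) :
    ∃ b₁ : B, b₁ ≠ ⊥ ∧ ∃ g₁ ∈ T, ∃ m : ℕ, ∃ Y ∈ H, (∀ k, m ≤ k → b₁ ⊓ Ag A g₁ k ⊓ Y k ≤ (W k)ᶜ) ∧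
      (⨆ k, ⨆ (_ : m ≤ k), Ag A g₁ k ⊓ Y k = ⊤) := by
  by_contra hcon
  apply hW
  apply hH.max
  intro Y hY g hg m
  by_contra hne
  apply hcon
  refine ⟨(⨆ k, ⨆ (_ : m ≤ k), Ag A g k ⊓ (Y k ⊓ W k))ᶜ, ?_, g, hg, m, Y, hY, ?_, hH.pos Y hY g hg m⟩
  · intro h
    exact hne (compl_eq_bot.1 h)
  · intro k hk
    have h1 : Ag A g k ⊓ (Y k ⊓ W k) ≤ ⨆ k, ⨆ (_ : m ≤ k), Ag A g k ⊓ (Y k ⊓ W k) :=
      le_iSup_of_le k (le_iSup_of_le hk le_rfl)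
    rw [le_compl_iff_disjoint_right, disjoint_iff_inf_le]
    have h2 : (⨆ k, ⨆ (_ : m ≤ k), Ag A g k ⊓ (Y k ⊓ W k))ᶜ ⊓ Ag A g k ⊓ Y k ⊓ W k =
        (⨆ k, ⨆ (_ : m ≤ k), Ag A g k ⊓ (Y k ⊓ W k))ᶜ ⊓ (Ag A g k ⊓ (Y k ⊓ W k)) := by
      rw [inf_assoc, inf_assoc]
    rw [h2]
    exact (inf_le_inf le_rfl h1).trans (compl_inf_self _).le

/-- From an inequality on a tail. -/
theorem A3_mem {T : Set (Set (I × Bool))} (hH : PosFilter T A H) {Y Z : ℕ → B} (hY : Y ∈ H) {m : ℕ}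
    (h : ∀ k, m ≤ k → Y k ≤ Z k) : Z ∈ H := by
  classical
  have h1 : (fun k : ℕ => if m ≤ k then (⊤ : B) else ⊥) ∈ H :=
    hH.cofin _ ⟨m, fun k hk => if_pos hk⟩
  refine hH.up _ (hH.inf _ hY _ h1) _ (fun k => ?_)
  by_cases hk : m ≤ k
  · exact inf_le_left.trans (h k hk)
  · simp only [if_neg hk, inf_bot_eq]
    exact bot_le

/-- The element `b₁` is below `b`. -/
theorem A3_le {b₁ b : B} {m : ℕ} {Z : ℕ → B} (htop : ⨆ k, ⨆ (_ : m ≤ k), Z k = ⊤)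
    (h : ∀ k, m ≤ k → b₁ ⊓ Z k ≤ b) : b₁ ≤ b := by
  rw [← inf_top_eq b₁, ← htop, inf_iSup_eq]
  refine iSup_le (fun k => ?_)
  rw [inf_iSup_eq]
  exact iSup_le (fun hk => h k hk)

/-- Moving a Boolean factor to the other side. -/
theorem A3_move {b₁ a y x : B} (h : b₁ ⊓ a ⊓ y ≤ x) : y ≤ x ⊔ aᶜ ⊔ b₁ᶜ := by
  have h1 : y = (y ⊓ (b₁ ⊓ a)) ⊔ (y ⊓ (b₁ ⊓ a)ᶜ) := by rw [← inf_sup_left, sup_compl_eq_top, inf_top_eq]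
  rw [h1]
  refine sup_le ?_ ?_
  · rw [inf_comm]
    exact h.trans (le_sup_of_le_left le_sup_left)
  · refine inf_le_right.trans ?_
    rw [compl_inf]
    exact sup_le le_sup_right (le_sup_of_le_left le_sup_right)

/- The general form of the maximality argument. If `X ⊔ (Ag g)ᶜ ⊔ bᶜ ∉ H` then by `max` there
are `Y ∈ H`, `g₁`, `m` with `b₁ = (⨆ k ≥ m, Ag g₁ k ⊓ (Y k ⊓ (X k ⊔ (Ag g k)ᶜ ⊔ bᶜ)))ᶜ ≠ ⊥`. For
`k ≥ m`: `b₁ ⊓ Ag g₁ k ⊓ Y k ≤ (X k)ᶜ ⊓ Ag g k ⊓ b`. By `pos`, `b₁ ≤ b`; and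
`Y k ≤ ((X k)ᶜ ⊓ Ag g k) ⊔ (Ag g₁ k)ᶜ ⊔ b₁ᶜ` for `k ≥ m`, so the right side is in `H`. -/
theorem exists_of_not_dec (hH : PosFilter (TFn I) A H) {X : ℕ → B} {b : B}
    {g : Set (I × Bool)} (h : ¬ Dec A H X b g) :
    ∃ b₁ ≤ b, b₁ ≠ ⊥ ∧ ∃ g₁, IsFn g₁ ∧ g ⊆ g₁ ∧ Dec A H (fun k => (X k)ᶜ) b₁ g₁ := by
  obtain ⟨b₁, hb₁, g₁, hg₁, m, Y, hY, h1, h2⟩ := A3_key hH h
  have h3 : ∀ k, m ≤ k → b₁ ⊓ Ag A g₁ k ⊓ Y k ≤ (X k)ᶜ ⊓ Ag A g k ⊓ b := by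
    intro k hk
    refine (h1 k hk).trans ?_
    rw [compl_sup, compl_sup, compl_compl, compl_compl]
  refine ⟨b₁, ?_, hb₁, g₁, hg₁, ?_, ?_⟩
  · refine A3_le h2 (fun k hk => ?_)
    rw [← inf_assoc]
    exact (h3 k hk).trans inf_le_right
  · refine subset_of_Ag_le hH hb₁ hg₁ (A3_mem hH hY (m := m) (fun k hk => ?_))
    exact A3_move ((h3 k hk).trans (inf_le_left.trans inf_le_right))
  · exact A3_mem hH hY (m := m) (fun k hk => A3_move ((h3 k hk).trans (inf_le_left.trans inf_le_left)))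

/- From `exists_of_not_dec`. -/
theorem exists_dec (hH : PosFilter (TFn I) A H) (X : ℕ → B) {b : B} (hb : b ≠ ⊥)
    {g : Set (I × Bool)} (hg : IsFn g) :
    ∃ b' ≤ b, b' ≠ ⊥ ∧ ∃ g', g ⊆ g' ∧ IsFn g' ∧
      (Dec A H X b' g' ∨ Dec A H (fun k => (X k)ᶜ) b' g') := by
  by_cases h : Dec A H X b g
  · exact ⟨b, le_rfl, hb, g, subset_rfl, hg, Or.inl h⟩
  · obtain ⟨b₁, hb₁, hb₁', g₁, hg₁, hgg, h1⟩ := exists_of_not_dec hH h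
    exact ⟨b₁, hb₁, hb₁', g₁, hgg, hg₁, Or.inr h1⟩

/- If `Dec A H Xᶜ b ∅` holds then `(X k)ᶜ ⊔ bᶜ` is in `H ⊆ U`, and with `X ∈ U` and `pos` for `U`
we get `bᶜ = ⊤`. So `exists_of_not_dec` applies to `Xᶜ` and `g = ∅`. -/
theorem exists_dec_of_mem (hH : PosFilter (TFn I) A H) {U : Set (ℕ → B)}
    (hU : PosFilter {∅} A U) (hHU : H ⊆ U) {X : ℕ → B} (hX : X ∈ U) {b : B} (hb : b ≠ ⊥) :
    ∃ b' ≤ b, b' ≠ ⊥ ∧ ∃ g, IsFn g ∧ Dec A H X b' g := by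
  have h : ¬ Dec A H (fun k => (X k)ᶜ) b ∅ := by
    intro h
    have h1 := hU.inf _ hX _ (hHU h)
    have h2 := hU.pos _ h1 ∅ rfl 0
    apply hb
    rw [← compl_eq_top, ← top_le_iff, ← h2]
    refine iSup_le (fun k => iSup_le (fun _ => ?_))
    rw [Ag_empty, top_inf_eq, compl_top, sup_bot_eq, inf_sup_left, inf_compl_self, bot_sup_eq]
    exact inf_le_right
  obtain ⟨b₁, hb₁, hb₁', g₁, hg₁, _, h1⟩ := exists_of_not_dec hH h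
  simp only [compl_compl] at h1
  exact ⟨b₁, hb₁, hb₁', g₁, hg₁, h1⟩

/- Similar to `exists_of_not_dec` with `g₁ = ∅`: if `X ⊔ bᶜ ∉ U`, use `max`. -/
theorem ultra_dec {U : Set (ℕ → B)} (hU : PosFilter {∅} A U) (X : ℕ → B) {b : B} (hb : b ≠ ⊥) :
    ∃ b' ≤ b, b' ≠ ⊥ ∧ ((fun k => X k ⊔ b'ᶜ) ∈ U ∨ (fun k => (X k)ᶜ ⊔ b'ᶜ) ∈ U) := by
  by_cases h : (fun k => X k ⊔ bᶜ) ∈ U
  · exact ⟨b, le_rfl, hb, Or.inl h⟩
  · obtain ⟨b₁, hb₁, g₁, hg₁, m, Y, hY, h1, h2⟩ := A3_key hU h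
    rw [Set.mem_singleton_iff] at hg₁
    subst hg₁
    have h3 : ∀ k, m ≤ k → b₁ ⊓ Ag A ∅ k ⊓ Y k ≤ (X k)ᶜ ⊓ b := by
      intro k hk
      refine (h1 k hk).trans ?_
      rw [compl_sup, compl_compl]
    refine ⟨b₁, ?_, hb₁, Or.inr ?_⟩
    · refine A3_le h2 (fun k hk => ?_)
      rw [← inf_assoc]
      exact (h3 k hk).trans inf_le_right
    · refine A3_mem hU hY (m := m) (fun k hk => ?_)
      have h4 := A3_move ((h3 k hk).trans inf_le_left)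
      rwa [Ag_empty, compl_top, sup_bot_eq] at h4

end Pool.Agent.LibTk83
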