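import Pool.Agent.LibTk83.A2

/-! Task A4. -/

namespace Pool.Agent.LibTk83

universe u v

variable {B : Type u} [CompleteBooleanAlgebra B] {I : Type v}

private theorem A4_le {b t : B} {F : ℕ → B} {M : ℕ} (h : ⨆ k, ⨆ (_ : M ≤ k), F k = ⊤)
    (h' : ∀ k, M ≤ k → b ⊓ F k ≤ t) : b ≤ t := by
  calc b = b ⊓ ⨆ k, ⨆ (_ : M ≤ k), F k := by rw [h, inf_top_eq]
    _ = ⨆ k, ⨆ (_ : M ≤ k), b ⊓ F k := by rw [inf_iSup₂_eq]
    _ ≤ t := iSup₂_le h'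

private theorem A4_key (a b x : B) : a ⊓ b ⊓ (x ⊔ aᶜ ⊔ bᶜ) ≤ x := by
  rw [sup_assoc, ← compl_inf, inf_sup_left, inf_compl_self, sup_bot_eq]
  exact inf_le_right

private theorem A4_key2 (y b : B) : b ⊓ (y ⊔ bᶜ) ≤ y := by
  rw [inf_sup_left, inf_compl_self, sup_bot_eq]
  exact inf_le_right

/- By `max`: let `b m' = ⨅ k ≥ m', (X k ⇨ Y k)`. For `Z ∈ H` and `m' `, `b m'` is below
`⨆ k ≥ m, Ag A g k ⊓ (Z k ⊓ Y k)`, because of `pos` for `Z ⊓ X` and `max m m'`. -/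
theorem PosFilter.almost {T : Set (Set (I × Bool))} {A : I → ℕ → B} {H : Set (ℕ → B)}
    (hH : PosFilter T A H) {X Y : ℕ → B} (hX : X ∈ H)
    (h : ⨆ m, ⨅ k, ⨅ (_ : m ≤ k), (X k ⇨ Y k) = ⊤) : Y ∈ H := by
  refine hH.max Y fun Z hZ g hg m => ?_
  rw [eq_top_iff, ← h]
  refine iSup_le fun m' => ?_
  have hp := hH.pos _ (hH.inf Z hZ X hX) g hg (m + m')
  refine A4_le hp fun k hk => ?_
  have hk1 : m ≤ k := (Nat.le_add_right _ _).trans hk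
  have hk2 : m' ≤ k := (Nat.le_add_left _ _).trans hk
  have h1 : (⨅ k, ⨅ (_ : m' ≤ k), (X k ⇨ Y k)) ≤ X k ⇨ Y k := iInf₂_le k hk2
  refine le_trans ?_ (le_iSup₂_of_le (f := fun k (_ : m ≤ k) => Ag A g k ⊓ (Z k ⊓ Y k)) k hk1
    le_rfl)
  refine le_inf (inf_le_right.trans inf_le_left) (le_inf
    (inf_le_right.trans (inf_le_right.trans inf_le_left)) ?_)
  have h2 : (X k ⇨ Y k) ⊓ X k ≤ Y k := himp_inf_le
  exact (le_inf (inf_le_left.trans h1)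
    (inf_le_right.trans (inf_le_right.trans inf_le_right))).trans h2

variable {T : Set (Set (I × Bool))} {A : I → ℕ → B} {H : Set (ℕ → B)}

/- Assume the contrary and let `Z = (X ⊔ (Ag g)ᶜ ⊔ bᶜ) ⊓ (Xᶜ ⊔ (Ag g')ᶜ ⊔ bᶜ) ∈ H`; then
`Ag (g ∪ g') ⊓ Z ≤ bᶜ`, so `pos` gives `bᶜ = ⊤`. -/
theorem dec_incompat (hH : PosFilter (TFn I) A H) {X : ℕ → B} {b : B} (hb : b ≠ ⊥)
    {g g' : Set (I × Bool)} (h : Dec A H X b g) (h' : Dec A H (fun k => (X k)ᶜ) b g')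
    (hgg : IsFn (g ∪ g')) : False := by
  apply hb
  rw [eq_bot_iff]
  refine A4_le (hH.pos _ (hH.inf _ h _ h') (g ∪ g') hgg 0) fun k _ => ?_
  rw [Ag_union]
  have h1 : b ⊓ (Ag A g k ⊓ Ag A g' k ⊓ ((X k ⊔ (Ag A g k)ᶜ ⊔ bᶜ) ⊓
      ((X k)ᶜ ⊔ (Ag A g' k)ᶜ ⊔ bᶜ))) ≤ X k :=
    (le_inf (le_inf (inf_le_right.trans (inf_le_left.trans inf_le_left)) inf_le_left)
      (inf_le_right.trans (inf_le_right.trans inf_le_left))).trans (A4_key (Ag A g k) b (X k))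
  have h2 : b ⊓ (Ag A g k ⊓ Ag A g' k ⊓ ((X k ⊔ (Ag A g k)ᶜ ⊔ bᶜ) ⊓
      ((X k)ᶜ ⊔ (Ag A g' k)ᶜ ⊔ bᶜ))) ≤ (X k)ᶜ :=
    (le_inf (le_inf (inf_le_right.trans (inf_le_left.trans inf_le_right)) inf_le_left)
      (inf_le_right.trans (inf_le_right.trans inf_le_right))).trans (A4_key (Ag A g' k) b (X k)ᶜ)
  exact (le_inf h1 h2).trans (inf_compl_self _).le

/- Let `l = (ξ, v) ∈ g` and `l ∉ g'`. Then `g'' = insert (ξ, !v) g'` is a finite partial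
function and `Ag g'' ⊓ Ag g = ⊥`, `Ag g'' ≤ Ag g'`, so `pos` for `g''` gives `bᶜ = ⊤`. -/
theorem subset_of_Ag_le (hH : PosFilter (TFn I) A H) {b : B} (hb : b ≠ ⊥) {g g' : Set (I × Bool)}
    (hg' : IsFn g') (h : Dec A H (Ag A g) b g') : g ⊆ g' := by
  rintro ⟨ξ, v⟩ hl
  by_contra hl'
  apply hb
  have hfn : IsFn (insert (ξ, !v) g') := by
    refine ⟨hg'.fin.insert _, fun ζ hζ => ?_⟩
    obtain ⟨h1, h2⟩ := hζ
    by_cases hz : ζ = ξ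
    · subst hz
      cases v
      · rcases Set.mem_insert_iff.1 h2 with h3 | h3
        · simp at h3
        · exact hl' h3
      · rcases Set.mem_insert_iff.1 h1 with h3 | h3
        · simp at h3
        · exact hl' h3
    · refine hg'.cons ζ ⟨?_, ?_⟩
      · rcases Set.mem_insert_iff.1 h1 with h3 | h3
        · exact absurd (Prod.ext_iff.1 h3).1 hz
        · exact h3
      · rcases Set.mem_insert_iff.1 h2 with h3 | h3
        · exact absurd (Prod.ext_iff.1 h3).1 hz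
        · exact h3
  rw [eq_bot_iff]
  refine A4_le (hH.pos _ h (insert (ξ, !v) g') hfn 0) fun k _ => ?_
  have h1 : b ⊓ (Ag A (insert (ξ, !v) g') k ⊓ (Ag A g k ⊔ (Ag A g' k)ᶜ ⊔ bᶜ)) ≤ Ag A g k :=
    (le_inf (le_inf (inf_le_right.trans (inf_le_left.trans (Ag_anti A (Set.subset_insert _ _) k)))
      inf_le_left) (inf_le_right.trans inf_le_right)).trans (A4_key (Ag A g' k) b (Ag A g k))
  have h2 : b ⊓ (Ag A (insert (ξ, !v) g') k ⊓ (Ag A g k ⊔ (Ag A g' k)ᶜ ⊔ bᶜ)) ≤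
      Ag A (insert (ξ, !v) g') k := inf_le_right.trans inf_le_left
  have h3 : Ag A (insert (ξ, !v) g' ∪ g) k = ⊥ := by
    cases v
    · exact Ag_bot A (ξ := ξ) (Or.inl (Set.mem_insert _ _)) (Or.inr hl) k
    · exact Ag_bot A (ξ := ξ) (Or.inr hl) (Or.inl (Set.mem_insert _ _)) k
  rw [Ag_union] at h3
  exact (le_inf h2 h1).trans h3.le

/- By `max`: let `S` be the set of the `b` with `Dec A H X b (G k)`; for `Y ∈ H`, `g ∈ T`, `m`
put `t = ⨆ j ≥ m, Ag A g j ⊓ (Y j ⊓ (X j ⊔ (Ag A (G k) j)ᶜ ⊔ (sSup S)ᶜ))`. Then `b ≤ t` for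
`b ∈ S` by `pos`, and `(sSup S)ᶜ ≤ t` by `pos` for `Y`. -/
theorem dec_hat (hH : PosFilter T A H) (G : ℕ → Set (I × Bool)) (X : ℕ → B) (k : ℕ) :
    Dec A H X (hat A H G X k) (G k) := by
  refine hH.max _ fun Y hY g hg m => ?_
  rw [eq_top_iff, ← sup_compl_eq_top (x := hat A H G X k)]
  have hle : ∀ j, m ≤ j → Ag A g j ⊓ (Y j ⊓ (X j ⊔ (Ag A (G k) j)ᶜ ⊔ (hat A H G X k)ᶜ)) ≤
      ⨆ j, ⨆ (_ : m ≤ j), Ag A g j ⊓ (Y j ⊓ (X j ⊔ (Ag A (G k) j)ᶜ ⊔ (hat A H G X k)ᶜ)) :=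
    fun j hj => le_iSup₂_of_le (f := fun j (_ : m ≤ j) => Ag A g j ⊓
      (Y j ⊓ (X j ⊔ (Ag A (G k) j)ᶜ ⊔ (hat A H G X k)ᶜ))) j hj le_rfl
  refine sup_le ?_ ?_
  · rw [hat]
    refine iSup₂_le fun b hb => ?_
    refine A4_le (hH.pos _ (hH.inf Y hY _ hb) g hg m) fun j hj => ?_
    refine le_trans ?_ (hle j hj)
    refine le_inf (inf_le_right.trans inf_le_left) (le_inf
      (inf_le_right.trans (inf_le_right.trans inf_le_left)) ?_)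
    refine le_trans ?_ (le_sup_left (b := (hat A H G X k)ᶜ))
    exact (le_inf inf_le_left (inf_le_right.trans (inf_le_right.trans inf_le_right))).trans
      (A4_key2 _ b)
  · refine A4_le (hH.pos Y hY g hg m) fun j hj => ?_
    refine le_trans ?_ (hle j hj)
    exact le_inf (inf_le_right.trans inf_le_left) (le_inf (inf_le_right.trans inf_le_right)
      (inf_le_left.trans le_sup_right))

end Pool.Agent.LibTk83
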