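import Pool.Agent.LibTk83.A3

/-! Task A5. -/

namespace Pool.Agent.LibTk83

universe u v

variable {B : Type u} [CompleteBooleanAlgebra B] {I : Type v}

variable {A : I → ℕ → B} {H : Set (ℕ → B)}

theorem A5_sep {g : Set (I × Bool)} (hg : IsFn g) (C : Set I) : IsFn {l ∈ g | l.1 ∈ C} :=
  ⟨hg.fin.subset (fun _ hl => hl.1), fun ξ h => hg.cons ξ ⟨h.1.1, h.2.1⟩⟩

/-- If `g₂` is a function on `C` which contains `g` restricted to `C`, then `g₂ ∪ g` is a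
function. -/
theorem A5_union {g g₂ : Set (I × Bool)} {C : Set I} (hg : IsFn g) (hg₂ : IsFn g₂)
    (hC : ∀ l ∈ g₂, l.1 ∈ C) (hsub : {l ∈ g | l.1 ∈ C} ⊆ g₂) : IsFn (g₂ ∪ g) := by
  refine ⟨hg₂.fin.union hg.fin, fun ξ h => ?_⟩
  have key : ∀ v w : Bool, (ξ, v) ∈ g₂ → (ξ, w) ∈ g → (ξ, w) ∈ g₂ :=
    fun v w h1 h2 => hsub ⟨h2, hC (ξ, v) h1⟩
  rcases h with ⟨h1 | h1, h2 | h2⟩
  · exact hg₂.cons ξ ⟨h1, h2⟩
  · exact hg₂.cons ξ ⟨h1, key true false h1 h2⟩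
  · exact hg₂.cons ξ ⟨key false true h2 h1, h2⟩
  · exact hg.cons ξ ⟨h1, h2⟩

/- Let `g₀ = {l ∈ g | l.1 ∈ C}` and assume `¬ Dec A H X b g₀`. By `exists_of_not_dec` there are
`b₁ ≤ b` and `g₁ ⊇ g₀` with `Dec Xᶜ b₁ g₁`. Apply `hX` to `b₁` and `{l ∈ g₁ | l.1 ∈ C}`: `b₂`, `g₂`.
If `Dec X b₂ g₂`, this contradicts `Dec Xᶜ b₂ g₁` by `dec_incompat` (`g₁ ∪ g₂` is a function,
because `g₂` is a function on `C` which contains `g₁` restricted to `C`). If `Dec Xᶜ b₂ g₂`,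
this contradicts `Dec X b₂ g` in the same way. -/
theorem dec_restrict (hH : PosFilter (TFn I) A H) {C : Set I} {X : ℕ → B} (hX : Supp A H C X)
    {b : B} {g : Set (I × Bool)} (hg : IsFn g) (h : Dec A H X b g) :
    Dec A H X b {l ∈ g | l.1 ∈ C} := by
  by_contra hnot
  obtain ⟨b₁, hb₁, hb₁0, g₁, hg₁, hsub₁, hd₁⟩ := exists_of_not_dec hH hnot
  obtain ⟨b₂, hb₂, hb₂0, g₂, hsub₂, hg₂, hC₂, hd₂⟩ :=
    hX b₁ hb₁0 {l ∈ g₁ | l.1 ∈ C} (A5_sep hg₁ C) (fun l hl => hl.2)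
  rcases hd₂ with hd₂ | hd₂
  · have h1 : Dec A H (fun k => (X k)ᶜ) b₂ g₁ := hd₁.mono hH hb₂ subset_rfl
    exact dec_incompat hH hb₂0 hd₂ h1 (A5_union hg₁ hg₂ hC₂ hsub₂)
  · have h1 : Dec A H X b₂ g := h.mono hH (hb₂.trans hb₁) subset_rfl
    have h2 : IsFn (g₂ ∪ g) := A5_union hg hg₂ hC₂ (fun l hl => hsub₂ ⟨hsub₁ hl, hl.2⟩)
    rw [Set.union_comm] at h2
    exact dec_incompat hH hb₂0 h1 hd₂ h2

end Pool.Agent.LibTk83
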