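import Mathlib

/-!
Maximal positive filters of Boolean-valued subsets of `ℕ`: definitions.

`B` is a complete Boolean algebra; `X : ℕ → B` is a name of a subset of `ℕ`. `A ξ` (`ξ : I`) is a
family of such names and `Ag A g` is the name of the Boolean combination given by the finite
partial function `g` from `I` to `2`, coded as a set of pairs.
-/

namespace Pool.Agent.LibTk83

universe u v

/-- Finite partial functions from `I` to `2`. -/
structure IsFn {I : Type v} (g : Set (I × Bool)) : Prop where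
  fin : g.Finite
  cons : ∀ ξ, ¬ ((ξ, true) ∈ g ∧ (ξ, false) ∈ g)

variable {B : Type u} [CompleteBooleanAlgebra B] {I : Type v}

/-- `A_ξ` or its complement. -/
noncomputable def lit (A : I → ℕ → B) (l : I × Bool) (k : ℕ) : B :=
  if l.2 = true then A l.1 k else (A l.1 k)ᶜ

/-- The Boolean combination given by `g`. -/
noncomputable def Ag (A : I → ℕ → B) (g : Set (I × Bool)) (k : ℕ) : B := ⨅ l ∈ g, lit A l k

/-- A maximal filter `H` of names such that the elements of `H` meet all the sets `A_g`,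
`g ∈ T`, in infinite sets. -/
structure PosFilter (T : Set (Set (I × Bool))) (A : I → ℕ → B) (H : Set (ℕ → B)) : Prop where
  cofin : ∀ X : ℕ → B, (∃ m, ∀ k, m ≤ k → X k = ⊤) → X ∈ H
  inf : ∀ X ∈ H, ∀ Y ∈ H, (fun k => X k ⊓ Y k) ∈ H
  up : ∀ X ∈ H, ∀ Y : ℕ → B, (∀ k, X k ≤ Y k) → Y ∈ H
  pos : ∀ X ∈ H, ∀ g ∈ T, ∀ m : ℕ, ⨆ k, ⨆ (_ : m ≤ k), Ag A g k ⊓ X k = ⊤
  max : ∀ X : ℕ → B, (∀ Y ∈ H, ∀ g ∈ T, ∀ m : ℕ, ⨆ k, ⨆ (_ : m ≤ k), Ag A g k ⊓ (Y k ⊓ X k) = ⊤) →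
    X ∈ H

/-- All finite partial functions. -/
def TFn (I : Type v) : Set (Set (I × Bool)) := {g | IsFn g}

/-- Below `b`, `A_g ⊆ X` modulo the filter `H`. -/
def Dec (A : I → ℕ → B) (H : Set (ℕ → B)) (X : ℕ → B) (b : B) (g : Set (I × Bool)) : Prop :=
  (fun k => X k ⊔ (Ag A g k)ᶜ ⊔ bᶜ) ∈ H

/-- `X` is supported by `C` modulo `H`. -/
def Supp (A : I → ℕ → B) (H : Set (ℕ → B)) (C : Set I) (X : ℕ → B) : Prop :=
  ∀ b : B, b ≠ ⊥ → ∀ g : Set (I × Bool), IsFn g → (∀ l ∈ g, l.1 ∈ C) →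
    ∃ b' ≤ b, b' ≠ ⊥ ∧ ∃ g', g ⊆ g' ∧ IsFn g' ∧ (∀ l ∈ g', l.1 ∈ C) ∧
      (Dec A H X b' g' ∨ Dec A H (fun k => (X k)ᶜ) b' g')

/-- The name of the set of the `k` with `A_{G k} ⊆ X` modulo `H`. -/
noncomputable def hat (A : I → ℕ → B) (H : Set (ℕ → B)) (G : ℕ → Set (I × Bool)) (X : ℕ → B)
    (k : ℕ) : B := ⨆ (b : B) (_ : Dec A H X b (G k)), b

end Pool.Agent.LibTk83
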