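import Pool.Agent.LibTk83.PosDef
import Pool.Agent.LibTk83.FiltDef
import Pool.Agent.LibTk83.C1
import Pool.Agent.LibTk83.C2

/-! Task C3: the countable chain condition of the iteration. -/

namespace Pool.Agent.LibTk83

variable {Node W : Type} [LinearOrder W] [WellFoundedLT W] {st : Node → W}
  {F : Node → Set (Code Node)}

/- `r = p ∪ q`: for the order (`ord_iff`) there is nothing to show, because a new `(ν, inl k)` of a
node with a promise in `p` is excluded by `h`. -/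
theorem compat_of {β : W} (p q : PP st F β)
    (h : ∀ ν, (∃ a, (ν, a) ∈ p.1) → (∃ a, (ν, a) ∈ q.1) →
      ∀ k, (ν, Sum.inl k) ∈ p.1 ↔ (ν, Sum.inl k) ∈ q.1) :
    ∃ r : PP st F β, r ≤ p ∧ r ≤ q := by
  have hv : Valid st F β (p.1 ∪ q.1) := by
    refine ⟨p.2.fin.union q.2.fin, ?_, ?_⟩
    · rintro s (hs | hs)
      · exact p.2.lt s hs
      · exact q.2.lt s hs
    · rintro ν x (hs | hs)
      · exact p.2.mem ν x hs
      · exact q.2.mem ν x hs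
  refine ⟨⟨p.1 ∪ q.1, hv⟩, ?_, ?_⟩
  · rw [PP.le_def, ord_iff]
    refine ⟨Set.subset_union_left, fun ν k x h1 h2 h3 _ => ?_⟩
    rcases h1 with h1 | h1
    · exact absurd h1 h2
    · exact absurd ((h ν ⟨_, h3⟩ ⟨_, h1⟩ k).mpr h1) h2
  · rw [PP.le_def, ord_iff]
    refine ⟨Set.subset_union_right, fun ν k x h1 h2 h3 _ => ?_⟩
    rcases h1 with h1 | h1
    · exact absurd ((h ν ⟨_, h1⟩ ⟨_, h3⟩ k).mp h1) h2
    · exact absurd h1 h2

/- `delta` with `X = Node ⊕ I`, `f i` = the nodes which occur in `p i` and the `ξ` which occur in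
`g i`, and `K = Finset ℕ × Bool` (or `Finset ℕ ⊕ Bool`): the label of a node `ν` is the finite set of
the `k` with `(ν, inl k) ∈ p i`, the label of `ξ` says whether `(ξ, true) ∈ g i`. -/
theorem ccc_pair {β : W} {I J : Type} [Uncountable J] (p : J → PP st F β)
    (g : J → Set (I × Bool)) (hg : ∀ i, IsFn (g i)) :
    ∃ i j, i ≠ j ∧ (∃ r, r ≤ p i ∧ r ≤ p j) ∧ IsFn (g i ∪ g j) := by
  classical
  have hfin : ∀ (i : J) (ν : Node), {k : ℕ | (ν, (Sum.inl k : ℕ ⊕ Code Node)) ∈ (p i).1}.Finite := by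
    intro i ν
    have hinj : Function.Injective (fun k : ℕ => (ν, (Sum.inl k : ℕ ⊕ Code Node))) := by
      intro a b hab
      simpa using hab
    exact (p i).2.fin.preimage hinj.injOn
  let lab : J → Node ⊕ I → Finset ℕ ⊕ Bool := fun i => Sum.elim
    (fun ν => Sum.inl (hfin i ν).toFinset) (fun ξ => Sum.inr (decide ((ξ, true) ∈ g i)))
  obtain ⟨i, j, hij, hagree⟩ := delta
    (fun i => (Sum.inl '' (Prod.fst '' (p i).1) ∪ Sum.inr '' (Prod.fst '' g i) : Set (Node ⊕ I)))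
    (fun i => (((p i).2.fin.image _).image _).union (((hg i).fin.image _).image _)) lab
  refine ⟨i, j, hij, compat_of (p i) (p j) ?_, ?_⟩
  · rintro ν ⟨a, ha⟩ ⟨b, hb⟩ k
    have h1 := hagree (Sum.inl ν) ⟨Or.inl ⟨ν, ⟨_, ha, rfl⟩, rfl⟩, Or.inl ⟨ν, ⟨_, hb, rfl⟩, rfl⟩⟩
    have h2 : (hfin i ν).toFinset = (hfin j ν).toFinset := Sum.inl_injective h1
    have h3 : k ∈ (hfin i ν).toFinset ↔ k ∈ (hfin j ν).toFinset := by rw [h2]
    rw [Set.Finite.mem_toFinset, Set.Finite.mem_toFinset] at h3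
    exact h3
  · have hlab : ∀ ξ, (∃ b, (ξ, b) ∈ g i) → (∃ b, (ξ, b) ∈ g j) →
        ((ξ, true) ∈ g i ↔ (ξ, true) ∈ g j) := by
      rintro ξ ⟨a, ha⟩ ⟨b, hb⟩
      have h1 := hagree (Sum.inr ξ) ⟨Or.inr ⟨ξ, ⟨_, ha, rfl⟩, rfl⟩, Or.inr ⟨ξ, ⟨_, hb, rfl⟩, rfl⟩⟩
      have h2 : decide ((ξ, true) ∈ g i) = decide ((ξ, true) ∈ g j) := Sum.inr_injective h1
      simpa using h2
    refine ⟨(hg i).fin.union (hg j).fin, ?_⟩
    rintro ξ ⟨h1 | h1, h2 | h2⟩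
    · exact (hg i).cons ξ ⟨h1, h2⟩
    · exact (hg j).cons ξ ⟨(hlab ξ ⟨_, h1⟩ ⟨_, h2⟩).mp h1, h2⟩
    · exact (hg i).cons ξ ⟨(hlab ξ ⟨_, h2⟩ ⟨_, h1⟩).mpr h1, h2⟩
    · exact (hg j).cons ξ ⟨h1, h2⟩

theorem ccc_PP (β : W) : CCC (PP st F β) := by
  intro J hJ p
  obtain ⟨i, j, hij, h, -⟩ := ccc_pair (I := Empty) p (fun _ => ∅)
    (fun _ => ⟨Set.finite_empty, fun ξ => ξ.elim⟩)
  exact ⟨i, j, hij, h⟩

/- `exists_countable_max`. -/
theorem exists_countable_pairs {β : W} {I : Type} (D : Set (PP st F β × Set (I × Bool)))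
    (hD : ∀ d ∈ D, IsFn d.2) : ∃ D₀ ⊆ D, D₀.Countable ∧
      ∀ d ∈ D, ∃ d₀ ∈ D₀, (∃ r, r ≤ d.1 ∧ r ≤ d₀.1) ∧ IsFn (d.2 ∪ d₀.2) := by
  obtain ⟨M, -, hMc, hM⟩ := exists_countable_max
    (fun a b : D => (∃ r, r ≤ a.1.1 ∧ r ≤ b.1.1) ∧ IsFn (a.1.2 ∪ b.1.2))
    (fun a b ⟨⟨r, h1, h2⟩, h3⟩ => ⟨⟨r, h2, h1⟩, by rwa [Set.union_comm]⟩)
    (fun J hJ q => ccc_pair (fun i => (q i).1.1) (fun i => (q i).1.2)
      (fun i => hD _ (q i).2)) Set.univ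
  refine ⟨Subtype.val '' M, ?_, hMc.image _, ?_⟩
  · rintro _ ⟨d, _, rfl⟩
    exact d.2
  · intro d hd
    obtain ⟨m, hm, hdm⟩ := hM ⟨d, hd⟩ (Set.mem_univ _)
    refine ⟨m.1, ⟨m, hm, rfl⟩, ?_⟩
    rcases hdm with rfl | hdm
    · refine ⟨⟨d.1, le_rfl, le_rfl⟩, ?_⟩
      rw [Set.union_self]
      exact hD d hd
    · exact hdm

end Pool.Agent.LibTk83
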