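import Pool.Agent.LibTk83.P3

/-! Task P4: raw names and promises. -/

namespace Pool.Agent.LibTk83

variable {Node W : Type} [LinearOrder W] [WellFoundedLT W] {st : Node → W}
  {F : Node → Set (Code Node)}

theorem P4_key {β γ : W} (_h : γ ≤ β) {c p : Cond Node} (hc : Valid st F γ c)
    (ho : Ord st F γ (Pool.Agent.LibTk83.res st γ p) c) : Ord st F β p c := by
  rw [ord_iff] at ho ⊢
  refine ⟨fun s hs => (ho.1 hs).1, ?_⟩
  intro ν k x hk hkc hx _
  have hlt : st ν < γ := hc.lt _ hx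
  have h1 := ho.2 ν k x ⟨hk, hlt⟩ hkc hx hlt
  rwa [res_res hlt.le] at h1

/- A raw name of stage `γ` has the same value at stage `β`. If `c ∈ S k` then `c` is a condition
of both stages; `p' ≤ c` at stage `β` iff `rs γ p' ≤ c` at stage `γ` (`ord_iff`, `res_res`; in
`ord_iff` for `c` only nodes of stage `< γ` matter). -/
theorem emb_nm {β γ : W} (h : γ ≤ β) (S : ℕ → Set (Cond Node))
    (hS : ∀ k, ∀ c ∈ S k, Valid st F γ c) (k : ℕ) :
    emb h (nm S k : RO (PP st F γ)) = nm S k := by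
  ext p
  rw [mem_emb]
  unfold nm
  rw [RO.mem_gen, RO.mem_gen]
  constructor
  · intro hp q hq
    obtain ⟨r', hr', s, hs, hrs⟩ := hp _ (rs_mono h hq)
    obtain ⟨p', hp', hpr⟩ := (rs_open h).lift q r' hr'
    refine ⟨p', hp', ⟨s.1, (hS k s.1 hs).mono h⟩, hs, ?_⟩
    exact P4_key h (hS k s.1 hs) (hpr.trans hrs)
  · intro hp q' hq'
    obtain ⟨p', hp', hpq⟩ := (rs_open h).lift p q' hq'
    obtain ⟨r, hr, s, hs, hrs⟩ := hp p' hp'
    refine ⟨rs γ r, (rs_mono h hr).trans hpq, ⟨s.1, hS k s.1 hs⟩, hs, ?_⟩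
    have h1 : Ord st F γ (Pool.Agent.LibTk83.res st γ r.1) (Pool.Agent.LibTk83.res st γ s.1) :=
      ord_res h hrs
    rw [res_eq_self (hS k s.1 hs)] at h1
    exact h1

/- `mem_himp`; let `q ≤ p` and `q ∈ zz ν k`. By density (`RO.mem_of_dense`) and `mem_zz` we may
assume `(ν, inl k) ∈ q`; then `q ≤ p` says that `res (st ν) q` forces `k ∈ x`; `forces_iff`. -/
theorem promise {β : W} (p : PP st F β) {ν : Node} {x : Code Node} (hx : (ν, Sum.inr x) ∈ p.1)
    {k : ℕ} (hk : (ν, Sum.inl k) ∉ p.1) (hν : st ν ≤ β) :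
    p ∈ (zz ν k ⇨ emb hν (vl x k) : RO (PP st F β)) := by
  rw [RO.mem_himp]
  intro q hq hqz
  rw [mem_zz] at hqz
  refine RO.mem_of_dense fun r hr => ?_
  obtain ⟨s, hs, hks⟩ := hqz r hr
  refine ⟨s, hs, ?_⟩
  rw [mem_emb, ← forces_iff]
  have h1 : Ord st F β s.1 p.1 := (hs.trans hr).trans hq
  rw [ord_iff] at h1
  exact h1.2 ν k x hks hk hx (p.2.lt _ hx)

end Pool.Agent.LibTk83
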