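import Pool.Agent.LibTk83.C3
import Pool.Agent.LibTk83.P4

/-! Task C4: codes of names, early appearance. -/

namespace Pool.Agent.LibTk83

variable {Node W : Type} [LinearOrder W] [WellFoundedLT W] {st : Node → W}
  {F : Node → Set (Code Node)}

private theorem C4_enum {β : W} {S : Set (PP st F β)} (hS : S.Countable) :
    ∃ g : ℕ → Option (List (Stmt Node)),
      {c : Cond Node | ∃ i l, g i = some l ∧ c = {s | s ∈ l}} = (fun q : PP st F β => q.1) '' S := by
  classical
  rcases S.eq_empty_or_nonempty with h0 | h0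
  · refine ⟨fun _ => none, ?_⟩
    rw [h0, Set.image_empty]
    ext c
    simp
  · obtain ⟨e, he⟩ := hS.exists_eq_range h0
    refine ⟨fun i => some ((e i).2.fin.toFinset.toList), ?_⟩
    ext c
    rw [he]
    constructor
    · rintro ⟨i, l, hl, rfl⟩
      refine ⟨e i, ⟨i, rfl⟩, ?_⟩
      have hl' := Option.some.inj hl
      subst hl'
      ext s
      simp
    · rintro ⟨q, ⟨i, rfl⟩, rfl⟩
      refine ⟨i, _, rfl, ?_⟩
      ext s
      simp

/- For each `k` there is a countable set `S₀ k` of conditions with `X k = RO.gen (S₀ k)`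
(`exists_countable_gen`, `ccc_PP`; note that `X k = RO.gen {q | q ∈ X k}`). Enumerate it, with
`none` if it is empty, and list the finite sets `q.1` (`Set.Finite.toFinset`, `Finset.toList`). -/
theorem exists_code {β : W} (X : ℕ → RO (PP st F β)) :
    ∃ x : Code Node, (∀ k, ∀ c ∈ x.conds k, Valid st F β c) ∧ ∀ k, vl x k = X k := by
  have h1 : ∀ k, ∃ S : Set (PP st F β), S.Countable ∧ RO.gen S = X k := by
    intro k
    obtain ⟨S, -, hS, hg⟩ := exists_countable_gen (ccc_PP β) {q : PP st F β | q ∈ X k}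
    refine ⟨S, hS, hg.trans ?_⟩
    ext p
    rw [RO.mem_gen]
    constructor
    · intro h
      refine RO.mem_of_dense fun q hq => ?_
      obtain ⟨r, hr, s, hs, hrs⟩ := h q hq
      exact ⟨r, hr, RO.mem_of_le hrs hs⟩
    · intro h q hq
      exact ⟨q, le_rfl, q, RO.mem_of_le hq h, le_rfl⟩
  choose S hS hg using h1
  choose f hf using fun k => C4_enum (hS k)
  have hc : ∀ k, (Code.ofStmts f).conds k = (fun q : PP st F β => q.1) '' S k := fun k => by
    unfold Code.conds
    rw [Code.stmts_ofStmts]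
    exact hf k
  refine ⟨Code.ofStmts f, fun k c hck => ?_, fun k => ?_⟩
  · rw [hc] at hck
    obtain ⟨q, -, rfl⟩ := hck
    exact q.2
  · rw [← hg k, vl, nm, hc]
    congr 1
    ext q
    constructor
    · rintro ⟨q', hq', hqq⟩
      have : q' = q := Subtype.ext hqq
      exact this ▸ hq'
    · intro hq
      exact ⟨q, hq, rfl⟩

private theorem C4_countable (x : Code Node) (k : ℕ) : (x.conds k).Countable := by
  refine (Set.countable_range (fun i => {s : Stmt Node | s ∈ (x.stmts k i).getD []})).mono ?_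
  rintro c ⟨i, l, hl, rfl⟩
  refine ⟨i, ?_⟩
  simp only [hl, Option.getD_some]

/- Take a code of `X` (`exists_code`). The stages of the nodes which occur in the conditions
`c ∈ x.conds k` form a countable set; choose `γ` above them and `w₀` by `hW`. `X' = vl x`, and
`emb_nm`. -/
theorem early [OrderTop W]
    (hW : ∀ C : Set W, C.Countable → (∀ w ∈ C, w < ⊤) → ∃ w < ⊤, ∀ v ∈ C, v < w)
    (X : ℕ → RO (PP st F (⊤ : W))) {w₀ : W} (hw₀ : w₀ < ⊤) :
    ∃ γ : W, w₀ < γ ∧ γ < ⊤ ∧ ∃ X' : ℕ → RO (PP st F γ), ∀ k, X k = emb le_top (X' k) := by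
  obtain ⟨x, hx, hv⟩ := exists_code X
  obtain ⟨γ, hγ, hC⟩ := hW ({w₀} ∪ ⋃ k, ⋃ c ∈ x.conds k, (fun s : Stmt Node => st s.1) '' c)
    ((Set.countable_singleton w₀).union (Set.countable_iUnion fun k =>
      (C4_countable x k).biUnion fun c hc => ((hx k c hc).fin.image _).countable)) (by
      intro w hw
      rcases hw with hw | hw
      · exact (Set.mem_singleton_iff.1 hw) ▸ hw₀
      · obtain ⟨k, hk⟩ := Set.mem_iUnion.1 hw
        obtain ⟨c, hc⟩ := Set.mem_iUnion.1 hk
        obtain ⟨hck, s, hs, rfl⟩ := Set.mem_iUnion.1 hc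
        exact (hx k c hck).lt s hs)
  have hval : ∀ k, ∀ c ∈ x.conds k, Valid st F γ c := by
    intro k c hc
    refine ⟨(hx k c hc).fin, fun s hs => ?_, (hx k c hc).mem⟩
    refine hC _ (Or.inr ?_)
    exact Set.mem_iUnion.2 ⟨k, Set.mem_iUnion.2 ⟨c, Set.mem_iUnion.2 ⟨hc, s, hs, rfl⟩⟩⟩
  refine ⟨γ, hC w₀ (Or.inl rfl), hγ, fun k => vl x k, fun k => ?_⟩
  rw [← hv k]
  exact (emb_nm le_top x.conds hval k).symm

end Pool.Agent.LibTk83
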