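import Pool.Agent.LibTk83.C3
import Pool.Agent.LibTk83.A3

/-! Task C5: existence of supports. -/

namespace Pool.Agent.LibTk83

variable {Node W : Type} [LinearOrder W] [WellFoundedLT W] {st : Node → W}
  {F : Node → Set (Code Node)}

theorem C5_sub {I : Type} {g g' : Set (I × Bool)} (h : g ⊆ g') (hg : IsFn g') : IsFn g :=
  ⟨hg.fin.subset h, fun ξ hξ => hg.cons ξ ⟨h hξ.1, h hξ.2⟩⟩

/- Let `D` be the set of the `(p, g)` with `IsFn g` and `Dec X (of p) g` or `Dec Xᶜ (of p) g`; take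
`D₀` from `exists_countable_pairs`, and `c` such that `cs c` contains all the `ξ` which occur in
some `g` with `(p, g) ∈ D₀`. Proof of `Supp`: let `b`, `g` be given, let `p ∈ b`. By `exists_dec`
for `of p` and `g` there are `b' ≤ of p` and `g' ⊇ g`, take `p' ∈ b'`, so `(p', g') ∈ D`
(`Dec.mono`). Take `(p₀, g₀) ∈ D₀` and `r ≤ p', p₀`. Use `of r` and `g ∪ g₀`. -/
theorem exists_supp {β : W} {I Cx : Type} {A : I → ℕ → RO (PP st F β)}
    {H : Set (ℕ → RO (PP st F β))} (hH : PosFilter (TFn I) A H) (cs : Cx → Set I)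
    (hcs : ∀ K : Set I, K.Countable → ∃ c, K ⊆ cs c) (X : ℕ → RO (PP st F β)) :
    ∃ c, Supp A H (cs c) X := by
  obtain ⟨D₀, hD₀, hcount, hmax⟩ := exists_countable_pairs
    {d : PP st F β × Set (I × Bool) | IsFn d.2 ∧
      (Dec A H X (RO.of d.1) d.2 ∨ Dec A H (fun k => (X k)ᶜ) (RO.of d.1) d.2)} (fun d hd => hd.1)
  obtain ⟨c, hc⟩ := hcs (⋃ d ∈ D₀, Prod.fst '' d.2)
    (hcount.biUnion (fun d hd => ((hD₀ hd).1.fin.image Prod.fst).countable))
  refine ⟨c, ?_⟩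
  intro b hb g hg hgc
  obtain ⟨p, hp⟩ := RO.ne_bot_iff.1 hb
  obtain ⟨b', hb', hb'0, g', hgg', hg', hdec⟩ := exists_dec hH X (RO.of_ne_bot p) hg
  obtain ⟨p', hp'⟩ := RO.ne_bot_iff.1 hb'0
  have hmem : (p', g') ∈ {d : PP st F β × Set (I × Bool) | IsFn d.2 ∧
      (Dec A H X (RO.of d.1) d.2 ∨ Dec A H (fun k => (X k)ᶜ) (RO.of d.1) d.2)} := by
    refine ⟨hg', ?_⟩
    rcases hdec with h | h
    · exact Or.inl (Dec.mono hH h (RO.of_le_iff.2 hp') subset_rfl)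
    · exact Or.inr (Dec.mono hH h (RO.of_le_iff.2 hp') subset_rfl)
  obtain ⟨⟨p₀, g₀⟩, hd₀, ⟨r, hr, hr₀⟩, hfn⟩ := hmax _ hmem
  have hpb : RO.of p ≤ b := RO.of_le_iff.2 hp
  have hrb : r ∈ b := hpb (hb' (RO.mem_of_le hr hp'))
  refine ⟨RO.of r, RO.of_le_iff.2 hrb, RO.of_ne_bot r, g ∪ g₀, Set.subset_union_left, ?_, ?_, ?_⟩
  · exact C5_sub (Set.union_subset_union_left g₀ hgg') hfn
  · rintro l (hl | hl)
    · exact hgc l hl
    · exact hc (Set.mem_biUnion hd₀ (Set.mem_image_of_mem _ hl))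
  · have hle : RO.of r ≤ RO.of p₀ := RO.of_le_iff.2 (RO.mem_of_le hr₀ (RO.self_mem_of p₀))
    rcases (hD₀ hd₀).2 with h | h
    · exact Or.inl (Dec.mono hH h hle Set.subset_union_right)
    · exact Or.inr (Dec.mono hH h hle Set.subset_union_right)

end Pool.Agent.LibTk83
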