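import Pool.Agent.LibTk83.RO
import Pool.Agent.LibTk83.CccDef

/-!
The collapse and the product with it: definitions.
-/

namespace Pool.Agent.LibTk83

/-- Each chain of at most `κ` conditions has a lower bound. -/
def Closed (κ : Cardinal.{0}) (Q : Type) [Preorder Q] : Prop :=
  ∀ S : Set Q, Cardinal.mk S ≤ κ → (∀ a ∈ S, ∀ b ∈ S, a ≤ b ∨ b ≤ a) → S.Nonempty →
    ∃ q, ∀ s ∈ S, q ≤ s

/-- Conditions of the collapse: functions from the initial segment `{v | v < len}` of `L` to `N`
(the other values of `f` do not matter). -/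
structure Col (L N : Type) where
  len : L
  f : L → N

instance {L N : Type} [LinearOrder L] : Preorder (Col L N) where
  le q' q := q.len ≤ q'.len ∧ ∀ v, v < q.len → q'.f v = q.f v
  le_refl q := ⟨le_rfl, fun _ _ => rfl⟩
  le_trans a b c hab hbc := ⟨hbc.1.trans hab.1, fun v hv =>
    (hab.2 v (hv.trans_le hbc.1)).trans (hbc.2 v hv)⟩

theorem Col.le_def {L N : Type} [LinearOrder L] {q' q : Col L N} :
    q' ≤ q ↔ q.len ≤ q'.len ∧ ∀ v, v < q.len → q'.f v = q.f v := Iff.rfl

theorem fst_open (P Q : Type) [Preorder P] [Preorder Q] :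
    OpenMap (Prod.fst : P × Q → P) where
  mono _ _ h := h.1
  lift p q h := ⟨(q, p.2), ⟨h, le_rfl⟩, le_rfl⟩

/-- The embedding of the algebra of `P` in the algebra of the product. -/
def inc {P Q : Type} [Preorder P] [Preorder Q] (b : RO P) : RO (P × Q) :=
  RO.comap (fst_open P Q) b

theorem mem_inc {P Q : Type} [Preorder P] [Preorder Q] {b : RO P} {p : P × Q} :
    p ∈ (inc b : RO (P × Q)) ↔ p.1 ∈ b := Iff.rfl

end Pool.Agent.LibTk83
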