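import Pool.Agent.LibTk83.P2

/-!
The embeddings of the algebras.
-/

namespace Pool.Agent.LibTk83

variable {Node W : Type} [LinearOrder W] [WellFoundedLT W] {st : Node → W}
  {F : Node → Set (Code Node)}

/-- The embedding of the algebras. -/
def emb {β γ : W} (h : γ ≤ β) (b : RO (PP st F γ)) : RO (PP st F β) := RO.comap (rs_open h) b

theorem mem_emb {β γ : W} (h : γ ≤ β) {b : RO (PP st F γ)} {p : PP st F β} :
    p ∈ emb h b ↔ rs γ p ∈ b := Iff.rfl

end Pool.Agent.LibTk83
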