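import Pool.Agent.LibTk83.K3
import Pool.Agent.LibTk83.UData

/-! Task K4: the collapse enumerates the reals. -/

namespace Pool.Agent.LibTk83

/- The lower bound of the chain `S`: `len` is a bound (`hL`) of the set of the `s.len`; `f v` is
`s.f v` for some `s ∈ S` with `v < s.len`, if there is one. -/
theorem col_closed {L N : Type} [LinearOrder L] {κ : Cardinal.{0}}
    (hL : ∀ C : Set L, Cardinal.mk C ≤ κ → ∃ w, ∀ v ∈ C, v ≤ w) : Closed κ (Col L N) := by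
  classical
  intro S hS hch hne
  obtain ⟨w, hw⟩ := hL (Col.len '' S) (Cardinal.mk_image_le.trans hS)
  obtain ⟨s₀, _⟩ := hne
  refine ⟨⟨w, fun v => if h : ∃ s ∈ S, v < s.len then h.choose.f v else s₀.f v⟩, fun s hs => ?_⟩
  rw [Col.le_def]
  refine ⟨hw _ ⟨s, hs, rfl⟩, fun v hv => ?_⟩
  have h : ∃ s ∈ S, v < s.len := ⟨s, hs, hv⟩
  show (if h : ∃ s ∈ S, v < s.len then h.choose.f v else s₀.f v) = s.f v
  rw [dif_pos h]
  obtain ⟨h1, h2⟩ := h.choose_spec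
  rcases hch _ h1 _ hs with h3 | h3
  · exact h3.2 v hv
  · exact (h3.2 v h2).symm

variable {P : Type} [Preorder P]

/- `e j k = RO.gen {a | j < a.2.len ∧ a.1 ∈ a.2.f j k}`. Let `X` and `(p, q)` be given
(`RO.eq_top_iff'`). Take `q' ≤ q` and `X'` from `real_name`, let `j = q'.len`, let `q''` be the
extension of `q'` by the value `X'` at `j`, of length some `l > j`. Then `(p, q'')` is in
`(X k ⇨ e j k) ⊓ (e j k ⇨ X k)` for all `k`, because for `q₁ ≤ q''`: `(p₁, q₁) ∈ e j k` iff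
`p₁ ∈ X' k`. -/
theorem exists_enum (hP : CCC P) {L : Type} [LinearOrder L] [NoMaxOrder L] {κ : Cardinal.{0}}
    (hκ : Cardinal.aleph0 ≤ κ)
    (hL : ∀ C : Set L, Cardinal.mk C ≤ κ → ∃ w, ∀ v ∈ C, v ≤ w) :
    ∃ e : L → ℕ → RO (P × Col L (ℕ → RO P)), ∀ X : ℕ → RO (P × Col L (ℕ → RO P)),
      ⨆ j, ⨅ k, ((X k ⇨ e j k) ⊓ (e j k ⇨ X k)) = ⊤ := by
  classical
  refine ⟨fun j k => RO.gen {a | j < a.2.len ∧ a.1 ∈ a.2.f j k}, fun X => ?_⟩
  rw [RO.eq_top_iff']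
  rintro ⟨p, q⟩
  obtain ⟨q', hq', X', hX'⟩ := real_name hP hκ (col_closed hL) X q
  obtain ⟨l, hl⟩ := exists_gt q'.len
  let q'' : Col L (ℕ → RO P) := ⟨l, fun v => if v < q'.len then q'.f v else X'⟩
  have hq''q' : q'' ≤ q' := by
    rw [Col.le_def]
    exact ⟨hl.le, fun v hv => if_pos hv⟩
  have hf : q''.f q'.len = X' := if_neg (lt_irrefl _)
  refine ⟨(p, q''), ⟨le_rfl, hq''q'.trans hq'⟩, ?_⟩
  refine le_iSup (fun j => ⨅ k, ((X k ⇨ RO.gen {a : P × Col L (ℕ → RO P) |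
    j < a.2.len ∧ a.1 ∈ a.2.f j k}) ⊓ (RO.gen {a : P × Col L (ℕ → RO P) |
    j < a.2.len ∧ a.1 ∈ a.2.f j k} ⇨ X k))) q'.len ?_
  rw [RO.mem_iInf]
  intro k
  rw [RO.mem_inf, RO.mem_himp, RO.mem_himp]
  have hfr : ∀ r : Col L (ℕ → RO P), r ≤ q'' → q'.len < r.len ∧ r.f q'.len = X' := by
    intro r hr
    rw [Col.le_def] at hr
    exact ⟨hl.trans_le hr.1, (hr.2 _ hl).trans hf⟩
  constructor
  · rintro ⟨p₁, q₁⟩ hb hbX
    have h1 : p₁ ∈ X' k := (hX' k p₁ q₁ (hb.2.trans hq''q')).mp hbX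
    rw [RO.mem_gen]
    intro c hc
    refine ⟨c, le_rfl, (p₁, q₁), ⟨(hfr q₁ hb.2).1, ?_⟩, hc⟩
    show p₁ ∈ q₁.f q'.len k
    rw [(hfr q₁ hb.2).2]
    exact h1
  · intro b hb hbe
    rw [RO.mem_gen] at hbe
    refine RO.mem_of_dense fun c hc => ?_
    obtain ⟨r, hr, t, ⟨ht1, ht2⟩, hrt⟩ := hbe c hc
    refine ⟨r, hr, ?_⟩
    have hrq : r.2 ≤ q'' := (hr.trans (hc.trans hb)).2
    have h1 : r.2.f q'.len = t.2.f q'.len := (Col.le_def.mp hrt.2).2 _ ht1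
    rw [(hfr r.2 hrq).2] at h1
    rw [← h1] at ht2
    exact (hX' k r.1 r.2 (hrq.trans hq''q')).mpr (RO.mem_of_le hrt.1 ht2)

theorem K4_comap_himp {P' Q' : Type} [Preorder P'] [Preorder Q'] {π : P' → Q'} (hπ : OpenMap π)
    (a b : RO Q') : RO.comap hπ (a ⇨ b) = RO.comap hπ a ⇨ RO.comap hπ b := by
  rw [himp_eq, himp_eq, RO.comap_sup, RO.comap_compl]

/- The images under `inc` (a `RO.comap`; `RO.comap_iSup` etc.; `inc` commutes with `⇨` because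
`a ⇨ b = b ⊔ aᶜ`, `himp_eq`). `ultra` needs `real_name`: let `x` and `(p, q)` be given; take `q'`,
`X'`; apply `U.ultra X'` at `p`. -/
theorem UData.lift (hP : CCC P) {Q : Type} [Preorder Q] {κ : Cardinal.{0}}
    (hκ : Cardinal.aleph0 ≤ κ) (hQ : Closed κ Q) {I : Type} (U : UData (RO P) I) :
    Nonempty (UData (RO (P × Q)) I) := by
  refine ⟨⟨fun i k => inc (U.D i k), fun i k => inc (U.A i k), ?_, ?_, ?_, ?_, ?_, ?_⟩⟩
  · intro i j
    have h := congrArg (RO.comap (fst_open P Q)) (U.dir i j)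
    simp only [RO.comap_iSup, RO.comap_iInf, K4_comap_himp, RO.comap_inf, RO.comap_top] at h
    exact h
  · intro i m
    have h := congrArg (RO.comap (fst_open P Q)) (U.inf i m)
    simp only [RO.comap_iSup, RO.comap_top] at h
    exact h
  · intro m
    have h := congrArg (RO.comap (fst_open P Q)) (U.nonpr m)
    simp only [RO.comap_iSup, RO.comap_compl, RO.comap_top] at h
    exact h
  · intro x
    rw [RO.eq_top_iff']
    rintro ⟨p, q⟩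
    obtain ⟨q', hq', X', hX'⟩ := real_name hP hκ hQ x q
    obtain ⟨p₁, hp₁, h1⟩ := (RO.eq_top_iff'.mp (U.ultra X')) p
    rw [RO.mem_iSup] at h1
    obtain ⟨p₂, hp₂, i, h2⟩ := h1 p₁ le_rfl
    rw [RO.mem_sup] at h2
    obtain ⟨p₃, hp₃, h3⟩ := h2 p₂ le_rfl
    refine ⟨(p₃, q'), ⟨hp₃.trans (hp₂.trans hp₁), hq'⟩, ?_⟩
    refine le_iSup (fun i => (⨅ k, (inc (U.D i k) ⇨ x k)) ⊔ ⨅ k, (inc (U.D i k) ⇨ (x k)ᶜ)) i ?_
    rcases h3 with h3 | h3
    · refine (le_sup_left : (⨅ k, (inc (U.D i k) ⇨ x k)) ≤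
        (⨅ k, (inc (U.D i k) ⇨ x k)) ⊔ ⨅ k, (inc (U.D i k) ⇨ (x k)ᶜ)) ?_
      rw [RO.mem_iInf] at h3 ⊢
      intro k
      rw [RO.mem_himp]
      rintro ⟨a, b⟩ hab hD
      have h4 := (RO.mem_himp.mp (h3 k)) a hab.1 hD
      exact (hX' k a b hab.2).mpr h4
    · refine (le_sup_right : (⨅ k, (inc (U.D i k) ⇨ (x k)ᶜ)) ≤
        (⨅ k, (inc (U.D i k) ⇨ x k)) ⊔ ⨅ k, (inc (U.D i k) ⇨ (x k)ᶜ)) ?_
      rw [RO.mem_iInf] at h3 ⊢
      intro k
      rw [RO.mem_himp]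
      rintro ⟨a, b⟩ hab hD
      have h4 := (RO.mem_himp.mp (h3 k)) a hab.1 hD
      rw [RO.mem_compl] at h4 ⊢
      rintro ⟨c, d⟩ hcd hx
      exact h4 c hcd.1 ((hX' k c d (hcd.2.trans hab.2)).mp hx)
  · intro j
    have h := congrArg (RO.comap (fst_open P Q)) (U.memA j)
    simp only [RO.comap_iSup, RO.comap_iInf, K4_comap_himp, RO.comap_top] at h
    exact h
  · intro i
    have h := congrArg (RO.comap (fst_open P Q)) (U.top i)
    simp only [RO.comap_iSup, RO.comap_iInf, K4_comap_himp, RO.comap_compl, RO.comap_top] at h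
    exact h

end Pool.Agent.LibTk83
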