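import Pool.Agent.LibTk83.GrDef

/-! Task Q2: cofinal families of countable sets. -/

namespace Pool.Agent.LibTk83

open Cardinal

theorem Q2_Iio {κ : Cardinal.{0}} (k : (Order.succ κ).ord.ToType) : #(Set.Iio k) ≤ κ := by
  have h5 : #(Set.Iio k) < Order.succ κ := by
    have h6 := mk_Iio_lt k (by rw [mk_ord_toType, Ordinal.type_toType])
    rwa [mk_ord_toType] at h6
  exact Order.lt_succ_iff.mp h5

theorem Q2_bounded {κ : Cardinal.{0}} (hκ : aleph0 ≤ κ) (K : Set (Order.succ κ).ord.ToType)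
    (hK : K.Countable) : ∃ x, K ⊆ Set.Iio x := by
  by_contra hcon
  push Not at hcon
  have h1 : ∀ x, ∃ k ∈ K, x ≤ k := by
    intro x
    obtain ⟨k, hk, hkx⟩ := Set.not_subset.mp (hcon x)
    exact ⟨k, hk, not_lt.mp hkx⟩
  have h2 : (Set.univ : Set (Order.succ κ).ord.ToType) ⊆
      ⋃ k : K, Set.Iic (k : (Order.succ κ).ord.ToType) := by
    intro x _
    obtain ⟨k, hk, hxk⟩ := h1 x
    exact Set.mem_iUnion.mpr ⟨⟨k, hk⟩, hxk⟩
  have h3 : ∀ k : (Order.succ κ).ord.ToType, #(Set.Iic k) ≤ κ := by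
    intro k
    have h4 : Set.Iic k = insert k (Set.Iio k) := by
      ext z
      rw [Set.mem_Iic, Set.mem_insert_iff, Set.mem_Iio, le_iff_eq_or_lt]
    rw [h4]
    refine (mk_insert_le).trans ?_
    calc #(Set.Iio k) + 1 ≤ κ + κ := add_le_add (Q2_Iio k) ((one_le_aleph0).trans hκ)
      _ = κ := add_eq_self hκ
  have h7 : Order.succ κ ≤ κ := by
    calc Order.succ κ = #(Order.succ κ).ord.ToType := (mk_ord_toType _).symm
      _ = #(Set.univ : Set (Order.succ κ).ord.ToType) := mk_univ.symm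
      _ ≤ #(⋃ k : K, Set.Iic (k : (Order.succ κ).ord.ToType) : Set _) := mk_le_mk_of_subset h2
      _ ≤ sum (fun k : K => #(Set.Iic (k : (Order.succ κ).ord.ToType))) := mk_iUnion_le_sum_mk
      _ ≤ sum (fun _ : K => κ) := sum_le_sum _ _ (fun k => h3 k)
      _ = #K * κ := sum_const' _ _
      _ ≤ aleph0 * κ := by
        gcongr
        exact mk_le_aleph0_iff.mpr (Set.countable_coe_iff.mpr hK)
      _ ≤ κ * κ := by gcongr
      _ = κ := mul_eq_self hκ
  exact (Order.lt_succ κ).not_ge h7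

/- Step: let `X` have the cardinality `succ κ`; replace `X` by `(succ κ).ord.ToType`. It is regular
and uncountable, so each countable set `K` is contained in some `Iio x`, and `#(Iio x) ≤ κ`; so
there are an injection `Iio x → Y`, where `#Y = κ`, and the family of `Y`, pulled back. The
index type is `X × C`. -/
theorem cofinal_step {κ : Cardinal.{0}} (hκ : aleph0 ≤ κ)
    (h : ∀ X : Type, #X = κ → ∃ (C : Type) (cs : C → Set X), #C ≤ κ ∧ (∀ c, (cs c).Countable) ∧
      ∀ K : Set X, K.Countable → ∃ c, K ⊆ cs c) (X : Type) (hX : #X = Order.succ κ) :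
    ∃ (C : Type) (cs : C → Set X), #C ≤ Order.succ κ ∧ (∀ c, (cs c).Countable) ∧
      ∀ K : Set X, K.Countable → ∃ c, K ⊆ cs c := by
  classical
  obtain ⟨C, cs, hC, hcs, hK⟩ := h κ.out (mk_out κ)
  obtain ⟨e⟩ : Nonempty (X ≃ (Order.succ κ).ord.ToType) := by
    rw [← Cardinal.eq, hX, mk_ord_toType]
  have hf : ∀ x : (Order.succ κ).ord.ToType, ∃ f : Set.Iio x → κ.out,
      Function.Injective f := by
    intro x
    have h1 : Nonempty (Set.Iio x ↪ κ.out) := by
      rw [← le_def, mk_out]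
      exact Q2_Iio x
    exact ⟨h1.some, h1.some.injective⟩
  choose f hfi using hf
  refine ⟨(Order.succ κ).ord.ToType × C,
    fun p => {z | ∃ hz : e z ∈ Set.Iio p.1, f p.1 ⟨e z, hz⟩ ∈ cs p.2}, ?_, ?_, ?_⟩
  · rw [mk_prod, lift_id, lift_id, mk_ord_toType]
    calc Order.succ κ * #C ≤ Order.succ κ * Order.succ κ := by
          gcongr
          exact hC.trans (Order.le_succ κ)
      _ = Order.succ κ := mul_eq_self (hκ.trans (Order.le_succ κ))
  · rintro ⟨x, c⟩
    have hcc : Countable (cs c) := Set.countable_coe_iff.mpr (hcs c)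
    rw [← Set.countable_coe_iff]
    let φ : {z | ∃ hz : e z ∈ Set.Iio x, f x ⟨e z, hz⟩ ∈ cs c} → cs c :=
      fun z => ⟨f x ⟨e z, z.2.choose⟩, z.2.choose_spec⟩
    have hφ : Function.Injective φ := by
      intro z w hzw
      have h1 : f x ⟨e z, z.2.choose⟩ = f x ⟨e w, w.2.choose⟩ := congrArg Subtype.val hzw
      have h2 := congrArg Subtype.val (hfi x h1)
      exact Subtype.ext (e.injective h2)
    exact hφ.countable
  · intro K hKc
    obtain ⟨x, hx⟩ := Q2_bounded hκ (e '' K) (hKc.image e)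
    have hxK : ∀ z ∈ K, e z ∈ Set.Iio x := fun z hz => hx ⟨z, hz, rfl⟩
    obtain ⟨c, hc⟩ := hK (Set.range fun z : K => f x ⟨e z, hxK z z.2⟩) (by
      have : Countable K := Set.countable_coe_iff.mpr hKc
      exact Set.countable_range _)
    refine ⟨(x, c), fun z hz => ⟨hxK z hz, hc ⟨⟨z, hz⟩, rfl⟩⟩⟩

theorem Q2_aleph (n : ℕ) : ∀ X : Type, #X = aleph n → ∃ (C : Type) (cs : C → Set X),
    #C ≤ aleph n ∧ (∀ c, (cs c).Countable) ∧ ∀ K : Set X, K.Countable → ∃ c, K ⊆ cs c := by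
  induction n with
  | zero =>
    intro X hX
    rw [Nat.cast_zero, aleph_zero] at hX
    refine ⟨Unit, fun _ => Set.univ, ?_, ?_, ?_⟩
    · rw [Nat.cast_zero, aleph_zero, mk_fintype]
      simp
    · intro _
      have : Countable X := mk_le_aleph0_iff.mp hX.le
      exact Set.countable_univ
    · intro K _
      exact ⟨(), Set.subset_univ K⟩
  | succ n ih =>
    intro X hX
    have h1 : aleph ((n + 1 : ℕ) : Ordinal.{0}) = Order.succ (aleph n) := by
      rw [Nat.cast_succ, succ_aleph]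
    rw [h1] at hX ⊢
    exact cofinal_step (aleph0_le_aleph _) ih X hX

/- Induction on `n` for `ℵ_n` (start: `Set.univ` if `X` is countable), then add a fixed countable
infinite subset to each member. -/
theorem exists_cofinal (n : ℕ) : ∃ (C : Type) (cs : C → Set (II n)), #C ≤ #(II n) ∧
    (∀ c, (cs c).Countable ∧ (cs c).Infinite) ∧ ∀ K : Set (II n), K.Countable → ∃ c, K ⊆ cs c := by
  have h0 : #(II n) = aleph (n + 1 : ℕ) := mk_Gt (n + 2)
  obtain ⟨C, cs, hC, hcs, hK⟩ := Q2_aleph (n + 1) (II n) h0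
  have hinf : Infinite (II n) := by
    rw [infinite_iff, h0]
    exact aleph0_le_aleph _
  let g : ℕ ↪ II n := Infinite.natEmbedding (II n)
  refine ⟨C, fun c => cs c ∪ Set.range g, by rw [h0]; exact hC, ?_, ?_⟩
  · intro c
    exact ⟨(hcs c).union (Set.countable_range g),
      (Set.infinite_range_of_injective g.injective).mono Set.subset_union_right⟩
  · intro K hKc
    obtain ⟨c, hc⟩ := hK K hKc
    exact ⟨c, hc.trans Set.subset_union_left⟩

/- The set of the finite partial functions on `C` which take the value `false` is countable and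
not empty, so there is a surjection from `ℕ`. -/
theorem exists_enum_fn {I : Type} (C : Set I) (hC : C.Countable) (hC' : C.Infinite) :
    ∃ G : ℕ → Set (I × Bool), (∀ k, IsFn (G k) ∧ (∀ l ∈ G k, l.1 ∈ C) ∧ ∃ ξ, (ξ, false) ∈ G k) ∧
      ∀ g : Set (I × Bool), IsFn g → (∀ l ∈ g, l.1 ∈ C) → (∃ ξ, (ξ, false) ∈ g) →
        ∃ k, G k = g := by
  let T : Set (Set (I × Bool)) :=
    {g | IsFn g ∧ (∀ l ∈ g, l.1 ∈ C) ∧ ∃ ξ, (ξ, false) ∈ g}
  have hcount : T.Countable := by
    have h1 : (C ×ˢ (Set.univ : Set Bool)).Countable := hC.prod Set.countable_univ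
    refine (Set.countable_ofPred_finite_subset h1).mono ?_
    rintro g ⟨hg1, hg2, -⟩
    exact ⟨hg1.fin, fun l hl => ⟨hg2 l hl, Set.mem_univ _⟩⟩
  have hne : T.Nonempty := by
    obtain ⟨ξ, hξ⟩ := hC'.nonempty
    refine ⟨{(ξ, false)}, ⟨Set.finite_singleton _, ?_⟩, ?_, ξ, rfl⟩
    · rintro ζ ⟨h1, -⟩
      have h2 : (ζ, true) = (ξ, false) := h1
      simp at h2
    · rintro l rfl
      exact hξ
  obtain ⟨G, hG⟩ := hcount.exists_eq_range hne
  refine ⟨G, fun k => ?_, fun g h1 h2 h3 => ?_⟩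
  · have h1 : G k ∈ T := by
      rw [hG]
      exact ⟨k, rfl⟩
    exact h1
  · have h4 : g ∈ T := ⟨h1, h2, h3⟩
    rw [hG] at h4
    exact h4

theorem exists_params : ∃ (Cx : ℕ → Type) (gC : ∀ n, Cx n → ℕ → Set (II n × Bool))
    (cs : ∀ n, Cx n → Set (II n)), Params gC cs ∧ ∀ n, #(Cx n) ≤ #(II n) := by
  choose Cx cs h1 h2 h3 using exists_cofinal
  choose gC h4 h5 using fun (n : ℕ) (c : Cx n) => exists_enum_fn (cs n c) (h2 n c).1 (h2 n c).2
  exact ⟨Cx, gC, cs, ⟨h3, fun n c => (h2 n c).2, fun n c k => h4 n c k,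
    fun n c g => h5 n c g⟩, h1⟩

end Pool.Agent.LibTk83
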