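import Pool.Agent.LibTk83.GrDef

/-! Task Q3: the type `ω_(ω+1)`. -/

namespace Pool.Agent.LibTk83

open Cardinal

theorem Q3_bounded {c : Cardinal.{0}} (hc : c.IsRegular) (C : Set c.ord.ToType) (hC : #C < c) :
    ∃ w, ∀ v ∈ C, v < w := by
  by_contra hcon
  have hcof : IsCofinal C := by
    intro x
    by_contra hx
    apply hcon
    refine ⟨x, fun v hv => ?_⟩
    by_contra hvx
    exact hx ⟨v, hv, not_lt.1 hvx⟩
  have h1 := Order.cof_le hcof
  rw [Ordinal.cof_toType, hc.cof_ord] at h1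
  exact absurd hC (not_lt.2 h1)

theorem Q3_lt : aleph Ordinal.omega0 < gc 0 := by
  show aleph Ordinal.omega0 < aleph (Ordinal.omega0 + 1)
  rw [Cardinal.aleph_lt_aleph]
  exact Order.lt_add_one_iff.2 le_rfl

theorem Q3_reg : (gc 0).IsRegular := isRegular_aleph_add_one _

theorem Q3_strict (C : Set LL) (hC : #C ≤ aleph Ordinal.omega0) : ∃ w, ∀ v ∈ C, v < w :=
  Q3_bounded Q3_reg C (lt_of_le_of_lt hC Q3_lt)

/- `ℵ_(ω+1)` is a successor cardinal, so it is regular (`Cardinal.isRegular_succ`), and a set of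
smaller cardinality is bounded. -/
theorem LL_bounded (C : Set LL) (hC : #C ≤ aleph Ordinal.omega0) : ∃ w, ∀ v ∈ C, v ≤ w := by
  obtain ⟨w, hw⟩ := Q3_strict C hC
  exact ⟨w, fun v hv => (hw v hv).le⟩

/- From `LL_bounded` or because `ℵ_(ω+1).ord` is a limit ordinal. -/
instance noMax_LL : NoMaxOrder LL := by
  refine ⟨fun a => ?_⟩
  obtain ⟨w, hw⟩ := Q3_strict {a} (by
    rw [Cardinal.mk_singleton]
    exact le_trans Cardinal.one_le_aleph0 (Cardinal.aleph0_le_aleph _))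
  exact ⟨w, hw a rfl⟩

theorem exists_LL_equiv : Nonempty (LL × ℕ ≃ LL) := by
  rw [← Cardinal.eq, Cardinal.mk_prod, Cardinal.lift_id, Cardinal.lift_id, mk_Gt, Cardinal.mk_nat]
  exact Cardinal.mul_eq_left (Cardinal.aleph0_le_aleph _) (Cardinal.aleph0_le_aleph _)
    Cardinal.aleph0_ne_zero

/- `#(Iio ζ) < ℵ_(ω+1)`, so it is at most `ℵ₀` or `ℵ_(n+1)` for some `n` or `ℵ_ω`. -/
theorem Iio_LL (ζ : LL) : Countable (Set.Iio ζ) ∨ ∃ k, Nonempty (Set.Iio ζ ≃ Gt k) := by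
  have hlt : #(Set.Iio ζ) < gc 0 := by
    have h := Cardinal.mk_Iio_lt ζ (by rw [mk_Gt]; simp)
    rwa [mk_Gt] at h
  rcases lt_or_ge #(Set.Iio ζ) ℵ₀ with hc | hc
  · exact Or.inl (Cardinal.mk_le_aleph0_iff.1 hc.le)
  · obtain ⟨o, ho'⟩ := Cardinal.mem_range_aleph_iff.2 hc
    have ho : #(Set.Iio ζ) = aleph o := ho'.symm
    have ho1 : o < Ordinal.omega0 + 1 := by
      rw [ho] at hlt
      exact Cardinal.aleph_lt_aleph.1 hlt
    rcases (Order.lt_add_one_iff.1 ho1).lt_or_eq with h2 | h2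
    · obtain ⟨n, rfl⟩ := Ordinal.lt_omega0.1 h2
      rcases n with _ | n
      · left
        rw [← Cardinal.mk_le_aleph0_iff, ho]
        simp
      · right
        refine ⟨n + 2, ?_⟩
        rw [← Cardinal.eq, mk_Gt, ho]
        rfl
    · right
      refine ⟨1, ?_⟩
      rw [← Cardinal.eq, mk_Gt, ho, h2]
      rfl

end Pool.Agent.LibTk83
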