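import Pool.Agent.LibTk83.RuleDef

/-! Task R1: the recursion. -/

namespace Pool.Agent.LibTk83

variable {W : Type} {I Cx : ℕ → Type} [LinearOrder W] [OrderBot W] [WellFoundedLT W]

/-- The restriction of a family of filters given by stages. -/
noncomputable def R1_F' (G : W → Nd W I Cx → Set (Code (Nd W I Cx))) (w : W) :
    Nd W I Cx → Set (Code (Nd W I Cx)) :=
  open Classical in fun μ => if stg μ < w then G (stg μ) μ else ∅

/-- The recursion on the stages. -/
noncomputable def R1_G (gC : ∀ n, Cx n → ℕ → Set (I n × Bool)) (cs : ∀ n, Cx n → Set (I n)) :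
    W → Nd W I Cx → Set (Code (Nd W I Cx)) :=
  (wellFounded_lt (α := W)).fix fun w ih =>
    open Classical in
    rule gC cs w
      (Valid stg (fun μ : Nd W I Cx => if h : stg μ < w then ih (stg μ) h μ else ∅) w)
      (Ord stg (fun μ : Nd W I Cx => if h : stg μ < w then ih (stg μ) h μ else ∅) w)
      (RR (fun μ : Nd W I Cx => if h : stg μ < w then ih (stg μ) h μ else ∅) w)

theorem R1_eq (gC : ∀ n, Cx n → ℕ → Set (I n × Bool)) (cs : ∀ n, Cx n → Set (I n)) (w : W) :
    R1_G gC cs w = rule gC cs w (Valid stg (R1_F' (R1_G gC cs) w) w)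
      (Ord stg (R1_F' (R1_G gC cs) w) w) (RR (R1_F' (R1_G gC cs) w) w) := by
  conv_lhs => unfold R1_G
  rw [WellFounded.fix_eq]
  rfl

/- Well-founded recursion on the stage `w` (`WellFounded.fix`, `WellFounded.fix_eq`): let
`G w : Nd → Set Code` be `rule gC cs w (Valid stg F' w) (Ord stg F' w) (RR F' w)` with
`F' μ = if h : stg μ < w then G (stg μ) μ else ∅`, and `F ν = G (stg ν) ν`. Then `F' μ = F μ` for
`stg μ < w`, so `valid_local`, `ord_local` and the definition of `RR` (it uses `F (un γ n)` and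
`Valid stg F γ` for `γ < w` only) give the equation. -/
theorem exists_F (gC : ∀ n, Cx n → ℕ → Set (I n × Bool)) (cs : ∀ n, Cx n → Set (I n)) :
    ∃ F : Nd W I Cx → Set (Code (Nd W I Cx)), IsF gC cs F := by
  refine ⟨fun ν => R1_G gC cs (stg ν) ν, ?_⟩
  have hF : ∀ w : W, ∀ μ : Nd W I Cx, stg μ < w →
      R1_F' (R1_G gC cs) w μ = R1_G gC cs (stg μ) μ := by
    intro w μ hμ
    unfold R1_F'
    exact if_pos hμ
  intro ν
  have h1 : R1_G gC cs (stg ν) ν = rule gC cs (stg ν) (Valid stg (R1_F' (R1_G gC cs) (stg ν)) (stg ν))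
      (Ord stg (R1_F' (R1_G gC cs) (stg ν)) (stg ν)) (RR (R1_F' (R1_G gC cs) (stg ν)) (stg ν)) ν :=
    congrFun (R1_eq gC cs (stg ν)) ν
  have h2 : Valid stg (R1_F' (R1_G gC cs) (stg ν)) (stg ν) =
      Valid stg (fun ν => R1_G gC cs (stg ν) ν) (stg ν) := valid_local (fun μ hμ => hF _ μ hμ)
  have h3 : Ord stg (R1_F' (R1_G gC cs) (stg ν)) (stg ν) =
      Ord stg (fun ν => R1_G gC cs (stg ν) ν) (stg ν) := ord_local (fun μ hμ => hF _ μ hμ)
  have h4 : RR (R1_F' (R1_G gC cs) (stg ν)) (stg ν) =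
      RR (fun ν => R1_G gC cs (stg ν) ν) (stg ν) := by
    funext n
    unfold RR
    ext S
    have hv : ∀ γ : W, γ < stg ν → Valid stg (R1_F' (R1_G gC cs) (stg ν)) γ =
        Valid stg (fun ν => R1_G gC cs (stg ν) ν) γ := fun γ hγ =>
      valid_local (fun μ hμ => hF _ μ (hμ.trans hγ))
    constructor
    · rintro ⟨γ, h0, hγ, x, hx, hS⟩
      refine ⟨γ, h0, hγ, x, ?_, ?_⟩
      · rw [hF (stg ν) (Nd.un γ n) hγ] at hx
        exact hx
      · rw [hS, hv γ hγ]
    · rintro ⟨γ, h0, hγ, x, hx, hS⟩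
      refine ⟨γ, h0, hγ, x, ?_, ?_⟩
      · rw [hF (stg ν) (Nd.un γ n) hγ]
        exact hx
      · rw [hS, hv γ hγ]
  rw [h2, h3, h4] at h1
  exact h1

end Pool.Agent.LibTk83
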