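import Pool.Agent.LibTk83.H4
import Pool.Agent.LibTk83.R1
import Pool.Agent.LibTk83.K4
import Pool.Agent.LibTk83.Q1
import Pool.Agent.LibTk83.Q2
import Pool.Agent.LibTk83.Q3
import Pool.Agent.LibTk83.ModelDef

/-!
The properties of the forcing notion which are used in the Boolean-valued universe.
-/

namespace Pool.Agent.LibTk83

open Cardinal

theorem exists_model : ∃ (B : Type) (_ : CompleteBooleanAlgebra B) (_ : Nontrivial B),
    Nonempty (Model B) := by
  obtain ⟨W, _, _, _, _, hW1, hbt, hW⟩ := exists_stages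
  obtain ⟨Cx, gC, cs, hP, hCx⟩ := exists_params
  obtain ⟨F, hF⟩ := exists_F (W := W) gC cs
  have hU : ∀ n, Nonempty (UData (RO (PP stg F (⊤ : W))) (II n)) := fun n =>
    exists_UData_stage hP hF hW hbt n
      (Cardinal.infinite_iff.2 ((aleph0_le_aleph 1).trans (aleph_one_le_II n)))
      (hW1.trans (aleph_one_le_II n)) (hCx n)
  have hc : CCC (PP stg F (⊤ : W)) := ccc_PP ⊤
  have hκ : aleph0 ≤ aleph Ordinal.omega0 := aleph0_le_aleph _
  have hQ : Closed (aleph Ordinal.omega0) (Col LL (ℕ → RO (PP stg F (⊤ : W)))) :=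
    col_closed LL_bounded
  obtain ⟨e, he⟩ := exists_enum hc hκ LL_bounded
  have hu : ∀ n, Nonempty (UData (RO (PP stg F (⊤ : W) × Col LL (ℕ → RO (PP stg F (⊤ : W)))))
      (II n)) := fun n => (hU n).elim fun u => u.lift hc hκ hQ
  have hlt : ∀ n, aleph0 < #(II n) := fun n =>
    (aleph0_lt_aleph_one).trans_le (aleph_one_le_II n)
  have : Nonempty (PP stg F (⊤ : W)) :=
    ⟨⟨∅, ⟨Set.finite_empty, fun s hs => absurd hs (Set.notMem_empty s),
      fun ν x hx => absurd hx (Set.notMem_empty _)⟩⟩⟩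
  have : Nonempty LL := by
    have : #LL ≠ 0 := by
      rw [mk_Gt]
      exact (aleph_pos _).ne'
    exact Cardinal.mk_ne_zero_iff.1 this
  have : Nonempty (Col LL (ℕ → RO (PP stg F (⊤ : W)))) := ⟨⟨Classical.arbitrary _, fun _ _ => ⊤⟩⟩
  refine ⟨RO (PP stg F (⊤ : W) × Col LL (ℕ → RO (PP stg F (⊤ : W)))), inferInstance,
    inferInstance, ⟨⟨fun n => Classical.choice (hu n), ?_, ?_, e, he⟩⟩⟩
  · intro m n hmn r hr
    exact no_surj hc hκ hQ (II_le m) (II_lt hmn) (hlt n) r hr
  · intro n r hr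
    exact no_surj hc hκ hQ (by simp) (by simpa using hlt n) (hlt n) r hr

end Pool.Agent.LibTk83
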