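import Pool.Agent.LibTk83.RuleDef
import Pool.Agent.LibTk83.C4

/-! Task G1: the filters of the nodes, the embeddings. -/

namespace Pool.Agent.LibTk83

variable {W : Type} {I Cx : ℕ → Type} [LinearOrder W] [OrderBot W] [WellFoundedLT W]
  {gC : ∀ n, Cx n → ℕ → Set (I n × Bool)} {cs : ∀ n, Cx n → Set (I n)}
  {F : Nd W I Cx → Set (Code (Nd W I Cx))}

theorem G1_rule (hF : IsF gC cs F) (ν : Nd W I Cx) :
    F ν = filt (Valid stg F (stg ν)) (Ord stg F (stg ν)) gC cs (stg ν) (RR F (stg ν)) ν := by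
  conv_lhs => rw [hF ν]
  unfold rule
  rw [dif_pos (ord_isPre (st := stg) (F := F) (stg ν))]

/- All four from `hF`, unfolding `rule` (`dif_pos (ord_isPre _)`) and `filt`. -/
theorem F_coh (hF : IsF gC cs F) (n : ℕ) (ξ : I n) :
    F (Nd.coh n ξ) = {x | ∃ m, ∀ k, m ≤ k → (vl x k : RO (PP stg F (⊥ : W))) = ⊤} :=
  G1_rule hF (Nd.coh n ξ)

theorem F_hn (hF : IsF gC cs F) (w : W) (n : ℕ) :
    F (Nd.hn w n) = {x | (vl x : ℕ → RO (PP stg F w)) ∈ HH F w n} :=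
  G1_rule hF (Nd.hn w n)

theorem F_un (hF : IsF gC cs F) (w : W) (n : ℕ) :
    F (Nd.un w n) = {x | (vl x : ℕ → RO (PP stg F w)) ∈ UU gC F w n} :=
  G1_rule hF (Nd.un w n)

theorem F_cn (hF : IsF gC cs F) (w : W) (n : ℕ) (c : Cx n) :
    F (Nd.cn w n c) = {x | ∃ X ∈ UU gC F w n, Supp (AA n) (HH F w n) (cs n c) X ∧
      ∀ k, hat (AA n) (HH F w n) (gC n c) X k ≤ vl x k} :=
  G1_rule hF (Nd.cn w n c)

/- `emb_zz`; `emb` is a `RO.comap`, so `RO.comap_iInf` etc. apply. -/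
theorem emb_AA {β γ : W} (h : γ ≤ β) (hγ : ⊥ < γ) (n : ℕ) (ξ : I n) (k : ℕ) :
    emb h (AA n ξ k : RO (PP stg F γ)) = AA n ξ k :=
  emb_zz h (ν := Nd.coh n ξ) hγ k

theorem emb_Ag {β γ : W} (h : γ ≤ β) (hγ : ⊥ < γ) (n : ℕ) (g : Set (I n × Bool)) (k : ℕ) :
    emb h (Ag (AA n) g k : RO (PP stg F γ)) = Ag (AA n) g k := by
  unfold Ag emb
  rw [RO.comap_iInf]
  refine iInf_congr fun l => ?_
  rw [RO.comap_iInf]
  refine iInf_congr fun _ => ?_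
  have h1 : RO.comap (rs_open h) (AA n l.1 k : RO (PP stg F γ)) = AA n l.1 k :=
    emb_AA h hγ n l.1 k
  unfold lit
  split_ifs
  · exact h1
  · rw [RO.comap_compl, h1]

theorem emb_BB {β γ δ : W} (h : γ ≤ β) (hδ : δ < γ) (hδ' : ⊥ < δ) (n : ℕ) (c : Cx n) (k : ℕ) :
    emb h (BB gC n δ c k : RO (PP stg F γ)) = BB gC n δ c k := by
  unfold BB emb
  rw [RO.comap_iSup]
  refine iSup_congr fun j => ?_
  have h1 : RO.comap (rs_open h) (zz (Nd.cn δ n c) j : RO (PP stg F γ)) = zz (Nd.cn δ n c) j :=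
    emb_zz h (ν := Nd.cn δ n c) hδ j
  have h2 : RO.comap (rs_open h) (Ag (AA n) (gC n c j) k : RO (PP stg F γ)) =
      Ag (AA n) (gC n c j) k := emb_Ag h (hδ'.trans hδ) n _ k
  rw [RO.comap_inf, h1, h2]

end Pool.Agent.LibTk83
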