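import Pool.Agent.LibTk83.G1
import Pool.Agent.LibTk83.A2

/-! Task G2: genericity of the Cohen reals. -/

namespace Pool.Agent.LibTk83

variable {W : Type} {I Cx : ℕ → Type} [LinearOrder W] [OrderBot W] [WellFoundedLT W]
  {gC : ∀ n, Cx n → ℕ → Set (I n × Bool)} {cs : ∀ n, Cx n → Set (I n)}
  {F : Nd W I Cx → Set (Code (Nd W I Cx))}

/-- The code of `ℕ ∖ {k}`. -/
noncomputable def cok (Node : Type) (k : ℕ) : Code Node :=
  .ofStmts fun j _ => if j = k then none else some []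

private theorem conds_cok_self (Node : Type) (k : ℕ) : (cok Node k).conds k = ∅ := by
  ext c
  simp [cok, Code.conds, Code.stmts_ofStmts]

private theorem conds_cok_ne (Node : Type) {k j : ℕ} (h : j ≠ k) :
    (cok Node k).conds j = {∅} := by
  ext c
  simp [cok, Code.conds, Code.stmts_ofStmts, h]

private theorem vl_cok_self (β : W) (k : ℕ) :
    (vl (cok (Nd W I Cx) k) k : RO (PP stg F β)) = ⊥ := by
  apply le_bot_iff.1
  intro p hp
  unfold vl nm at hp
  rw [conds_cok_self] at hp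
  obtain ⟨r, -, s, hs, -⟩ := RO.mem_gen.1 hp p le_rfl
  exact absurd hs (by simp)

private theorem vl_cok_ne (β : W) {k j : ℕ} (h : j ≠ k) :
    (vl (cok (Nd W I Cx) k) j : RO (PP stg F β)) = ⊤ := by
  refine top_le_iff.1 fun p _ => ?_
  unfold vl nm
  rw [conds_cok_ne _ h]
  have hv : Valid stg F β ∅ := by
    refine ⟨Set.finite_empty, ?_, ?_⟩
    · intro s hs
      exact absurd hs (Set.notMem_empty _)
    · intro ν x hx
      exact absurd hx (Set.notMem_empty _)
  refine RO.mem_gen.2 fun q _ => ⟨q, le_rfl, (⟨∅, hv⟩ : PP stg F β), rfl, ?_⟩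
  refine PP.le_def.2 ?_
  rw [ord_iff]
  refine ⟨Set.empty_subset _, ?_⟩
  intro ν k x _ _ hx
  exact absurd hx (Set.notMem_empty _)

/- `RO.eq_top_iff'`: let `p` be given. Choose `k ≥ m` such that `(coh n ξ, inl k) ∉ p` for all `ξ`
in `g` and `vl x k = ⊤` for all promises `(coh n ξ, inr x) ∈ p` (finitely many; `F_coh`). Add first
the promises `cok k` at `coh n ξ` for `(ξ, false) ∈ g` (`add_promises`; `vl (cok k) j = ⊤` for
`j ≠ k`, because the empty condition is the largest one; `vl (cok k) k = ⊥`); by `promise` the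
result is in `(zz (coh n ξ) k)ᶜ`. Then apply `extend` with `γ = ⊥`, `r = rs ⊥ p` and
`T = {(coh n ξ, k) | (ξ, true) ∈ g}`. -/
theorem cohen_generic (hF : IsF gC cs F) {w : W} (hw : ⊥ < w) (n : ℕ) {g : Set (I n × Bool)}
    (hg : IsFn g) (m : ℕ) :
    ⨆ k, ⨆ (_ : m ≤ k), (Ag (AA n) g k : RO (PP stg F w)) = ⊤ := by
  rw [RO.eq_top_iff']
  intro p
  have hev : ∀ᶠ k in Filter.atTop, ∀ s ∈ p.1, (∀ j, s.2 = Sum.inl j → j < k) ∧
      ∀ ξ x, s = (Nd.coh n ξ, Sum.inr x) → (vl x k : RO (PP stg F (⊥ : W))) = ⊤ := by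
    rw [Filter.eventually_all_finite p.2.fin]
    rintro ⟨ν, a⟩ hs
    rcases a with j | x
    · filter_upwards [Filter.eventually_gt_atTop j] with k hk
      refine ⟨fun j' hj' => ?_, fun ξ x h => ?_⟩
      · have h1 := Sum.inl.inj hj'
        rw [← h1]
        exact hk
      · have h1 := congrArg Prod.snd h
        simp at h1
    · by_cases hν : ∃ ξ, ν = Nd.coh n ξ
      · obtain ⟨ξ, rfl⟩ := hν
        have h1 := p.2.mem _ _ hs
        rw [F_coh hF] at h1
        obtain ⟨m₁, hm₁⟩ := h1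
        filter_upwards [Filter.eventually_ge_atTop m₁] with k hk
        refine ⟨fun j' hj' => ?_, fun ξ' x' h => ?_⟩
        · simp at hj'
        · have h1 := congrArg Prod.snd h
          simp only [Sum.inr.injEq] at h1
          rw [← h1]
          exact hm₁ k hk
      · filter_upwards with k
        refine ⟨fun j' hj' => ?_, fun ξ' x' h => ?_⟩
        · simp at hj'
        · exact absurd ⟨ξ', congrArg Prod.fst h⟩ hν
  obtain ⟨k, hk, hmk⟩ := (hev.and (Filter.eventually_ge_atTop m)).exists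
  -- the promises
  set Q : Set (Nd W I Cx × Code (Nd W I Cx)) :=
    (fun ξ : I n => (Nd.coh n ξ, cok (Nd W I Cx) k)) '' {ξ | (ξ, false) ∈ g} with hQdef
  have hfin : ∀ b : Bool, ({ξ | (ξ, b) ∈ g} : Set (I n)).Finite := by
    intro b
    refine (hg.fin.image Prod.fst).subset ?_
    intro ξ hξ
    exact ⟨(ξ, b), hξ, rfl⟩
  have hQ : Q.Finite := (hfin false).image _
  obtain ⟨p₁, hp₁, hp₁'⟩ := add_promises p Q hQ (by
    rintro t ⟨ξ, hξ, rfl⟩
    refine ⟨hw, ?_⟩
    rw [F_coh hF]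
    refine ⟨k + 1, fun j hj => vl_cok_ne _ ?_⟩
    omega)
  set T : Set (Nd W I Cx × ℕ) := (fun ξ : I n => (Nd.coh n ξ, k)) '' {ξ | (ξ, true) ∈ g} with hTdef
  obtain ⟨p', hp', hrs, hp'1⟩ := extend hw p₁ (rs ⊥ p₁) le_rfl T ((hfin true).image _)
    (by
      rintro t ⟨ξ, hξ, rfl⟩
      rfl)
    (by
      rintro t ⟨ξ, hξ, rfl⟩ x hx
      simp only at hx ⊢
      rw [hp₁'] at hx
      rcases hx with hx | hx
      · rw [(hk _ hx).2 ξ x rfl]
        exact RO.mem_top
      · exfalso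
        obtain ⟨t, ⟨ξ', hξ', rfl⟩, ht⟩ := hx
        simp only [Prod.mk.injEq] at ht
        have h1 : ξ' = ξ := by
          have h2 := ht.1
          simpa using h2
        subst h1
        exact hg.cons _ ⟨hξ, hξ'⟩)
  refine ⟨p', hp'.trans hp₁, ?_⟩
  refine (le_iSup₂ (f := fun k (_ : m ≤ k) => (Ag (AA n) g k : RO (PP stg F w))) k hmk) ?_
  unfold Ag
  rw [RO.mem_iInf]
  intro l
  rw [RO.mem_iInf]
  intro hl
  obtain ⟨ξ, b⟩ := l
  cases b
  · have h1 : (lit (AA n) (ξ, false) k : RO (PP stg F w)) = (zz (Nd.coh n ξ) k)ᶜ := by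
      simp [lit, AA]
    rw [h1]
    have hmem : (Nd.coh n ξ, Sum.inr (cok (Nd W I Cx) k)) ∈ p'.1 := by
      rw [hp'1, hp₁']
      exact Or.inl (Or.inl (Or.inr ⟨(Nd.coh n ξ, cok _ k), ⟨ξ, hl, rfl⟩, rfl⟩))
    have hnot1 : (Nd.coh n ξ, Sum.inl k) ∉ p₁.1 := by
      rw [hp₁']
      rintro (h | h)
      · exact absurd ((hk _ h).1 k rfl) (lt_irrefl _)
      · obtain ⟨t, -, ht⟩ := h
        have h2 := congrArg Prod.snd ht
        simp at h2
    have hnot : (Nd.coh n ξ, Sum.inl k) ∉ p'.1 := by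
      rw [hp'1]
      rintro ((h | h) | h)
      · exact hnot1 h
      · exact hnot1 h.1
      · obtain ⟨t, ⟨ξ', hξ', rfl⟩, ht⟩ := h
        simp only [Prod.mk.injEq] at ht
        have h2 : ξ' = ξ := by
          have h3 := ht.1
          simpa using h3
        subst h2
        exact hg.cons _ ⟨hξ', hl⟩
    have h2 := promise p' hmem hnot (show stg (Nd.coh n ξ : Nd W I Cx) ≤ w from hw.le)
    rw [RO.mem_himp] at h2
    rw [RO.mem_compl]
    intro q hq hqz
    have h3 := h2 q hq hqz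
    rw [mem_emb] at h3
    rw [vl_cok_self] at h3
    exact RO.not_mem_bot h3
  · have h1 : (lit (AA n) (ξ, true) k : RO (PP stg F w)) = zz (Nd.coh n ξ) k := by
      simp [lit, AA]
    rw [h1, mem_zz]
    intro q hq
    refine ⟨q, le_rfl, ?_⟩
    have h2 := ((ord_iff _ _ _ _ _).1 (PP.le_def.1 hq)).1
    apply h2
    rw [hp'1]
    exact Or.inr ⟨(Nd.coh n ξ, k), ⟨ξ, hl, rfl⟩, rfl⟩

end Pool.Agent.LibTk83
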