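import Pool.Agent.LibTk83.G1
import Pool.Agent.LibTk83.A4

/-! Task G3: the sets `Y`. -/

namespace Pool.Agent.LibTk83

variable {W : Type} {I Cx : ℕ → Type} [LinearOrder W] [OrderBot W] [WellFoundedLT W]
  {gC : ∀ n, Cx n → ℕ → Set (I n × Bool)} {cs : ∀ n, Cx n → Set (I n)}
  {F : Nd W I Cx → Set (Code (Nd W I Cx))}

theorem G3_mem_zz {w : W} {ν : Nd W I Cx} {k : ℕ} {p : PP stg F w} (h : (ν, Sum.inl k) ∈ p.1) :
    p ∈ (zz ν k : RO (PP stg F w)) := by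
  rw [mem_zz]
  intro q hq
  exact ⟨q, le_rfl, ((ord_iff stg F w q.1 p.1).1 (PP.le_def.1 hq)).1 h⟩

/- Let `p` be given. The intersection `X` of the values (at stage `γ`) of the finitely many
promises of `p` at `hn γ n` is in `HH F γ n` (`F_hn`, `PosFilter.biInf`). By `pos` there are
`r ≤ rs γ p` and `k ≥ m` with `r ∈ Ag (AA n) g k ⊓ X k`. Use `extend` with `T = {(hn γ n, k)}`;
`emb_Ag` and `mem_emb` give that `p' ∈ Ag (AA n) g k`. -/
theorem Y_generic (hF : IsF gC cs F) {γ w : W} (hγ : ⊥ < γ) (h : γ < w) {n : ℕ}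
    (hG : PosFilter (TFn (I n)) (AA n) (HH F γ n)) {g : Set (I n × Bool)} (hg : IsFn g) (m : ℕ) :
    ⨆ k, ⨆ (_ : m ≤ k), (Ag (AA n) g k ⊓ zz (Nd.hn γ n) k : RO (PP stg F w)) = ⊤ := by
  rw [RO.eq_top_iff']
  intro p
  have hQfin : {x : Code (Nd W I Cx) | (Nd.hn γ n, Sum.inr x) ∈ p.1}.Finite := by
    refine Set.Finite.of_finite_image
      (f := fun x => ((Nd.hn γ n, Sum.inr x) : Stmt (Nd W I Cx))) (p.2.fin.subset ?_) ?_
    · rintro _ ⟨x, hx, rfl⟩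
      exact hx
    · intro x _ y _ hxy
      simpa using hxy
  have hQH : ∀ x ∈ {x : Code (Nd W I Cx) | (Nd.hn γ n, Sum.inr x) ∈ p.1},
      (vl x : ℕ → RO (PP stg F γ)) ∈ HH F γ n := by
    intro x hx
    have h1 := p.2.mem _ _ hx
    rw [F_hn hF] at h1
    exact h1
  have hX := hG.biInf hQfin (fun x => (vl x : ℕ → RO (PP stg F γ))) hQH
  have hpos := hG.pos _ hX g hg m
  rw [RO.eq_top_iff'] at hpos
  obtain ⟨r₀, hr₀, hr₀'⟩ := hpos (rs γ p)
  rw [RO.mem_iSup] at hr₀'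
  obtain ⟨r, hr, k, hrk⟩ := hr₀' r₀ le_rfl
  rw [RO.mem_iSup] at hrk
  obtain ⟨r', hr', hmk, hrk'⟩ := hrk r le_rfl
  rw [RO.mem_inf] at hrk'
  obtain ⟨hA, hX'⟩ := hrk'
  rw [RO.mem_iInf] at hX'
  obtain ⟨p', hp'p, hp'r, hp'⟩ := extend h p r' (hr'.trans (hr.trans hr₀)) {(Nd.hn γ n, k)}
    (Set.finite_singleton _) (by
      intro t ht
      rw [Set.mem_singleton_iff] at ht
      subst ht
      rfl) (by
      intro t ht x hx
      rw [Set.mem_singleton_iff] at ht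
      subst ht
      have h2 := hX' x
      rw [RO.mem_iInf] at h2
      exact h2 hx)
  refine ⟨p', hp'p, ?_⟩
  refine (le_iSup₂ (f := fun (k : ℕ) (_ : m ≤ k) =>
    (Ag (AA n) g k ⊓ zz (Nd.hn γ n) k : RO (PP stg F w))) k hmk) (RO.mem_inf.2 ⟨?_, ?_⟩)
  · rw [← emb_Ag h.le hγ n g k, mem_emb, hp'r]
    exact hA
  · refine G3_mem_zz ?_
    rw [hp']
    exact Or.inr ⟨(Nd.hn γ n, k), rfl, rfl⟩

/- Let `p` be given. Add the promise `(hn γ n, inr x)`, where `x` is a code of `X` (`exists_code`,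
`F_hn`, `add_promises`), and let `m` be above all `k` with `(hn γ n, inl k) ∈ p`; `promise`. -/
theorem Y_almost (hF : IsF gC cs F) {γ w : W} (h : γ < w) {n : ℕ}
    {X : ℕ → RO (PP stg F γ)} (hX : X ∈ HH F γ n) :
    ⨆ m, ⨅ k, ⨅ (_ : m ≤ k), (zz (Nd.hn γ n) k ⇨ emb h.le (X k) : RO (PP stg F w)) = ⊤ := by
  obtain ⟨x, -, hx⟩ := exists_code X
  have hxX : (vl x : ℕ → RO (PP stg F γ)) = X := funext hx
  have hxF : x ∈ F (Nd.hn γ n) := by
    rw [F_hn hF]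
    change (vl x : ℕ → RO (PP stg F γ)) ∈ HH F γ n
    rw [hxX]
    exact hX
  rw [RO.eq_top_iff']
  intro p
  obtain ⟨p', hp', hp'1⟩ := add_promises p {((Nd.hn γ n : Nd W I Cx), x)}
    (Set.finite_singleton _) (by
      intro t ht
      rw [Set.mem_singleton_iff] at ht
      subst ht
      exact ⟨h, hxF⟩)
  have hfin : {k : ℕ | (((Nd.hn γ n : Nd W I Cx), Sum.inl k) : Stmt (Nd W I Cx)) ∈ p'.1}.Finite := by
    refine Set.Finite.of_finite_image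
      (f := fun k => (((Nd.hn γ n : Nd W I Cx), Sum.inl k) : Stmt (Nd W I Cx)))
      (p'.2.fin.subset ?_) ?_
    · rintro _ ⟨x, hx, rfl⟩
      exact hx
    · intro x _ y _ hxy
      simpa using hxy
  obtain ⟨m, hm⟩ := hfin.bddAbove
  refine ⟨p', hp', ?_⟩
  refine (le_iSup (fun m : ℕ => ⨅ k, ⨅ (_ : m ≤ k),
    (zz (Nd.hn γ n) k ⇨ emb h.le (X k) : RO (PP stg F w))) (m + 1)) ?_
  rw [RO.mem_iInf]
  intro k
  rw [RO.mem_iInf]
  intro hk
  have h3 : p' ∈ (zz (Nd.hn γ n) k ⇨ emb h.le (vl x k) : RO (PP stg F w)) := by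
    refine promise p' (ν := Nd.hn γ n) (x := x) ?_ ?_ h.le
    · rw [hp'1]
      exact Or.inr ⟨((Nd.hn γ n : Nd W I Cx), x), rfl, rfl⟩
    · intro hk'
      have := hm hk'
      omega
  rwa [hx] at h3

/- `PosFilter.almost` and `Y_almost`. -/
theorem emb_mem_HH (hF : IsF gC cs F) {γ w : W} (h : γ < w) {n : ℕ}
    (hH : PosFilter (TFn (I n)) (AA n) (HH F w n))
    (hY : (zz (Nd.hn γ n) : ℕ → RO (PP stg F w)) ∈ HH F w n)
    {X : ℕ → RO (PP stg F γ)} (hX : X ∈ HH F γ n) : (fun k => emb h.le (X k)) ∈ HH F w n :=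
  hH.almost hY (Y_almost hF h hX)

end Pool.Agent.LibTk83
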