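import Pool.Agent.LibTk83.G2
import Pool.Agent.LibTk83.G3
import Pool.Agent.LibTk83.A1

/-! Task G4: existence of `H_w`. -/

namespace Pool.Agent.LibTk83

variable {W : Type} {I Cx : ℕ → Type} [LinearOrder W] [OrderBot W] [WellFoundedLT W]
  {gC : ∀ n, Cx n → ℕ → Set (I n × Bool)} {cs : ∀ n, Cx n → Set (I n)}
  {F : Nd W I Cx → Set (Code (Nd W I Cx))}

/- `exists_posFilter`. Let `s` be a finite subset. If it is empty: `cohen_generic`. Otherwise let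
`γ` be the largest of the finitely many chosen stages (one for each member of `s`). For the other
stages `δ < γ` we have `zz (hn δ n) ∈ HH F γ n` (`Good.hY`), so by `Y_almost` and `emb_zz`
`⨆ m, ⨅ k ≥ m, zz (hn γ n) k ⇨ zz (hn δ n) k = ⊤`; the same for `⨅ X ∈ s, X k` instead of
`zz (hn δ n) k` (first take `X₀ = ⨅ δ, zz (hn δ n) ∈ HH F γ n` by `PosFilter.biInf`, then
`Y_almost` once). With `Y_generic` for `γ` the claim follows. -/
theorem exists_H (hF : IsF gC cs F) {w : W} (hw : ⊥ < w) {n : ℕ}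
    (IH : ∀ v, ⊥ < v → v < w → Good gC F v n) :
    ∃ H, {X : ℕ → RO (PP stg F w) | ∃ γ, ⊥ < γ ∧ γ < w ∧ X = zz (Nd.hn γ n)} ⊆ H ∧
      PosFilter (TFn (I n)) (AA n) H := by
  classical
  refine exists_posFilter _ _ _ fun s hs g hg m => ?_
  choose! f hf using hs
  -- the finite set of stages
  rcases s.eq_empty_or_nonempty with rfl | hne
  · have h1 := cohen_generic hF hw n hg m
    simpa using h1
  obtain ⟨X₁, hX₁, hmax⟩ := s.exists_max_image f hne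
  obtain ⟨hγ, hγw, hX₁'⟩ := hf X₁ hX₁
  generalize hγdef : f X₁ = γ at hγ hγw hX₁' hmax
  have hG := IH γ hγ hγw
  have hX₀ : (fun k => ⨅ δ ∈ {δ : W | δ < γ ∧ ∃ X ∈ s, δ = f X},
      (zz (Nd.hn δ n) k : RO (PP stg F γ))) ∈ HH F γ n := by
    refine hG.hH.biInf ?_ (fun δ => (zz (Nd.hn δ n) : ℕ → RO (PP stg F γ))) ?_
    · refine (s.finite_toSet.image f).subset ?_
      rintro δ ⟨-, X, hX, rfl⟩
      exact ⟨X, hX, rfl⟩
    · rintro δ ⟨hδ, X, hX, rfl⟩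
      exact hG.hY _ (hf X hX).1 hδ
  have h1 := Y_almost hF hγw hX₀
  rw [RO.eq_top_iff'] at h1 ⊢
  intro p
  obtain ⟨q₀, hq₀, hq₀'⟩ := h1 p
  rw [RO.mem_iSup] at hq₀'
  obtain ⟨q, hq, m', hqm⟩ := hq₀' q₀ le_rfl
  rw [RO.mem_iInf] at hqm
  have h2 := Y_generic hF hγ hγw hG.hH hg (max m m')
  rw [RO.eq_top_iff'] at h2
  obtain ⟨r₀, hr₀, hr₀'⟩ := h2 q
  rw [RO.mem_iSup] at hr₀'
  obtain ⟨r₁, hr₁, k, hrk⟩ := hr₀' r₀ le_rfl
  rw [RO.mem_iSup] at hrk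
  obtain ⟨r, hr, hmk, hrk'⟩ := hrk r₁ le_rfl
  rw [RO.mem_inf] at hrk'
  obtain ⟨hA, hY⟩ := hrk'
  have hrq : r ≤ q := hr.trans (hr₁.trans hr₀)
  have h3 := hqm k
  rw [RO.mem_iInf] at h3
  have h4 := (RO.mem_himp.1 (h3 ((le_max_right _ _).trans hmk))) r hrq hY
  rw [mem_emb, RO.mem_iInf] at h4
  refine ⟨r, hrq.trans (hq.trans hq₀), ?_⟩
  refine (le_iSup₂ (f := fun (k : ℕ) (_ : m ≤ k) =>
    (Ag (AA n) g k ⊓ (⨅ X ∈ s, X k) : RO (PP stg F w))) k ((le_max_left _ _).trans hmk))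
    (RO.mem_inf.2 ⟨hA, ?_⟩)
  rw [RO.mem_iInf]
  intro X
  rw [RO.mem_iInf]
  intro hX
  obtain ⟨hδ, hδw, hXe⟩ := hf X hX
  rcases (hmax X hX).lt_or_eq with hlt | heq
  · have h5 := h4 (f X)
    rw [RO.mem_iInf] at h5
    have h6 := h5 ⟨hlt, X, hX, rfl⟩
    rw [← mem_emb hγw.le, emb_zz hγw.le (show stg (Nd.hn (f X) n : Nd W I Cx) < γ from hlt)] at h6
    rw [hXe]
    exact h6
  · rw [hXe, heq]
    exact hY

end Pool.Agent.LibTk83
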