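import Pool.Agent.LibTk83.G1
import Pool.Agent.LibTk83.A5

/-! Task G5: density at the successor step. -/

namespace Pool.Agent.LibTk83

variable {W : Type} {I Cx : ℕ → Type} [LinearOrder W] [OrderBot W] [WellFoundedLT W]
  {gC : ∀ n, Cx n → ℕ → Set (I n × Bool)} {cs : ∀ n, Cx n → Set (I n)}
  {F : Nd W I Cx → Set (Code (Nd W I Cx))}

/-- Adding new negative literals. -/
private theorem G5_add {J C : Type} {g₀ : Set (J × Bool)} (hg : IsFn g₀) (Cs : Finset C)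
    (ξ : C → J) (hξ : ∀ c ∈ Cs, ∀ v, (ξ c, v) ∉ g₀) :
    IsFn (g₀ ∪ (fun c => (ξ c, false)) '' (Cs : Set C)) := by
  refine ⟨hg.fin.union ((Finset.finite_toSet Cs).image _), ?_⟩
  rintro η ⟨h1, h2⟩
  have h1' : (η, true) ∈ g₀ := by
    rcases h1 with h1 | ⟨c, -, hc⟩
    · exact h1
    · simp at hc
  rcases h2 with h2 | ⟨c, hc, hc'⟩
  · exact hg.cons η ⟨h1', h2⟩
  · simp only [Prod.mk.injEq, and_true] at hc'
    subst hc'
    exact hξ c hc true h1'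

theorem step_density (hP : Params gC cs) (hF : IsF gC cs F) {γ w : W} (hγ : ⊥ < γ) (h : γ < w)
    {n : ℕ} (hG : Good gC F γ n) {X : ℕ → RO (PP stg F γ)} (hX : X ∈ UU gC F γ n)
    (Cs : Finset (Cx n)) (p : PP stg F w) :
    ∃ p' ≤ p, ∃ b : RO (PP stg F γ), ∃ g, IsFn g ∧ rs γ p' ∈ b ∧ Dec (AA n) (HH F γ n) X b g ∧
      ∀ c ∈ Cs, ∃ k, (Nd.cn γ n c, Sum.inl k) ∈ p'.1 ∧ gC n c k ⊆ g := by
  classical
  -- the promises
  set Pr : Set (Cx n × Code (Nd W I Cx)) := {t | (Nd.cn γ n t.1, Sum.inr t.2) ∈ p.1} with hPr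
  have hfin : Pr.Finite := by
    refine p.2.fin.preimage (f := fun t : Cx n × Code (Nd W I Cx) =>
      ((Nd.cn γ n t.1 : Nd W I Cx), (Sum.inr t.2 : ℕ ⊕ Code (Nd W I Cx)))) ?_
    rintro ⟨c, x⟩ - ⟨c', x'⟩ - hcc
    simp only [Prod.mk.injEq, Nd.cn.injEq, Sum.inr.injEq, heq_eq_eq, true_and] at hcc
    simp [hcc.1, hcc.2]
  have hch : ∀ t : Cx n × Code (Nd W I Cx), ∃ Z : ℕ → RO (PP stg F γ), t ∈ Pr →
      Z ∈ UU gC F γ n ∧ Supp (AA n) (HH F γ n) (cs n t.1) Z ∧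
        ∀ k, hat (AA n) (HH F γ n) (gC n t.1) Z k ≤ vl t.2 k := by
    intro t
    by_cases ht : t ∈ Pr
    · have h1 := p.2.mem _ _ ht
      rw [F_cn hF] at h1
      obtain ⟨Z, hZ, hS, hk⟩ := h1
      exact ⟨Z, fun _ => ⟨hZ, hS, hk⟩⟩
    · exact ⟨fun _ => ⊤, fun h => absurd h ht⟩
  choose Z hZ using hch
  have hX' : (fun k => X k ⊓ ⨅ t ∈ Pr, Z t k) ∈ UU gC F γ n :=
    hG.hU.inf X hX _ (PosFilter.biInf hG.hU hfin Z fun t ht => (hZ t ht).1)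
  obtain ⟨b, hb, hb0, g₀, hg₀, hd⟩ := exists_dec_of_mem hG.hH hG.hU hG.hHU hX'
    (RO.of_ne_bot (rs γ p))
  obtain ⟨q, hq⟩ := RO.ne_bot_iff.1 hb0
  obtain ⟨r, hrq, hrp⟩ := RO.mem_of.1 (hb hq) q le_rfl
  have hrb : r ∈ b := RO.mem_of_le hrq hq
  -- new literals
  have hξ : ∀ c : Cx n, ∃ ξ, ξ ∈ cs n c ∧ ∀ v, (ξ, v) ∉ g₀ := by
    intro c
    have hfin' : (Prod.fst '' g₀).Finite := hg₀.fin.image _
    obtain ⟨ξ, h1, h2⟩ := (hP.inf n c).exists_notMem_finite hfin'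
    exact ⟨ξ, h1, fun v hv => h2 ⟨_, hv, rfl⟩⟩
  choose ξ hξ1 hξ2 using hξ
  set g : Set (I n × Bool) := g₀ ∪ (fun c => (ξ c, false)) '' (Cs : Set (Cx n)) with hg
  have hgF : IsFn g := G5_add hg₀ Cs ξ fun c _ => hξ2 c
  have hk : ∀ c : Cx n, ∃ k, c ∈ Cs → gC n c k = {l ∈ g | l.1 ∈ cs n c} := by
    intro c
    by_cases hc : c ∈ Cs
    · obtain ⟨k, hk⟩ := hP.surj n c {l ∈ g | l.1 ∈ cs n c}
        ⟨hgF.fin.subset fun l hl => hl.1, fun η hη => hgF.cons η ⟨hη.1.1, hη.2.1⟩⟩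
        (fun l hl => hl.2) ⟨ξ c, ⟨Or.inr ⟨c, hc, rfl⟩, hξ1 c⟩⟩
      exact ⟨k, fun _ => hk⟩
    · exact ⟨0, fun h => absurd h hc⟩
  choose k hk using hk
  have hdg : ∀ {Y : ℕ → RO (PP stg F γ)}, (∀ j, (X j ⊓ ⨅ t ∈ Pr, Z t j) ≤ Y j) →
      Dec (AA n) (HH F γ n) Y b g := fun {Y} hY =>
    Dec.mono hG.hH (Dec.mono_left hG.hH hd fun j => inf_le_left.trans (hY j)) le_rfl
      Set.subset_union_left
  obtain ⟨p', hp', hrs, hp1⟩ := extend h p r hrp ((fun c => (Nd.cn γ n c, k c)) '' (Cs : Set (Cx n)))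
    ((Finset.finite_toSet Cs).image _) (by rintro _ ⟨c, -, rfl⟩; rfl) (by
      rintro _ ⟨c, hc, rfl⟩ x hx
      have ht : (c, x) ∈ Pr := hx
      obtain ⟨-, hS, hh⟩ := hZ (c, x) ht
      have h1 : Dec (AA n) (HH F γ n) (Z (c, x)) b g :=
        hdg fun j => inf_le_right.trans (iInf₂_le (c, x) ht)
      have h2 := dec_restrict hG.hH hS hgF h1
      have h3 : Dec (AA n) (HH F γ n) (Z (c, x)) b (gC n c (k c)) := by
        rw [hk c hc]; exact h2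
      have h4 : b ≤ hat (AA n) (HH F γ n) (gC n c) (Z (c, x)) (k c) :=
        le_iSup₂_of_le b h3 le_rfl
      exact (h4.trans (hh (k c))) hrb)
  refine ⟨p', hp', b, g, hgF, by rw [hrs]; exact hrb, hdg fun j => inf_le_left, ?_⟩
  intro c hc
  refine ⟨k c, ?_, ?_⟩
  · rw [hp1]
    exact Or.inr ⟨_, ⟨c, hc, rfl⟩, rfl⟩
  · rw [hk c hc]
    exact fun l hl => hl.1

end Pool.Agent.LibTk83
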