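import Pool.Agent.LibTk83.G5

/-! Task G6. -/

namespace Pool.Agent.LibTk83

variable {W : Type} {I Cx : ℕ → Type} [LinearOrder W] [OrderBot W] [WellFoundedLT W]
  {gC : ∀ n, Cx n → ℕ → Set (I n × Bool)} {cs : ∀ n, Cx n → Set (I n)}
  {F : Nd W I Cx → Set (Code (Nd W I Cx))}

/- Let `p` be given; take `p'`, `b`, `g` from `step_density`. By `hEH` and `emb_Ag` the name
`Y ⊓ (emb X ⊔ (Ag g)ᶜ ⊔ (emb b)ᶜ)` is in `HH F w n`; by `pos` with `g` there are `q ≤ p'` and `k ≥ m`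
with `q ∈ Ag (AA n) g k`, `q ∈ Y k` and `q` in that union, so `q ∈ emb (X k)` as `q ∈ emb b`. And
`q ∈ BB gC n γ c k` because `(cn γ n c, inl k') ∈ q` and `gC n c k' ⊆ g` (`Ag_anti`). -/
theorem step_inf (hP : Params gC cs) (hF : IsF gC cs F) {γ w : W} (hγ : ⊥ < γ) (h : γ < w)
    {n : ℕ} (hG : Good gC F γ n) (hH : PosFilter (TFn (I n)) (AA n) (HH F w n))
    (hEH : ∀ X ∈ HH F γ n, (fun k => emb h.le (X k)) ∈ HH F w n)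
    {X : ℕ → RO (PP stg F γ)} (hX : X ∈ UU gC F γ n) {Y : ℕ → RO (PP stg F w)}
    (hY : Y ∈ HH F w n) (Cs : Finset (Cx n)) (m : ℕ) :
    ⨆ k, ⨆ (_ : m ≤ k), (Y k ⊓ emb h.le (X k) ⊓ ⨅ c ∈ Cs, BB gC n γ c k) = ⊤ := by
  rw [RO.eq_top_iff']
  intro p
  obtain ⟨p', hp', b, g, hg, hpb, hd, hC⟩ := step_density hP hF hγ h hG hX Cs p
  have h1 := hEH _ hd
  have h2 := hH.inf Y hY _ h1
  have h3 := hH.pos _ h2 g hg m
  have h4 : p' ∈ (⊤ : RO (PP stg F w)) := RO.mem_top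
  rw [← h3, RO.mem_iSup] at h4
  obtain ⟨r, hr, k, hrk⟩ := h4 p' le_rfl
  rw [RO.mem_iSup] at hrk
  obtain ⟨q, hq, hmk, hqk⟩ := hrk r le_rfl
  rw [RO.mem_inf, RO.mem_inf] at hqk
  obtain ⟨hqA, hqY, hqE⟩ := hqk
  have hqp' : q ≤ p' := hq.trans hr
  have hqX : q ∈ emb h.le (X k) := by
    rw [mem_emb] at hqE ⊢
    have e1 : rs γ q ∈ (Ag (AA n) g k : RO (PP stg F γ)) := by
      rw [← mem_emb h.le, emb_Ag h.le hγ]
      exact hqA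
    have e2 : rs γ q ∈ b := RO.mem_of_le (rs_mono h.le hqp') hpb
    have e3 : rs γ q ∈ (X k ⊔ (Ag (AA n) g k)ᶜ ⊔ bᶜ) ⊓ (Ag (AA n) g k ⊓ b) :=
      RO.mem_inf.2 ⟨hqE, RO.mem_inf.2 ⟨e1, e2⟩⟩
    have e4 : (X k ⊔ (Ag (AA n) g k)ᶜ ⊔ bᶜ) ⊓ (Ag (AA n) g k ⊓ b) ≤ X k := by
      rw [inf_sup_right, inf_sup_right]
      refine sup_le (sup_le inf_le_left ?_) ?_
      · rw [← inf_assoc, compl_inf_self, bot_inf_eq]
        exact bot_le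
      · rw [inf_comm (Ag (AA n) g k) b, ← inf_assoc, compl_inf_self, bot_inf_eq]
        exact bot_le
    exact e4 e3
  refine ⟨q, hqp'.trans hp', ?_⟩
  rw [RO.mem_iSup]
  intro s hs
  refine ⟨s, le_rfl, k, ?_⟩
  rw [RO.mem_iSup]
  intro t ht
  refine ⟨t, le_rfl, hmk, ?_⟩
  have htq : t ≤ q := ht.trans hs
  refine RO.mem_inf.2 ⟨RO.mem_inf.2 ⟨RO.mem_of_le htq hqY, RO.mem_of_le htq hqX⟩, ?_⟩
  rw [RO.mem_iInf]
  intro c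
  rw [RO.mem_iInf]
  intro hc
  obtain ⟨k', hk', hgk⟩ := hC c hc
  refine (le_iSup (fun k' => zz (Nd.cn γ n c) k' ⊓ Ag (AA n) (gC n c k') k) k') ?_
  refine RO.mem_inf.2 ⟨?_, Ag_anti (AA n) hgk k (RO.mem_of_le htq hqA)⟩
  rw [mem_zz]
  intro u hu
  refine ⟨u, le_rfl, ?_⟩
  have hup : u ≤ p' := (hu.trans htq).trans hqp'
  exact ((ord_iff _ _ _ _ _).1 hup).1 hk'

end Pool.Agent.LibTk83
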