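import Pool.Agent.LibTk83.G1

/-! Task G8. -/

namespace Pool.Agent.LibTk83

variable {W : Type} {I Cx : ℕ → Type} [LinearOrder W] [OrderBot W] [WellFoundedLT W]
  {gC : ∀ n, Cx n → ℕ → Set (I n × Bool)} {cs : ∀ n, Cx n → Set (I n)}
  {F : Nd W I Cx → Set (Code (Nd W I Cx))}

theorem G8_vl {γ w : W} (h : γ < w) (x : Code (Nd W I Cx)) (k : ℕ) :
    (nm (fun k => {c ∈ x.conds k | Valid stg F γ c}) k : RO (PP stg F w)) =
      emb h.le (vl x k : RO (PP stg F γ)) := by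
  rw [← emb_nm h.le (fun k => {c ∈ x.conds k | Valid stg F γ c}) (fun _ c hc => hc.2) k]
  congr 1
  unfold vl nm
  congr 1
  ext q
  exact ⟨fun hq => hq.1, fun hq => ⟨hq, q.2⟩⟩

/- `→`: `x ∈ F (un γ n)` means `vl x ∈ UU γ n` (`F_un`); `S` has at stage `γ` the value `vl x` (the
conditions of `PP stg F γ` are valid), and at stage `w` its image (`emb_nm`). `←`: `exists_code`. -/
theorem RR_iff (hF : IsF gC cs F) {w : W} {n : ℕ} {X : ℕ → RO (PP stg F w)} :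
    (∃ S ∈ RR F w n, X = nm S) ↔
      ∃ γ, ∃ h : γ < w, ⊥ < γ ∧ ∃ Y ∈ UU gC F γ n, X = fun k => emb h.le (Y k) := by
  constructor
  · rintro ⟨S, ⟨γ, h0, h, x, hx, rfl⟩, rfl⟩
    rw [F_un hF] at hx
    exact ⟨γ, h, h0, _, hx, funext fun k => G8_vl h x k⟩
  · rintro ⟨γ, h, h0, Y, hY, rfl⟩
    obtain ⟨x, -, hx⟩ := exists_code Y
    have hx' : (vl x : ℕ → RO (PP stg F γ)) = Y := funext hx
    refine ⟨_, ⟨γ, h0, h, x, ?_, rfl⟩, funext fun k => ?_⟩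
    · rw [F_un hF]
      show (vl x : ℕ → RO (PP stg F γ)) ∈ UU gC F γ n
      rw [hx']
      exact hY
    · rw [G8_vl h x k, hx]

end Pool.Agent.LibTk83
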