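import Pool.Agent.LibTk83.G6
import Pool.Agent.LibTk83.A1
import Pool.Agent.LibTk83.G8

/-! Task G7: existence of `U_w`. -/

namespace Pool.Agent.LibTk83

variable {W : Type} {I Cx : ℕ → Type} [LinearOrder W] [OrderBot W] [WellFoundedLT W]
  {gC : ∀ n, Cx n → ℕ → Set (I n × Bool)} {cs : ∀ n, Cx n → Set (I n)}
  {F : Nd W I Cx → Set (Code (Nd W I Cx))}

/-- The members which are handled by `step_inf` at the stage `γ`. -/
private def G7_Q (gC : ∀ n, Cx n → ℕ → Set (I n × Bool)) (F : Nd W I Cx → Set (Code (Nd W I Cx)))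
    {γ w : W} (h : γ < w) (n : ℕ) (Z : ℕ → RO (PP stg F w)) : Prop :=
  Z ∈ HH F w n ∨ (∃ X ∈ UU gC F γ n, Z = fun k => emb h.le (X k)) ∨ ∃ c, Z = BB gC n γ c

private theorem G7_fin {γ w : W} (h : γ < w) {n : ℕ} (hU : PosFilter {∅} (AA n) (UU gC F γ n))
    (hH : PosFilter (TFn (I n)) (AA n) (HH F w n)) (s : Finset (ℕ → RO (PP stg F w)))
    (hs : ∀ Z ∈ s, G7_Q gC F h n Z) :
    ∃ Y ∈ HH F w n, ∃ X ∈ UU gC F γ n, ∃ Cs : Finset (Cx n), ∀ k,
      Y k ⊓ emb h.le (X k) ⊓ (⨅ c ∈ Cs, BB gC n γ c k) ≤ ⨅ Z ∈ s, Z k := by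
  classical
  induction s using Finset.induction_on with
  | empty =>
    exact ⟨fun _ => ⊤, hH.cofin _ ⟨0, fun _ _ => rfl⟩, fun _ => ⊤, hU.cofin _ ⟨0, fun _ _ => rfl⟩,
      ∅, fun k => by simp⟩
  | insert Z s hZ ih =>
    obtain ⟨Y, hY, X, hX, Cs, hle⟩ := ih fun Z' hZ' => hs Z' (Finset.mem_insert_of_mem hZ')
    rcases hs Z (Finset.mem_insert_self _ _) with h1 | ⟨X₁, hX₁, rfl⟩ | ⟨c, rfl⟩
    · refine ⟨_, hH.inf Z h1 Y hY, X, hX, Cs, fun k => ?_⟩
      rw [Finset.iInf_insert]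
      refine le_inf ?_ ?_
      · exact inf_le_left.trans (inf_le_left.trans inf_le_left)
      · refine le_trans ?_ (hle k)
        exact inf_le_inf_right _ (inf_le_inf_right _ inf_le_right)
    · refine ⟨Y, hY, _, hU.inf X₁ hX₁ X hX, Cs, fun k => ?_⟩
      have e : emb h.le (X₁ k ⊓ X k) = emb h.le (X₁ k) ⊓ emb h.le (X k) :=
        RO.comap_inf (rs_open h.le) _ _
      rw [Finset.iInf_insert, e]
      refine le_inf ?_ ?_
      · exact inf_le_left.trans (inf_le_right.trans inf_le_left)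
      · refine le_trans ?_ (hle k)
        exact inf_le_inf_right _ (inf_le_inf_left _ inf_le_right)
    · refine ⟨Y, hY, X, hX, insert c Cs, fun k => ?_⟩
      rw [Finset.iInf_insert, Finset.iInf_insert]
      refine le_inf ?_ ?_
      · exact inf_le_right.trans inf_le_left
      · refine le_trans ?_ (hle k)
        exact inf_le_inf_left _ inf_le_right

private theorem G7_fin' {w : W} {n : ℕ}
    (hH : PosFilter (TFn (I n)) (AA n) (HH F w n)) (s : Finset (ℕ → RO (PP stg F w)))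
    (hs : ∀ Z ∈ s, Z ∈ HH F w n ∨ ∃ ξ, Z = AA n ξ) :
    ∃ Y ∈ HH F w n, ∃ E : Set (I n), E.Finite ∧ ∀ k,
      Ag (AA n) ((fun ξ => (ξ, true)) '' E) k ⊓ Y k ≤ ⨅ Z ∈ s, Z k := by
  classical
  induction s using Finset.induction_on with
  | empty =>
    exact ⟨fun _ => ⊤, hH.cofin _ ⟨0, fun _ _ => rfl⟩, ∅, Set.finite_empty, fun k => by simp⟩
  | insert Z s hZ ih =>
    obtain ⟨Y, hY, E, hE, hle⟩ := ih fun Z' hZ' => hs Z' (Finset.mem_insert_of_mem hZ')
    rcases hs Z (Finset.mem_insert_self _ _) with h1 | ⟨ξ, rfl⟩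
    · refine ⟨_, hH.inf Z h1 Y hY, E, hE, fun k => ?_⟩
      rw [Finset.iInf_insert]
      refine le_inf ?_ ?_
      · exact inf_le_right.trans inf_le_left
      · refine le_trans ?_ (hle k)
        exact inf_le_inf_left _ inf_le_right
    · refine ⟨Y, hY, insert ξ E, hE.insert ξ, fun k => ?_⟩
      rw [Finset.iInf_insert]
      refine le_inf ?_ ?_
      · refine inf_le_left.trans ?_
        rw [← Ag_pair (AA n) ξ k]
        refine Ag_anti (AA n) ?_ k
        rintro _ rfl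
        exact ⟨ξ, Set.mem_insert _ _, rfl⟩
      · refine le_trans ?_ (hle k)
        exact inf_le_inf_right _ (Ag_anti (AA n) (Set.image_mono (Set.subset_insert _ _)) k)

/- `exists_posFilter` with `T = {∅}`. Let `s` be a finite subset; let `γ` be the largest stage
which occurs in the descriptions of its members (third and fourth kind; by `RR_iff` the fourth
kind are the `emb (Y k)`, `Y ∈ UU δ n`, `⊥ < δ < w`). If there is none, use `pos` of `HH F w n`
with `g = {(ξ, true) | ...}`. Otherwise: the members of the first kind have an intersection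
`Y ∈ HH F w n`; the `BB gC n γ c` give a finite set `Cs`; all the others are images of members of
`UU gC F γ n`: `AA n ξ` (`emb_AA`, `Good.hA`), `BB gC n δ c` with `δ < γ` (`emb_BB`, `Good.hB`),
`emb (Y k)` with `Y ∈ UU δ n`, `δ < γ` (`hEU`, `emb_emb`) or `δ = γ`; let `X ∈ UU gC F γ n` be
their intersection. Now `step_inf`. A clean way to organise this: prove by induction on `s` that
for a fixed `γ` above all stages of the members of `s` there are `Y`, `X`, `Cs` with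
`Y k ⊓ emb (X k) ⊓ ⨅ c ∈ Cs, BB gC n γ c k ≤ ⨅ Z ∈ s, Z k`. -/
theorem exists_U (hP : Params gC cs) (hF : IsF gC cs F) {w : W} (hw : ⊥ < w) {n : ℕ}
    (IH : ∀ v, ⊥ < v → v < w → Good gC F v n)
    (hEU : ∀ v u (h : v < u), ⊥ < v → u < w → ∀ X ∈ UU gC F v n,
      (fun k => emb h.le (X k)) ∈ UU gC F u n)
    (hH : PosFilter (TFn (I n)) (AA n) (HH F w n))
    (hEH : ∀ γ (h : γ < w), ⊥ < γ → ∀ X ∈ HH F γ n, (fun k => emb h.le (X k)) ∈ HH F w n) :
    ∃ H, {X : ℕ → RO (PP stg F w) | X ∈ HH F w n ∨ (∃ ξ, X = AA n ξ) ∨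
      (∃ γ c, ⊥ < γ ∧ γ < w ∧ X = BB gC n γ c) ∨ (∃ S ∈ RR F w n, X = nm S)} ⊆ H ∧
      PosFilter {∅} (AA n) H := by
  classical
  apply exists_posFilter
  intro s hs g hg m
  rw [Set.mem_singleton_iff] at hg
  subst hg
  by_cases hv : ∃ v : W, ⊥ < v ∧ v < w
  · obtain ⟨v, hv0, hvw⟩ := hv
    -- the stage bound of each member
    have key : ∀ Z ∈ s, ∃ δ : W, δ < w ∧ ∀ γ : W, δ ≤ γ → ⊥ < γ → ∀ h : γ < w,
        G7_Q gC F h n Z := by
      intro Z hZ
      rcases hs Z hZ with h1 | ⟨ξ, rfl⟩ | ⟨δ, c, hδ0, hδw, rfl⟩ | h4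
      · exact ⟨⊥, hw, fun γ _ _ h => Or.inl h1⟩
      · refine ⟨⊥, hw, fun γ _ hγ h => Or.inr (Or.inl ⟨AA n ξ, (IH γ hγ h).hA ξ, ?_⟩)⟩
        funext k
        exact (emb_AA h.le hγ n ξ k).symm
      · refine ⟨δ, hδw, fun γ hδγ hγ h => ?_⟩
        rcases hδγ.eq_or_lt with rfl | hlt
        · exact Or.inr (Or.inr ⟨c, rfl⟩)
        · refine Or.inr (Or.inl ⟨BB gC n δ c, (IH γ hγ h).hB δ c hδ0 hlt, ?_⟩)
          funext k
          exact (emb_BB h.le hlt hδ0 n c k).symm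
      · obtain ⟨δ, hδw, hδ0, Y, hY, rfl⟩ := (RR_iff hF).1 h4
        refine ⟨δ, hδw, fun γ hδγ hγ h => ?_⟩
        rcases hδγ.eq_or_lt with rfl | hlt
        · exact Or.inr (Or.inl ⟨Y, hY, rfl⟩)
        · refine Or.inr (Or.inl ⟨_, hEU δ γ hlt hδ0 h Y hY, ?_⟩)
          funext k
          exact (emb_emb h.le hlt.le (Y k)).symm
    have key2 : ∃ γ : W, ⊥ < γ ∧ ∃ h : γ < w, ∀ Z ∈ s, G7_Q gC F h n Z := by
      have : ∀ s' ⊆ s, ∃ γ : W, v ≤ γ ∧ γ < w ∧ ∀ Z ∈ s', ∀ γ' : W, γ ≤ γ' → ∀ h : γ' < w,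
          G7_Q gC F h n Z := by
        intro s'
        induction s' using Finset.induction_on with
        | empty => exact fun _ => ⟨v, le_rfl, hvw, by simp⟩
        | insert Z s' hZ ih =>
          intro hsub
          obtain ⟨γ, hvγ, hγw, hγ⟩ := ih fun x hx => hsub (Finset.mem_insert_of_mem hx)
          obtain ⟨δ, hδw, hδ⟩ := key Z (hsub (Finset.mem_insert_self _ _))
          refine ⟨max γ δ, hvγ.trans (le_max_left _ _), max_lt hγw hδw, ?_⟩
          intro Z' hZ' γ' hγ' h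
          rcases Finset.mem_insert.1 hZ' with rfl | hZ'
          · exact hδ γ' ((le_max_right _ _).trans hγ')
              (hv0.trans_le (hvγ.trans ((le_max_left _ _).trans hγ'))) h
          · exact hγ Z' hZ' γ' ((le_max_left _ _).trans hγ') h
      obtain ⟨γ, hvγ, hγw, hγ⟩ := this s subset_rfl
      exact ⟨γ, hv0.trans_le hvγ, hγw, fun Z hZ => hγ Z hZ γ le_rfl hγw⟩
    obtain ⟨γ, hγ0, hγw, hQ⟩ := key2
    obtain ⟨Y, hY, X, hX, Cs, hle⟩ := G7_fin hγw (IH γ hγ0 hγw).hU hH s hQ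
    have h1 := step_inf hP hF hγ0 hγw (IH γ hγ0 hγw) hH (hEH γ hγw hγ0) hX hY Cs m
    refine top_le_iff.1 (h1.symm.le.trans ?_)
    refine iSup_mono fun k => iSup_mono fun _ => ?_
    rw [Ag_empty, top_inf_eq]
    exact hle k
  · have key : ∀ Z ∈ s, Z ∈ HH F w n ∨ ∃ ξ, Z = AA n ξ := by
      intro Z hZ
      rcases hs Z hZ with h1 | h2 | ⟨δ, c, hδ0, hδw, -⟩ | h4
      · exact Or.inl h1
      · exact Or.inr h2
      · exact absurd ⟨δ, hδ0, hδw⟩ hv
      · obtain ⟨δ, hδw, hδ0, -⟩ := (RR_iff hF).1 h4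
        exact absurd ⟨δ, hδ0, hδw⟩ hv
    obtain ⟨Y, hY, E, hE, hle⟩ := G7_fin' hH s key
    have hfn : IsFn ((fun ξ : I n => (ξ, true)) '' E) := by
      refine ⟨hE.image _, ?_⟩
      rintro ξ ⟨-, ⟨η, -, hη⟩⟩
      simp at hη
    have h1 := hH.pos Y hY _ hfn m
    refine top_le_iff.1 (h1.symm.le.trans ?_)
    refine iSup_mono fun k => iSup_mono fun _ => ?_
    rw [Ag_empty, top_inf_eq]
    exact hle k

end Pool.Agent.LibTk83
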