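import Pool.Agent.LibTk83.G4
import Pool.Agent.LibTk83.G7

/-!
The induction on the stage.
-/

namespace Pool.Agent.LibTk83

variable {W : Type} {I Cx : ℕ → Type} [LinearOrder W] [OrderBot W] [WellFoundedLT W]
  {gC : ∀ n, Cx n → ℕ → Set (I n × Bool)} {cs : ∀ n, Cx n → Set (I n)}
  {F : Nd W I Cx → Set (Code (Nd W I Cx))}

theorem good_aux (hP : Params gC cs) (hF : IsF gC cs F) (w : W) (hw : ⊥ < w) (n : ℕ) :
    Good gC F w n ∧ (∀ γ (h : γ < w), ⊥ < γ → ∀ X ∈ HH F γ n,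
        (fun k => emb h.le (X k)) ∈ HH F w n) ∧
      (∀ γ (h : γ < w), ⊥ < γ → ∀ X ∈ UU gC F γ n,
        (fun k => emb h.le (X k)) ∈ UU gC F w n) := by
  induction w using WellFoundedLT.induction with
  | ind w IH =>
    have IH' : ∀ v, ⊥ < v → v < w → Good gC F v n := fun v hv hvw => (IH v hvw hv).1
    have h1 := maxExt_spec (exists_H hF hw IH')
    have hH : PosFilter (TFn (I n)) (AA n) (HH F w n) := h1.2
    have hY : ∀ γ, ⊥ < γ → γ < w → (zz (Nd.hn γ n) : ℕ → RO (PP stg F w)) ∈ HH F w n :=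
      fun γ hγ hγw => h1.1 ⟨γ, hγ, hγw, rfl⟩
    have hEH : ∀ γ (h : γ < w), ⊥ < γ → ∀ X ∈ HH F γ n,
        (fun k => emb h.le (X k)) ∈ HH F w n :=
      fun γ h hγ X hX => emb_mem_HH hF h hH (hY γ hγ h) hX
    have h2 := maxExt_spec (exists_U hP hF hw IH'
      (fun v u h hv huw X hX => (IH u huw (hv.trans h)).2.2 v h hv X hX) hH hEH)
    refine ⟨⟨hH, hY, h2.2, fun X hX => h2.1 (Or.inl hX), fun ξ => h2.1 (Or.inr (Or.inl ⟨ξ, rfl⟩)),
      fun γ c hγ hγw => h2.1 (Or.inr (Or.inr (Or.inl ⟨γ, c, hγ, hγw, rfl⟩)))⟩, hEH,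
      fun γ h hγ X hX => h2.1 (Or.inr (Or.inr (Or.inr ((RR_iff hF).2 ⟨γ, h, hγ, X, hX, rfl⟩))))⟩

end Pool.Agent.LibTk83
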