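import Pool.Agent.LibTk83.RuleDef

/-!
The cardinals and the well-ordered types which are used.
-/

namespace Pool.Agent.LibTk83

open Cardinal

/-- The cardinals `ℵ_(ω+1)`, `ℵ_ω`, `ℵ_1`, `ℵ_2`, ... -/
noncomputable def gc : ℕ → Cardinal.{0}
  | 0 => aleph (Ordinal.omega0 + 1)
  | 1 => aleph Ordinal.omega0
  | n + 2 => aleph (n + 1 : ℕ)

/-- The well-ordered types of these cardinalities (initial ordinals). -/
abbrev Gt (k : ℕ) : Type := (gc k).ord.ToType

/-- `ω_(n+1)`. -/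
abbrev II (n : ℕ) : Type := Gt (n + 2)

/-- `ω_(ω+1)`. -/
abbrev LL : Type := Gt 0

theorem mk_Gt (k : ℕ) : #(Gt k) = gc k := by simp [Gt]

end Pool.Agent.LibTk83
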