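import Pool.Agent.LibTk83.G5

/-! Task H1: the main density argument for the base. -/

namespace Pool.Agent.LibTk83

variable {W : Type} {I Cx : ℕ → Type} [LinearOrder W] [OrderBot W] [WellFoundedLT W]
  {gC : ∀ n, Cx n → ℕ → Set (I n × Bool)} {cs : ∀ n, Cx n → Set (I n)}
  {F : Nd W I Cx → Set (Code (Nd W I Cx))}

/- Suppose `p` is in `zz (cn γ n c) k ⇨ emb (hat X k)` for all `k ∉ S`, and `E` contains a zero of
`gC n c k` for each `k ∈ S`. Let `N j = BB gC n γ c j ⊓ (⨅ ξ ∈ E, AA n ξ j) ⊓ (emb (X j))ᶜ` at the stage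
`δ`. The claim is that `(N j)ᶜ ⊔ (of p)ᶜ` is in `HH F δ n`. Otherwise `exists_of_not_dec` (for the
name `Nᶜ`, `b = of p` and `g = ∅`) gives `b₁ ≤ of p`, `b₁ ≠ ⊥`, and `g` with `Dec N b₁ g` (after
`compl_compl`). As `N ≤ ⨅ ξ ∈ E, AA n ξ = Ag {(ξ, true) | ξ ∈ E}`, `subset_of_Ag_le` gives
`(ξ, true) ∈ g` for `ξ ∈ E`. By `pos` for `g`: `b₁ ≤ ⨆ j, Ag g j ⊓ N j`, so there are `r ∈ b₁` and
`j`, `k` with `r ∈ zz (cn γ n c) k`, `r ∈ Ag (gC n c k) j`, `r ∈ Ag g j`; so `gC n c k ∪ g` is a finite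
partial function (`Ag_bot`, `Ag_union`). So `k ∉ S`, hence `r ∈ emb (hat X k)` (`r ∈ of p`). By
`dec_hat` at stage `γ`, `hEH` and `emb_Ag`: `Dec (emb X) (of r) (gC n c k)` at stage `δ`; and
`Dec (emb X)ᶜ (of r) g`. This contradicts `dec_incompat`. -/
theorem main_density (hP : Params gC cs) (hF : IsF gC cs F) {γ δ : W} (hγ : ⊥ < γ) (h : γ < δ)
    {n : ℕ} (hG : PosFilter (TFn (I n)) (AA n) (HH F γ n))
    (hH : PosFilter (TFn (I n)) (AA n) (HH F δ n))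
    (hEH : ∀ X ∈ HH F γ n, (fun k => emb h.le (X k)) ∈ HH F δ n)
    {X : ℕ → RO (PP stg F γ)} {c : Cx n} (p : PP stg F δ) (S : Set ℕ) (hS : S.Finite)
    (hp : ∀ k, k ∉ S → p ∈ (zz (Nd.cn γ n c) k ⇨
      emb h.le (hat (AA n) (HH F γ n) (gC n c) X k) : RO (PP stg F δ)))
    (E : Finset (I n)) (hE : ∀ k ∈ S, ∃ ξ ∈ E, (ξ, false) ∈ gC n c k) :
    (fun j => (BB gC n γ c j ⊓ (⨅ ξ ∈ E, AA n ξ j) ⊓ (emb h.le (X j))ᶜ)ᶜ ⊔ (RO.of p)ᶜ) ∈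
      HH F δ n := by
  set N : ℕ → RO (PP stg F δ) := fun j =>
    BB gC n γ c j ⊓ (⨅ ξ ∈ E, AA n ξ j) ⊓ (emb h.le (X j))ᶜ with hN
  by_contra hcon
  have hnd : ¬ Dec (AA n) (HH F δ n) (fun j => (N j)ᶜ) (RO.of p) ∅ := by
    intro hd
    apply hcon
    unfold Dec at hd
    simp only [Ag_empty, compl_top, sup_bot_eq] at hd
    exact hd
  obtain ⟨b₁, hb₁p, hb₁, g, hg, -, hdec⟩ := exists_of_not_dec hH hnd
  simp only [compl_compl] at hdec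
  have hEg : ∀ ξ ∈ E, (ξ, true) ∈ g := by
    intro ξ hξ
    have h1 : Dec (AA n) (HH F δ n) (Ag (AA n) {(ξ, true)}) b₁ g := by
      refine Dec.mono_left hH hdec fun k => ?_
      rw [Ag_pair]
      refine inf_le_left.trans (inf_le_left.trans (inf_le_right.trans ?_))
      exact iInf₂_le ξ hξ
    exact subset_of_Ag_le hH hb₁ hg h1 (Set.mem_singleton _)
  have hpos := hH.pos _ hdec g hg 0
  obtain ⟨q, hq⟩ := RO.ne_bot_iff.1 hb₁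
  have hqt : q ∈ (⊤ : RO (PP stg F δ)) := RO.mem_top
  rw [← hpos] at hqt
  obtain ⟨r₁, hr₁, j, hr₁'⟩ := RO.mem_iSup.1 hqt q le_rfl
  obtain ⟨r₂, hr₂, -, hr₂'⟩ := RO.mem_iSup.1 hr₁' r₁ le_rfl
  obtain ⟨hr₂g, hr₂'⟩ := RO.mem_inf.1 hr₂'
  have hr₂b : r₂ ∈ b₁ := RO.mem_of_le (hr₂.trans hr₁) hq
  obtain ⟨r₃, hr₃, hr₃'⟩ := RO.mem_sup.1 hr₂' r₂ le_rfl
  have hr₃b : r₃ ∈ b₁ := RO.mem_of_le hr₃ hr₂b
  have hr₃g : r₃ ∈ Ag (AA n) g j := RO.mem_of_le hr₃ hr₂g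
  rcases hr₃' with hr₃' | hr₃'
  swap
  · exact RO.mem_compl.1 hr₃' r₃ le_rfl hr₃b
  obtain ⟨r₄, hr₄, hr₄'⟩ := RO.mem_sup.1 hr₃' r₃ le_rfl
  have hr₄b : r₄ ∈ b₁ := RO.mem_of_le hr₄ hr₃b
  have hr₄g : r₄ ∈ Ag (AA n) g j := RO.mem_of_le hr₄ hr₃g
  rcases hr₄' with hr₄' | hr₄'
  swap
  · exact RO.mem_compl.1 hr₄' r₄ le_rfl hr₄g
  obtain ⟨hr₄BE, -⟩ := RO.mem_inf.1 hr₄'
  obtain ⟨hr₄B, -⟩ := RO.mem_inf.1 hr₄BE
  obtain ⟨s, hs, k, hsk⟩ := RO.mem_iSup.1 hr₄B r₄ le_rfl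
  obtain ⟨hsz, hsA⟩ := RO.mem_inf.1 hsk
  have hsb : s ∈ b₁ := RO.mem_of_le hs hr₄b
  have hsg : s ∈ Ag (AA n) g j := RO.mem_of_le hs hr₄g
  have hunion : IsFn (gC n c k ∪ g) := by
    refine ⟨(hP.fn n c k).1.fin.union hg.fin, ?_⟩
    rintro ξ ⟨h1, h2⟩
    have h3 : s ∈ Ag (AA n) (gC n c k ∪ g) j := by
      rw [Ag_union]
      exact RO.mem_inf.2 ⟨hsA, hsg⟩
    rw [Ag_bot (AA n) h1 h2] at h3
    exact RO.not_mem_bot h3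
  have hkS : k ∉ S := by
    intro hk
    obtain ⟨ξ, hξE, hξ⟩ := hE k hk
    exact hunion.cons ξ ⟨Or.inr (hEg ξ hξE), Or.inl hξ⟩
  have hshat : s ∈ emb h.le (hat (AA n) (HH F γ n) (gC n c) X k) := by
    have h1 : s ∈ (zz (Nd.cn γ n c) k ⇨
        emb h.le (hat (AA n) (HH F γ n) (gC n c) X k) : RO (PP stg F δ)) :=
      (RO.of_le_iff.2 (hp k hkS)) (hb₁p hsb)
    exact RO.mem_himp.1 h1 s le_rfl hsz
  have hd1 : Dec (AA n) (HH F δ n) (fun j => emb h.le (X j))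
      (emb h.le (hat (AA n) (HH F γ n) (gC n c) X k)) (gC n c k) := by
    have h1 := hEH _ (dec_hat hG (gC n c) X k)
    have h2 : (fun j => emb h.le (X j ⊔ (Ag (AA n) (gC n c k) j)ᶜ ⊔
        (hat (AA n) (HH F γ n) (gC n c) X k)ᶜ)) = (fun j => emb h.le (X j) ⊔
          (Ag (AA n) (gC n c k) j)ᶜ ⊔ (emb h.le (hat (AA n) (HH F γ n) (gC n c) X k))ᶜ) := by
      funext j
      rw [← emb_Ag h.le hγ]
      unfold emb
      rw [RO.comap_sup, RO.comap_sup, RO.comap_compl, RO.comap_compl]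
    unfold Dec
    rw [← h2]
    exact h1
  have hd2 : Dec (AA n) (HH F δ n) (fun j => emb h.le (X j)) (RO.of s) (gC n c k) :=
    Dec.mono hH hd1 (RO.of_le_iff.2 hshat) subset_rfl
  have hd3 : Dec (AA n) (HH F δ n) (fun j => (emb h.le (X j))ᶜ) (RO.of s) g :=
    Dec.mono_left hH (Dec.mono hH hdec (RO.of_le_iff.2 hsb) subset_rfl)
      fun k => inf_le_left.trans inf_le_right
  exact dec_incompat hH (RO.of_ne_bot s) hd2 hd3 hunion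

end Pool.Agent.LibTk83
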