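import Pool.Agent.LibTk83.H1
import Pool.Agent.LibTk83.GoodAll

/-! Task H2: the members of the base. -/

namespace Pool.Agent.LibTk83

variable {W : Type} {I Cx : ℕ → Type} [LinearOrder W] [OrderBot W] [OrderTop W]
  [WellFoundedLT W]
  {gC : ∀ n, Cx n → ℕ → Set (I n × Bool)} {cs : ∀ n, Cx n → Set (I n)}
  {F : Nd W I Cx → Set (Code (Nd W I Cx))}

/-- The members of the base. -/
noncomputable def DD (gC : ∀ n, Cx n → ℕ → Set (I n × Bool))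
    (F : Nd W I Cx → Set (Code (Nd W I Cx))) (n : ℕ) (γ δ : W) (c : Cx n) (E : Finset (I n))
    (m j : ℕ) : RO (PP stg F (⊤ : W)) :=
  open Classical in
  if m ≤ j then zz (Nd.hn δ n) j ⊓ BB gC n γ c j ⊓ ⨅ ξ ∈ E, AA n ξ j else ⊥

/- `good_aux` at `⊤`: `hY` and `hHU`, `hB`, `hA`, `PosFilter.biInf`, `cofin`. -/
theorem DD_mem (hP : Params gC cs) (hF : IsF gC cs F) (n : ℕ) {γ δ : W} (hγ : ⊥ < γ)
    (hδ : γ < δ) (hδ' : δ < ⊤) (c : Cx n) (E : Finset (I n)) (m : ℕ) :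
    DD gC F n γ δ c E m ∈ UU gC F ⊤ n := by
  classical
  have hG := (good_aux hP hF ⊤ (hγ.trans (hδ.trans hδ')) n).1
  have h1 := hG.hHU (hG.hY δ (hγ.trans hδ) hδ')
  have h2 := hG.hB γ c hγ (hδ.trans hδ')
  have h3 := hG.hU.biInf (s := (E : Set (I n))) E.finite_toSet
    (fun ξ => (AA n ξ : ℕ → RO (PP stg F (⊤ : W)))) (fun ξ _ => hG.hA ξ)
  have h4 : (fun k => if m ≤ k then (⊤ : RO (PP stg F (⊤ : W))) else ⊥) ∈ UU gC F ⊤ n :=
    hG.hU.cofin _ ⟨m, fun k hk => if_pos hk⟩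
  refine hG.hU.up _ (hG.hU.inf _ (hG.hU.inf _ (hG.hU.inf _ h1 _ h2) _ h3) _ h4) _ fun k => ?_
  unfold DD
  by_cases hk : m ≤ k
  · rw [if_pos hk]
    simp only [if_pos hk, inf_top_eq, Finset.mem_coe]
    exact le_rfl
  · rw [if_neg hk]
    simp only [if_neg hk, inf_bot_eq]
    exact le_rfl

end Pool.Agent.LibTk83
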