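import Pool.Agent.LibTk83.A3
import Pool.Agent.LibTk83.RO
import Pool.Agent.LibTk83.UData

/-! Task H3: from the base to the ultrafilter data. -/

namespace Pool.Agent.LibTk83

variable {P : Type} [Preorder P] {I : Type}

/- Let `p` be given. `exists_dec_of_mem` below `of p`: `b`, `g` with `Dec X b g`, `b ≤ of p`; take
`r ∈ b` with `r ≤ p`. `T = {ξ | (ξ, true) ∈ g}`. If `j ∉ T` and some `q ≤ r` is in
`⨅ k, (X k ⇨ A j k)`, then `Dec (A j) (of q) g` (`Dec.mono_left`, `Dec.mono`), and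
`A j = Ag A {(j, true)}` (`Ag_pair`), so `(j, true) ∈ g` by `subset_of_Ag_le`. -/
theorem top_of_mem {A : I → ℕ → RO P} {H U : Set (ℕ → RO P)} (hH : PosFilter (TFn I) A H)
    (hU : PosFilter {∅} A U) (hHU : H ⊆ U) {X : ℕ → RO P} (hX : X ∈ U) :
    ⨆ T : Finset I, ⨅ j, ⨅ (_ : j ∉ T), (⨅ k, (X k ⇨ A j k))ᶜ = ⊤ := by
  classical
  rw [RO.eq_top_iff']
  intro p
  obtain ⟨b, hbp, hb, g, hg, hdec⟩ := exists_dec_of_mem hH hU hHU hX (RO.of_ne_bot p)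
  obtain ⟨q₀, hq₀⟩ := RO.ne_bot_iff.1 hb
  obtain ⟨r, hrq, hrp⟩ := RO.mem_of.1 (hbp hq₀) q₀ le_rfl
  have hrb : r ∈ b := RO.mem_of_le hrq hq₀
  refine ⟨r, hrp, ?_⟩
  refine (le_iSup (fun T : Finset I => ⨅ j, ⨅ (_ : j ∉ T), (⨅ k, (X k ⇨ A j k))ᶜ)
    (hg.fin.image Prod.fst).toFinset) ?_
  rw [RO.mem_iInf]
  intro j
  rw [RO.mem_iInf]
  intro hj
  rw [RO.mem_compl]
  intro q hqr hq
  have hle : ∀ k, RO.of q ≤ X k ⇨ A j k := fun k => RO.of_le_iff.2 (RO.mem_iInf.1 hq k)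
  have h1 : Dec A H X (RO.of q) g :=
    Dec.mono hH hdec (RO.of_le_iff.2 (RO.mem_of_le hqr hrb)) subset_rfl
  have h2 : Dec A H (Ag A {(j, true)}) (RO.of q) g := by
    refine Dec.mono_left hH h1 fun k => ?_
    rw [Ag_pair, inf_comm]
    exact le_himp_iff.1 (hle k)
  have h3 := subset_of_Ag_le hH (RO.of_ne_bot q) hg h2 (Set.mem_singleton _)
  apply hj
  rw [Set.Finite.mem_toFinset]
  exact ⟨_, h3, rfl⟩

/- `dir`, `memA`: the intersection of two members, the `A j` are in `U`. `inf`: `pos`. `nonpr`: the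
name of `{k | k ≠ m}` is in `U` (`cofin`). `ultra`: `ultra_dec` below `of p`, then `hb`. `top`:
`top_of_mem`. -/
theorem exists_UData {A : I → ℕ → RO P} {H U : Set (ℕ → RO P)} (hH : PosFilter (TFn I) A H)
    (hU : PosFilter {∅} A U) (hHU : H ⊆ U) (hA : ∀ j, A j ∈ U) (D : I → ℕ → RO P)
    (hD : ∀ i, D i ∈ U) (hb : ∀ X ∈ U, ∀ p : P, ∃ q ≤ p, ∃ i, ∀ k, q ∈ (D i k ⇨ X k : RO P)) :
    Nonempty (UData (RO P) I) := by
  classical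
  have hb' : ∀ X ∈ U, ⨆ i, ⨅ k, (D i k ⇨ X k) = ⊤ := by
    intro X hX
    rw [RO.eq_top_iff']
    intro p
    obtain ⟨q, hqp, i, hq⟩ := hb X hX p
    exact ⟨q, hqp, (le_iSup (fun i => ⨅ k, (D i k ⇨ X k)) i) (RO.mem_iInf.2 hq)⟩
  refine ⟨⟨D, A, ?_, ?_, ?_, ?_, fun j => hb' _ (hA j),
    fun i => top_of_mem hH hU hHU (hD i)⟩⟩
  · intro i j
    exact hb' _ (hU.inf _ (hD i) _ (hD j))
  · intro i m
    have h1 := hU.pos (D i) (hD i) ∅ rfl m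
    simp only [Ag_empty, top_inf_eq] at h1
    exact h1
  · intro m
    have hX : (fun k => if k = m then (⊥ : RO P) else ⊤) ∈ U :=
      hU.cofin _ ⟨m + 1, fun k hk => if_neg (by omega)⟩
    rw [RO.eq_top_iff']
    intro p
    obtain ⟨q, hqp, i, hq⟩ := hb _ hX p
    refine ⟨q, hqp, (le_iSup (fun i => (D i m)ᶜ) i) ?_⟩
    have h1 := hq m
    rw [if_pos rfl, himp_bot] at h1
    exact h1
  · intro x
    rw [RO.eq_top_iff']
    intro p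
    obtain ⟨b, hbp, hbb, hdec⟩ := ultra_dec hU x (RO.of_ne_bot p)
    obtain ⟨q₀, hq₀⟩ := RO.ne_bot_iff.1 hbb
    obtain ⟨r, hrq, hrp⟩ := RO.mem_of.1 (hbp hq₀) q₀ le_rfl
    have hrb : r ∈ b := RO.mem_of_le hrq hq₀
    have key : ∀ y : ℕ → RO P, (fun k => y k ⊔ bᶜ) ∈ U →
        ∃ q ≤ r, ∃ i, q ∈ ⨅ k, (D i k ⇨ y k) := by
      intro y hy
      obtain ⟨q, hqr, i, hq⟩ := hb _ hy r
      refine ⟨q, hqr, i, RO.mem_iInf.2 fun k => ?_⟩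
      rw [RO.mem_himp]
      intro q' hq' hqD
      have h1 := RO.mem_himp.1 (hq k) q' hq' hqD
      have h2 : q' ∈ b := RO.mem_of_le (hq'.trans hqr) hrb
      have h3 : q' ∈ (y k ⊔ bᶜ) ⊓ b := RO.mem_inf.2 ⟨h1, h2⟩
      have h4 : (y k ⊔ bᶜ) ⊓ b ≤ y k := by
        rw [inf_sup_right, compl_inf_self, sup_bot_eq]
        exact inf_le_left
      exact h4 h3
    rcases hdec with hdec | hdec
    · obtain ⟨q, hqr, i, hq⟩ := key x hdec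
      exact ⟨q, hqr.trans hrp, (le_iSup (fun i => ((⨅ k, (D i k ⇨ x k)) ⊔
        ⨅ k, (D i k ⇨ (x k)ᶜ))) i) ((le_sup_left : _ ≤ (⨅ k, (D i k ⇨ x k)) ⊔
          ⨅ k, (D i k ⇨ (x k)ᶜ)) hq)⟩
    · obtain ⟨q, hqr, i, hq⟩ := key _ hdec
      exact ⟨q, hqr.trans hrp, (le_iSup (fun i => ((⨅ k, (D i k ⇨ x k)) ⊔
        ⨅ k, (D i k ⇨ (x k)ᶜ))) i) ((le_sup_right : _ ≤ (⨅ k, (D i k ⇨ x k)) ⊔
          ⨅ k, (D i k ⇨ (x k)ᶜ)) hq)⟩

end Pool.Agent.LibTk83
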