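import Pool.Agent.LibTk83.H5
import Pool.Agent.LibTk83.H3

/-! Task H4: the ultrafilter data of the iteration. -/

namespace Pool.Agent.LibTk83

variable {W : Type} {I Cx : ℕ → Type} [LinearOrder W] [OrderBot W] [OrderTop W]
  [WellFoundedLT W]
  {gC : ∀ n, Cx n → ℕ → Set (I n × Bool)} {cs : ∀ n, Cx n → Set (I n)}
  {F : Nd W I Cx → Set (Code (Nd W I Cx))}

/-- The indices of the members of the base. -/
def H4_J (W : Type) (I Cx : ℕ → Type) [LinearOrder W] [OrderBot W] [OrderTop W] (n : ℕ) : Type :=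
  {t : W × W × Cx n × Finset (I n) × ℕ // ⊥ < t.1 ∧ t.1 < t.2.1 ∧ t.2.1 < ⊤}

theorem H4_card (n : ℕ) (hI : Infinite (I n)) (hWI : Cardinal.mk W ≤ Cardinal.mk (I n))
    (hCx : Cardinal.mk (Cx n) ≤ Cardinal.mk (I n)) :
    Cardinal.mk (H4_J W I Cx n) ≤ Cardinal.mk (I n) := by
  have h0 : Cardinal.aleph0 ≤ Cardinal.mk (I n) := Cardinal.aleph0_le_mk (I n)
  have hm : ∀ a b : Cardinal, a ≤ Cardinal.mk (I n) → b ≤ Cardinal.mk (I n) →
      a * b ≤ Cardinal.mk (I n) := fun a b ha hb =>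
    (mul_le_mul' ha hb).trans (Cardinal.mul_eq_self h0).le
  refine (Cardinal.mk_subtype_le _).trans ?_
  rw [Cardinal.mk_prod, Cardinal.lift_id, Cardinal.lift_id]
  refine hm _ _ hWI ?_
  rw [Cardinal.mk_prod, Cardinal.lift_id, Cardinal.lift_id]
  refine hm _ _ hWI ?_
  rw [Cardinal.mk_prod, Cardinal.lift_id, Cardinal.lift_id]
  refine hm _ _ hCx ?_
  rw [Cardinal.mk_prod, Cardinal.lift_id, Cardinal.lift_id]
  refine hm _ _ (Cardinal.mk_finset_of_infinite (I n)).le ?_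
  rw [Cardinal.mk_nat]
  exact h0

/- `exists_UData` with `A = AA n`, `H = HH F ⊤ n`, `U = UU gC F ⊤ n` and the members `DD` of the
base, indexed by `I n`: the type of the `(γ, δ, c, E, m)` with `⊥ < γ < δ < ⊤` is not empty (`hW`
for a countable set twice) and has cardinality at most `#(I n)`, so it is the image of `I n`. -/
theorem exists_UData_stage (hP : Params gC cs) (hF : IsF gC cs F)
    (hW : ∀ C : Set W, C.Countable → (∀ w ∈ C, w < ⊤) → ∃ w < ⊤, ∀ v ∈ C, v < w)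
    (hbt : (⊥ : W) < ⊤) (n : ℕ) (hI : Infinite (I n)) (hWI : Cardinal.mk W ≤ Cardinal.mk (I n))
    (hCx : Cardinal.mk (Cx n) ≤ Cardinal.mk (I n)) :
    Nonempty (UData (RO (PP stg F (⊤ : W))) (I n)) := by
  classical
  obtain ⟨γ₀, hγ₀, hγ₀'⟩ := hW {⊥} (Set.countable_singleton _) (by rintro w rfl; exact hbt)
  obtain ⟨δ₀, hδ₀, hδ₀'⟩ := hW {γ₀} (Set.countable_singleton _) (by rintro w rfl; exact hγ₀)
  obtain ⟨c₀, -⟩ := hP.cof n ∅ Set.countable_empty
  let j₀ : H4_J W I Cx n := ⟨(γ₀, δ₀, c₀, ∅, 0), hγ₀' _ rfl, hδ₀' _ rfl, hδ₀⟩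
  have : Nonempty (H4_J W I Cx n) := ⟨j₀⟩
  obtain ⟨e⟩ := Cardinal.le_def _ _ |>.1 (H4_card (W := W) n hI hWI hCx)
  let f : I n → H4_J W I Cx n := Function.invFun e
  have hf : Function.Surjective f := Function.invFun_surjective e.injective
  have hG := (good_aux hP hF ⊤ hbt n).1
  refine exists_UData hG.hH hG.hU hG.hHU hG.hA
    (fun i => DD gC F n (f i).1.1 (f i).1.2.1 (f i).1.2.2.1 (f i).1.2.2.2.1 (f i).1.2.2.2.2) ?_ ?_
  · intro i
    exact DD_mem hP hF n (f i).2.1 (f i).2.2.1 (f i).2.2.2 _ _ _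
  · intro X hX p
    obtain ⟨q, hq, γ, δ, c, E, m, h1, h2, h3, h4⟩ := base_dense hP hF hW n hX p
    obtain ⟨i, hi⟩ := hf ⟨(γ, δ, c, E, m), h1, h2, h3⟩
    refine ⟨q, hq, i, ?_⟩
    intro k
    simp only [hi]
    exact h4 k

end Pool.Agent.LibTk83
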