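import Pool.Agent.LibTk83.H2
import Pool.Agent.LibTk83.C5

/-! Task H5: the base. -/

namespace Pool.Agent.LibTk83

variable {W : Type} {I Cx : ℕ → Type} [LinearOrder W] [OrderBot W] [OrderTop W]
  [WellFoundedLT W]
  {gC : ∀ n, Cx n → ℕ → Set (I n × Bool)} {cs : ∀ n, Cx n → Set (I n)}
  {F : Nd W I Cx → Set (Code (Nd W I Cx))}

/-- A name of an earlier stage which belongs to the last ultrafilter belongs to the ultrafilter
of its stage. -/
private theorem mem_UU_of_emb (hP : Params gC cs) (hF : IsF gC cs F) {n : ℕ} {γ : W}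
    (hγ : ⊥ < γ) (hγt : γ < ⊤) {X' : ℕ → RO (PP stg F γ)}
    (hX : (fun k => emb le_top (X' k) : ℕ → RO (PP stg F (⊤ : W))) ∈ UU gC F ⊤ n) :
    X' ∈ UU gC F γ n := by
  obtain ⟨hG, -, -⟩ := good_aux hP hF γ hγ n
  obtain ⟨hGt, -, hUt⟩ := good_aux hP hF (⊤ : W) (hγ.trans hγt) n
  refine hG.hU.max X' ?_
  intro Y hY g hg m
  rw [Set.mem_singleton_iff] at hg
  subst hg
  have h1 := hUt γ hγt hγ Y hY
  have h2 := hGt.hU.pos _ (hGt.hU.inf _ h1 _ hX) ∅ rfl m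
  apply emb_injective (le_top : γ ≤ ⊤)
  have h3 : emb (le_top : γ ≤ ⊤) (⊤ : RO (PP stg F γ)) = ⊤ := RO.comap_top _
  rw [h3, ← h2]
  unfold emb
  rw [RO.comap_iSup]
  refine iSup_congr fun k => ?_
  rw [RO.comap_iSup]
  refine iSup_congr fun hk => ?_
  rw [Ag_empty, Ag_empty, top_inf_eq, top_inf_eq, RO.comap_inf]

/- Let `p` be given. By `early` (with `w₀` some element with `⊥ < w₀ < ⊤`, which exists by `hW`)
`X k = emb (X' k)` for some `γ` and `X' : ℕ → RO (PP stg F γ)`. `X' ∈ UU gC F γ n`: by `max` of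
`UU gC F γ n`, because `emb (Y k) ⊓ X k` is a member of `UU gC F ⊤ n` for `Y ∈ UU gC F γ n`
(`good_aux`) and `emb` is injective. Let `c` be a support of `X'` (`exists_supp`), and `x` a code
of `hat X'` (`exists_code`); `x ∈ F (cn γ n c)` (`F_cn`). Add the promise `(cn γ n c, inr x)`: `p₁`.
Let `δ` be between `γ` and `⊤`, `S = {k | (cn γ n c, inl k) ∈ p₁}`; the hypothesis of `main_density`
for `rs δ p₁` follows from `promise` at the stage `δ`. Let `E` be the set of the zeros of `gC n c k`,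
`k ∈ S`. Let `y` be a code of the name in `main_density`, so `y ∈ F (hn δ n)`; add the promise
`(hn δ n, inr y)`: `p₂`, and let `m` be above all `j` with `(hn δ n, inl j) ∈ p₂`. `promise` again
(with `emb_BB`, `emb_AA`, `emb_emb`; note that `rs δ p₂ ∈ of (rs δ p₁)`). -/
theorem base_dense (hP : Params gC cs) (hF : IsF gC cs F)
    (hW : ∀ C : Set W, C.Countable → (∀ w ∈ C, w < ⊤) → ∃ w < ⊤, ∀ v ∈ C, v < w) (n : ℕ)
    {X : ℕ → RO (PP stg F (⊤ : W))} (hX : X ∈ UU gC F ⊤ n) (p : PP stg F (⊤ : W)) :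
    ∃ q ≤ p, ∃ γ δ : W, ∃ c : Cx n, ∃ E : Finset (I n), ∃ m : ℕ, ⊥ < γ ∧ γ < δ ∧ δ < ⊤ ∧
      ∀ j, q ∈ (DD gC F n γ δ c E m j ⇨ X j : RO (PP stg F (⊤ : W))) := by
  classical
  -- stages
  obtain ⟨w₁, hw₁, -⟩ := hW ∅ Set.countable_empty (by simp)
  have hbt : (⊥ : W) < ⊤ := lt_of_le_of_lt bot_le hw₁
  obtain ⟨w₀, hw₀, hw₀'⟩ := hW {⊥} (Set.countable_singleton _) (by simpa using hbt)
  have hw₀b : ⊥ < w₀ := hw₀' ⊥ rfl
  obtain ⟨γ, hγ₀, hγt, X', hX'⟩ := early hW X hw₀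
  have hγ : ⊥ < γ := hw₀b.trans hγ₀
  obtain ⟨δ, hδt, hδ'⟩ := hW {γ} (Set.countable_singleton _) (by simpa using hγt)
  have hγδ : γ < δ := hδ' γ rfl
  have hδ : ⊥ < δ := hγ.trans hγδ
  have hXe : X = fun k => emb le_top (X' k) := funext hX'
  have hX'U : X' ∈ UU gC F γ n := mem_UU_of_emb hP hF hγ hγt (hXe ▸ hX)
  obtain ⟨hG, -, -⟩ := good_aux hP hF γ hγ n
  obtain ⟨hGd, hHd, -⟩ := good_aux hP hF δ hδ n
  obtain ⟨c, hc⟩ := exists_supp hG.hH (cs n) (hP.cof n) X'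
  -- the first promise
  obtain ⟨x, -, hx⟩ := exists_code (fun k => hat (AA n) (HH F γ n) (gC n c) X' k)
  have hxF : x ∈ F (Nd.cn γ n c) := by
    rw [F_cn hF]
    exact ⟨X', hX'U, hc, fun k => (hx k).ge⟩
  obtain ⟨p₁, hp₁, hp₁'⟩ := add_promises p {((Nd.cn γ n c : Nd W I Cx), x)}
    (Set.finite_singleton _) (by
      intro t ht
      rw [Set.mem_singleton_iff] at ht
      subst ht
      exact ⟨hγt, hxF⟩)
  have hmem₁ : ((Nd.cn γ n c : Nd W I Cx), Sum.inr x) ∈ p₁.1 := by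
    rw [hp₁']
    exact Or.inr ⟨_, rfl, rfl⟩
  have hmem₁' : ((Nd.cn γ n c : Nd W I Cx), Sum.inr x) ∈ (rs δ p₁).1 := ⟨hmem₁, hγδ⟩
  set S : Set ℕ := {k | ((Nd.cn γ n c : Nd W I Cx), Sum.inl k) ∈ p₁.1} with hS
  have hSfin : S.Finite := by
    refine Set.Finite.preimage (f := fun k : ℕ => ((Nd.cn γ n c : Nd W I Cx),
      (Sum.inl k : ℕ ⊕ Code (Nd W I Cx)))) ?_ p₁.2.fin
    intro a _ b _ hab
    have h1 := congrArg Prod.snd hab
    exact Sum.inl.inj h1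
  have hp : ∀ k, k ∉ S → rs δ p₁ ∈ (zz (Nd.cn γ n c) k ⇨
      emb hγδ.le (hat (AA n) (HH F γ n) (gC n c) X' k) : RO (PP stg F δ)) := by
    intro k hk
    have h1 := promise (rs δ p₁) hmem₁' (k := k) (fun h => hk h.1)
      (show stg (Nd.cn γ n c : Nd W I Cx) ≤ δ from hγδ.le)
    have h2 : (vl x k : RO (PP stg F γ)) = hat (AA n) (HH F γ n) (gC n c) X' k := hx k
    rw [← h2]
    exact h1
  choose ζ hζ using fun k => (hP.fn n c k).2.2
  have hN := main_density hP hF hγ hγδ hG.hH hGd.hH (fun X hX => hHd γ hγδ hγ X hX) (X := X')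
    (c := c) (rs δ p₁) S hSfin hp (hSfin.toFinset.image ζ) (by
      intro k hk
      refine ⟨ζ k, ?_, hζ k⟩
      rw [Finset.mem_image]
      exact ⟨k, hSfin.mem_toFinset.2 hk, rfl⟩)
  generalize hSfin.toFinset.image ζ = E at hN
  -- the second promise
  obtain ⟨y, -, hy⟩ := exists_code (F := F) (st := stg) (β := δ)
    (fun j => (BB gC n γ c j ⊓ (⨅ ξ ∈ E, AA n ξ j) ⊓ (emb hγδ.le (X' j))ᶜ)ᶜ ⊔ (RO.of (rs δ p₁))ᶜ)
  have hyF : y ∈ F (Nd.hn δ n) := by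
    rw [F_hn hF]
    have h1 := funext hy
    rw [← h1] at hN
    exact hN
  obtain ⟨p₂, hp₂, hp₂'⟩ := add_promises p₁ {((Nd.hn δ n : Nd W I Cx), y)}
    (Set.finite_singleton _) (by
      intro t ht
      rw [Set.mem_singleton_iff] at ht
      subst ht
      exact ⟨hδt, hyF⟩)
  have hmem₂ : ((Nd.hn δ n : Nd W I Cx), Sum.inr y) ∈ p₂.1 := by
    rw [hp₂']
    exact Or.inr ⟨_, rfl, rfl⟩
  have hfin₂ : {j : ℕ | ((Nd.hn δ n : Nd W I Cx), Sum.inl j) ∈ p₂.1}.Finite := by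
    refine Set.Finite.preimage (f := fun k : ℕ => ((Nd.hn δ n : Nd W I Cx),
      (Sum.inl k : ℕ ⊕ Code (Nd W I Cx)))) ?_ p₂.2.fin
    intro a _ b _ hab
    have h1 := congrArg Prod.snd hab
    exact Sum.inl.inj h1
  obtain ⟨m₀, hm₀⟩ := hfin₂.bddAbove
  refine ⟨p₂, hp₂.trans hp₁, γ, δ, c, E, m₀ + 1, hγ, hγδ, hδt, ?_⟩
  intro j
  rw [RO.mem_himp]
  intro q hq hqD
  by_cases hj : m₀ + 1 ≤ j
  · have hD : DD gC F n γ δ c E (m₀ + 1) j
        = zz (Nd.hn δ n) j ⊓ BB gC n γ c j ⊓ ⨅ ξ ∈ E, AA n ξ j := by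
      unfold DD
      rw [if_pos hj]
    rw [hD, RO.mem_inf, RO.mem_inf] at hqD
    obtain ⟨⟨hq1, hq2⟩, hq3⟩ := hqD
    have hnot : ((Nd.hn δ n : Nd W I Cx), Sum.inl j) ∉ p₂.1 := by
      intro h
      have h1 := hm₀ h
      omega
    have h1 := promise p₂ hmem₂ hnot (show stg (Nd.hn δ n : Nd W I Cx) ≤ ⊤ from le_top)
    rw [RO.mem_himp] at h1
    have h2 := h1 q hq hq1
    rw [mem_emb] at h2
    have h3 : rs δ q ∈ ((BB gC n γ c j ⊓ (⨅ ξ ∈ E, AA n ξ j) ⊓ (emb hγδ.le (X' j))ᶜ)ᶜ ⊔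
        (RO.of (rs δ p₁))ᶜ : RO (PP stg F δ)) := by
      rw [← hy j]
      exact h2
    have h4 : rs δ q ∈ (BB gC n γ c j : RO (PP stg F δ)) := by
      rw [← emb_BB (le_top : δ ≤ ⊤) hγδ hγ] at hq2
      exact hq2
    have h5 : rs δ q ∈ (⨅ ξ ∈ E, AA n ξ j : RO (PP stg F δ)) := by
      rw [RO.mem_iInf] at hq3 ⊢
      intro ξ
      have h6 := hq3 ξ
      rw [RO.mem_iInf] at h6 ⊢
      intro hξ
      have h7 := h6 hξ
      rw [← emb_AA (le_top : δ ≤ ⊤) hδ] at h7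
      exact h7
    have h6 : rs δ q ∈ (emb hγδ.le (X' j) : RO (PP stg F δ)) := by
      refine RO.mem_of_dense fun r hr => ?_
      obtain ⟨s, hs, hs'⟩ := RO.mem_sup.1 h3 r hr
      have hsq : s ≤ rs δ q := hs.trans hr
      rcases hs' with hs' | hs'
      · by_contra hcon
        push Not at hcon
        rw [RO.mem_compl] at hs'
        refine hs' s le_rfl ?_
        rw [RO.mem_inf, RO.mem_inf]
        refine ⟨⟨RO.mem_of_le hsq h4, RO.mem_of_le hsq h5⟩, ?_⟩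
        rw [RO.mem_compl]
        exact fun t ht => hcon t (ht.trans hs)
      · exfalso
        rw [RO.mem_compl] at hs'
        refine hs' s le_rfl (RO.mem_of_le ?_ (RO.self_mem_of _))
        exact hsq.trans ((rs_mono hδt.le hq).trans (rs_mono hδt.le hp₂))
    rw [hX' j, ← emb_emb (le_top : δ ≤ ⊤) hγδ.le]
    exact h6
  · have hD : DD gC F n γ δ c E (m₀ + 1) j = ⊥ := by
      unfold DD
      rw [if_neg hj]
    rw [hD] at hqD
    exact absurd hqD RO.not_mem_bot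

end Pool.Agent.LibTk83
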