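import Mathlib

/-!
Finite support iteration of Mathias-Prikry forcings: codes, conditions and their order.
-/

namespace Pool.Agent.LibTk83

/-- Codes of names of subsets of `ℕ`: the bit `k` is given by a countable family of finite
sets of statements. A statement is attached to a node of the iteration and says `k ∈ Z_ν`
(`inl k`) or promises `Z_ν ⊆ x` from now on (`inr x`, where `x` is one of the codes `sub j`). -/
inductive Code (Node : Type) : Type
  | nil : Code Node
  | node (f : ℕ → ℕ → Option (List (Node × (ℕ ⊕ ℕ)))) (sub : ℕ → Code Node) : Code Node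

abbrev Stmt (Node : Type) := Node × (ℕ ⊕ Code Node)

abbrev Cond (Node : Type) := Set (Stmt Node)

variable {Node W : Type}

/-- The statement with the code `sub j` instead of `j`. -/
def dec (sub : ℕ → Code Node) (t : Node × (ℕ ⊕ ℕ)) : Stmt Node :=
  (t.1, t.2.elim Sum.inl fun j => Sum.inr (sub j))

/-- The lists of statements of a code. -/
def Code.stmts : Code Node → ℕ → ℕ → Option (List (Stmt Node))
  | .nil, _, _ => none
  | .node f sub, k, i => (f k i).map (List.map (dec sub))

/-- The conditions which force `k ∈ x`. -/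
def Code.conds (x : Code Node) (k : ℕ) : Set (Cond Node) :=
  {c | ∃ i l, x.stmts k i = some l ∧ c = {s | s ∈ l}}

theorem exists_stmts (f : ℕ → ℕ → Option (List (Stmt Node))) : ∃ x : Code Node, x.stmts = f := by
  classical
  -- the codes which occur
  let S : Set (Code Node) := {x | ∃ k i l ν, f k i = some l ∧ (ν, Sum.inr x) ∈ l} ∪ {Code.nil}
  have hS : S.Countable := by
    refine Set.Countable.union ?_ (Set.countable_singleton _)
    have h1 : {x : Code Node | ∃ k i l ν, f k i = some l ∧ (ν, Sum.inr x) ∈ l} ⊆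
        ⋃ k, ⋃ i, {x | ∃ s ∈ (f k i).getD [], s.2 = Sum.inr x} := by
      rintro x ⟨k, i, l, ν, hl, hx⟩
      refine Set.mem_iUnion.2 ⟨k, Set.mem_iUnion.2 ⟨i, (ν, Sum.inr x), ?_, rfl⟩⟩
      rw [hl]
      exact hx
    refine Set.Countable.mono h1 (Set.countable_iUnion fun k => Set.countable_iUnion fun i => ?_)
    have h2 : {x : Code Node | ∃ s ∈ (f k i).getD [], s.2 = Sum.inr x} ⊆
        {x | x ∈ ((f k i).getD []).filterMap fun s => s.2.getRight?} := by
      rintro x ⟨s, hs, hx⟩
      refine List.mem_filterMap.2 ⟨s, hs, ?_⟩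
      rw [hx]
      rfl
    exact ((List.finite_toSet _).subset h2).countable
  obtain ⟨sub, hsub⟩ := hS.exists_eq_range ⟨Code.nil, Or.inr rfl⟩
  let idx : Code Node → ℕ := fun x => if h : ∃ n, sub n = x then h.choose else 0
  have hidx : ∀ x ∈ S, sub (idx x) = x := by
    intro x hx
    have h : ∃ n, sub n = x := by
      rw [hsub] at hx
      exact hx
    simp only [idx, dif_pos h]
    exact h.choose_spec
  refine ⟨.node (fun k i => (f k i).map (List.map fun t =>
    (t.1, t.2.elim Sum.inl fun x => Sum.inr (idx x)))) sub, ?_⟩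
  funext k i
  simp only [Code.stmts, Option.map_map]
  cases hl : f k i with
  | none => rfl
  | some l =>
    simp only [Option.map_some, Function.comp, List.map_map, Option.some.injEq]
    conv_rhs => rw [← List.map_id l]
    refine List.map_congr_left fun t ht => ?_
    obtain ⟨ν, a⟩ := t
    cases a with
    | inl m => rfl
    | inr x =>
      have := hidx x (Or.inl ⟨k, i, l, ν, hl, ht⟩)
      simp only [Function.comp, dec, Sum.elim_inr, id, this]

/-- The code with given lists of statements. -/
noncomputable def Code.ofStmts (f : ℕ → ℕ → Option (List (Stmt Node))) : Code Node :=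
  (exists_stmts f).choose

theorem Code.stmts_ofStmts (f : ℕ → ℕ → Option (List (Stmt Node))) :
    (Code.ofStmts f).stmts = f := (exists_stmts f).choose_spec

variable [LinearOrder W] (st : Node → W) (F : Node → Set (Code Node))

/-- The part of `p` of stage less than `β`. -/
def res (β : W) (p : Cond Node) : Cond Node := {s ∈ p | st s.1 < β}

/-- The conditions of stage `β`. -/
structure Valid (β : W) (p : Cond Node) : Prop where
  fin : p.Finite
  lt : ∀ s ∈ p, st s.1 < β
  mem : ∀ ν x, (ν, Sum.inr x) ∈ p → x ∈ F ν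

variable [WellFoundedLT W]

/-- `p'` is stronger than `p` (at stage `β`). -/
def Ord : W → Cond Node → Cond Node → Prop :=
  (wellFounded_lt (α := W)).fix fun β ih p' p => p ⊆ p' ∧
    ∀ ν k x, (ν, Sum.inl k) ∈ p' → (ν, Sum.inl k) ∉ p → (ν, Sum.inr x) ∈ p → ∀ h : st ν < β,
      ∀ r, Valid st F (st ν) r → ih (st ν) h r (res st (st ν) p') →
        ∃ s, Valid st F (st ν) s ∧ ih (st ν) h s r ∧
          ∃ c ∈ x.conds k, Valid st F (st ν) c ∧ ih (st ν) h s c

/-- `q` forces `k ∈ x` (at stage `β`). -/
def Forces (β : W) (q : Cond Node) (x : Code Node) (k : ℕ) : Prop :=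
  ∀ r, Valid st F β r → Ord st F β r q → ∃ s, Valid st F β s ∧ Ord st F β s r ∧
    ∃ c ∈ x.conds k, Valid st F β c ∧ Ord st F β s c

theorem ord_iff (β : W) (p' p : Cond Node) : Ord st F β p' p ↔ p ⊆ p' ∧
    ∀ ν k x, (ν, Sum.inl k) ∈ p' → (ν, Sum.inl k) ∉ p → (ν, Sum.inr x) ∈ p → st ν < β →
      Forces st F (st ν) (res st (st ν) p') x k := by
  unfold Ord
  rw [WellFounded.fix_eq]
  rfl

end Pool.Agent.LibTk83
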