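import Pool.Agent.LibTk83.ColDef

/-! Task K1: a form of Zorn's lemma for closed forcing notions. -/

namespace Pool.Agent.LibTk83

/- Let `R T q` be a property of a subset `T` of `α` and a condition `q`. Zorn's lemma for the
partial order of the pairs `(T, q)` with `R T q`, `q ≤ q₀`, where
`(T, q) ≤ (T', q')` iff `(T, q) = (T', q')` or `T ⊂ T' ∧ q' ≤ q`. Upper bounds of a chain `C`
without a largest element: `U` = the union of the `T`; for each `a ∈ U` choose a member
`(T a, q a)` of `C` with `a ∈ T a`; the `q a` form a chain, of cardinality at most `κ` (because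
`R T q` for a single... use `hcard` for `R U' q'` below), with a lower bound `q'`. For every
`(T, q) ∈ C` there is a larger `(T', q'')` in `C` and `a ∈ T' \ T`, so `(T, q) < (T a, q a)` and
`q' ≤ q`. The cardinality of `U` is at most `κ` by `hcard`. -/
theorem zorn_closed {α Q : Type} [Preorder Q] {κ : Cardinal.{0}} (hQ : Closed κ Q)
    (R : Set α → Q → Prop) (hanti : ∀ T q q', R T q → q' ≤ q → R T q')
    (hunion : ∀ (C : Set (Set α)) (q : Q), (∀ s ∈ C, ∀ t ∈ C, s ⊆ t ∨ t ⊆ s) → C.Nonempty →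
      (∀ T ∈ C, R T q) → R (⋃₀ C) q)
    (hcard : ∀ C : Set (Set α), (∀ s ∈ C, ∀ t ∈ C, s ⊆ t ∨ t ⊆ s) → (∀ T ∈ C, ∃ q, R T q) →
      Cardinal.mk (⋃₀ C : Set α) ≤ κ)
    {T₀ : Set α} {q₀ : Q} (h₀ : R T₀ q₀) :
    ∃ T q, q ≤ q₀ ∧ T₀ ⊆ T ∧ R T q ∧ ∀ T' q', q' ≤ q → T ⊂ T' → ¬ R T' q' := by
  classical
  let X := {x : Set α × Q // R x.1 x.2 ∧ x.2 ≤ q₀ ∧ T₀ ⊆ x.1}
  let r : X → X → Prop := fun a b => a = b ∨ (a.1.1 ⊂ b.1.1 ∧ b.1.2 ≤ a.1.2)
  have hX : Nonempty X := ⟨⟨(T₀, q₀), h₀, le_rfl, subset_rfl⟩⟩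
  have htrans : ∀ {a b c : X}, r a b → r b c → r a c := by
    intro a b c hab hbc
    rcases hab with rfl | hab
    · exact hbc
    · rcases hbc with rfl | hbc
      · exact Or.inr hab
      · exact Or.inr ⟨hab.1.trans hbc.1, hbc.2.trans hab.2⟩
  have hbd : ∀ c : Set X, IsChain r c → c.Nonempty → ∃ ub, ∀ a ∈ c, r a ub := by
    intro c hc hne
    by_cases hmax : ∃ m ∈ c, ∀ a ∈ c, r a m
    · obtain ⟨m, _, hm⟩ := hmax
      exact ⟨m, hm⟩
    · push Not at hmax
      have hup : ∀ m ∈ c, ∃ a ∈ c, m.1.1 ⊂ a.1.1 ∧ a.1.2 ≤ m.1.2 := by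
        intro m hm
        obtain ⟨a, ha, har⟩ := hmax m hm
        have hne' : m ≠ a := fun h => har (Or.inl h.symm)
        rcases hc hm ha hne' with h | h
        · rcases h with h | h
          · exact absurd h hne'
          · exact ⟨a, ha, h⟩
        · exact absurd h har
      let C : Set (Set α) := (fun x : X => x.1.1) '' c
      have hsub : ∀ a ∈ c, ∀ b ∈ c, a.1.1 ⊆ b.1.1 ∨ b.1.1 ⊆ a.1.1 := by
        intro a ha b hb
        by_cases hab : a = b
        · rw [hab]; exact Or.inl subset_rfl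
        · rcases hc ha hb hab with h | h
          · rcases h with h | h
            · exact absurd h hab
            · exact Or.inl h.1.subset
          · rcases h with h | h
            · exact absurd h.symm hab
            · exact Or.inr h.1.subset
      have hqc : ∀ a ∈ c, ∀ b ∈ c, a.1.2 ≤ b.1.2 ∨ b.1.2 ≤ a.1.2 := by
        intro a ha b hb
        by_cases hab : a = b
        · rw [hab]; exact Or.inl le_rfl
        · rcases hc ha hb hab with h | h
          · rcases h with h | h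
            · exact absurd h hab
            · exact Or.inr h.2
          · rcases h with h | h
            · exact absurd h.symm hab
            · exact Or.inl h.2
      have hCc : ∀ s ∈ C, ∀ t ∈ C, s ⊆ t ∨ t ⊆ s := by
        rintro s ⟨a, ha, rfl⟩ t ⟨b, hb, rfl⟩
        exact hsub a ha b hb
      have hCne : C.Nonempty := hne.image _
      have hU : Cardinal.mk (⋃₀ C : Set α) ≤ κ := by
        refine hcard C hCc ?_
        rintro T ⟨a, ha, rfl⟩
        exact ⟨a.1.2, a.2.1⟩
      have hg : ∀ x : (⋃₀ C : Set α), ∃ m ∈ c, (x : α) ∈ m.1.1 := by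
        rintro ⟨x, s, ⟨a, ha, rfl⟩, hx⟩
        exact ⟨a, ha, hx⟩
      choose g hgc hgx using hg
      let S : Set Q := Set.range fun x : (⋃₀ C : Set α) => (g x).1.2
      have hS : Cardinal.mk S ≤ κ := Cardinal.mk_range_le.trans hU
      have hSc : ∀ a ∈ S, ∀ b ∈ S, a ≤ b ∨ b ≤ a := by
        rintro _ ⟨x, rfl⟩ _ ⟨y, rfl⟩
        exact hqc _ (hgc x) _ (hgc y)
      have hmemU : ∀ a ∈ c, a.1.1 ⊆ ⋃₀ C := fun a ha => Set.subset_sUnion_of_mem ⟨a, ha, rfl⟩
      have hSne : S.Nonempty := by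
        obtain ⟨m, hm⟩ := hne
        obtain ⟨a, ha, hma, _⟩ := hup m hm
        obtain ⟨x, hx, _⟩ := Set.exists_of_ssubset hma
        exact ⟨_, ⟨⟨x, hmemU a ha hx⟩, rfl⟩⟩
      obtain ⟨q', hq'⟩ := hQ S hS hSc hSne
      have hlow : ∀ m ∈ c, q' ≤ m.1.2 := by
        intro m hm
        obtain ⟨a, ha, hma, _⟩ := hup m hm
        obtain ⟨x, hx, hxm⟩ := Set.exists_of_ssubset hma
        let x' : (⋃₀ C : Set α) := ⟨x, hmemU a ha hx⟩
        have h1 := hgc x'
        have h2 : x ∈ (g x').1.1 := hgx x'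
        have hne' : m ≠ g x' := by
          intro h
          rw [← h] at h2
          exact hxm h2
        have h3 : (g x').1.2 ≤ m.1.2 := by
          rcases hc hm h1 hne' with h | h
          · rcases h with h | h
            · exact absurd h hne'
            · exact h.2
          · rcases h with h | h
            · exact absurd h.symm hne'
            · exact absurd (h.1.subset h2) hxm
        exact (hq' _ ⟨x', rfl⟩).trans h3
      have hRU : R (⋃₀ C) q' := by
        refine hunion C q' hCc hCne ?_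
        rintro T ⟨a, ha, rfl⟩
        exact hanti _ _ _ a.2.1 (hlow a ha)
      obtain ⟨m, hm⟩ := hne
      refine ⟨⟨(⋃₀ C, q'), hRU, (hlow m hm).trans m.2.2.1, m.2.2.2.trans (hmemU m hm)⟩, ?_⟩
      intro a ha
      obtain ⟨b, hb, hab, _⟩ := hup a ha
      exact Or.inr ⟨hab.trans_subset (hmemU b hb), hlow a ha⟩
  obtain ⟨m, hm⟩ := exists_maximal_of_nonempty_chains_bounded hbd htrans
  refine ⟨m.1.1, m.1.2, m.2.2.1, m.2.2.2, m.2.1, ?_⟩
  intro T' q' hq' hT hR
  have h1 := hm ⟨(T', q'), hR, hq'.trans m.2.2.1, m.2.2.2.trans hT.subset⟩ (Or.inr ⟨hT, hq'⟩)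
  rcases h1 with h1 | h1
  · rw [← h1] at hT
    exact hT.ne rfl
  · exact (h1.1.trans hT).ne rfl

end Pool.Agent.LibTk83
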