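import Pool.Agent.LibTk83.K1

/-! Task K2: Easton's lemma. -/

namespace Pool.Agent.LibTk83

variable {P Q : Type} [Preorder P] [Preorder Q]

/-- The members of `T` are pairwise incompatible. -/
def K2_Anti (P : Type) [Preorder P] (T : Set P) : Prop :=
  ∀ a ∈ T, ∀ b ∈ T, a ≠ b → ¬ ∃ r, r ≤ a ∧ r ≤ b

theorem K2_countable (hP : CCC P) {T : Set P} (hT : K2_Anti P T) : T.Countable := by
  by_contra hcon
  have hu : Uncountable T := by
    rw [← not_countable_iff]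
    intro h
    exact hcon (Set.countable_coe_iff.mp h)
  obtain ⟨i, j, hij, r, hr1, hr2⟩ := hP T hu (fun t => (t : P))
  exact hT i i.2 j j.2 (fun h => hij (Subtype.ext h)) ⟨r, hr1, hr2⟩

theorem K2_anti_union {C : Set (Set P)} (hC : ∀ s ∈ C, ∀ t ∈ C, s ⊆ t ∨ t ⊆ s)
    (h : ∀ T ∈ C, K2_Anti P T) : K2_Anti P (⋃₀ C) := by
  rintro a ⟨s, hs, ha⟩ b ⟨t, ht, hb⟩ hab
  rcases hC s hs t ht with h1 | h1
  · exact h t ht a (h1 ha) b hb hab
  · exact h s hs a ha b (h1 hb) hab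

/- `zorn_closed` with `α = P`, `R T q`: the members of `T` are pairwise incompatible and
`(p, q) ∈ D` for all `p ∈ T`; `T₀ = ∅`. A set of pairwise incompatible conditions is countable by
`hP`. If `(T, q')` is the result then each `p` is compatible with a member of `T`: otherwise take
`(p₁, q₁) ≤ (p, q')` in `D` and `insert p₁ T`. -/
theorem easton (hP : CCC P) {κ : Cardinal.{0}} (hκ : Cardinal.aleph0 ≤ κ) (hQ : Closed κ Q)
    (D : Set (P × Q)) (hopen : ∀ a b, b ≤ a → a ∈ D → b ∈ D) (hD : ∀ a, ∃ b ≤ a, b ∈ D) (q : Q) :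
    ∃ q' ≤ q, ∀ p : P, ∃ p' ≤ p, (p', q') ∈ D := by
  have hle : ∀ (p p' : P) (q q' : Q), p' ≤ p → q' ≤ q → (p, q) ∈ D → (p', q') ∈ D :=
    fun p p' q q' h1 h2 h3 => hopen _ _ (Prod.mk_le_mk.mpr ⟨h1, h2⟩) h3
  obtain ⟨T, q', hq', -, ⟨hT1, hT2⟩, hmax⟩ := zorn_closed (α := P) hQ
    (fun T q => K2_Anti P T ∧ ∀ p ∈ T, (p, q) ∈ D)
    (fun T q q' h hq => ⟨h.1, fun p hp => hle p p q q' le_rfl hq (h.2 p hp)⟩)
    (fun C q hC _ h => ⟨K2_anti_union hC fun T hT => (h T hT).1, by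
      rintro p ⟨T, hT, hp⟩
      exact (h T hT).2 p hp⟩)
    (fun C hC h => by
      have h1 : (⋃₀ C).Countable :=
        K2_countable hP (K2_anti_union hC fun T hT => (h T hT).elim fun q hq => hq.1)
      exact (Cardinal.mk_le_aleph0_iff.mpr (Set.countable_coe_iff.mpr h1)).trans hκ)
    (T₀ := ∅) (q₀ := q)
    ⟨fun a ha => absurd ha (Set.notMem_empty a), fun p hp => absurd hp (Set.notMem_empty p)⟩
  refine ⟨q', hq', fun p => ?_⟩
  have hcomp : ∃ t ∈ T, ∃ r, r ≤ p ∧ r ≤ t := by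
    by_contra hcon
    push Not at hcon
    obtain ⟨⟨p₁, q₁⟩, hle1, hD1⟩ := hD (p, q')
    obtain ⟨hp1, hq1⟩ := Prod.mk_le_mk.mp hle1
    apply hmax (insert p₁ T) q₁ hq1
    · refine Set.ssubset_insert ?_
      intro h1
      exact hcon p₁ h1 p₁ hp1 le_rfl
    · refine ⟨?_, ?_⟩
      · rintro a (rfl | ha) b (rfl | hb) hab ⟨r, hr1, hr2⟩
        · exact hab rfl
        · exact hcon b hb r (hr1.trans hp1) hr2
        · exact hcon a ha r (hr2.trans hp1) hr1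
        · exact hT1 a ha b hb hab ⟨r, hr1, hr2⟩
      · rintro a (rfl | ha)
        · exact hD1
        · exact hle a a q' q₁ le_rfl hq1 (hT2 a ha)
  obtain ⟨t, ht, r, hr1, hr2⟩ := hcomp
  exact ⟨r, hr1, hle t r q' q' hr2 le_rfl (hT2 t ht)⟩

/- `zorn_closed` with `α = ι` and `R T q`: for all `i ∈ T` and `p` there is `p' ≤ p` with
`(p', q) ∈ D i`. The result has `T = Set.univ` by `easton`. -/
theorem easton_family (hP : CCC P) {κ : Cardinal.{0}} (hκ : Cardinal.aleph0 ≤ κ)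
    (hQ : Closed κ Q) {ι : Type} (hι : Cardinal.mk ι ≤ κ) (D : ι → Set (P × Q))
    (hopen : ∀ i a b, b ≤ a → a ∈ D i → b ∈ D i) (hD : ∀ i a, ∃ b ≤ a, b ∈ D i) (q : Q) :
    ∃ q' ≤ q, ∀ i, ∀ p : P, ∃ p' ≤ p, (p', q') ∈ D i := by
  have hanti : ∀ (i : ι) (q q' : Q), q' ≤ q → (∀ p : P, ∃ p' ≤ p, (p', q) ∈ D i) →
      ∀ p : P, ∃ p' ≤ p, (p', q') ∈ D i := by
    intro i q q' hq h p
    obtain ⟨p', hp', h1⟩ := h p
    exact ⟨p', hp', hopen i _ _ (Prod.mk_le_mk.mpr ⟨le_rfl, hq⟩) h1⟩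
  obtain ⟨T, q', hq', -, hT, hmax⟩ := zorn_closed (α := ι) hQ
    (fun T q => ∀ i ∈ T, ∀ p : P, ∃ p' ≤ p, (p', q) ∈ D i)
    (fun T q q' h hq i hi => hanti i q q' hq (h i hi))
    (fun C q _ _ h => by
      rintro i ⟨T, hT, hi⟩
      exact h T hT i hi)
    (fun C _ _ => (Cardinal.mk_set_le _).trans hι)
    (T₀ := ∅) (q₀ := q) (fun i hi => absurd hi (Set.notMem_empty i))
  refine ⟨q', hq', fun i => ?_⟩
  apply hT
  by_contra hi
  obtain ⟨q₁, hq1, h1⟩ := easton hP hκ hQ (D i) (hopen i) (hD i) q'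
  apply hmax (insert i T) q₁ hq1 (Set.ssubset_insert hi)
  rintro j (rfl | hj)
  · exact h1
  · exact hanti j q' q₁ hq1 (hT j hj)

end Pool.Agent.LibTk83
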