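import Pool.Agent.LibTk83.K2

/-! Task K3: names of reals, no new surjections. -/

namespace Pool.Agent.LibTk83

variable {P Q : Type} [Preorder P] [Preorder Q]

/- `easton_family` with `ι = ℕ` and `D k` the set of the `a` with `a ∈ X k` or `a ∈ (X k)ᶜ`;
`X' k = RO.gen {p | (p, q') ∈ X k}`. If `q'' ≤ q'` and `(p, q'') ∈ X k`, then for `p₁ ≤ p` take
`p₂ ≤ p₁` with `(p₂, q') ∈ D k`; it is not in `(X k)ᶜ`, so it is in `X k`. Conversely if `p ∈ X' k`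
then `(p, q'')` is in `X k` by regularity (`RO.mem_of_dense`). -/
theorem real_name (hP : CCC P) {κ : Cardinal.{0}} (hκ : Cardinal.aleph0 ≤ κ) (hQ : Closed κ Q)
    (X : ℕ → RO (P × Q)) (q : Q) :
    ∃ q' ≤ q, ∃ X' : ℕ → RO P, ∀ k p, ∀ q'' ≤ q', ((p, q'') ∈ X k ↔ p ∈ X' k) := by
  obtain ⟨q', hq', h⟩ := easton_family hP hκ hQ (ι := ℕ) (by simpa using hκ)
    (fun k => {a | a ∈ X k ∨ a ∈ (X k)ᶜ})
    (by
      intro i a b hba ha
      rcases ha with ha | ha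
      · exact Or.inl (RO.mem_of_le hba ha)
      · exact Or.inr (RO.mem_of_le hba ha))
    (by
      intro i a
      by_cases h : ∃ b, b ≤ a ∧ b ∈ X i
      · obtain ⟨b, hb, hb'⟩ := h
        exact ⟨b, hb, Or.inl hb'⟩
      · push Not at h
        exact ⟨a, le_rfl, Or.inr (RO.mem_compl.2 h)⟩) q
  refine ⟨q', hq', fun k => RO.gen {p | (p, q') ∈ X k}, ?_⟩
  intro k p q'' hq''
  constructor
  · intro hp
    rw [RO.mem_gen]
    intro p₁ hp₁
    obtain ⟨p₂, hp₂, hD⟩ := h k p₁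
    refine ⟨p₂, hp₂, p₂, ?_, le_rfl⟩
    rcases hD with hD | hD
    · exact hD
    · exfalso
      have h1 : ((p₂, q'') : P × Q) ∈ X k := RO.mem_of_le (Prod.mk_le_mk.2
        ⟨hp₂.trans hp₁, le_rfl⟩) hp
      exact RO.mem_compl.1 hD (p₂, q'') (Prod.mk_le_mk.2 ⟨le_rfl, hq''⟩) h1
  · intro hp
    refine RO.mem_of_dense ?_
    rintro ⟨a1, a2⟩ ha
    rw [Prod.mk_le_mk] at ha
    obtain ⟨r, hr, s, hs, hrs⟩ := RO.mem_gen.1 hp a1 ha.1
    refine ⟨(r, a2), Prod.mk_le_mk.2 ⟨hr, le_rfl⟩, ?_⟩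
    exact RO.mem_of_le (Prod.mk_le_mk.2 ⟨hrs, ha.2.trans hq''⟩) hs

/- Suppose `(p, q)` is in the left side. `easton_family` with `ι = I` and `D i` the set of the `a`
with `a ∈ r i j` for some `j`, or `a ∈ (⨆ j, r i j)ᶜ`. For each `i` the set `J i` of the `j` such
that `(p', q') ∈ r i j` for some `p'` is countable: conditions `p'` for different `j` are
incompatible. Since `#(⋃ i, J i) ≤ max #I ℵ₀ < #J` there is `j` outside. But `(p, q')` is in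
`⨆ i, r i j`, so `(p₁, q₁) ∈ r i j` for some `(p₁, q₁) ≤ (p, q')`; take `p₂ ≤ p₁` with
`(p₂, q') ∈ D i`; then `(p₂, q') ∈ r i j'` for some `j'`, `j' = j`, so `j ∈ J i`. -/
theorem no_surj (hP : CCC P) {κ : Cardinal.{0}} (hκ : Cardinal.aleph0 ≤ κ) (hQ : Closed κ Q)
    {I J : Type} (hI : Cardinal.mk I ≤ κ) (hIJ : Cardinal.mk I < Cardinal.mk J)
    (hJ : Cardinal.aleph0 < Cardinal.mk J) (r : I → J → RO (P × Q))
    (hr : ∀ i j j', j ≠ j' → r i j ⊓ r i j' = ⊥) : ⨅ j, ⨆ i, r i j = ⊥ := by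
  by_contra hcon
  obtain ⟨⟨p, q⟩, hpq⟩ := RO.ne_bot_iff.1 hcon
  obtain ⟨q', hq', h⟩ := easton_family hP hκ hQ (ι := I) hI
    (fun i => {a | (∃ j, a ∈ r i j) ∨ a ∈ (⨆ j, r i j)ᶜ})
    (by
      intro i a b hba ha
      rcases ha with ⟨j, ha⟩ | ha
      · exact Or.inl ⟨j, RO.mem_of_le hba ha⟩
      · exact Or.inr (RO.mem_of_le hba ha))
    (by
      intro i a
      by_cases h : ∃ b, b ≤ a ∧ b ∈ ⨆ j, r i j
      · obtain ⟨b, hb, hb'⟩ := h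
        obtain ⟨c, hc, j, hj⟩ := RO.mem_iSup.1 hb' b le_rfl
        exact ⟨c, hc.trans hb, Or.inl ⟨j, hj⟩⟩
      · push Not at h
        exact ⟨a, le_rfl, Or.inr (RO.mem_compl.2 h)⟩) q
  have hdis : ∀ i j j' (a : P × Q), a ∈ r i j → a ∈ r i j' → j = j' := by
    intro i j j' a ha ha'
    by_contra hne
    have h1 : a ∈ r i j ⊓ r i j' := RO.mem_inf.2 ⟨ha, ha'⟩
    rw [hr i j j' hne] at h1
    exact RO.not_mem_bot h1
  -- the countable sets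
  have hcount : ∀ i, Cardinal.mk ({j | ∃ p', ((p', q') : P × Q) ∈ r i j} : Set J)
      ≤ Cardinal.aleph0 := by
    intro i
    by_contra hnc
    have hunc : Uncountable ({j | ∃ p', ((p', q') : P × Q) ∈ r i j} : Set J) := by
      rw [← Cardinal.aleph0_lt_mk_iff]
      exact not_le.1 hnc
    obtain ⟨j, j', hne, s, hs, hs'⟩ := hP _ hunc (fun j => Classical.choose j.2)
    apply hne
    apply Subtype.ext
    have hj := Classical.choose_spec j.2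
    have hj' := Classical.choose_spec j'.2
    exact hdis i j.1 j'.1 (s, q') (RO.mem_of_le (Prod.mk_le_mk.2 ⟨hs, le_rfl⟩) hj)
      (RO.mem_of_le (Prod.mk_le_mk.2 ⟨hs', le_rfl⟩) hj')
  have hlt : Cardinal.mk (⋃ i, {j | ∃ p', ((p', q') : P × Q) ∈ r i j} : Set J)
      < Cardinal.mk J := by
    refine lt_of_le_of_lt (Cardinal.mk_iUnion_le_sum_mk) ?_
    refine lt_of_le_of_lt (Cardinal.sum_le_sum _ (fun _ => Cardinal.aleph0) hcount) ?_
    rw [Cardinal.sum_const']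
    exact Cardinal.mul_lt_of_lt hJ.le hIJ hJ
  obtain ⟨j, hj⟩ : ∃ j, j ∉ (⋃ i, {j | ∃ p', ((p', q') : P × Q) ∈ r i j} : Set J) := by
    by_contra hall
    push Not at hall
    have h1 : (⋃ i, {j | ∃ p', ((p', q') : P × Q) ∈ r i j} : Set J) = Set.univ :=
      Set.eq_univ_of_forall hall
    rw [h1, Cardinal.mk_univ] at hlt
    exact lt_irrefl _ hlt
  have h2 : ((p, q') : P × Q) ∈ ⨅ j, ⨆ i, r i j := RO.mem_of_le (Prod.mk_le_mk.2
    ⟨le_rfl, hq'⟩) hpq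
  obtain ⟨⟨p₁, q₁⟩, hle, i, hi⟩ := RO.mem_iSup.1 (RO.mem_iInf.1 h2 j) (p, q') le_rfl
  rw [Prod.mk_le_mk] at hle
  obtain ⟨p₂, hp₂, hD⟩ := h i p₁
  have h3 : ((p₂, q₁) : P × Q) ∈ r i j := RO.mem_of_le (Prod.mk_le_mk.2 ⟨hp₂, le_rfl⟩) hi
  have h4 : ((p₂, q₁) : P × Q) ≤ (p₂, q') := Prod.mk_le_mk.2 ⟨le_rfl, hle.2⟩
  rcases hD with ⟨j', hj'⟩ | hD
  · have h5 : j = j' := hdis i j j' _ h3 (RO.mem_of_le h4 hj')
    subst h5
    exact hj (Set.mem_iUnion.2 ⟨i, p₂, hj'⟩)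
  · exact RO.mem_compl.1 hD _ h4 (le_iSup (fun j => r i j) j h3)

end Pool.Agent.LibTk83
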