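import Pool.Agent.LibTk83.V7
import Pool.Agent.LibTk83.V14
import Pool.Agent.LibTk83.V5

/-! Task V8: `[ω_n]^{<ω}` is Tukey below the ultrafilter. -/

namespace Pool.Agent.LibTk83

open Pool.Agent.LibPlas90 Pool.Agent.LibPlas90.BSet

variable {B : Type} [CompleteBooleanAlgebra B] {I : Type} [LinearOrder I] [WellFoundedLT I]

private theorem V8_cases {B : Type*} [CompleteBooleanAlgebra B] {ι : Sort*} {c b : B} {f : ι → B}
    (h : c ≤ ⨆ i, f i) (h' : ∀ i d, d ≤ c → d ≤ f i → d ≤ b) : c ≤ b := by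
  calc c ≤ c ⊓ ⨆ i, f i := le_inf le_rfl h
    _ = ⨆ i, c ⊓ f i := inf_iSup_eq _ _
    _ ≤ b := iSup_le fun i => h' i _ inf_le_left inf_le_right

private theorem V8_mp {B : Type*} [CompleteBooleanAlgebra B] {c a b : B} (h : c ≤ a ⇨ b)
    (ha : c ≤ a) : c ≤ b :=
  (le_inf h ha).trans himp_inf_le

private theorem V8_intro {B : Type*} [CompleteBooleanAlgebra B] {c a b : B}
    (h : ∀ d, d ≤ c → d ≤ a → d ≤ b) : c ≤ a ⇨ b :=
  le_himp_iff.2 (h _ inf_le_left inf_le_right)

private theorem V8_ext {φ : BSet B → B} (h : Ext φ) {x y : BSet B} {c : B} (h1 : c ≤ eq x y)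
    (h2 : c ≤ φ x) : c ≤ φ y := (le_inf h1 h2).trans (h x y)

/-- The name of the map `F ↦ ⋂ i ∈ F, A i`. -/
noncomputable def tkf (U : UData B I) : BSet B :=
  mk (Finset I) (fun F => opr (fsub chk F) (rl fun k => ⨅ i ∈ F, U.A i k)) (fun _ => ⊤)

theorem rel_tkf (U : UData B I) (F : Finset I) (y : BSet B) :
    rel (tkf U) (fsub chk F) y = eq y (rl fun k => ⨅ i ∈ F, U.A i k) := by
  rw [rel_eq]
  unfold tkf
  rw [mem_mk]
  apply le_antisymm
  · refine iSup_le fun G => ?_
    rw [top_inf_eq, eq_opr]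
    by_cases h : F = G
    · subst h
      exact inf_le_right
    · rw [eq_fsub_chk h, bot_inf_eq]
      exact bot_le
  · refine le_iSup_of_le F ?_
    rw [top_inf_eq, eq_opr, eq_refl, top_inf_eq]

/- `⋂ i ∈ F, A i` is in the ultrafilter: induction on `F` with `U.memA` and `U.dir`. -/
theorem mem_tkf (U : UData B I) (F : Finset I) :
    mem (rl fun k => ⨅ i ∈ F, U.A i k) (Un U) = ⊤ := by
  classical
  rw [mem_Un_rl, eq_top_iff]
  induction F using Finset.induction_on with
  | empty =>
    rw [← U.nonpr 0]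
    refine iSup_mono fun i => le_iInf fun k => ?_
    simp
  | insert j F _ ih =>
    refine V8_cases ih fun i1 d1 _ h1 => ?_
    have h2 : d1 ≤ ⨆ i, ⨅ k, (U.D i k ⇨ U.A j k) := by rw [U.memA j]; exact le_top
    refine V8_cases h2 fun i2 d2 hd2 h3 => ?_
    have h4 : d2 ≤ ⨆ l, ⨅ k, (U.D l k ⇨ U.D i1 k ⊓ U.D i2 k) := by
      rw [U.dir i1 i2]
      exact le_top
    refine V8_cases h4 fun l d3 hd3 h5 => le_iSup_of_le l (le_iInf fun k => ?_)
    refine V8_intro fun d4 hd4 h6 => ?_
    have h7 : d4 ≤ U.D i1 k ⊓ U.D i2 k := V8_mp ((hd4.trans h5).trans (iInf_le _ k)) h6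
    have h8 : d4 ≤ ⨅ i ∈ F, U.A i k :=
      V8_mp ((((hd4.trans hd3).trans hd2).trans h1).trans (iInf_le _ k)) (h7.trans inf_le_left)
    have h9 : d4 ≤ U.A j k :=
      V8_mp (((hd4.trans hd3).trans h3).trans (iInf_le _ k)) (h7.trans inf_le_right)
    refine le_iInf fun i => le_iInf fun hi => ?_
    rcases Finset.mem_insert.1 hi with rfl | hi
    · exact h9
    · exact h8.trans ((iInf_le _ i).trans (iInf_le _ hi))

/- Let `q` be in the ultrafilter, below some `⨅ k, (U.D i k ⇨ q k)` (`all_Un`, `mem_Un_rl`); below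
some `⨅ j ∉ T, (⨅ k, (U.D i k ⇨ U.A j k))ᶜ` (`U.top`) the bound is `fsub chk T`: an `x ∈ X` equals
some `fsub chk F` (`finSub_le`), and `q ⊆ ⋂ i ∈ F, A i`, so `F ⊆ T` (otherwise the value is `⊥`). -/
theorem tukey_one (U : UData B I) :
    tukey (finSub (ck B I)) (fun x => mem x (Un U)) sub (fun x y => sub y x) = ⊤ := by
  unfold tukey
  rw [eq_top_iff]
  refine le_iSup_of_le (tkf U) (le_inf (le_inf ?_ ?_) ?_)
  · -- total
    refine le_iInf fun x => V8_intro fun d _ h => ?_
    refine V8_cases (h.trans (finSub_le x)) fun F d1 _ h1 => ?_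
    refine le_iSup_of_le (rl fun k => ⨅ i ∈ F, U.A i k) (le_inf ?_ ?_)
    · exact le_top.trans (mem_tkf U F).ge
    · refine V8_ext (Ext.rel1 (tkf U) _) (x := fsub chk F) ?_ ?_
      · rw [eq_symm]
        exact h1
      · rw [rel_tkf, eq_refl]
        exact le_top
  · -- functional
    refine le_iInf fun x => le_iInf fun y => le_iInf fun y' => V8_intro fun d _ h => ?_
    have hx := (((h.trans inf_le_left).trans inf_le_left).trans inf_le_left).trans inf_le_left
    have hy : d ≤ rel (tkf U) x y := (h.trans inf_le_left).trans inf_le_right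
    have hy' : d ≤ rel (tkf U) x y' := h.trans inf_le_right
    refine V8_cases (hx.trans (finSub_le x)) fun F d1 hd1 h1 => ?_
    have h2 : d1 ≤ eq y (rl fun k => ⨅ i ∈ F, U.A i k) := by
      rw [← rel_tkf]
      exact V8_ext (Ext.rel1 (tkf U) y) h1 (hd1.trans hy)
    have h3 : d1 ≤ eq y' (rl fun k => ⨅ i ∈ F, U.A i k) := by
      rw [← rel_tkf]
      exact V8_ext (Ext.rel1 (tkf U) y') h1 (hd1.trans hy')
    refine (le_inf h2 ?_).trans (eq_trans _ (rl fun k => ⨅ i ∈ F, U.A i k) _)
    rw [eq_symm]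
    exact h3
  · -- bounded
    refine le_iInf fun X => V8_intro fun d _ h => ?_
    have hX : d ≤ all X (finSub (ck B I)) := h.trans inf_le_left
    refine V8_cases (h.trans inf_le_right) fun q d1 hd1 hq => ?_
    have hqU : d1 ≤ mem q (Un U) := hq.trans inf_le_left
    have hqX := hq.trans inf_le_right
    unfold Un at hqU
    rw [mem_mk] at hqU
    refine V8_cases hqU fun q' d2 hd2 hq' => ?_
    have hqq : d2 ≤ eq q (rl q') := hq'.trans inf_le_right
    refine V8_cases (hq'.trans inf_le_left) fun i d3 hd3 hi => ?_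
    have htop : d3 ≤ ⨆ T : Finset I, ⨅ j, ⨅ (_ : j ∉ T), (⨅ k, (U.D i k ⇨ U.A j k))ᶜ := by
      rw [U.top i]
      exact le_top
    refine V8_cases htop fun T d4 hd4 hT => ?_
    refine le_iSup_of_le (fsub chk T) (le_inf ?_ ?_)
    · rw [finSub_fsub]
      exact le_top
    · refine le_iInf fun x => V8_intro fun d5 hd5 hx => ?_
      have h52 : d5 ≤ d2 := (hd5.trans hd4).trans hd3
      have h51 : d5 ≤ d1 := h52.trans hd2
      have hxf : d5 ≤ finSub (ck B I) x :=
        V8_mp (((h51.trans hd1).trans hX).trans (iInf_le _ x)) hx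
      refine V8_cases (hxf.trans (finSub_le x)) fun F d6 hd6 hF => ?_
      refine V8_ext (Ext_sub_left (fsub chk T)) (x := fsub chk F) ?_ ?_
      · rw [eq_symm]
        exact hF
      · by_cases hFT : F ⊆ T
        · rw [sub_fsub_of_subset hFT]
          exact le_top
        · obtain ⟨j, hjF, hjT⟩ := Finset.not_subset.1 hFT
          have h1 : d6 ≤ sub q (rl fun k => ⨅ i ∈ F, U.A i k) := by
            have h2 := V8_mp (((hd6.trans h51).trans hqX).trans (iInf_le _ x)) (hd6.trans hx)
            have h3 := h2.trans (iInf_le _ (rl fun k => ⨅ i ∈ F, U.A i k))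
            refine V8_mp h3 (le_inf ?_ ?_)
            · exact le_top.trans (mem_tkf U F).ge
            · refine V8_ext (Ext.rel1 (tkf U) _) (x := fsub chk F) ?_ ?_
              · rw [eq_symm]
                exact hF
              · rw [rel_tkf, eq_refl]
                exact le_top
          have h2 : d6 ≤ sub (rl q') (rl fun k => ⨅ i ∈ F, U.A i k) :=
            V8_ext (Ext_sub_left _) ((hd6.trans h52).trans hqq) h1
          rw [sub_rl] at h2
          have h3 : d6 ≤ ⨅ k, (U.D i k ⇨ U.A j k) := by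
            refine le_iInf fun k => V8_intro fun e he hk => ?_
            have h4 : e ≤ q' k := by
              refine V8_mp ((((he.trans hd6).trans hd5).trans hd4).trans (hi.trans (iInf_le _ k))) hk
            have h5 : e ≤ ⨅ i ∈ F, U.A i k := V8_mp ((he.trans h2).trans (iInf_le _ k)) h4
            exact h5.trans ((iInf_le _ j).trans (iInf_le _ hjF))
          have h4 : d6 ≤ (⨅ k, (U.D i k ⇨ U.A j k))ᶜ :=
            (hd6.trans hd5).trans (hT.trans ((iInf_le _ j).trans (iInf_le _ hjT)))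
          have h5 : d6 ≤ ⊥ := by
            rw [← inf_compl_self (⨅ k, (U.D i k ⇨ U.A j k))]
            exact le_inf h3 h4
          exact h5.trans bot_le

end Pool.Agent.LibTk83
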