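import Pool.Agent.LibTk83.V7
import Pool.Agent.LibTk83.V14
import Pool.Agent.LibTk83.V5
import Pool.Agent.LibTk83.X1

/-! Task V9: the ultrafilter is Tukey below `[ω_n]^{<ω}`. -/

namespace Pool.Agent.LibTk83

open Pool.Agent.LibPlas90 Pool.Agent.LibPlas90.BSet

variable {B : Type} [CompleteBooleanAlgebra B] {I : Type} [LinearOrder I] [WellFoundedLT I]

/-- The truth value of: `i` is least with `D i ⊆ x`. -/
noncomputable def lst (U : UData B I) (x : ℕ → B) (i : I) : B :=
  (⨅ k, (U.D i k ⇨ x k)) ⊓ ⨅ i', ⨅ (_ : i' < i), (⨅ k, (U.D i' k ⇨ x k))ᶜ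

/-- The name of the map `x ↦ {i}`, where `i` is least with `D i ⊆ x`. -/
noncomputable def tkg (U : UData B I) : BSet B :=
  mk ((ℕ → B) × I) (fun p => opr (rl p.1) (fsub chk {p.2})) (fun p => lst U p.1 p.2)

omit [LinearOrder I] [WellFoundedLT I] in
theorem V9_real (U : UData B I) (x x' : ℕ → B) (i : I) :
    eq (rl x) (rl x') ⊓ (⨅ k, (U.D i k ⇨ x' k)) ≤ ⨅ k, (U.D i k ⇨ x k) := by
  rw [eq_rl]
  refine le_iInf fun k => ?_
  rw [le_himp_iff]
  have h1 : (⨅ k, (U.D i k ⇨ x' k)) ⊓ U.D i k ≤ x' k := by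
    rw [← le_himp_iff]
    exact iInf_le _ k
  have h2 : (⨅ k, ((x k ⇨ x' k) ⊓ (x' k ⇨ x k))) ⊓ x' k ≤ x k := by
    rw [← le_himp_iff]
    exact (iInf_le _ k).trans inf_le_right
  rw [inf_assoc]
  exact (inf_le_inf_left _ h1).trans h2

theorem V9_lst_congr (U : UData B I) (x x' : ℕ → B) (i : I) :
    eq (rl x) (rl x') ⊓ lst U x' i ≤ lst U x i := by
  unfold lst
  refine le_inf ?_ (le_iInf fun i' => le_iInf fun hi' => ?_)
  · exact (inf_le_inf_left _ inf_le_left).trans (V9_real U x x' i)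
  · rw [← himp_bot, le_himp_iff]
    have h1 : eq (rl x) (rl x') ⊓ (⨅ k, (U.D i' k ⇨ x k)) ≤ ⨅ k, (U.D i' k ⇨ x' k) := by
      rw [eq_symm]
      exact V9_real U x' x i'
    have h2 : (⨅ k, (U.D i k ⇨ x' k)) ⊓ (⨅ i', ⨅ (_ : i' < i), (⨅ k, (U.D i' k ⇨ x' k))ᶜ) ≤
        (⨅ k, (U.D i' k ⇨ x' k))ᶜ := inf_le_right.trans ((iInf_le _ i').trans (iInf_le _ hi'))
    refine le_trans ?_ (compl_inf_self (⨅ k, (U.D i' k ⇨ x' k))).le
    refine le_inf ?_ ?_
    · exact inf_le_left.trans (inf_le_right.trans h2)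
    · exact (inf_le_inf_right _ inf_le_left).trans h1

theorem V9_lst_disj (U : UData B I) (x : ℕ → B) {i i' : I} (h : i ≠ i') :
    lst U x i ⊓ lst U x i' ≤ ⊥ := by
  have key : ∀ a b : I, a < b → lst U x a ⊓ lst U x b ≤ ⊥ := by
    intro a b hab
    refine le_trans ?_ (inf_compl_self (⨅ k, (U.D a k ⇨ x k))).le
    unfold lst
    refine le_inf (inf_le_left.trans inf_le_left) ?_
    exact inf_le_right.trans (inf_le_right.trans ((iInf_le _ a).trans (iInf_le _ hab)))
  rcases lt_or_gt_of_ne h with h | h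
  · exact key _ _ h
  · rw [inf_comm]
    exact key _ _ h

theorem V9_sub_trans (x y z : BSet B) : sub x y ⊓ sub y z ≤ sub x z := by
  unfold sub all
  refine le_iInf fun t => ?_
  rw [le_himp_iff]
  have h1 : (⨅ t, mem t x ⇨ mem t y) ⊓ mem t x ≤ mem t y := by
    rw [← le_himp_iff]
    exact iInf_le _ t
  have h2 : (⨅ t, mem t y ⇨ mem t z) ⊓ mem t y ≤ mem t z := by
    rw [← le_himp_iff]
    exact iInf_le _ t
  calc (⨅ t, mem t x ⇨ mem t y) ⊓ (⨅ t, mem t y ⇨ mem t z) ⊓ mem t x
      ≤ (⨅ t, mem t y ⇨ mem t z) ⊓ ((⨅ t, mem t x ⇨ mem t y) ⊓ mem t x) :=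
        le_inf (inf_le_left.trans inf_le_right)
          (le_inf (inf_le_left.trans inf_le_left) inf_le_right)
    _ ≤ (⨅ t, mem t y ⇨ mem t z) ⊓ mem t y := inf_le_inf_left _ h1
    _ ≤ mem t z := h2

/- `lst` respects equality of reals. -/
theorem rel_tkg (U : UData B I) (x : ℕ → B) (y : BSet B) :
    rel (tkg U) (rl x) y = ⨆ i, lst U x i ⊓ eq y (fsub chk {i}) := by
  rw [rel_eq, tkg, mem_mk]
  apply le_antisymm
  · refine iSup_le fun p => ?_
    refine le_iSup_of_le p.2 ?_
    rw [eq_opr]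
    refine le_inf ?_ (inf_le_right.trans inf_le_right)
    refine le_trans ?_ (V9_lst_congr U x p.1 p.2)
    exact le_inf (inf_le_right.trans inf_le_left) inf_le_left
  · refine iSup_le fun i => ?_
    refine le_iSup_of_le (x, i) ?_
    rw [eq_opr, eq_refl, top_inf_eq]

/- `iSup_least`. -/
theorem iSup_lst (U : UData B I) (x : ℕ → B) :
    ⨆ i, lst U x i = ⨆ i, ⨅ k, (U.D i k ⇨ x k) :=
  iSup_least fun i => ⨅ k, (U.D i k ⇨ x k)

theorem exists_common (U : UData B I) (F : Finset I) (hF : F.Nonempty) :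
    ⨆ l, ⨅ i ∈ F, ⨅ k, (U.D l k ⇨ U.D i k) = ⊤ := by
  classical
  induction hF using Finset.Nonempty.cons_induction with
  | singleton a =>
    refine top_le_iff.1 (le_iSup_of_le a ?_)
    simp
  | cons a s ha hs ih =>
    rw [← top_le_iff, ← ih]
    refine iSup_le fun l => ?_
    have h1 : (⨅ i ∈ s, ⨅ k, (U.D l k ⇨ U.D i k)) =
        (⨅ i ∈ s, ⨅ k, (U.D l k ⇨ U.D i k)) ⊓ ⨆ l', ⨅ k, (U.D l' k ⇨ U.D l k ⊓ U.D a k) := by
      rw [U.dir l a, inf_top_eq]
    rw [h1, inf_iSup_eq]
    refine iSup_mono fun l' => ?_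
    refine le_iInf fun i => le_iInf fun hi => le_iInf fun k => ?_
    rw [le_himp_iff]
    have h2 : (⨅ k, (U.D l' k ⇨ U.D l k ⊓ U.D a k)) ⊓ U.D l' k ≤ U.D l k ⊓ U.D a k := by
      rw [← le_himp_iff]
      exact iInf_le _ k
    rw [inf_assoc]
    refine (inf_le_inf_left _ h2).trans ?_
    rcases Finset.mem_cons.1 hi with rfl | hi
    · exact inf_le_right.trans inf_le_right
    · have h3 : (⨅ i ∈ s, ⨅ k, (U.D l k ⇨ U.D i k)) ⊓ U.D l k ≤ U.D i k := by
        rw [← le_himp_iff]
        exact (iInf_le _ i).trans ((iInf_le _ hi).trans (iInf_le _ k))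
      exact (inf_le_inf_left _ inf_le_left).trans h3

/-- a statement on the members of the ultrafilter can be checked at the names of reals -/
theorem V9_Un (U : UData B I) {φ : BSet B → B} (h : Ext φ)
    (hx : ∀ x : ℕ → B, ∀ i, lst U x i ≤ φ (rl x)) (x : BSet B) : mem x (Un U) ≤ φ x := by
  have h1 : all (Un U) φ = ⊤ := by
    rw [all_Un U h, ← top_le_iff]
    refine le_iInf fun x => ?_
    rw [le_himp_iff, top_inf_eq, ← iSup_lst]
    exact iSup_le fun i => hx x i
  have h2 : (⊤ : B) ≤ mem x (Un U) ⇨ φ x := by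
    rw [← h1]
    exact iInf_le _ x
  rw [le_himp_iff, top_inf_eq] at h2
  exact h2

theorem V9_rel (U : UData B I) (x : ℕ → B) (i : I) :
    lst U x i ≤ rel (tkg U) (rl x) (fsub chk {i}) := by
  rw [rel_tkg]
  refine le_iSup_of_le i ?_
  rw [eq_refl, inf_top_eq]

theorem V9_bound (U : UData B I) (F : Finset I) (x : BSet B) :
    mem x (Un U) ≤ (⨅ y : BSet B, finSub (ck B I) y ⊓ rel (tkg U) x y ⇨ sub y (fsub chk F)) ⇨
      ⨆ i ∈ F, sub (rl (U.D i)) x := by
  refine V9_Un U (φ := fun x => (⨅ y : BSet B, finSub (ck B I) y ⊓ rel (tkg U) x y ⇨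
    sub y (fsub chk F)) ⇨ ⨆ i ∈ F, sub (rl (U.D i)) x) ?_ ?_ x
  · refine Ext.himp ?_ ?_
    · exact Ext.iInf fun y => Ext.himp (Ext.inf (Ext.const _) (Ext.rel1 _ _)) (Ext.const _)
    · exact Ext.iSup fun i => Ext.iSup fun _ => Ext_sub_right _
  · intro x i
    rw [le_himp_iff]
    have h1 : lst U x i ⊓ (⨅ y : BSet B, finSub (ck B I) y ⊓ rel (tkg U) (rl x) y ⇨
        sub y (fsub chk F)) ≤ sub (fsub chk {i}) (fsub chk F) := by
      refine (inf_le_inf_left _ (iInf_le _ (fsub chk {i}))).trans ?_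
      rw [finSub_fsub, top_inf_eq]
      refine (inf_le_inf_right _ (V9_rel U x i)).trans ?_
      exact inf_himp_le
    by_cases hi : i ∈ F
    · refine le_iSup_of_le i (le_iSup_of_le hi ?_)
      rw [sub_rl]
      exact inf_le_left.trans inf_le_left
    · refine (h1.trans ?_).trans bot_le
      have h2 : sub (fsub chk {i}) (fsub chk F) ≤
          mem (chk i : BSet B) (fsub chk {i}) ⇨ mem (chk i) (fsub chk F) := iInf_le _ (chk i)
      rw [mem_chk_fsub_of_mem (Finset.mem_singleton_self i), mem_chk_fsub_of_not_mem hi,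
        top_himp] at h2
      exact h2

/- `tkg U` is a map by `rel_tkg`, `iSup_lst`, `eq_fsub_chk`. Let `q` be a finite set, `q = fsub chk F`
(`finSub_le`), which contains the images of all `x ∈ X`; so each `x ∈ X` contains some `D i`,
`i ∈ F`. If `F` is empty so is `X`, and any member of the ultrafilter is a bound. Otherwise take
`l` from `exists_common`; `rl (U.D l)` is a bound. (`I` may be assumed not empty by `U.nonpr`
when `B` is nontrivial; or use `rl (fun _ => ⊤)`... note `⨆ i, ⊤ = ⊤` needs `I` nonempty: this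
follows from `U.nonpr 0` if `⊤ ≠ ⊥`.) -/
theorem tukey_two (U : UData B I) :
    tukey (fun x => mem x (Un U)) (finSub (ck B I)) (fun x y => sub y x) sub = ⊤ := by
  rcases isEmpty_or_nonempty I with hI | hI
  · have h1 := U.nonpr 0
    rw [iSup_of_empty] at h1
    have : Subsingleton B := subsingleton_of_bot_eq_top h1
    exact Subsingleton.elim _ _
  rw [← top_le_iff]
  unfold tukey
  refine le_iSup_of_le (tkg U) ?_
  refine le_inf (le_inf ?_ ?_) ?_
  · refine le_iInf fun x => ?_
    rw [le_himp_iff, top_inf_eq]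
    refine V9_Un U (φ := fun x => ⨆ y : BSet B, finSub (ck B I) y ⊓ rel (tkg U) x y) ?_ ?_ x
    · exact Ext.iSup fun y => Ext.inf (Ext.const _) (Ext.rel1 _ _)
    · intro x i
      refine le_iSup_of_le (fsub chk {i}) ?_
      rw [finSub_fsub, top_inf_eq]
      exact V9_rel U x i
  · refine le_iInf fun x => le_iInf fun y => le_iInf fun y' => ?_
    rw [le_himp_iff, top_inf_eq]
    have h1 : mem x (Un U) ≤ rel (tkg U) x y ⊓ rel (tkg U) x y' ⇨ eq y y' := by
      refine V9_Un U (φ := fun x => rel (tkg U) x y ⊓ rel (tkg U) x y' ⇨ eq y y') ?_ ?_ x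
      · exact Ext.himp (Ext.inf (Ext.rel1 _ _) (Ext.rel1 _ _)) (Ext.const _)
      · intro x _
        rw [le_himp_iff, rel_tkg, rel_tkg]
        refine inf_le_right.trans ?_
        rw [iSup_inf_eq]
        refine iSup_le fun i => ?_
        rw [inf_iSup_eq]
        refine iSup_le fun i' => ?_
        by_cases h : i = i'
        · subst h
          refine le_trans ?_ (eq_trans y (fsub chk {i}) y')
          refine le_inf (inf_le_left.trans inf_le_right) ?_
          rw [eq_symm (fsub chk {i})]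
          exact inf_le_right.trans inf_le_right
        · refine le_trans ?_ ((V9_lst_disj U x h).trans bot_le)
          exact le_inf (inf_le_left.trans inf_le_left) (inf_le_right.trans inf_le_left)
    rw [le_himp_iff] at h1
    refine le_trans ?_ h1
    refine le_inf ?_ (le_inf ?_ ?_)
    · exact inf_le_left.trans (inf_le_left.trans (inf_le_left.trans inf_le_left))
    · exact inf_le_left.trans inf_le_right
    · exact inf_le_right
  · refine le_iInf fun X => ?_
    rw [le_himp_iff, top_inf_eq, inf_iSup_eq]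
    refine iSup_le fun q => ?_
    -- replace `q` by a standard finite set
    have h1 : (all X fun x => mem x (Un U)) ⊓ (finSub (ck B I) q ⊓ all X fun x =>
        ⨅ y : BSet B, finSub (ck B I) y ⊓ rel (tkg U) x y ⇨ sub y q) ≤
        ⨆ F : Finset I, eq q (fsub chk F) ⊓ ((all X fun x => mem x (Un U)) ⊓ all X fun x =>
        ⨅ y : BSet B, finSub (ck B I) y ⊓ rel (tkg U) x y ⇨ sub y q) := by
      rw [← iSup_inf_eq]
      refine le_inf ?_ (inf_le_inf_left _ inf_le_right)
      exact inf_le_right.trans (inf_le_left.trans (finSub_le q))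
    refine h1.trans (iSup_le fun F => ?_)
    have hext : Ext fun q : BSet B => all X fun x =>
        ⨅ y : BSet B, finSub (ck B I) y ⊓ rel (tkg U) x y ⇨ sub y q :=
      Ext.all fun x => Ext.iInf fun y => Ext.himp (Ext.const _) (Ext_sub_right _)
    -- each member of `X` contains some `D i`, `i ∈ F`
    have h2 : eq q (fsub chk F) ⊓ ((all X fun x => mem x (Un U)) ⊓ all X fun x =>
        ⨅ y : BSet B, finSub (ck B I) y ⊓ rel (tkg U) x y ⇨ sub y q) ≤
        all X fun x => ⨆ i ∈ F, sub (rl (U.D i)) x := by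
      have h3 : eq q (fsub chk F) ⊓ ((all X fun x => mem x (Un U)) ⊓ all X fun x =>
          ⨅ y : BSet B, finSub (ck B I) y ⊓ rel (tkg U) x y ⇨ sub y q) ≤
          (all X fun x => mem x (Un U)) ⊓ all X fun x =>
          ⨅ y : BSet B, finSub (ck B I) y ⊓ rel (tkg U) x y ⇨ sub y (fsub chk F) := by
        refine le_inf (inf_le_right.trans inf_le_left) ?_
        exact (inf_le_inf_left _ inf_le_right).trans (hext q (fsub chk F))
      refine h3.trans ?_
      refine le_iInf fun x => ?_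
      rw [le_himp_iff]
      have h4 : (all X fun x => mem x (Un U)) ⊓ mem x X ≤ mem x (Un U) := by
        rw [← le_himp_iff]
        exact iInf_le _ x
      have h5 : (all X fun x => ⨅ y : BSet B, finSub (ck B I) y ⊓ rel (tkg U) x y ⇨
          sub y (fsub chk F)) ⊓ mem x X ≤ ⨅ y : BSet B, finSub (ck B I) y ⊓ rel (tkg U) x y ⇨
          sub y (fsub chk F) := by
        rw [← le_himp_iff]
        exact iInf_le _ x
      have h6 := V9_bound U F x
      rw [le_himp_iff] at h6
      refine le_trans ?_ h6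
      refine le_inf ?_ ?_
      · exact (inf_le_inf_right _ inf_le_left).trans h4
      · exact (inf_le_inf_right _ inf_le_right).trans h5
    refine h2.trans ?_
    have hmem : ∀ l, mem (rl (U.D l)) (Un U) = ⊤ := by
      intro l
      rw [mem_Un_rl, ← top_le_iff]
      refine le_iSup_of_le l ?_
      simp
    rcases F.eq_empty_or_nonempty with rfl | hF
    · obtain ⟨l⟩ := hI
      refine le_iSup_of_le (rl (U.D l)) ?_
      refine le_inf (le_top.trans (hmem l).ge) ?_
      refine le_iInf fun x => (iInf_le _ x).trans ?_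
      refine himp_le_himp_left ?_
      simp
    · have h7 : (all X fun x => ⨆ i ∈ F, sub (rl (U.D i)) x) =
          (all X fun x => ⨆ i ∈ F, sub (rl (U.D i)) x) ⊓
          ⨆ l, ⨅ i ∈ F, ⨅ k, (U.D l k ⇨ U.D i k) := by
        rw [exists_common U F hF, inf_top_eq]
      rw [h7, inf_iSup_eq]
      refine iSup_le fun l => ?_
      refine le_iSup_of_le (rl (U.D l)) ?_
      refine le_inf (le_top.trans (hmem l).ge) ?_
      refine le_iInf fun x => ?_
      rw [le_himp_iff]
      have h8 : (all X fun x => ⨆ i ∈ F, sub (rl (U.D i)) x) ⊓ mem x X ≤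
          ⨆ i ∈ F, sub (rl (U.D i)) x := by
        rw [← le_himp_iff]
        exact iInf_le _ x
      have h9 : (all X fun x => ⨆ i ∈ F, sub (rl (U.D i)) x) ⊓
          (⨅ i ∈ F, ⨅ k, (U.D l k ⇨ U.D i k)) ⊓ mem x X ≤
          (⨅ i ∈ F, ⨅ k, (U.D l k ⇨ U.D i k)) ⊓ ⨆ i ∈ F, sub (rl (U.D i)) x :=
        le_inf (inf_le_left.trans inf_le_right) ((inf_le_inf_right _ inf_le_left).trans h8)
      refine h9.trans ?_
      rw [inf_iSup_eq]
      refine iSup_le fun i => ?_
      rw [inf_iSup_eq]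
      refine iSup_le fun hi => ?_
      refine le_trans ?_ (V9_sub_trans (rl (U.D l)) (rl (U.D i)) x)
      refine inf_le_inf_right _ ?_
      rw [sub_rl]
      exact (iInf_le _ i).trans (iInf_le _ hi)

end Pool.Agent.LibTk83
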