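import Mathlib

/-! Task X2: ranks in locally finite Boolean-valued sets. -/

namespace Pool.Agent.LibTk83

universe u

variable {B : Type u} [CompleteBooleanAlgebra B]

/- For a finite subset `F` of `{i' | i' < i}` let
`e i F = (⨅ i' ∈ F, a i') ⊓ ⨅ i' < i, i' ∉ F, (a i')ᶜ` (the set of the earlier elements is `F`);
these are pairwise disjoint for fixed `i`. `rk i k = a i ⊓ ⨆ F, card F = k, e i F`. For the first
property: below `⨅ i ∉ G, (a i)ᶜ` the supremum of the `e i F`, `F ⊆ G`, is `⊤`. Third: if `i < i'`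
and `a i ⊓ e i F ⊓ e i' F' ≠ ⊥` then `F ⊂ F'`, because `i ∈ F'`. -/
private theorem X2_split {ι : Type} [LinearOrder ι] (a : ι → B) (H : Finset ι) :
    (⊤ : B) ≤ ⨆ F, ⨆ (_ : F ⊆ H), ((⨅ i ∈ F, a i) ⊓ ⨅ i ∈ H \ F, (a i)ᶜ) := by
  induction H using Finset.induction_on with
  | empty =>
    refine le_iSup₂_of_le ∅ (Finset.Subset.refl _) ?_
    simp
  | insert x H hx ih =>
    have h1 : (⊤ : B) ≤ (⨆ F, ⨆ (_ : F ⊆ H), ((⨅ i ∈ F, a i) ⊓ ⨅ i ∈ H \ F, (a i)ᶜ)) ⊓
        (a x ⊔ (a x)ᶜ) := by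
      rw [sup_compl_eq_top, inf_top_eq]
      exact ih
    refine h1.trans ?_
    rw [inf_sup_left, iSup₂_inf_eq, iSup₂_inf_eq]
    refine sup_le ?_ ?_
    · refine iSup₂_le fun F hF => ?_
      refine le_iSup₂_of_le (insert x F) (Finset.insert_subset_insert x hF) ?_
      refine le_inf ?_ ?_
      · rw [Finset.iInf_insert]
        exact le_inf inf_le_right (inf_le_left.trans inf_le_left)
      · refine le_iInf₂ fun i hi => ?_
        refine inf_le_left.trans (inf_le_right.trans (iInf₂_le i ?_))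
        simp only [Finset.mem_sdiff, Finset.mem_insert, not_or] at hi ⊢
        exact ⟨hi.1.resolve_left hi.2.1, hi.2.2⟩
    · refine iSup₂_le fun F hF => ?_
      refine le_iSup₂_of_le F (hF.trans (Finset.subset_insert x H)) ?_
      refine le_inf (inf_le_left.trans inf_le_left) ?_
      refine le_iInf₂ fun i hi => ?_
      simp only [Finset.mem_sdiff, Finset.mem_insert] at hi
      rcases hi.1 with h | h
      · rw [h]
        exact inf_le_right
      · exact inf_le_left.trans (inf_le_right.trans (iInf₂_le i (Finset.mem_sdiff.2 ⟨h, hi.2⟩)))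

theorem exists_rank {ι : Type} [LinearOrder ι] (a : ι → B)
    (hfin : ⨆ G : Finset ι, ⨅ i, ⨅ (_ : i ∉ G), (a i)ᶜ = ⊤) : ∃ rk : ι → ℕ → B,
      (∀ i, ⨆ k, rk i k = a i) ∧ (∀ i k k', k ≠ k' → rk i k ⊓ rk i k' = ⊥) ∧
      ∀ i i' k, i ≠ i' → rk i k ⊓ rk i' k = ⊥ := by
  classical
  set E : ι → Finset ι → B := fun i F =>
    (⨅ i' ∈ F, a i') ⊓ ⨅ i', ⨅ (_ : i' < i), ⨅ (_ : i' ∉ F), (a i')ᶜ with hE
  have hE1 : ∀ i F i', i' ∈ F → E i F ≤ a i' := fun i F i' h =>
    inf_le_left.trans (iInf₂_le i' h)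
  have hE2 : ∀ i F i', i' < i → i' ∉ F → E i F ≤ (a i')ᶜ := fun i F i' h h' =>
    inf_le_right.trans ((iInf_le _ i').trans ((iInf_le _ h).trans (iInf_le _ h')))
  set rk : ι → ℕ → B := fun i k =>
    a i ⊓ ⨆ F : {F : Finset ι // F.card = k ∧ ∀ i' ∈ F, i' < i}, E i F.1 with hrk
  have hbot : ∀ {x y z : B}, x ≤ z → y ≤ zᶜ → x ⊓ y = ⊥ := by
    intro x y z hx hy
    have h := inf_le_inf hx hy
    rw [inf_compl_self] at h
    exact le_bot_iff.1 h
  have hmain : ∀ i i' k, i < i' → rk i k ⊓ rk i' k = ⊥ := by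
    intro i i' k hii
    refine le_bot_iff.1 ?_
    have h1 : rk i k ⊓ rk i' k ≤ (a i ⊓
        ⨆ F : {F : Finset ι // F.card = k ∧ ∀ i' ∈ F, i' < i}, E i F.1) ⊓
        ⨆ F : {F : Finset ι // F.card = k ∧ ∀ x ∈ F, x < i'}, E i' F.1 :=
      inf_le_inf le_rfl inf_le_right
    refine h1.trans ?_
    rw [inf_iSup_eq]
    refine iSup_le fun F' => ?_
    rw [inf_iSup_eq, iSup_inf_eq]
    refine iSup_le fun F => ?_
    by_cases hi : i ∈ F'.1
    · by_cases hsub : F.1 ⊆ F'.1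
      · exfalso
        have hlt : F.1 ⊂ F'.1 := by
          refine (Finset.ssubset_iff_of_subset hsub).2 ⟨i, hi, fun h => ?_⟩
          exact lt_irrefl _ (F.2.2 i h)
        have h2 := Finset.card_lt_card hlt
        rw [F.2.1, F'.2.1] at h2
        exact lt_irrefl _ h2
      · obtain ⟨x, hx, hx'⟩ := Finset.not_subset.1 hsub
        have hxi : x < i' := (F.2.2 x hx).trans hii
        exact (hbot (inf_le_right.trans (hE1 i F.1 x hx)) (hE2 i' F'.1 x hxi hx')).le
    · exact (hbot inf_le_left (hE2 i' F'.1 i hii hi)).le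
  refine ⟨rk, ?_, ?_, ?_⟩
  · intro i
    refine le_antisymm (iSup_le fun k => inf_le_left) ?_
    have h1 : a i ≤ a i ⊓ ⨆ G : Finset ι, ⨅ i, ⨅ (_ : i ∉ G), (a i)ᶜ := by
      rw [hfin, inf_top_eq]
    refine h1.trans ?_
    rw [inf_iSup_eq]
    refine iSup_le fun G => ?_
    have h2 : a i ⊓ (⨅ i, ⨅ (_ : i ∉ G), (a i)ᶜ) ≤ (a i ⊓ (⨅ i, ⨅ (_ : i ∉ G), (a i)ᶜ)) ⊓
        ⨆ F, ⨆ (_ : F ⊆ G.filter (· < i)),
          ((⨅ i ∈ F, a i) ⊓ ⨅ x ∈ (G.filter (· < i)) \ F, (a x)ᶜ) :=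
      le_inf le_rfl (le_top.trans (X2_split a _))
    refine h2.trans ?_
    rw [inf_iSup₂_eq]
    refine iSup₂_le fun F hF => ?_
    refine le_iSup_of_le F.card ?_
    refine le_inf (inf_le_left.trans inf_le_left) ?_
    refine le_iSup_of_le (⟨F, rfl, fun x hx => (Finset.mem_filter.1 (hF hx)).2⟩ :
      {F' : Finset ι // F'.card = F.card ∧ ∀ i' ∈ F', i' < i}) ?_
    refine le_inf (inf_le_right.trans inf_le_left) ?_
    refine le_iInf fun x => le_iInf fun hx => le_iInf fun hxF => ?_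
    by_cases hxG : x ∈ G
    · refine inf_le_right.trans (inf_le_right.trans (iInf₂_le x ?_))
      exact Finset.mem_sdiff.2 ⟨Finset.mem_filter.2 ⟨hxG, hx⟩, hxF⟩
    · exact inf_le_left.trans (inf_le_right.trans (iInf₂_le x hxG))
  · intro i k k' hk
    refine le_bot_iff.1 ?_
    have h1 : rk i k ⊓ rk i k' ≤
        (⨆ F : {F : Finset ι // F.card = k ∧ ∀ i' ∈ F, i' < i}, E i F.1) ⊓
        ⨆ F : {F : Finset ι // F.card = k' ∧ ∀ i' ∈ F, i' < i}, E i F.1 :=
      inf_le_inf inf_le_right inf_le_right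
    refine h1.trans ?_
    rw [inf_iSup_eq]
    refine iSup_le fun F' => ?_
    rw [iSup_inf_eq]
    refine iSup_le fun F => ?_
    have hne : F.1 ≠ F'.1 := by
      intro h
      apply hk
      rw [← F.2.1, ← F'.2.1, h]
    by_cases hsub : F.1 ⊆ F'.1
    · obtain ⟨x, hx, hx'⟩ := Finset.exists_of_ssubset
        (Finset.ssubset_iff_subset_ne.2 ⟨hsub, hne⟩)
      rw [inf_comm]
      exact (hbot (hE1 i F'.1 x hx) (hE2 i F.1 x (F'.2.2 x hx) hx')).le
    · obtain ⟨x, hx, hx'⟩ := Finset.not_subset.1 hsub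
      exact (hbot (hE1 i F.1 x hx) (hE2 i F'.1 x (F.2.2 x hx) hx')).le
  · intro i i' k hii
    rcases lt_or_gt_of_ne hii with h | h
    · exact hmain i i' k h
    · rw [inf_comm]
      exact hmain i' i k h

/- Induction on `F`. Step: for a pairwise disjoint family `d e`, on `d e i` take `G ∪ {i}`, on
`(⨆ i, d e i)ᶜ` take `G`. -/
theorem locally_finite {ι κ : Type} (d : κ → ι → B)
    (hd : ∀ e i i', i ≠ i' → d e i ⊓ d e i' = ⊥) (F : Finset κ) :
    ⨆ G : Finset ι, ⨅ i, ⨅ (_ : i ∉ G), (⨆ e ∈ F, d e i)ᶜ = ⊤ := by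
  classical
  induction F using Finset.induction_on with
  | empty =>
    refine top_le_iff.1 (le_iSup_of_le ∅ ?_)
    simp
  | insert e F he ih =>
    rw [← top_le_iff]
    have h1 : (⊤ : B) ≤ (⨆ G : Finset ι, ⨅ i, ⨅ (_ : i ∉ G), (⨆ e ∈ F, d e i)ᶜ) ⊓
        ((⨆ i, d e i) ⊔ (⨆ i, d e i)ᶜ) := by
      rw [sup_compl_eq_top, inf_top_eq, ih]
    refine h1.trans ?_
    rw [iSup_inf_eq]
    refine iSup_le fun G => ?_
    rw [inf_sup_left]
    refine sup_le ?_ ?_
    · rw [inf_iSup_eq]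
      refine iSup_le fun j => ?_
      refine le_iSup_of_le (insert j G) ?_
      refine le_iInf₂ fun i hi => ?_
      rw [Finset.mem_insert, not_or] at hi
      rw [Finset.iSup_insert, compl_sup]
      refine le_inf ?_ ?_
      · refine inf_le_right.trans ?_
        rw [le_compl_iff_disjoint_right, disjoint_iff]
        exact hd e j i (Ne.symm hi.1)
      · exact inf_le_left.trans (iInf₂_le i hi.2)
    · refine le_iSup_of_le G ?_
      refine le_iInf₂ fun i hi => ?_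
      rw [Finset.iSup_insert, compl_sup]
      refine le_inf ?_ ?_
      · exact inf_le_right.trans (compl_le_compl (le_iSup _ i))
      · exact inf_le_left.trans (iInf₂_le i hi)

end Pool.Agent.LibTk83
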