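import Pool.Agent.LibTk83.BInj
import Pool.Agent.LibTk83.X1
import Pool.Agent.LibTk83.X2

/-! Task X3: Boolean-valued injections. -/

namespace Pool.Agent.LibTk83

variable {B : Type} [CompleteBooleanAlgebra B] {ι : Type}

theorem BInj.mono {J : Type} {c c' : B} {s : ι → B} {E : ι → ι → B} {r : ι → J → B}
    (h : BInj c s E r) (hc : c' ≤ c) : BInj c' s E r where
  tot i := (inf_le_inf hc le_rfl).trans (h.tot i)
  ext i i' j := (inf_le_inf (inf_le_inf (inf_le_inf (inf_le_inf hc le_rfl) le_rfl) le_rfl)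
    le_rfl).trans (h.ext i i' j)
  func i j j' hj := (inf_le_inf (inf_le_inf (inf_le_inf hc le_rfl) le_rfl) le_rfl).trans
    (h.func i j j' hj)
  inj i i' j := (inf_le_inf (inf_le_inf (inf_le_inf (inf_le_inf hc le_rfl) le_rfl) le_rfl)
    le_rfl).trans (h.inj i i' j)

/- `r' i k = ⨆ j, ⨆ (_ : φ j = k), r i j`. -/
theorem BInj.comp {J K : Type} {c : B} {s : ι → B} {E : ι → ι → B} {r : ι → J → B}
    (h : BInj c s E r) (φ : J → K) (hφ : Function.Injective φ) :
    BInj c s E fun i k => ⨆ j, ⨆ (_ : φ j = k), r i j where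
  tot i := (h.tot i).trans (iSup_le fun j =>
    le_iSup_of_le (φ j) (le_iSup_of_le j (le_iSup_of_le rfl le_rfl)))
  ext i i' k := by
    simp only [inf_iSup_eq]
    exact iSup_le fun j => iSup_le fun hj =>
      (h.ext i i' j).trans (le_iSup_of_le j (le_iSup_of_le hj le_rfl))
  func i k k' hk := by
    simp only [inf_iSup_eq, iSup_inf_eq]
    refine iSup_le fun j => iSup_le fun hj => iSup_le fun j' => iSup_le fun hj' => ?_
    have hne : j' ≠ j := by
      rintro rfl
      exact hk (hj'.symm.trans hj)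
    exact h.func i j' j hne
  inj i i' k := by
    simp only [inf_iSup_eq, iSup_inf_eq]
    refine iSup_le fun j => iSup_le fun hj => iSup_le fun j' => iSup_le fun hj' => ?_
    obtain rfl : j = j' := hφ (hj.trans hj'.symm)
    exact h.inj i i' j

/-- Restriction to a set which contains the image. -/
theorem BInj.restrict {J : Type} {c : B} {s : ι → B} {E : ι → ι → B} {r : ι → J → B}
    (h : BInj c s E r) (D : Set J) (hD : ∀ i, ∀ j ∉ D, c ⊓ s i ⊓ r i j ≤ ⊥) :
    BInj c s E fun i (j : D) => r i j.1 where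
  tot i := by
    have h1 : c ⊓ s i ≤ c ⊓ s i ⊓ ⨆ j, r i j := le_inf le_rfl (h.tot i)
    rw [inf_iSup_eq] at h1
    refine h1.trans (iSup_le fun j => ?_)
    by_cases hj : j ∈ D
    · exact inf_le_right.trans (le_iSup_of_le (⟨j, hj⟩ : D) le_rfl)
    · exact (hD i j hj).trans bot_le
  ext i i' j := h.ext i i' j.1
  func i j j' hj := h.func i j.1 j'.1 fun he => hj (Subtype.ext he)
  inj i i' j := h.inj i i' j.1

/- `T l = ⨆ i, c ⊓ s i ⊓ m i l`, `exists_collapse T` gives `d`; `v i r = ⨆ l, m i l ⊓ d l r`. -/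
theorem BInj.collapse {J : Type} [LinearOrder J] [WellFoundedLT J] {c : B} {s : ι → B}
    {E : ι → ι → B} {m : ι → J → B} (h : BInj c s E m) : ∃ v : ι → J → B, BInj c s E v ∧
      ∀ r r', r' ≤ r → ⨆ i, c ⊓ s i ⊓ v i r ≤ ⨆ i, c ⊓ s i ⊓ v i r' := by
  obtain ⟨d, hd1, hd2, hd3, hd4⟩ := exists_collapse (fun l => ⨆ i, c ⊓ s i ⊓ m i l)
  have hdT : ∀ l r, d l r ≤ ⨆ i, c ⊓ s i ⊓ m i l := fun l r =>
    (hd1 l) ▸ le_iSup (fun r => d l r) r
  refine ⟨fun i r => ⨆ l, m i l ⊓ d l r, ⟨?_, ?_, ?_, ?_⟩, ?_⟩
  · intro i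
    have h1 : c ⊓ s i ≤ c ⊓ s i ⊓ ⨆ j, m i j := le_inf le_rfl (h.tot i)
    rw [inf_iSup_eq] at h1
    refine h1.trans (iSup_le fun l => ?_)
    have h2 : c ⊓ s i ⊓ m i l ≤ m i l ⊓ ⨆ r, d l r := by
      rw [hd1 l]
      exact le_inf inf_le_right (le_iSup (fun i => c ⊓ s i ⊓ m i l) i)
    refine h2.trans ?_
    rw [inf_iSup_eq]
    exact iSup_le fun r => le_iSup_of_le r (le_iSup_of_le l le_rfl)
  · intro i i' r
    simp only [inf_iSup_eq]
    refine iSup_le fun l => le_iSup_of_le l ?_
    rw [← inf_assoc]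
    exact inf_le_inf (h.ext i i' l) le_rfl
  · intro i r r' hr
    simp only [inf_iSup_eq, iSup_inf_eq]
    refine iSup_le fun l => iSup_le fun l' => ?_
    by_cases hl : l = l'
    · subst hl
      have h1 := (hd2 l r r' hr).le
      refine le_trans (le_inf ?_ ?_) h1
      · exact inf_le_left.trans (inf_le_right.trans inf_le_right)
      · exact inf_le_right.trans inf_le_right
    · have h1 := h.func i l l' hl
      have h2 := h.func i l' l (Ne.symm hl)
      first
        | exact le_trans (le_inf (le_inf (inf_le_left.trans inf_le_left)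
            (inf_le_left.trans (inf_le_right.trans inf_le_left)))
            (inf_le_right.trans inf_le_left)) h1
        | exact le_trans (le_inf (le_inf (inf_le_left.trans inf_le_left)
            (inf_le_left.trans (inf_le_right.trans inf_le_left)))
            (inf_le_right.trans inf_le_left)) h2
  · intro i i' r
    simp only [inf_iSup_eq, iSup_inf_eq]
    refine iSup_le fun l => iSup_le fun l' => ?_
    by_cases hl : l = l'
    · subst hl
      refine le_trans (le_inf (le_inf (inf_le_left.trans inf_le_left)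
            (inf_le_left.trans (inf_le_right.trans inf_le_left)))
            (inf_le_right.trans inf_le_left)) (h.inj i i' l)
    · have h1 := (hd3 l l' r hl).le
      have h2 := (hd3 l' l r (Ne.symm hl)).le
      refine le_trans ?_ (bot_le : (⊥ : B) ≤ E i i')
      first
        | exact le_trans (le_inf (inf_le_left.trans (inf_le_right.trans inf_le_right))
            (inf_le_right.trans inf_le_right)) h1
        | exact le_trans (le_inf (inf_le_left.trans (inf_le_right.trans inf_le_right))
            (inf_le_right.trans inf_le_right)) h2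
  · have key : ∀ r, ⨆ i, c ⊓ s i ⊓ (⨆ l, m i l ⊓ d l r) = ⨆ l, d l r := by
      intro r
      apply le_antisymm
      · refine iSup_le fun i => ?_
        rw [inf_iSup_eq]
        exact iSup_le fun l => le_iSup_of_le l (inf_le_right.trans inf_le_right)
      · refine iSup_le fun l => ?_
        have h1 : d l r ≤ (⨆ i, c ⊓ s i ⊓ m i l) ⊓ d l r := le_inf (hdT l r) le_rfl
        refine h1.trans ?_
        rw [iSup_inf_eq]
        refine iSup_le fun i => le_iSup_of_le i ?_
        rw [inf_assoc]
        exact inf_le_inf le_rfl (le_iSup (fun l => m i l ⊓ d l r) l)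
    intro r r' hr
    rw [key, key]
    exact hd4 r r' hr

end Pool.Agent.LibTk83
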