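import Pool.Agent.LibTk83.Y2
import Pool.Agent.LibTk83.X3
import Pool.Agent.LibTk83.V5
import Pool.Agent.LibTk83.V11
import Pool.Agent.LibTk83.Q3
import Pool.Agent.LibTk83.ModelDef

/-! Task Y3: the upper bound. -/

namespace Pool.Agent.LibTk83

open Pool.Agent.LibPlas90 Pool.Agent.LibPlas90.BSet

variable {B : Type} [CompleteBooleanAlgebra B]

/- Below `b` the image of `v` is `{r | r < ζ}`. `BInj.restrict` to `Iio ζ`; if `Iio ζ` is
countable, `BInj.comp` with an injection to `ℕ` and `embeds_of_BInj`; if `φ : Iio ζ ≃ Gt k`,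
`BInj.comp` with `φ` and `equinum_of_BInj`. -/
theorem le_of_image {ι : Type} {A : ι → BSet B} {s : ι → B} {b : B} {v : ι → LL → B}
    (hv : BInj b s (fun i i' => eq (A i) (A i')) v) (ζ : LL)
    (h1 : ∀ r, r < ζ → b ≤ ⨆ i, s i ⊓ v i r) (h2 : ∀ r, ζ ≤ r → ∀ i, b ⊓ s i ⊓ v i r ≤ ⊥) :
    b ≤ embeds (mk ι A s) (ck B ℕ) ⊔ ⨆ k, equinum (mk ι A s) (ck B (Gt k)) := by
  have hr := hv.restrict (Set.Iio ζ) fun i j hj => h2 j (not_lt.1 hj) i
  rcases Iio_LL ζ with hc | ⟨k, ⟨φ⟩⟩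
  · obtain ⟨g, hg⟩ := exists_injective_nat (Set.Iio ζ)
    exact (embeds_of_BInj (hr.comp g hg)).trans le_sup_left
  · refine le_trans ?_ le_sup_right
    refine le_iSup_of_le k (equinum_of_BInj (hr.comp φ φ.injective) fun j => ?_)
    refine (h1 (φ.symm j).1 (φ.symm j).2).trans (iSup_mono fun i => inf_le_inf_left _ ?_)
    exact le_iSup₂_of_le (φ.symm j) (φ.apply_symm_apply j) le_rfl

/- Choose a well-order of `ι` (`exists_wellFoundedLT`). By `exists_BInj_of_isTk` and the bijection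
`exists_LL_equiv` (`BInj.comp`) and `BInj.collapse` there is `v : ι → LL → B` with downward closed
image `R r = ⨆ i, c ⊓ s i ⊓ v i r`, where `c = isUltra U (ck ℕ) ⊓ isTk f (mk ι A s) U`. Use
`iSup_gap` for `R`: below `c ⊓ ⨅ r, R r` the map is onto, so `c ⊓ ⨅ r, R r ≤ equinum _ (ck (Gt 0))`;
below `b = c ⊓ (⨅ r < ζ, R r) ⊓ (R ζ)ᶜ` use `le_of_image`. -/
theorem isTk_le (M : Model B) {ι : Type} (A : ι → BSet B) (s : ι → B) (f U : BSet B) :
    isUltra U (ck B ℕ) ⊓ isTk f (mk ι A s) U ≤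
      embeds (mk ι A s) (ck B ℕ) ⊔ ⨆ k, equinum (mk ι A s) (ck B (Gt k)) := by
  obtain ⟨_, _⟩ := exists_wellFoundedLT ι
  obtain ⟨m, hm⟩ := exists_BInj_of_isTk (f := f) (U := U) A s M.e M.he
  obtain ⟨φ⟩ := exists_LL_equiv
  obtain ⟨v, hv, hv'⟩ := (hm.comp φ φ.injective).collapse
  set c : B := isUltra U (ck B ℕ) ⊓ isTk f (mk ι A s) U with hc
  set R : LL → B := fun r => ⨆ i, c ⊓ s i ⊓ v i r with hR
  have hR1 : ∀ r, R r ≤ ⨆ i, s i ⊓ v i r := fun r =>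
    iSup_mono fun i => inf_le_inf_right _ inf_le_right
  have h1 : c ≤ c ⊓ ((⨅ j, R j) ⊔ ⨆ j, ((⨅ j', ⨅ (_ : j' < j), R j') ⊓ (R j)ᶜ)) := by
    rw [iSup_gap, inf_top_eq]
  refine h1.trans ?_
  rw [inf_sup_left, inf_iSup_eq]
  refine sup_le ?_ (iSup_le fun ζ => ?_)
  · refine le_trans ?_ le_sup_right
    refine le_iSup_of_le 0 ?_
    refine equinum_of_BInj (hv.mono inf_le_left) fun r => ?_
    exact inf_le_right.trans ((iInf_le _ r).trans (hR1 r))
  · refine le_of_image (hv.mono inf_le_left) ζ (fun r hr => ?_) (fun r hr i => ?_)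
    · exact inf_le_right.trans (inf_le_left.trans ((iInf₂_le r hr).trans (hR1 r)))
    · have h2 : c ⊓ ((⨅ j', ⨅ (_ : j' < ζ), R j') ⊓ (R ζ)ᶜ) ⊓ s i ⊓ v i r ≤ R ζ := by
        refine le_trans ?_ (hv' r ζ hr)
        refine le_iSup_of_le i ?_
        exact inf_le_inf_right _ (inf_le_inf_right _ inf_le_left)
      have h3 : c ⊓ ((⨅ j', ⨅ (_ : j' < ζ), R j') ⊓ (R ζ)ᶜ) ⊓ s i ⊓ v i r ≤ (R ζ)ᶜ :=
        inf_le_left.trans (inf_le_left.trans (inf_le_right.trans inf_le_right))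
      exact (le_inf h2 h3).trans (inf_compl_self _).le

/- From `isTk_le`, `tukey_eq`, and the first conjunct of `inSpec`. -/
theorem inSpec_le (M : Model B) (ι : Type) (A : ι → BSet B) (s : ι → B) :
    inSpec (ck B ℕ) (mk ι A s) ≤ ⨆ k, equinum (mk ι A s) (ck B (Gt k)) := by
  unfold inSpec
  have h1 : (⨆ U : BSet B, isUltra U (ck B ℕ) ⊓
      tukey (finSub (mk ι A s)) (fun x => mem x U) sub (fun x y => sub y x) ⊓
      tukey (fun x => mem x U) (finSub (mk ι A s)) (fun x y => sub y x) sub) ≤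
      embeds (mk ι A s) (ck B ℕ) ⊔ ⨆ k, equinum (mk ι A s) (ck B (Gt k)) := by
    refine iSup_le fun U => inf_le_left.trans ?_
    rw [tukey_eq, inf_iSup_eq]
    exact iSup_le fun f => isTk_le M A s f U
  refine (inf_le_inf_left _ h1).trans ?_
  rw [inf_sup_left, compl_inf_self, bot_sup_eq]
  exact inf_le_right

end Pool.Agent.LibTk83
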