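import Pool.Agent.LibTk83.Forc
import Pool.Agent.LibTk83.V2
import Pool.Agent.LibTk83.V6
import Pool.Agent.LibTk83.V8
import Pool.Agent.LibTk83.V9
import Pool.Agent.LibTk83.Y3

/-!
The main theorem.
-/

namespace Pool.Agent.LibTk83

open Pool.Agent.LibPlas90 Pool.Agent.LibPlas90.BSet

theorem inSpec_ck {B : Type} [CompleteBooleanAlgebra B] (M : Model B) (n : ℕ) :
    inSpec (ck B ℕ) (ck B (II n)) = ⊤ := by
  unfold inSpec
  rw [embeds_ck M n, compl_bot, top_inf_eq, ← top_le_iff]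
  refine le_iSup_of_le (Un (M.U n)) ?_
  rw [isUltra_Un, tukey_one, tukey_two]
  simp

theorem spectrum_eq_top {B : Type} [CompleteBooleanAlgebra B] (M : Model B) :
    spectrumSentence B = ⊤ := by
  unfold spectrumSentence
  rw [← top_le_iff]
  refine le_iSup_of_le (ck B ℕ) ?_
  rw [isOmega_ck, infSpec_of (fun n => ck B (II n)) (inSpec_ck M)
    (fun n m h => equinum_ck M h), ctblSpec_of (fun k => ck B (Gt k)) (inSpec_le M)]
  simp

theorem main : ∃ (B : Type) (_ : CompleteBooleanAlgebra B) (_ : Nontrivial B),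
    spectrumSentence B = ⊤ := by
  obtain ⟨B, h1, h2, ⟨M⟩⟩ := exists_model
  exact ⟨B, h1, h2, spectrum_eq_top M⟩

end Pool.Agent.LibTk83
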