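import Pool.Agent.LibTk83.Iter
import Pool.Agent.LibTk83.RO

/-! Task P1: the order of the conditions. -/

namespace Pool.Agent.LibTk83

variable {Node W : Type} [LinearOrder W] [WellFoundedLT W] {st : Node → W}
  {F : Node → Set (Code Node)}

omit [WellFoundedLT W] in
theorem res_res {β γ : W} (h : γ ≤ β) (p : Cond Node) : res st γ (res st β p) = res st γ p := by
  ext s
  simp only [res, Set.mem_ofPred_eq]
  exact ⟨fun hs => ⟨hs.1.1, hs.2⟩, fun hs => ⟨⟨hs.1, lt_of_lt_of_le hs.2 h⟩, hs.2⟩⟩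

omit [WellFoundedLT W] in
theorem Valid.res {β γ : W} {p : Cond Node} (h : Valid st F β p) : Valid st F γ (res st γ p) := by
  refine ⟨h.fin.subset fun s hs => hs.1, fun s hs => hs.2, fun ν x hs => h.mem ν x hs.1⟩

omit [WellFoundedLT W] in
theorem Valid.mono {β γ : W} (h : β ≤ γ) {p : Cond Node} (hp : Valid st F β p) :
    Valid st F γ p :=
  ⟨hp.fin, fun s hs => lt_of_lt_of_le (hp.lt s hs) h, hp.mem⟩

omit [WellFoundedLT W] in
theorem res_eq_self {β : W} {p : Cond Node} (h : Valid st F β p) :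
    Pool.Agent.LibTk83.res st β p = p := by
  ext s
  simp only [Pool.Agent.LibTk83.res, Set.mem_ofPred_eq]
  exact ⟨fun hs => hs.1, fun hs => ⟨hs, h.lt s hs⟩⟩

/- Directly from `ord_iff` and `res_res`. -/
theorem ord_res {β γ : W} (h : γ ≤ β) {p' p : Cond Node} (hp : Ord st F β p' p) :
    Ord st F γ (res st γ p') (res st γ p) := by
  rw [ord_iff] at hp ⊢
  refine ⟨fun s hs => ⟨hp.1 hs.1, hs.2⟩, ?_⟩
  intro ν k x h1 h2 h3 hν
  rw [res_res hν.le]
  refine hp.2 ν k x h1.1 (fun hcon => h2 ⟨hcon, hν⟩) h3.1 (lt_of_lt_of_le hν h)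

theorem ord_refl (β : W) (p : Cond Node) : Ord st F β p p := by
  rw [ord_iff]
  exact ⟨subset_rfl, fun ν k x h1 h2 => absurd h1 h2⟩

theorem P1_forces_mono {β : W} (htr : ∀ {p q r : Cond Node}, Valid st F β p → Valid st F β q →
    Valid st F β r → Ord st F β p q → Ord st F β q r → Ord st F β p r)
    {p q : Cond Node} (hp : Valid st F β p) (hq : Valid st F β q)
    (h : Ord st F β p q) {x : Code Node} {k : ℕ} (hf : Forces st F β q x k) :
    Forces st F β p x k := by
  intro r hr hrp
  exact hf r hr (htr hr hp hq hrp h)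

/- Induction on `β`. Let `r ⊆ q ⊆ p`, and `(ν, inl k) ∈ p`, `∉ r`, `(ν, inr x) ∈ r`, `st ν < β`. If
`(ν, inl k) ∈ q`, then `q ≤ r` says that `res (st ν) q` forces `k ∈ x`, and
`res (st ν) p ≤ res (st ν) q` (`ord_res`), so `res (st ν) p` forces it, by the transitivity at
`st ν` (only the `Valid` conditions matter in `Forces`; `res (st ν) p` is `Valid`). If
`(ν, inl k) ∉ q`, use `p ≤ q`. -/
theorem ord_trans (β : W) {p q r : Cond Node} (hp : Valid st F β p) (hq : Valid st F β q)
    (hr : Valid st F β r) (h : Ord st F β p q) (h' : Ord st F β q r) : Ord st F β p r := by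
  induction β using WellFoundedLT.induction generalizing p q r with
  | ind β ih =>
    have h0 := h
    have h0' := h'
    rw [ord_iff] at h h' ⊢
    refine ⟨h'.1.trans h.1, ?_⟩
    intro ν k x h1 h2 h3 hν
    by_cases hkq : (ν, Sum.inl k) ∈ q
    · have hf := h'.2 ν k x hkq h2 h3 hν
      exact P1_forces_mono (fun hp hq hr => ih (st ν) hν hp hq hr) hp.res hq.res
        (ord_res hν.le h0) hf
    · exact h.2 ν k x h1 hkq (h'.1 h3) hν

theorem ord_stage {β γ : W} (h : γ ≤ β) {p' p : Cond Node} (hp' : Valid st F γ p')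
    (hp : Valid st F γ p) : Ord st F β p' p ↔ Ord st F γ p' p := by
  rw [ord_iff, ord_iff]
  constructor
  · rintro ⟨h1, h2⟩
    exact ⟨h1, fun ν k x a b c d => h2 ν k x a b c (lt_of_lt_of_le d h)⟩
  · rintro ⟨h1, h2⟩
    exact ⟨h1, fun ν k x a b c _ => h2 ν k x a b c (hp'.lt _ a)⟩

omit [WellFoundedLT W] in
theorem valid_local {F F' : Node → Set (Code Node)} {β : W} (h : ∀ μ, st μ < β → F μ = F' μ) :
    Valid st F β = Valid st F' β := by
  funext p
  refine propext ⟨fun hp => ⟨hp.fin, hp.lt, fun ν x hx => ?_⟩,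
    fun hp => ⟨hp.fin, hp.lt, fun ν x hx => ?_⟩⟩
  · rw [← h ν (hp.lt _ hx)]
    exact hp.mem ν x hx
  · rw [h ν (hp.lt _ hx)]
    exact hp.mem ν x hx

/- Induction on `β`, with `ord_iff`, `valid_local`, `Forces`. -/
theorem ord_local {F F' : Node → Set (Code Node)} {β : W} (h : ∀ μ, st μ < β → F μ = F' μ) :
    Ord st F β = Ord st F' β := by
  induction β using WellFoundedLT.induction with
  | ind β ih =>
    funext p' p
    rw [ord_iff, ord_iff]
    refine propext (and_congr_right fun _ => ?_)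
    refine forall_congr' fun ν => forall_congr' fun k => forall_congr' fun x => ?_
    refine forall_congr' fun _ => forall_congr' fun _ => forall_congr' fun _ =>
      forall_congr' fun hν => ?_
    have h1 : Ord st F (st ν) = Ord st F' (st ν) :=
      ih (st ν) hν fun μ hμ => h μ (hμ.trans hν)
    have h2 : Valid st F (st ν) = Valid st F' (st ν) :=
      valid_local fun μ hμ => h μ (hμ.trans hν)
    unfold Forces
    rw [h1, h2]

end Pool.Agent.LibTk83
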