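import Pool.Agent.LibTk83.PosDef

/-! Task P2: genericity. -/

namespace Pool.Agent.LibTk83

variable {Node W : Type} [LinearOrder W] [WellFoundedLT W] {st : Node → W}
  {F : Node → Set (Code Node)}

/- Both sides unfold to the same statement. -/
theorem forces_iff {β : W} {q : PP st F β} {x : Code Node} {k : ℕ} :
    Forces st F β q.1 x k ↔ q ∈ (vl x k : RO (PP st F β)) := by
  unfold vl nm
  rw [RO.mem_gen]
  constructor
  · intro h r hr
    obtain ⟨s, hs, hsr, c, hc, hcv, hsc⟩ := h r.1 r.2 hr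
    exact ⟨⟨s, hs⟩, hsr, ⟨c, hcv⟩, hc, hsc⟩
  · intro h r hr hrq
    obtain ⟨s, hsr, c, hc, hsc⟩ := h ⟨r, hr⟩ hrq
    exact ⟨s.1, s.2, hsr, c.1, hc, c.2, hsc⟩

theorem rs_mono {β γ : W} (h : γ ≤ β) {p q : PP st F β} (hpq : p ≤ q) : rs γ p ≤ rs γ q :=
  ord_res h hpq

/- `p' = p ∪ r ∪ {(t.1, inl t.2) | t ∈ T}`. Note that `res γ p ⊆ r`. Order: let
`(ν, inl k) ∈ p'`, `∉ p`, `(ν, inr x) ∈ p`. If it is in `r` then `st ν < γ`, and `r ≤ res γ p` says
that `res (st ν) r` forces `k ∈ x`, and `res (st ν) p' = res (st ν) r`. If `(ν, k) ∈ T` then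
`st ν = γ`, `res γ p' = r`; use `hx` and `forces_iff`. -/
theorem extend {β γ : W} (h : γ < β) (p : PP st F β) (r : PP st F γ) (hr : r ≤ rs γ p)
    (T : Set (Node × ℕ)) (hT : T.Finite) (hst : ∀ t ∈ T, st t.1 = γ)
    (hx : ∀ t ∈ T, ∀ x, (t.1, Sum.inr x) ∈ p.1 → r ∈ (vl x t.2 : RO (PP st F γ))) :
    ∃ p' : PP st F β, p' ≤ p ∧ rs γ p' = r ∧
      p'.1 = p.1 ∪ r.1 ∪ (fun t => (t.1, Sum.inl t.2)) '' T := by
  have hr' : Ord st F γ r.1 (res st γ p.1) := hr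
  rw [ord_iff] at hr'
  have hval : Valid st F β (p.1 ∪ r.1 ∪ (fun t => (t.1, Sum.inl t.2)) '' T) := by
    refine ⟨(p.2.fin.union r.2.fin).union (hT.image _), ?_, ?_⟩
    · rintro s ((hs | hs) | ⟨t, ht, rfl⟩)
      · exact p.2.lt s hs
      · exact (r.2.lt s hs).trans h
      · exact (hst t ht).trans_lt h
    · rintro ν x ((hs | hs) | ⟨t, ht, hs⟩)
      · exact p.2.mem ν x hs
      · exact r.2.mem ν x hs
      · exact absurd (congrArg Prod.snd hs) (by simp)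
  have hres : ∀ δ : W, δ ≤ γ →
      res st δ (p.1 ∪ r.1 ∪ (fun t => (t.1, Sum.inl t.2)) '' T) = res st δ r.1 := by
    intro δ hδ
    ext s
    constructor
    · rintro ⟨(hs | hs) | ⟨t, ht, rfl⟩, hlt⟩
      · exact ⟨hr'.1 ⟨hs, lt_of_lt_of_le hlt hδ⟩, hlt⟩
      · exact ⟨hs, hlt⟩
      · exfalso
        have h1 : st t.1 < δ := hlt
        rw [hst t ht] at h1
        exact absurd (lt_of_lt_of_le h1 hδ) (lt_irrefl _)
    · rintro ⟨hs, hlt⟩
      exact ⟨Or.inl (Or.inr hs), hlt⟩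
  have hresγ : res st γ (p.1 ∪ r.1 ∪ (fun t => (t.1, Sum.inl t.2)) '' T) = r.1 := by
    rw [hres γ le_rfl]
    exact res_eq_self r.2
  refine ⟨⟨_, hval⟩, ?_, Subtype.ext hresγ, rfl⟩
  rw [PP.le_def, ord_iff]
  refine ⟨fun s hs => Or.inl (Or.inl hs), ?_⟩
  intro ν k x h1 h2 h3 hν
  rcases h1 with (h1 | h1) | ⟨t, ht, h1⟩
  · exact absurd h1 h2
  · have hlt : st ν < γ := r.2.lt _ h1
    rw [hres (st ν) hlt.le]
    exact hr'.2 ν k x h1 (fun hcon => h2 hcon.1) ⟨h3, hlt⟩ hlt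
  · have e1 : t.1 = ν := congrArg Prod.fst h1
    have e2 : t.2 = k := Sum.inl_injective (congrArg Prod.snd h1)
    subst e1
    subst e2
    have hg := hst t ht
    have h4 := hx t ht x h3
    rw [← forces_iff] at h4
    rw [hg, hresγ]
    exact h4

/- The lift: `p' = p ∪ q`; see `extend` (which covers `γ < β`; for `γ = β` take `p' = q`). -/
theorem rs_open {β γ : W} (h : γ ≤ β) : OpenMap (rs γ : PP st F β → PP st F γ) := by
  refine ⟨fun p q hpq => rs_mono h hpq, fun p q hq => ?_⟩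
  rcases eq_or_lt_of_le h with rfl | hlt
  · refine ⟨q, ?_, ?_⟩
    · have e : rs γ p = p := Subtype.ext (res_eq_self p.2)
      rw [e] at hq
      exact hq
    · have e : rs γ q = q := Subtype.ext (res_eq_self q.2)
      rw [e]
  · obtain ⟨p', hp', hrs, -⟩ := extend hlt p q hq ∅ Set.finite_empty
      (fun t ht => absurd ht (Set.notMem_empty t)) (fun t ht => absurd ht (Set.notMem_empty t))
    exact ⟨p', hp', hrs.le⟩

theorem exists_rs_eq {β γ : W} (h : γ ≤ β) (r : PP st F γ) : ∃ p : PP st F β, p.1 = r.1 ∧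
    rs γ p = r :=
  ⟨⟨r.1, r.2.mono h⟩, rfl, Subtype.ext (res_eq_self r.2)⟩

theorem add_promises {β : W} (p : PP st F β) (Q : Set (Node × Code Node)) (hQ : Q.Finite)
    (h : ∀ t ∈ Q, st t.1 < β ∧ t.2 ∈ F t.1) : ∃ p' : PP st F β, p' ≤ p ∧
      p'.1 = p.1 ∪ (fun t => (t.1, Sum.inr t.2)) '' Q := by
  have hval : Valid st F β (p.1 ∪ (fun t => (t.1, Sum.inr t.2)) '' Q) := by
    refine ⟨p.2.fin.union (hQ.image _), ?_, ?_⟩
    · rintro s (hs | ⟨t, ht, rfl⟩)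
      · exact p.2.lt s hs
      · exact (h t ht).1
    · rintro ν x (hs | ⟨t, ht, hs⟩)
      · exact p.2.mem ν x hs
      · have e1 : t.1 = ν := congrArg Prod.fst hs
        have e2 : t.2 = x := Sum.inr_injective (congrArg Prod.snd hs)
        rw [← e1, ← e2]
        exact (h t ht).2
  refine ⟨⟨_, hval⟩, ?_, rfl⟩
  rw [PP.le_def, ord_iff]
  refine ⟨fun s hs => Or.inl hs, ?_⟩
  intro ν k x h1 h2 h3 hν
  rcases h1 with h1 | ⟨t, ht, h1⟩
  · exact absurd h1 h2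
  · exact absurd (congrArg Prod.snd h1) (by simp)

end Pool.Agent.LibTk83
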