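import Pool.Agent.LibTk83.EmbDef

/-! Task P3: embeddings and promises. -/

namespace Pool.Agent.LibTk83

variable {Node W : Type} [LinearOrder W] [WellFoundedLT W] {st : Node → W}
  {F : Node → Set (Code Node)}

theorem P3_sub {β : W} {p q : PP st F β} (h : p ≤ q) : q.1 ⊆ p.1 :=
  ((ord_iff st F β p.1 q.1).1 h).1

/- Use `exists_rs_eq`. -/
theorem emb_injective {β γ : W} (h : γ ≤ β) {a b : RO (PP st F γ)} (hab : emb h a = emb h b) :
    a = b := by
  ext r
  obtain ⟨p, _, hp⟩ := exists_rs_eq h r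
  have h1 : p ∈ emb h a ↔ p ∈ emb h b := by rw [hab]
  rw [mem_emb, mem_emb, hp] at h1
  exact h1

theorem emb_le {β γ : W} (h : γ ≤ β) {a b : RO (PP st F γ)} : emb h a ≤ emb h b ↔ a ≤ b := by
  constructor
  · intro hab r hr
    obtain ⟨p, _, hp⟩ := exists_rs_eq h r
    have h1 : p ∈ emb h a := by
      rw [mem_emb, hp]
      exact hr
    have h2 := hab h1
    rw [mem_emb, hp] at h2
    exact h2
  · intro hab
    exact RO.comap_mono (rs_open h) hab

theorem emb_emb {β γ δ : W} (h : γ ≤ β) (h' : δ ≤ γ) (b : RO (PP st F δ)) :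
    emb h (emb h' b) = emb (h'.trans h) b := by
  ext p
  rw [mem_emb, mem_emb, mem_emb]
  have : (rs δ (rs γ p) : PP st F δ) = rs δ p := Subtype.ext (res_res h' p.1)
  rw [this]

theorem emb_self {β : W} (b : RO (PP st F β)) : emb le_rfl b = b := by
  ext p
  rw [mem_emb]
  have : (rs β p : PP st F β) = p := Subtype.ext (res_eq_self p.2)
  rw [this]

theorem mem_zz {β : W} {ν : Node} {k : ℕ} {p : PP st F β} : p ∈ (zz ν k : RO (PP st F β)) ↔
    ∀ q, q ≤ p → ∃ r, r ≤ q ∧ (ν, Sum.inl k) ∈ r.1 := by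
  unfold zz
  rw [RO.mem_gen]
  constructor
  · intro h q hq
    obtain ⟨r, hr, s, hs, hrs⟩ := h q hq
    exact ⟨r, hr, P3_sub hrs hs⟩
  · intro h q hq
    obtain ⟨r, hr, hr'⟩ := h q hq
    exact ⟨r, hr, r, hr', le_rfl⟩

/- Use `mem_zz`, `rs_open`, and the lift: for `r ≤ rs γ q` there is `p' ≤ q` with `rs γ p' ≤ r`,
so `r.1 ⊆ p'.1`. -/
theorem emb_zz {β γ : W} (h : γ ≤ β) {ν : Node} (hν : st ν < γ) (k : ℕ) :
    emb h (zz ν k : RO (PP st F γ)) = zz ν k := by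
  ext p
  rw [mem_emb, mem_zz, mem_zz]
  constructor
  · intro hp q hq
    obtain ⟨r', hr', hk⟩ := hp _ (rs_mono h hq)
    obtain ⟨p', hp', hpr⟩ := (rs_open h).lift q r' hr'
    refine ⟨p', hp', ?_⟩
    have h1 : (ν, Sum.inl k) ∈ (rs γ p').1 := P3_sub hpr hk
    exact h1.1
  · intro hp q' hq'
    obtain ⟨p', hp', hpq⟩ := (rs_open h).lift p q' hq'
    obtain ⟨r, hr, hk⟩ := hp p' hp'
    exact ⟨rs γ r, (rs_mono h hr).trans hpq, hk, hν⟩

end Pool.Agent.LibTk83
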