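import Pool.Agent.LibTk83.P1

/-!
The posets of the iteration, their projections and the embeddings of the algebras: definitions.
-/

namespace Pool.Agent.LibTk83

/-- `O` is a preorder on the set given by `V`. -/
structure IsPre {α : Type} (V : α → Prop) (O : α → α → Prop) : Prop where
  refl : ∀ p, V p → O p p
  trans : ∀ p q r, V p → V q → V r → O p q → O q r → O p r

/-- The subset given by `V`, with the relation `O`. -/
def Sub {α : Type} (V : α → Prop) (_O : α → α → Prop) : Type := {a : α // V a}

instance {α : Type} {V : α → Prop} {O : α → α → Prop} [h : Fact (IsPre V O)] :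
    Preorder (Sub V O) where
  le a b := O a.1 b.1
  le_refl a := h.out.refl _ a.2
  le_trans a b c hab hbc := h.out.trans _ _ _ a.2 b.2 c.2 hab hbc

/-- The value of the raw name `S`. -/
def nm {α : Type} {V : α → Prop} {O : α → α → Prop} [Fact (IsPre V O)] (S : ℕ → Set α) (k : ℕ) :
    RO (Sub V O) := RO.gen {q : Sub V O | q.1 ∈ S k}

section

variable {Node : Type}

/-- The value of the code `x`. -/
def vl {V : Cond Node → Prop} {O : Cond Node → Cond Node → Prop} [Fact (IsPre V O)]
    (x : Code Node) (k : ℕ) : RO (Sub V O) := nm x.conds k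

/-- `k ∈ Z_ν`. -/
def zz {V : Cond Node → Prop} {O : Cond Node → Cond Node → Prop} [Fact (IsPre V O)]
    (ν : Node) (k : ℕ) : RO (Sub V O) := RO.gen {q : Sub V O | (ν, Sum.inl k) ∈ q.1}

end

variable {Node W : Type} [LinearOrder W] [WellFoundedLT W] {st : Node → W}
  {F : Node → Set (Code Node)}

theorem ord_isPre (β : W) : IsPre (Valid st F β) (Ord st F β) :=
  ⟨fun p _ => ord_refl β p, fun _ _ _ hp hq hr h h' => ord_trans β hp hq hr h h'⟩

instance (β : W) : Fact (IsPre (Valid st F β) (Ord st F β)) := ⟨ord_isPre β⟩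

/-- The poset of stage `β`. -/
abbrev PP (st : Node → W) (F : Node → Set (Code Node)) (β : W) : Type :=
  Sub (Valid st F β) (Ord st F β)

theorem PP.le_def {β : W} {p q : PP st F β} : p ≤ q ↔ Ord st F β p.1 q.1 := Iff.rfl

/-- The restriction to a smaller stage. -/
def rs {β : W} (γ : W) (p : PP st F β) : PP st F γ := ⟨res st γ p.1, p.2.res⟩

end Pool.Agent.LibTk83
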