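import Pool.Agent.LibTk83.PosDef
import Pool.Agent.LibTk83.FiltDef

/-!
The nodes of the iteration and the choice of the filters: definitions.
-/

namespace Pool.Agent.LibTk83

/-- The nodes: Cohen reals `A_ξ`, the sets `Y`, the ultrafilters (only used to remember them),
and the sets `Z_c`. -/
inductive Nd (W : Type) (I Cx : ℕ → Type) : Type
  | coh (n : ℕ) (ξ : I n)
  | hn (w : W) (n : ℕ)
  | un (w : W) (n : ℕ)
  | cn (w : W) (n : ℕ) (c : Cx n)

variable {W : Type} {I Cx : ℕ → Type}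

/-- The stage of a node. -/
def stg [LinearOrder W] [OrderBot W] : Nd W I Cx → W
  | .coh _ _ => ⊥
  | .hn w _ => w
  | .un w _ => w
  | .cn w _ _ => w

/-- A maximal positive filter which contains `J`, if there is one. -/
noncomputable def maxExt {B : Type} [CompleteBooleanAlgebra B] {I : Type}
    (T : Set (Set (I × Bool))) (A : I → ℕ → B) (J : Set (ℕ → B)) : Set (ℕ → B) :=
  open Classical in
  if h : ∃ H, J ⊆ H ∧ PosFilter T A H then h.choose else ∅

theorem maxExt_spec {B : Type} [CompleteBooleanAlgebra B] {I : Type}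
    {T : Set (Set (I × Bool))} {A : I → ℕ → B} {J : Set (ℕ → B)}
    (h : ∃ H, J ⊆ H ∧ PosFilter T A H) : J ⊆ maxExt T A J ∧ PosFilter T A (maxExt T A J) := by
  unfold maxExt
  rw [dif_pos h]
  exact h.choose_spec

section

variable {V : Cond (Nd W I Cx) → Prop} {O : Cond (Nd W I Cx) → Cond (Nd W I Cx) → Prop}
  [Fact (IsPre V O)]

/-- The Cohen reals. -/
def AA (n : ℕ) (ξ : I n) (k : ℕ) : RO (Sub V O) := zz (Nd.coh n ξ) k

variable (gC : ∀ n, Cx n → ℕ → Set (I n × Bool)) (cs : ∀ n, Cx n → Set (I n))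

/-- The union of the `A_g`, where `g` runs through the members of `Z_c`. -/
noncomputable def BB (n : ℕ) (γ : W) (c : Cx n) (j : ℕ) : RO (Sub V O) :=
  ⨆ k, zz (Nd.cn γ n c) k ⊓ Ag (AA n) (gC n c k) j

variable (V O) [LinearOrder W] [OrderBot W]

/-- The filter `H_w`. -/
noncomputable def Hs (w : W) (n : ℕ) : Set (ℕ → RO (Sub V O)) :=
  maxExt (TFn (I n)) (AA n) {X | ∃ γ, ⊥ < γ ∧ γ < w ∧ X = zz (Nd.hn γ n)}

/-- The ultrafilter `U_w`; `R` are the raw names of the members of the earlier ultrafilters. -/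
noncomputable def Us (w : W) (R : ℕ → Set (ℕ → Set (Cond (Nd W I Cx)))) (n : ℕ) :
    Set (ℕ → RO (Sub V O)) :=
  maxExt {∅} (AA n) {X | X ∈ Hs V O w n ∨ (∃ ξ, X = AA n ξ) ∨
    (∃ γ c, ⊥ < γ ∧ γ < w ∧ X = BB gC n γ c) ∨ (∃ S ∈ R n, X = nm S)}

/-- The filters of the nodes of stage `w`. -/
def filt (w : W) (R : ℕ → Set (ℕ → Set (Cond (Nd W I Cx)))) :
    Nd W I Cx → Set (Code (Nd W I Cx))
  | .coh _ _ => {x | ∃ m, ∀ k, m ≤ k → (vl x k : RO (Sub V O)) = ⊤}
  | .hn _ n => {x | (vl x : ℕ → RO (Sub V O)) ∈ Hs V O w n}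
  | .un _ n => {x | (vl x : ℕ → RO (Sub V O)) ∈ Us V O gC w R n}
  | .cn _ n c => {x | ∃ X ∈ Us V O gC w R n, Supp (AA n) (Hs V O w n) (cs n c) X ∧
      ∀ k, hat (AA n) (Hs V O w n) (gC n c) X k ≤ vl x k}

end

section

variable [LinearOrder W] [OrderBot W] (gC : ∀ n, Cx n → ℕ → Set (I n × Bool))
  (cs : ∀ n, Cx n → Set (I n))

/-- The rule of the recursion. -/
noncomputable def rule (w : W) (V : Cond (Nd W I Cx) → Prop)
    (O : Cond (Nd W I Cx) → Cond (Nd W I Cx) → Prop)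
    (R : ℕ → Set (ℕ → Set (Cond (Nd W I Cx)))) (ν : Nd W I Cx) : Set (Code (Nd W I Cx)) :=
  open Classical in
  if h : IsPre V O then
    haveI : Fact (IsPre V O) := ⟨h⟩
    filt V O gC cs w R ν
  else ∅

/-- The raw names of the members of the ultrafilters of stages between `⊥` and `w`. -/
def RR (F : Nd W I Cx → Set (Code (Nd W I Cx))) (w : W) (n : ℕ) :
    Set (ℕ → Set (Cond (Nd W I Cx))) :=
  {S | ∃ γ, ⊥ < γ ∧ γ < w ∧ ∃ x ∈ F (Nd.un γ n), S = fun k => {c ∈ x.conds k | Valid stg F γ c}}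

/-- The hypotheses on the supports `cs n c` and the enumerations `gC n c`. -/
structure Params (gC : ∀ n, Cx n → ℕ → Set (I n × Bool)) (cs : ∀ n, Cx n → Set (I n)) :
    Prop where
  cof : ∀ n (K : Set (I n)), K.Countable → ∃ c, K ⊆ cs n c
  inf : ∀ n c, (cs n c).Infinite
  fn : ∀ n c k, IsFn (gC n c k) ∧ (∀ l ∈ gC n c k, l.1 ∈ cs n c) ∧ ∃ ξ, (ξ, false) ∈ gC n c k
  surj : ∀ n c (g : Set (I n × Bool)), IsFn g → (∀ l ∈ g, l.1 ∈ cs n c) →
    (∃ ξ, (ξ, false) ∈ g) → ∃ k, gC n c k = g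

variable [WellFoundedLT W]

/-- The filter `H_w` at its own stage. -/
noncomputable def HH (F : Nd W I Cx → Set (Code (Nd W I Cx))) (w : W) (n : ℕ) :
    Set (ℕ → RO (PP stg F w)) := Hs (Valid stg F w) (Ord stg F w) w n

/-- The ultrafilter `U_w` at its own stage. -/
noncomputable def UU (F : Nd W I Cx → Set (Code (Nd W I Cx))) (w : W) (n : ℕ) :
    Set (ℕ → RO (PP stg F w)) := Us (Valid stg F w) (Ord stg F w) gC w (RR F w) n

/-- `F` is the result of the recursion. -/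
def IsF (F : Nd W I Cx → Set (Code (Nd W I Cx))) : Prop := ∀ ν,
  F ν = rule gC cs (stg ν) (Valid stg F (stg ν)) (Ord stg F (stg ν)) (RR F (stg ν)) ν

/-- The properties of the filters of stage `w` (without those about earlier stages). -/
structure Good (F : Nd W I Cx → Set (Code (Nd W I Cx))) (w : W) (n : ℕ) : Prop where
  hH : PosFilter (TFn (I n)) (AA n) (HH F w n)
  hY : ∀ γ, ⊥ < γ → γ < w → (zz (Nd.hn γ n) : ℕ → RO (PP stg F w)) ∈ HH F w n
  hU : PosFilter {∅} (AA n) (UU gC F w n)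
  hHU : HH F w n ⊆ UU gC F w n
  hA : ∀ ξ, (AA n ξ : ℕ → RO (PP stg F w)) ∈ UU gC F w n
  hB : ∀ γ c, ⊥ < γ → γ < w → (BB gC n γ c : ℕ → RO (PP stg F w)) ∈ UU gC F w n

end

end Pool.Agent.LibTk83
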