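import Pool.Agent.LibPlas90.BSet

/-!
The truth value, in the Boolean-valued universe `V^B`, of the sentence: the high spectrum of the
Tukey types of ultrafilters on `ω` is countably infinite.

All quantifiers range over the whole universe `V^B`; the only primitive predicates are membership
and equality.
-/

universe u

namespace Pool.Agent.LibTk83

open Pool.Agent.LibPlas90 Pool.Agent.LibPlas90.BSet

variable {B : Type u} [CompleteBooleanAlgebra B]

/-- `x ⊆ y`. -/
noncomputable def sub (x y : BSet B) : B := all x fun t => mem t y

/-- `x` is empty. -/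
noncomputable def isEmpty (x : BSet B) : B := ⨅ t : BSet B, (mem t x)ᶜ

/-- `y = x ∪ {a}`. -/
noncomputable def isAdd (y x a : BSet B) : B :=
  ⨅ t : BSet B, equiv (mem t y) (mem t x ⊔ eq t a)

/-- `v` is inductive: it contains the empty set, and `x ∪ {x}` for each `x ∈ v`. -/
noncomputable def isInd (v : BSet B) : B :=
  (ex v isEmpty) ⊓ (all v fun x => ex v fun y => isAdd y x x)

/-- `w` is the set `ω` of the natural numbers, the least inductive set. -/
noncomputable def isOmega (w : BSet B) : B := isInd w ⊓ ⨅ v : BSet B, isInd v ⇨ sub w v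

/-- `E` is finite: it belongs to each family which contains the empty set and is closed under
`x ↦ x ∪ {a}` for `a ∈ E`. -/
noncomputable def isFin (E : BSet B) : B :=
  ⨅ A : BSet B, (ex A isEmpty) ⊓ (all A fun x => all E fun a => ex A fun y => isAdd y x a) ⇨
    mem E A

/-- `f` is a function from `X` to `Y`. -/
noncomputable def isMap (f X Y : BSet B) : B :=
  (all X fun x => ex Y fun y => rel f x y) ⊓
  (all X fun x => all Y fun y => all Y fun y' => rel f x y ⊓ rel f x y' ⇨ eq y y')

/-- `f` is an injective function from `X` to `Y`. -/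
noncomputable def isInj (f X Y : BSet B) : B :=
  isMap f X Y ⊓
  (all X fun x => all X fun x' => all Y fun y => rel f x y ⊓ rel f x' y ⇨ eq x x')

/-- There is an injective function from `X` to `Y`: `|X| ≤ |Y|`. -/
noncomputable def embeds (X Y : BSet B) : B := ⨆ f : BSet B, isInj f X Y

/-- There is a bijection of `X` onto `Y`: `|X| = |Y|`. -/
noncomputable def equinum (X Y : BSet B) : B :=
  ⨆ f : BSet B, isInj f X Y ⊓ all Y fun y => ex X fun x => rel f x y

/-- `U` is a nonprincipal ultrafilter on `w`: its members are nonempty subsets of `w`; a subset of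
`w` which contains the intersection of two members is a member; if the union of two subsets of `w`
is `w` then one of them is a member; each `n ∈ w` is outside of some member. -/
noncomputable def isUltra (U w : BSet B) : B :=
  (all U fun x => sub x w ⊓ ex w fun n => mem n x) ⊓
  (all U fun x => all U fun y => ⨅ z : BSet B,
    sub z w ⊓ (all w fun n => mem n x ⊓ mem n y ⇨ mem n z) ⇨ mem z U) ⊓
  (⨅ x : BSet B, ⨅ y : BSet B,
    sub x w ⊓ sub y w ⊓ (all w fun n => mem n x ⊔ mem n y) ⇨ mem x U ⊔ mem y U) ⊓
  (all w fun n => ex U fun x => (mem n x)ᶜ)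

/-- Tukey reducibility of `(P, leP)` to `(Q, leQ)` (the orders are given by formulas): there is a
function `f` from `P` to `Q` such that each subset `X` of `P` with bounded image is bounded; that
is, `f` maps unbounded sets to unbounded sets. -/
noncomputable def tukey (P Q : BSet B → B) (leP leQ : BSet B → BSet B → B) : B :=
  ⨆ f : BSet B,
    (⨅ x : BSet B, P x ⇨ ⨆ y : BSet B, Q y ⊓ rel f x y) ⊓
    (⨅ x : BSet B, ⨅ y : BSet B, ⨅ y' : BSet B,
      P x ⊓ Q y ⊓ Q y' ⊓ rel f x y ⊓ rel f x y' ⇨ eq y y') ⊓
    (⨅ X : BSet B, (all X P) ⊓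
      (⨆ q : BSet B, Q q ⊓ all X fun x => ⨅ y : BSet B, Q y ⊓ rel f x y ⇨ leQ y q) ⇨
      ⨆ p : BSet B, P p ⊓ all X fun x => leP x p)

/-- `E` is a finite subset of `S`. -/
noncomputable def finSub (S E : BSet B) : B := sub E S ⊓ isFin E

/-- The cardinality of `S` is in the high spectrum: `S` is uncountable and there is a nonprincipal
ultrafilter `U` on `w`, ordered by reverse inclusion, which is Tukey equivalent to `[S]^{<ω}`,
ordered by inclusion. -/
noncomputable def inSpec (w S : BSet B) : B :=
  (embeds S w)ᶜ ⊓ ⨆ U : BSet B, isUltra U w ⊓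
    tukey (finSub S) (fun x => mem x U) sub (fun x y => sub y x) ⊓
    tukey (fun x => mem x U) (finSub S) (fun x y => sub y x) sub

/-- `F` is a sequence: for each `n ∈ w` there is exactly one `S` such that the pair of `n` and `S`
is in `F`. -/
noncomputable def isSeq (F w : BSet B) : B :=
  all w fun n => ⨆ S : BSet B, rel F n S ⊓ ⨅ T : BSet B, rel F n T ⇨ eq T S

/-- The high spectrum is infinite: there is a sequence of sets of different cardinalities which
are in the high spectrum. -/
noncomputable def infSpec (w : BSet B) : B :=
  ⨆ F : BSet B, isSeq F w ⊓ (all w fun n => ⨅ S : BSet B, rel F n S ⇨ inSpec w S) ⊓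
    (all w fun n => all w fun m => ⨅ S : BSet B, ⨅ T : BSet B,
      rel F n S ⊓ rel F m T ⊓ equinum S T ⇨ eq n m)

/-- The high spectrum is countable: there is a sequence of sets such that each set whose
cardinality is in the high spectrum has the cardinality of one of them. -/
noncomputable def ctblSpec (w : BSet B) : B :=
  ⨆ G : BSet B, isSeq G w ⊓
    ⨅ S : BSet B, inSpec w S ⇨ ex w fun n => ⨆ T : BSet B, rel G n T ⊓ equinum S T

variable (B) in
/-- The truth value in `V^B` of the sentence: the high spectrum of the Tukey types of ultrafilters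
on `ω` is countably infinite. -/
noncomputable def spectrumSentence : B :=
  ⨆ w : BSet B, isOmega w ⊓ infSpec w ⊓ ctblSpec w

end Pool.Agent.LibTk83
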