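import Pool.Agent.LibTk83.VDef

/-! Task V0: the formulas respect equality. -/

namespace Pool.Agent.LibTk83

open Pool.Agent.LibPlas90 Pool.Agent.LibPlas90.BSet

variable {B : Type} [CompleteBooleanAlgebra B]

/- Use the combinators `Ext.iInf`, `Ext.himp`, `Ext.mem_left` ... of `LibPlas90/BBasic.lean` and
`LibPlas90/Pairs.lean`. -/
theorem Ext_all_left (φ : BSet B → B) : Ext (fun R : BSet B => all R φ) :=
  Ext.iInf fun x => Ext.himp (Ext.mem_right x) (Ext.const (φ x))

theorem Ext_ex_left (φ : BSet B → B) : Ext (fun R : BSet B => ex R φ) :=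
  Ext.iSup fun x => Ext.inf (Ext.mem_right x) (Ext.const (φ x))

/-- If `φ R` and the set over which the quantifier runs depend on `R`. -/
theorem Ext_all {φ : BSet B → BSet B → B} (h : ∀ y, Ext (fun x => φ x y)) :
    Ext (fun R : BSet B => all R (φ R)) :=
  Ext.iInf fun x => Ext.himp (Ext.mem_right x) (h x)

theorem Ext_ex {φ : BSet B → BSet B → B} (h : ∀ y, Ext (fun x => φ x y)) :
    Ext (fun R : BSet B => ex R (φ R)) :=
  Ext.iSup fun x => Ext.inf (Ext.mem_right x) (h x)

theorem Ext_sub_left (y : BSet B) : Ext (fun x => sub x y) :=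
  Ext_all_left fun t => mem t y

theorem Ext_sub_right (x : BSet B) : Ext (fun y => sub x y) :=
  Ext.all (R := x) (φ := fun y t => mem t y) fun t => Ext.mem_right t

private theorem V0_equiv {φ ψ : BSet B → B} (h : Ext φ) (h' : Ext ψ) :
    Ext (fun x => equiv (φ x) (ψ x)) :=
  Ext.inf (Ext.himp h h') (Ext.himp h' h)

theorem Ext_isEmpty : Ext (isEmpty : BSet B → B) :=
  Ext.iInf fun t => Ext.compl (Ext.mem_right t)

theorem Ext_isAdd_1 (x a : BSet B) : Ext (fun y => isAdd y x a) :=
  Ext.iInf fun t => V0_equiv (Ext.mem_right t) (Ext.const (mem t x ⊔ eq t a))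

theorem Ext_isAdd_2 (y a : BSet B) : Ext (fun x => isAdd y x a) :=
  Ext.iInf fun t => V0_equiv (Ext.const (mem t y)) (Ext.sup (Ext.mem_right t) (Ext.const (eq t a)))

theorem Ext_isAdd_3 (y x : BSet B) : Ext (fun a => isAdd y x a) :=
  Ext.iInf fun t => V0_equiv (Ext.const (mem t y)) (Ext.sup (Ext.const (mem t x)) (Ext.eq_right t))

theorem Ext_isFin : Ext (isFin : BSet B → B) :=
  Ext.iInf fun A => Ext.himp
    (Ext.inf (Ext.const (ex A isEmpty))
      (Ext.all (R := A) (φ := fun E x => all E fun a => ex A fun y => isAdd y x a)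
        fun x => Ext_all_left fun a => ex A fun y => isAdd y x a))
    (Ext.mem_left A)

theorem Ext_finSub_left (E : BSet B) : Ext (fun S => finSub S E) :=
  Ext.inf (Ext_sub_right E) (Ext.const (isFin E))

theorem Ext_finSub_right (S : BSet B) : Ext (finSub S) :=
  Ext.inf (Ext_sub_left S) Ext_isFin

end Pool.Agent.LibTk83
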