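import Pool.Agent.LibTk83.V0
import Pool.Agent.LibTk83.V1

/-! Task V4: finite sets. -/

namespace Pool.Agent.LibTk83

open Pool.Agent.LibPlas90 Pool.Agent.LibPlas90.BSet

variable {B : Type} [CompleteBooleanAlgebra B] {κ : Type}

theorem mem_fsub (C : κ → BSet B) (F : Finset κ) (t : BSet B) :
    mem t (fsub C F) = ⨆ e ∈ F, eq t (C e) := by
  have h : mem t (fsub C F) = ⨆ j : {e // e ∈ F}, (⊤ : B) ⊓ eq t (C j.1) := rfl
  rw [h]
  simp only [top_inf_eq]
  rw [iSup_subtype]

theorem isEmpty_fsub (C : κ → BSet B) : isEmpty (fsub C ∅) = ⊤ := by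
  unfold isEmpty
  refine top_le_iff.mp (le_iInf fun t => ?_)
  rw [mem_fsub]
  simp

theorem isAdd_fsub [DecidableEq κ] (C : κ → BSet B) (F : Finset κ) (e : κ) :
    isAdd (fsub C (insert e F)) (fsub C F) (C e) = ⊤ := by
  unfold isAdd equiv
  refine top_le_iff.mp (le_iInf fun t => ?_)
  have h : mem t (fsub C (insert e F)) = mem t (fsub C F) ⊔ eq t (C e) := by
    rw [mem_fsub, mem_fsub, Finset.iSup_insert, sup_comm]
  rw [h, himp_self, inf_idem]

theorem v4_isAdd_le (y x a t : BSet B) : isAdd y x a ⊓ mem t y ≤ mem t x ⊔ eq t a := by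
  rw [← le_himp_iff]
  unfold isAdd equiv
  exact (iInf_le _ t).trans inf_le_left

theorem v4_isAdd_ge (y x a t : BSet B) : isAdd y x a ⊓ (mem t x ⊔ eq t a) ≤ mem t y := by
  rw [← le_himp_iff]
  unfold isAdd equiv
  exact (iInf_le _ t).trans inf_le_right

/- A set `y` with `isAdd y x a` is determined by `x` and `a`. -/
theorem isAdd_unique (y y' x a : BSet B) : isAdd y x a ⊓ isAdd y' x a ≤ eq y y' := by
  refine le_eq_of_forall _ _ _ (fun t => ?_) (fun t => ?_)
  · refine le_trans ?_ (v4_isAdd_ge y' x a t)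
    refine le_inf (inf_le_left.trans inf_le_right) ?_
    exact (inf_le_inf_right _ inf_le_left).trans (v4_isAdd_le y x a t)
  · refine le_trans ?_ (v4_isAdd_ge y x a t)
    refine le_inf (inf_le_left.trans inf_le_left) ?_
    exact (inf_le_inf_right _ inf_le_right).trans (v4_isAdd_le y' x a t)

theorem v4_isEmpty_mem (x t : BSet B) : isEmpty x ⊓ mem t x ≤ ⊥ := by
  have h : isEmpty x ≤ (mem t x)ᶜ := by
    unfold isEmpty
    exact iInf_le _ t
  refine (inf_le_inf_right _ h).trans ?_
  rw [compl_inf_eq_bot]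

theorem v4_isEmpty_unique (x y : BSet B) : isEmpty x ⊓ isEmpty y ≤ eq x y := by
  refine le_eq_of_forall _ _ _ (fun t => ?_) (fun t => ?_)
  · exact ((inf_le_inf_right _ inf_le_left).trans (v4_isEmpty_mem x t)).trans bot_le
  · exact ((inf_le_inf_right _ inf_le_right).trans (v4_isEmpty_mem y t)).trans bot_le

theorem v4_himp_trans {a b c : B} (h1 : a ≤ (b ⇨ c)) (h2 : a ≤ b) : a ≤ c :=
  (le_inf h1 h2).trans himp_inf_le

/- For a family `A` as in `isFin` prove by induction on `G ⊆ F` that `fsub C G` is in `A`. -/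
theorem isFin_fsub (C : κ → BSet B) (F : Finset κ) : isFin (fsub C F) = ⊤ := by
  classical
  unfold isFin
  refine top_le_iff.mp (le_iInf fun A => ?_)
  rw [le_himp_iff, top_inf_eq]
  have key : ∀ G : Finset κ, G ⊆ F →
      (ex A isEmpty) ⊓ (all A fun x => all (fsub C F) fun a => ex A fun y => isAdd y x a) ≤
        mem (fsub C G) A := by
    intro G
    induction G using Finset.induction_on with
    | empty =>
      intro _
      refine inf_le_left.trans ?_
      unfold ex
      refine iSup_le fun x => ?_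
      have h1 : isEmpty x ≤ eq x (fsub C ∅) := by
        refine le_trans ?_ (v4_isEmpty_unique x (fsub C ∅))
        exact le_inf le_rfl (by rw [isEmpty_fsub]; exact le_top)
      refine (inf_le_inf_left _ h1).trans ?_
      rw [inf_comm]
      exact mem_congr_left _ _ _
    | insert e G he ih =>
      intro hG
      have hG1 : G ⊆ F := (Finset.subset_insert e G).trans hG
      have heF : e ∈ F := hG (Finset.mem_insert_self e G)
      have h1 := ih hG1
      have h2 : (ex A isEmpty) ⊓
          (all A fun x => all (fsub C F) fun a => ex A fun y => isAdd y x a) ≤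
            (mem (fsub C G) A ⇨ all (fsub C F) fun a => ex A fun y => isAdd y (fsub C G) a) :=
        inf_le_right.trans (iInf_le _ (fsub C G))
      have h3 := v4_himp_trans h2 h1
      have h4 : (ex A isEmpty) ⊓
          (all A fun x => all (fsub C F) fun a => ex A fun y => isAdd y x a) ≤
            (mem (C e) (fsub C F) ⇨ ex A fun y => isAdd y (fsub C G) (C e)) :=
        h3.trans (iInf_le _ (C e))
      have h5 : mem (C e) (fsub C F) = ⊤ := by
        rw [mem_fsub]
        refine top_le_iff.mp ?_
        refine le_iSup₂_of_le e heF ?_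
        rw [BSet.eq_refl]
      have h6 := v4_himp_trans h4 (by rw [h5]; exact le_top)
      refine h6.trans ?_
      unfold ex
      refine iSup_le fun y => ?_
      have h7 : isAdd y (fsub C G) (C e) ≤ eq y (fsub C (insert e G)) := by
        refine le_trans ?_ (isAdd_unique y (fsub C (insert e G)) (fsub C G) (C e))
        exact le_inf le_rfl (by rw [isAdd_fsub]; exact le_top)
      refine (inf_le_inf_left _ h7).trans ?_
      rw [inf_comm]
      exact mem_congr_left _ _ _
  exact key F (Finset.Subset.refl F)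

/- Apply `isFin` to the family `mk (Finset κ) (fsub C) (fun _ => ⊤)`: below `sub E (mk κ C _)` it is
closed under adding elements of `E`, because each element of `E` equals some `C e`. -/
theorem isFin_le (C : κ → BSet B) (E : BSet B) :
    sub E (mk κ C fun _ => ⊤) ⊓ isFin E ≤ ⨆ F : Finset κ, eq E (fsub C F) := by
  classical
  have h1 : isFin E ≤ ((ex (mk (Finset κ) (fsub C) fun _ => ⊤) isEmpty) ⊓
      (all (mk (Finset κ) (fsub C) fun _ => ⊤) fun x => all E fun a =>
        ex (mk (Finset κ) (fsub C) fun _ => ⊤) fun y => isAdd y x a) ⇨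
      mem E (mk (Finset κ) (fsub C) fun _ => ⊤)) := by
    unfold isFin
    exact iInf_le _ _
  have h2 : mem E (mk (Finset κ) (fsub C) fun _ => ⊤) = ⨆ F : Finset κ, eq E (fsub C F) := by
    rw [mem_mk]
    exact iSup_congr fun F => top_inf_eq _
  rw [← h2]
  refine v4_himp_trans (inf_le_right.trans h1) ?_
  refine inf_le_left.trans (le_inf ?_ ?_)
  · rw [ex_mk Ext_isEmpty]
    refine le_iSup_of_le ∅ ?_
    rw [isEmpty_fsub, top_inf_eq]
    exact le_top
  · have hE : Ext (fun x : BSet B => all E fun a =>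
        ex (mk (Finset κ) (fsub C) fun _ => ⊤) fun y => isAdd y x a) :=
      Ext.all (fun a => Ext.ex (fun y => Ext_isAdd_2 y a))
    rw [all_mk hE]
    refine le_iInf fun F => ?_
    rw [top_himp]
    unfold all
    refine le_iInf fun a => ?_
    rw [le_himp_iff]
    have h3 : sub E (mk κ C fun _ => ⊤) ⊓ mem a E ≤ ⨆ e : κ, eq a (C e) := by
      have h4 : sub E (mk κ C fun _ => ⊤) ⊓ mem a E ≤ mem a (mk κ C fun _ => ⊤) := by
        rw [← le_himp_iff]
        unfold sub all
        exact iInf_le _ a
      refine h4.trans ?_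
      rw [mem_mk]
      exact iSup_mono fun e => inf_le_right
    refine h3.trans (iSup_le fun e => ?_)
    have h5 : Ext (fun y : BSet B => isAdd y (fsub C F) a) := Ext_isAdd_1 _ _
    show eq a (C e) ≤ ex (mk (Finset κ) (fsub C) fun _ => ⊤) (fun y => isAdd y (fsub C F) a)
    rw [ex_mk h5]
    refine le_iSup_of_le (insert e F) ?_
    rw [top_inf_eq]
    have h6 : eq (C e) a ⊓ isAdd (fsub C (insert e F)) (fsub C F) (C e) ≤
        isAdd (fsub C (insert e F)) (fsub C F) a := Ext_isAdd_3 _ _ _ _
    rw [isAdd_fsub, inf_top_eq, eq_symm] at h6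
    exact h6

/- The singleton: `upr x x` equals `fsub (fun _ : Unit => x) {()}`, or directly. -/
theorem isFin_upr (x : BSet B) : isFin (upr x x) = ⊤ := by
  have h1 : eq (fsub (fun _ : Unit => x) {()}) (upr x x) = ⊤ := by
    refine top_le_iff.mp (le_eq_of_forall _ _ _ (fun t => ?_) (fun t => ?_))
    · rw [mem_fsub, mem_upr, sup_idem, top_inf_eq]
      simp
    · rw [mem_fsub, mem_upr, sup_idem, top_inf_eq]
      simp
  have h2 : eq (fsub (fun _ : Unit => x) {()}) (upr x x) ⊓ isFin (fsub (fun _ : Unit => x) {()}) ≤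
      isFin (upr x x) := Ext_isFin _ _
  rw [h1, isFin_fsub, inf_idem] at h2
  exact top_le_iff.mp h2

theorem sub_upr (x y : BSet B) : sub (upr x x) y = mem x y := by
  unfold sub all
  apply le_antisymm
  · refine (iInf_le _ x).trans ?_
    rw [mem_upr, sup_idem, BSet.eq_refl, top_himp]
  · refine le_iInf fun t => ?_
    rw [le_himp_iff, mem_upr, sup_idem, inf_comm, eq_symm]
    exact mem_congr_left _ _ _

end Pool.Agent.LibTk83
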