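import Pool.Agent.LibTk83.V3

/-! Task V7: the name of the ultrafilter. -/

namespace Pool.Agent.LibTk83

open Pool.Agent.LibPlas90 Pool.Agent.LibPlas90.BSet

variable {B : Type} [CompleteBooleanAlgebra B] {I : Type}

private theorem V7_cases {B : Type*} [CompleteBooleanAlgebra B] {ι : Sort*} {c b : B} {f : ι → B}
    (h : c ≤ ⨆ i, f i) (h' : ∀ i d, d ≤ c → d ≤ f i → d ≤ b) : c ≤ b := by
  calc c ≤ c ⊓ ⨆ i, f i := le_inf le_rfl h
    _ = ⨆ i, c ⊓ f i := inf_iSup_eq _ _
    _ ≤ b := iSup_le fun i => h' i _ inf_le_left inf_le_right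

private theorem V7_mp {B : Type*} [CompleteBooleanAlgebra B] {c a b : B} (h : c ≤ a ⇨ b)
    (ha : c ≤ a) : c ≤ b :=
  (le_inf h ha).trans himp_inf_le

private theorem V7_intro {B : Type*} [CompleteBooleanAlgebra B] {c a b : B}
    (h : ∀ d, d ≤ c → d ≤ a → d ≤ b) : c ≤ a ⇨ b :=
  le_himp_iff.2 (h _ inf_le_left inf_le_right)

theorem mem_Un_rl (U : UData B I) (x : ℕ → B) :
    mem (rl x) (Un U) = ⨆ i, ⨅ k, (U.D i k ⇨ x k) := by
  unfold Un
  rw [mem_mk]
  apply le_antisymm
  · refine iSup_le fun y => ?_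
    rw [eq_rl]
    refine V7_cases (inf_le_left) fun i d h1 h2 => le_iSup_of_le i (le_iInf fun k => ?_)
    refine V7_intro fun d' h3 h4 => ?_
    have h5 : d' ≤ y k := V7_mp ((h3.trans h2).trans (iInf_le _ k)) h4
    have h6 : d' ≤ y k ⇨ x k :=
      (((h3.trans h1).trans inf_le_right).trans (iInf_le _ k)).trans inf_le_right
    exact V7_mp h6 h5
  · refine le_iSup_of_le x ?_
    rw [eq_refl, inf_top_eq]

theorem mem_Un_le (U : UData B I) (X : BSet B) : mem X (Un U) ≤ sub X (ck B ℕ) := by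
  unfold Un
  rw [mem_mk]
  refine iSup_le fun y => inf_le_right.trans ?_
  have h := Ext_sub_left (ck B ℕ) (rl y) X
  simp only at h
  rw [sub_rl_ck, inf_top_eq, eq_symm] at h
  exact h

theorem all_Un (U : UData B I) {φ : BSet B → B} (h : Ext φ) :
    all (Un U) φ = ⨅ x : ℕ → B, ((⨆ i, ⨅ k, (U.D i k ⇨ x k)) ⇨ φ (rl x)) := by
  unfold Un
  exact all_mk h _ _ _

/- The four conjuncts of `isUltra`: by `U.inf` (with `m = 0`); `U.dir`; `U.ultra` (`sub_ck_le`,
`iInf_sub_ck`: the subsets of `ω` are the `rl x`; if `x k ⊔ y k = ⊤` for all `k` then `(x k)ᶜ ≤ y k`);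
`U.nonpr` (a member is `rl (U.D i)`). -/
theorem isUltra_Un (U : UData B I) : isUltra (Un U) (ck B ℕ) = ⊤ := by
  unfold isUltra
  rw [eq_top_iff]
  refine le_inf (le_inf (le_inf ?_ ?_) ?_) ?_
  · -- subsets of `ω`, nonempty
    rw [all_Un U (Ext.inf (Ext_sub_left _) (Ext.ex fun y => Ext.mem_right y))]
    refine le_iInf fun x => V7_intro fun d _ h1 => ?_
    rw [sub_rl_ck, top_inf_eq, ex_ck (Ext.mem_left _)]
    refine V7_cases h1 fun i d' _ h2 => ?_
    have h3 : d' ≤ ⨆ k, ⨆ (_ : 0 ≤ k), U.D i k := by rw [U.inf i 0]; exact le_top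
    refine V7_cases h3 fun k d'' h4 h5 => le_iSup_of_le k ?_
    rw [mem_rl]
    have h6 : d'' ≤ U.D i k := h5.trans (iSup_le fun _ => le_rfl)
    exact V7_mp ((h4.trans h2).trans (iInf_le _ k)) h6
  · -- intersections
    have hE1 : ∀ x : BSet B, Ext (fun y => ⨅ z : BSet B,
        sub z (ck B ℕ) ⊓ (all (ck B ℕ) fun n => mem n x ⊓ mem n y ⇨ mem n z) ⇨ mem z (Un U)) := by
      intro x
      refine Ext.iInf fun z => Ext.himp (Ext.inf (Ext.const _) (Ext.all fun n =>
        Ext.himp (Ext.inf (Ext.const _) (Ext.mem_right n)) (Ext.const _))) (Ext.const _)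
    have hE2 : Ext (fun x : BSet B => all (Un U) fun y => ⨅ z : BSet B,
        sub z (ck B ℕ) ⊓ (all (ck B ℕ) fun n => mem n x ⊓ mem n y ⇨ mem n z) ⇨ mem z (Un U)) := by
      refine Ext.all fun y => Ext.iInf fun z => Ext.himp (Ext.inf (Ext.const _) (Ext.all fun n =>
        Ext.himp (Ext.inf (Ext.mem_right n) (Ext.const _)) (Ext.const _))) (Ext.const _)
    rw [all_Un U hE2]
    refine le_iInf fun x => V7_intro fun d _ hx => ?_
    rw [all_Un U (hE1 _)]
    refine le_iInf fun y => V7_intro fun d1 hd1 hy => ?_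
    refine le_iInf fun z => V7_intro fun d2 hd2 hz => ?_
    have hz1 : d2 ≤ eq z (rl fun k => mem (chk k) z) := (hz.trans inf_le_left).trans (sub_ck_le z)
    have hz2 : d2 ≤ ⨅ k, (x k ⊓ y k ⇨ mem (chk k) z) := by
      refine (hz.trans inf_le_right).trans ?_
      rw [all_ck (Ext.himp (Ext.inf (Ext.mem_left _) (Ext.mem_left _)) (Ext.mem_left _))]
      refine iInf_mono fun k => ?_
      rw [mem_rl, mem_rl]
    have hz3 : d2 ≤ mem (rl fun k => mem (chk k) z) (Un U) := by
      rw [mem_Un_rl]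
      refine V7_cases ((hd2.trans hd1).trans hx) fun i e1 he1 hi => ?_
      refine V7_cases ((he1.trans hd2).trans hy) fun j e2 he2 hj => ?_
      have h1 : e2 ≤ ⨆ l, ⨅ k, (U.D l k ⇨ U.D i k ⊓ U.D j k) := by rw [U.dir i j]; exact le_top
      refine V7_cases h1 fun l e3 he3 hl => le_iSup_of_le l (le_iInf fun k => ?_)
      refine V7_intro fun e4 he4 h4 => ?_
      have h5 : e4 ≤ U.D i k ⊓ U.D j k := V7_mp ((he4.trans hl).trans (iInf_le _ k)) h4
      have h6 : e4 ≤ x k :=
        V7_mp ((((he4.trans he3).trans he2).trans hi).trans (iInf_le _ k)) (h5.trans inf_le_left)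
      have h7 : e4 ≤ y k :=
        V7_mp (((he4.trans he3).trans hj).trans (iInf_le _ k)) (h5.trans inf_le_right)
      exact V7_mp (((((he4.trans he3).trans he2).trans he1).trans hz2).trans (iInf_le _ k))
        (le_inf h6 h7)
    refine le_trans (le_inf ?_ hz3) (mem_congr_left _ _ _)
    rw [eq_symm]
    exact hz1
  · -- ultra
    refine le_iInf fun x => le_iInf fun y => V7_intro fun d _ h => ?_
    have hx1 : d ≤ eq x (rl fun k => mem (chk k) x) :=
      ((h.trans inf_le_left).trans inf_le_left).trans (sub_ck_le x)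
    have hy1 : d ≤ eq y (rl fun k => mem (chk k) y) :=
      ((h.trans inf_le_left).trans inf_le_right).trans (sub_ck_le y)
    have hxy : d ≤ ⨅ k : ℕ, (mem (chk k) x ⊔ mem (chk k) y) := by
      refine (h.trans inf_le_right).trans ?_
      rw [all_ck (Ext.sup (Ext.mem_left _) (Ext.mem_left _))]
    have h1 : d ≤ ⨆ i, ((⨅ k, (U.D i k ⇨ mem (chk k) x)) ⊔
        ⨅ k, (U.D i k ⇨ (mem (chk k) x)ᶜ)) := by
      rw [U.ultra fun k => mem (chk k) x]
      exact le_top
    refine V7_cases h1 fun i d1 hd1 h2 => ?_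
    have h3 : d1 ⊓ (⨅ k, (U.D i k ⇨ mem (chk k) x)) ≤ mem x (Un U) := by
      refine le_trans (le_inf ?_ ?_) (mem_congr_left (rl fun k => mem (chk k) x) _ _)
      · rw [eq_symm]
        exact inf_le_left.trans (hd1.trans hx1)
      · rw [mem_Un_rl]
        exact le_iSup_of_le i inf_le_right
    have h4 : d1 ⊓ (⨅ k, (U.D i k ⇨ (mem (chk k) x)ᶜ)) ≤ mem y (Un U) := by
      refine le_trans (le_inf ?_ ?_) (mem_congr_left (rl fun k => mem (chk k) y) _ _)
      · rw [eq_symm]
        exact inf_le_left.trans (hd1.trans hy1)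
      · rw [mem_Un_rl]
        refine le_iSup_of_le i (le_iInf fun k => V7_intro fun e he h5 => ?_)
        have h6 : e ≤ (mem (chk k) x)ᶜ := V7_mp ((he.trans inf_le_right).trans (iInf_le _ k)) h5
        have h7 : e ≤ mem (chk k) x ⊔ mem (chk k) y :=
          (((he.trans inf_le_left).trans hd1).trans hxy).trans (iInf_le _ k)
        calc e ≤ (mem (chk k) x ⊔ mem (chk k) y) ⊓ (mem (chk k) x)ᶜ := le_inf h7 h6
          _ ≤ mem (chk k) y := by
            rw [inf_sup_right, inf_compl_self, bot_sup_eq]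
            exact inf_le_left
    calc d1 ≤ d1 ⊓ ((⨅ k, (U.D i k ⇨ mem (chk k) x)) ⊔
        ⨅ k, (U.D i k ⇨ (mem (chk k) x)ᶜ)) := le_inf le_rfl h2
      _ ≤ mem x (Un U) ⊔ mem y (Un U) := by
        rw [inf_sup_left]
        exact sup_le_sup h3 h4
  · -- nonprincipal
    rw [all_ck (Ext.ex fun y => Ext.compl (Ext.mem_left y))]
    refine le_iInf fun n => ?_
    rw [← U.nonpr n]
    refine iSup_le fun i => ?_
    unfold ex
    refine le_iSup_of_le (rl (U.D i)) ?_
    simp only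
    rw [mem_rl]
    refine le_inf ?_ le_rfl
    rw [mem_Un_rl]
    refine le_iSup_of_le i (le_iInf fun k => ?_)
    rw [himp_self]
    exact le_top

end Pool.Agent.LibTk83
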