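import Pool.Agent.LibTk83.Sent
import Pool.Agent.LibTk83.UData
import Pool.Agent.LibPlas90.Pairs

/-!
Names in the Boolean-valued universe: elements of well-ordered types, reals, finite sets,
relations, sequences, ultrafilters.
-/

namespace Pool.Agent.LibTk83

open Pool.Agent.LibPlas90 Pool.Agent.LibPlas90.BSet

variable {B : Type} [CompleteBooleanAlgebra B]

/-- The names of the elements of a well-ordered type (the ordinals below its order type). -/
noncomputable def chk {J : Type} [LinearOrder J] [WellFoundedLT J] : J → BSet B :=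
  (wellFounded_lt (α := J)).fix fun i ih => mk {j // j < i} (fun j => ih j.1 j.2) (fun _ => ⊤)

theorem chk_eq {J : Type} [LinearOrder J] [WellFoundedLT J] (i : J) :
    (chk i : BSet B) = mk {j // j < i} (fun j => chk j.1) (fun _ => ⊤) := by
  unfold chk
  rw [WellFounded.fix_eq]

variable (B) in
/-- The name of the set of the elements of a well-ordered type. -/
noncomputable def ck (J : Type) [LinearOrder J] [WellFoundedLT J] : BSet B :=
  mk J chk (fun _ => ⊤)

/-- The name of a subset of `ω`. -/
noncomputable def rl (x : ℕ → B) : BSet B := mk ℕ chk x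

/-- The name of the finite set of the `C e`, `e ∈ F`. -/
def fsub {κ : Type} (C : κ → BSet B) (F : Finset κ) : BSet B :=
  mk {e // e ∈ F} (fun e => C e.1) (fun _ => ⊤)

/-- The name of a relation. -/
def relN {ι κ : Type} (A : ι → BSet B) (C : κ → BSet B) (r : ι → κ → B) : BSet B :=
  mk (ι × κ) (fun p => opr (A p.1) (C p.2)) (fun p => r p.1 p.2)

/-- The name of a sequence. -/
noncomputable def sq (G : ℕ → BSet B) : BSet B :=
  mk ℕ (fun n => opr (chk n) (G n)) (fun _ => ⊤)

/-- The name of the ultrafilter. -/
noncomputable def Un {I : Type} (U : UData B I) : BSet B :=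
  mk (ℕ → B) rl (fun x => ⨆ i, ⨅ k, (U.D i k ⇨ x k))

end Pool.Agent.LibTk83
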