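import Pool.Agent.LibTk83.BInj
import Pool.Agent.LibTk83.X1
import Pool.Agent.LibTk83.X2

/-! Task X4: from finite-to-one functions to injections. -/

namespace Pool.Agent.LibTk83

variable {B : Type} [CompleteBooleanAlgebra B]

theorem X4_le_compl {a b : B} (h : a ⊓ b ≤ ⊥) : a ≤ bᶜ :=
  le_compl_iff_disjoint_right.2 (disjoint_iff_inf_le.2 h)

theorem X4_inf_le_bot {a b : B} (h : a ≤ bᶜ) : a ⊓ b ≤ ⊥ :=
  disjoint_iff_inf_le.1 (le_compl_iff_disjoint_right.1 h)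

/-- Every element is equivalent to a least element. -/
theorem X4_least {ι : Type} [LinearOrder ι] [WellFoundedLT ι] (s : ι → B)
    (E : ι → ι → B) (hrefl : ∀ i, E i i = ⊤) (hsymm : ∀ i i', E i i' = E i' i)
    (htrans : ∀ i i' i'', E i i' ⊓ E i' i'' ≤ E i i'') (i : ι) :
    s i ≤ ⨆ i₀, ((s i₀ ⊓ ⨅ i', ⨅ (_ : i' < i₀), (s i' ⊓ E i' i₀)ᶜ) ⊓ E i i₀) := by
  have h1 := iSup_least (fun i₀ => s i₀ ⊓ E i₀ i)
  have h2 : s i ≤ ⨆ i₀, s i₀ ⊓ E i₀ i := le_iSup_of_le i (by rw [hrefl]; exact le_inf le_rfl le_top)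
  rw [← h1] at h2
  refine h2.trans (iSup_mono fun i₀ => ?_)
  refine le_inf (le_inf (inf_le_left.trans inf_le_left) ?_) ?_
  · refine le_iInf fun i' => le_iInf fun hi' => X4_le_compl ?_
    have h3 : (⨅ j', ⨅ (_ : j' < i₀), (s j' ⊓ E j' i)ᶜ) ≤ (s i' ⊓ E i' i)ᶜ :=
      (iInf_le _ i').trans (iInf_le _ hi')
    have h4 := X4_inf_le_bot h3
    have h5 := htrans i' i₀ i
    order
  · rw [hsymm i i₀]
    exact inf_le_left.trans inf_le_right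

theorem X4_disj {ι : Type} [LinearOrder ι] (s : ι → B)
    (E : ι → ι → B) (hsymm : ∀ i i', E i i' = E i' i) (i₀ i₁ : ι) (hne : i₀ ≠ i₁) :
    (s i₀ ⊓ ⨅ i', ⨅ (_ : i' < i₀), (s i' ⊓ E i' i₀)ᶜ) ⊓
      (s i₁ ⊓ ⨅ i', ⨅ (_ : i' < i₁), (s i' ⊓ E i' i₁)ᶜ) ⊓ E i₀ i₁ ≤ ⊥ := by
  rcases lt_or_gt_of_ne hne with h | h
  · have h3 : (⨅ j', ⨅ (_ : j' < i₁), (s j' ⊓ E j' i₁)ᶜ) ≤ (s i₀ ⊓ E i₀ i₁)ᶜ :=
      (iInf_le _ i₀).trans (iInf_le _ h)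
    have h4 := X4_inf_le_bot h3
    order
  · have h3 : (⨅ j', ⨅ (_ : j' < i₀), (s j' ⊓ E j' i₀)ᶜ) ≤ (s i₁ ⊓ E i₁ i₀)ᶜ :=
      (iInf_le _ i₁).trans (iInf_le _ h)
    have h4 := X4_inf_le_bot h3
    have h5 := hsymm i₀ i₁
    order

/- `i` is the least index of its class: `L i = s i ⊓ ⨅ i' < i, (s i' ⊓ E i' i)ᶜ`. Then
`s i ≤ ⨆ i₀, L i₀ ⊓ E i i₀` (`iSup_least` for `Q i₀ = s i₀ ⊓ E i₀ i`), and `L i₀ ⊓ L i₁ ⊓ E i₀ i₁ = ⊥` for
`i₀ ≠ i₁`. Apply `exists_rank` to `a i = c ⊓ L i ⊓ Q i j` for each `j` (below `c` use `hfin`, and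
`a i ≤ c`). `m i (j, k) = ⨆ i₀, E i i₀ ⊓ rk j i₀ k`. -/
theorem exists_BInj {ι J : Type} [LinearOrder ι] [WellFoundedLT ι] (c : B) (s : ι → B)
    (E : ι → ι → B) (hrefl : ∀ i, E i i = ⊤) (hsymm : ∀ i i', E i i' = E i' i)
    (htrans : ∀ i i' i'', E i i' ⊓ E i' i'' ≤ E i i'') (Q : ι → J → B)
    (htot : ∀ i, c ⊓ s i ≤ ⨆ j, Q i j) (hext : ∀ i i' j, s i' ⊓ E i i' ⊓ Q i j ≤ Q i' j)
    (hfunc : ∀ i j j', j ≠ j' → Q i j ⊓ Q i j' ≤ ⊥)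
    (hfin : ∀ j, c ≤ ⨆ G : Finset ι, ⨅ i, ⨅ (_ : i ∉ G),
      ((s i ⊓ ⨅ i', ⨅ (_ : i' < i), (s i' ⊓ E i' i)ᶜ) ⊓ Q i j)ᶜ) :
    ∃ m : ι → J × ℕ → B, BInj c s E m := by
  have _ := hext
  have hleast := X4_least s E hrefl hsymm htrans
  have hdisj := X4_disj s E hsymm
  generalize hL : (fun i => s i ⊓ ⨅ i', ⨅ (_ : i' < i), (s i' ⊓ E i' i)ᶜ) = L at *
  have hL' : ∀ i, (s i ⊓ ⨅ i', ⨅ (_ : i' < i), (s i' ⊓ E i' i)ᶜ) = L i := fun i => by rw [← hL]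
  simp only [hL'] at hleast hdisj hfin
  have hLs : ∀ i, L i ≤ s i := fun i => by rw [← hL']; exact inf_le_left
  have hr : ∀ j, ∃ rk : ι → ℕ → B,
      (∀ i, ⨆ k, rk i k = c ⊓ L i ⊓ Q i j) ∧ (∀ i k k', k ≠ k' → rk i k ⊓ rk i k' = ⊥) ∧
      ∀ i i' k, i ≠ i' → rk i k ⊓ rk i' k = ⊥ := by
    intro j
    refine exists_rank (fun i => c ⊓ L i ⊓ Q i j) (top_le_iff.1 ?_)
    rw [← sup_compl_eq_top (x := c)]
    refine sup_le ((hfin j).trans (iSup_mono fun G => iInf_mono fun i => iInf_mono fun hi => ?_)) ?_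
    · refine compl_le_compl ?_
      rw [inf_assoc]
      exact inf_le_right
    · refine le_iSup_of_le ∅ (le_iInf fun i => le_iInf fun _ => compl_le_compl ?_)
      rw [inf_assoc]
      exact inf_le_left
  choose rk hrk1 hrk2 hrk3 using hr
  have hle : ∀ j i k, rk j i k ≤ c ⊓ L i ⊓ Q i j := fun j i k =>
    (hrk1 j i) ▸ le_iSup (fun k => rk j i k) k
  refine ⟨fun i p => ⨆ i₀, E i i₀ ⊓ rk p.1 i₀ p.2, ⟨?_, ?_, ?_, ?_⟩⟩
  · intro i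
    have h1 : c ⊓ s i ≤ c ⊓ ⨆ i₀, L i₀ ⊓ E i i₀ := inf_le_inf le_rfl (hleast i)
    rw [inf_iSup_eq] at h1
    refine h1.trans (iSup_le fun i₀ => ?_)
    have h2 : c ⊓ (L i₀ ⊓ E i i₀) ≤ c ⊓ (L i₀ ⊓ E i i₀) ⊓ ⨆ j, Q i₀ j := by
      have h3 := htot i₀
      have h4 := hLs i₀
      refine le_inf le_rfl ?_
      refine le_trans ?_ h3
      exact le_inf inf_le_left (inf_le_right.trans (inf_le_left.trans h4))
    refine h2.trans ?_
    rw [inf_iSup_eq]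
    refine iSup_le fun j => ?_
    have h5 : c ⊓ (L i₀ ⊓ E i i₀) ⊓ Q i₀ j ≤ E i i₀ ⊓ ⨆ k, rk j i₀ k := by
      rw [hrk1]
      order
    refine h5.trans ?_
    rw [inf_iSup_eq]
    exact iSup_le fun k => le_iSup_of_le (j, k) (le_iSup_of_le i₀ le_rfl)
  · rintro i i' ⟨j, k⟩
    simp only [inf_iSup_eq]
    refine iSup_le fun i₀ => le_iSup_of_le i₀ ?_
    have h1 := htrans i' i i₀
    have h2 := hsymm i i'
    order
  · rintro i ⟨j, k⟩ ⟨j', k'⟩ hne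
    simp only [inf_iSup_eq, iSup_inf_eq]
    refine iSup_le fun i₀ => iSup_le fun i₁ => ?_
    by_cases hi : i₀ = i₁
    · subst hi
      by_cases hj : j = j'
      · subst hj
        have hk : k ≠ k' := fun h => hne (by rw [h])
        have h1 := (hrk2 j i₀ k k' hk).le
        order
      · have h1 := hfunc i₀ j j' hj
        have h2 := hle j i₀ k
        have h3 := hle j' i₀ k'
        order
    · have h1 := hdisj i₀ i₁ hi
      have h2 := hle j i₀ k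
      have h3 := hle j' i₁ k'
      have h2' := hle j i₁ k
      have h3' := hle j' i₀ k'
      have h4 := htrans i₀ i i₁
      have h5 := hsymm i i₀
      order
  · rintro i i' ⟨j, k⟩
    simp only [inf_iSup_eq, iSup_inf_eq]
    refine iSup_le fun i₀ => iSup_le fun i₁ => ?_
    by_cases hi : i₀ = i₁
    · subst hi
      have h4 := htrans i i₀ i'
      have h5 := hsymm i' i₀
      order
    · have h1 := (hrk3 j i₀ i₁ k hi).le
      refine le_trans ?_ (bot_le : ⊥ ≤ E i i')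
      order

end Pool.Agent.LibTk83
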