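import Pool.Agent.LibTk83.V3
import Pool.Agent.LibTk83.V4
import Pool.Agent.LibTk83.X1
import Pool.Agent.LibTk83.X2

/-! Task Y1: a Tukey map from `[S]^{<ω}` to an ultrafilter is finite-to-one on the singletons. -/

namespace Pool.Agent.LibTk83

open Pool.Agent.LibPlas90 Pool.Agent.LibPlas90.BSet

variable {B : Type} [CompleteBooleanAlgebra B]

/-- `f` is a Tukey map from `[S]^{<ω}` to `U` (the formula in `tukey`). -/
noncomputable def isTk (f S U : BSet B) : B :=
  (⨅ x : BSet B, finSub S x ⇨ ⨆ y : BSet B, mem y U ⊓ rel f x y) ⊓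
  (⨅ x : BSet B, ⨅ y : BSet B, ⨅ y' : BSet B,
    finSub S x ⊓ mem y U ⊓ mem y' U ⊓ rel f x y ⊓ rel f x y' ⇨ eq y y') ⊓
  (⨅ X : BSet B, (all X (finSub S)) ⊓
    (⨆ q : BSet B, mem q U ⊓ all X fun x => ⨅ y : BSet B, mem y U ⊓ rel f x y ⇨ sub q y) ⇨
    ⨆ p : BSet B, finSub S p ⊓ all X fun x => sub x p)

theorem tukey_eq (S U : BSet B) : tukey (finSub S) (fun x => mem x U) sub (fun x y => sub y x) =
    ⨆ f : BSet B, isTk f S U := rfl

variable {ι Λ : Type}

/-- The value of `f` at the singleton of the `i`-th element is the `j`-th real. -/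
noncomputable def Ev (f U : BSet B) (A : ι → BSet B) (e : Λ → ℕ → B) (i : ι) (j : Λ) : B :=
  rel f (upr (A i) (A i)) (rl (e j)) ⊓ mem (rl (e j)) U

/- `Ext.rel1`, `eq_upr_self`. -/
theorem Ev_ext (f U : BSet B) (A : ι → BSet B) (e : Λ → ℕ → B) (i i' : ι) (j : Λ) :
    eq (A i) (A i') ⊓ Ev f U A e i j ≤ Ev f U A e i' j := by
  unfold Ev
  rw [← inf_assoc]
  refine inf_le_inf_right _ ?_
  rw [← eq_upr_self]
  exact Ext.rel1 f (rl (e j)) _ _

theorem Y1_fin (A : ι → BSet B) (s : ι → B) (i : ι) :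
    s i ≤ finSub (mk ι A s) (upr (A i) (A i)) := by
  unfold finSub
  rw [sub_upr, isFin_upr, inf_top_eq]
  exact le_mem ι A s i

/- `{A i}` is a finite subset of `S` (`isFin_upr`, `sub_upr`), its value `y` is in `U`, so a subset
of `ω` (`isUltra`), so `rl x` for some `x` (`sub_ck_le`), so `rl (e j)` for some `j` (`he`, `eq_rl`). -/
theorem Ev_total {f U : BSet B} (A : ι → BSet B) (s : ι → B) (e : Λ → ℕ → B)
    (he : ∀ X : ℕ → B, ⨆ j, ⨅ k, ((X k ⇨ e j k) ⊓ (e j k ⇨ X k)) = ⊤) (i : ι) :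
    isUltra U (ck B ℕ) ⊓ isTk f (mk ι A s) U ⊓ s i ≤ ⨆ j, Ev f U A e i j := by
  have h1 : isTk f (mk ι A s) U ⊓ s i ≤ ⨆ y : BSet B, mem y U ⊓ rel f (upr (A i) (A i)) y := by
    have h2 : isTk f (mk ι A s) U ≤ (finSub (mk ι A s) (upr (A i) (A i)) ⇨
        ⨆ y : BSet B, mem y U ⊓ rel f (upr (A i) (A i)) y) :=
      (inf_le_left.trans inf_le_left).trans (iInf_le _ (upr (A i) (A i)))
    calc isTk f (mk ι A s) U ⊓ s i ≤ (finSub (mk ι A s) (upr (A i) (A i)) ⇨
        ⨆ y : BSet B, mem y U ⊓ rel f (upr (A i) (A i)) y) ⊓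
          finSub (mk ι A s) (upr (A i) (A i)) := inf_le_inf h2 (Y1_fin A s i)
      _ ≤ _ := himp_inf_le
  rw [inf_assoc]
  refine (inf_le_inf_left _ h1).trans ?_
  rw [inf_iSup_eq]
  refine iSup_le fun y => ?_
  have h3 : isUltra U (ck B ℕ) ⊓ mem y U ≤ eq y (rl fun k => mem (chk k) y) := by
    have h4 : isUltra U (ck B ℕ) ≤ (mem y U ⇨ sub y (ck B ℕ)) := by
      refine (((inf_le_left.trans inf_le_left).trans inf_le_left).trans (iInf_le _ y)).trans ?_
      exact himp_le_himp_left inf_le_left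
    rw [le_himp_iff] at h4
    exact h4.trans (sub_ck_le y)
  have h5 : isUltra U (ck B ℕ) ⊓ (mem y U ⊓ rel f (upr (A i) (A i)) y) ≤
      (mem y U ⊓ rel f (upr (A i) (A i)) y ⊓ eq y (rl fun k => mem (chk k) y)) ⊓
        ⨆ j, eq (rl fun k => mem (chk k) y) (rl (e j)) := by
    have h6 : (⨆ j, eq (rl fun k => mem (chk k) y) (rl (e j))) = ⊤ := by
      rw [← he (fun k => mem (chk k) y)]
      exact iSup_congr fun j => eq_rl _ _
    rw [h6, inf_top_eq]
    refine le_inf inf_le_right ?_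
    exact (inf_le_inf_left _ inf_le_left).trans h3
  refine h5.trans ?_
  rw [inf_iSup_eq]
  refine iSup_mono fun j => ?_
  have h7 : mem y U ⊓ rel f (upr (A i) (A i)) y ⊓ eq y (rl fun k => mem (chk k) y) ⊓
      eq (rl fun k => mem (chk k) y) (rl (e j)) ≤
      eq y (rl (e j)) ⊓ (mem y U ⊓ rel f (upr (A i) (A i)) y) := by
    refine le_inf ?_ (inf_le_left.trans inf_le_left)
    exact le_trans (le_inf (inf_le_left.trans inf_le_right) inf_le_right) (eq_trans _ _ _)
  refine h7.trans ?_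
  unfold Ev
  refine le_inf ?_ ?_
  · exact (inf_le_inf_left _ inf_le_right).trans (Ext.rel2 f _ _ _)
  · exact (inf_le_inf_left _ inf_le_left).trans (mem_congr_left _ _ _)

theorem Y1_sub_refl (q : BSet B) : sub q q = ⊤ := by
  unfold sub all
  rw [eq_top_iff]
  refine le_iInf fun t => ?_
  rw [himp_self]

/- Apply the third conjunct of `isTk` to `X = mk ι (fun i => upr (A i) (A i)) a`, with the bound
`rl (e j)` (below `mem (rl (e j)) U`; outside of it `a i = ⊥` and `F = ∅` works). The result `p` is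
a finite subset of `S`, `isFin_le` with `C = A` gives that it equals some `fsub A F`. -/
theorem Ev_finite {f U : BSet B} (A : ι → BSet B) (s : ι → B) (e : Λ → ℕ → B) (j : Λ)
    (a : ι → B) (ha : ∀ i, a i ≤ s i ⊓ Ev f U A e i j) :
    isTk f (mk ι A s) U ≤ ⨆ F : Finset ι, ⨅ i, (a i ⇨ mem (A i) (fsub A F)) := by
  set q : BSet B := rl (e j) with hq
  set S : BSet B := mk ι A s with hS
  set T := isTk f S U with hT
  have hm : (mem q U)ᶜ ≤ ⨆ F : Finset ι, ⨅ i, (a i ⇨ mem (A i) (fsub A F)) := by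
    refine le_iSup_of_le ∅ (le_iInf fun i => ?_)
    rw [le_himp_iff]
    have h1 : a i ≤ mem q U := (ha i).trans (inf_le_right.trans inf_le_right)
    exact ((inf_le_inf_left _ h1).trans (by rw [compl_inf_eq_bot])).trans bot_le
  have hmain : T ⊓ mem q U ≤ ⨆ F : Finset ι, ⨅ i, (a i ⇨ mem (A i) (fsub A F)) := by
    have h3 := (inf_le_right : T ≤ _).trans
      (iInf_le _ (mk ι (fun i => upr (A i) (A i)) a : BSet B))
    rw [le_himp_iff] at h3
    have hall1 : all (mk ι (fun i => upr (A i) (A i)) a : BSet B) (finSub S) = ⊤ := by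
      rw [all_mk (Ext_finSub_right S), eq_top_iff]
      refine le_iInf fun i => ?_
      rw [le_himp_iff, top_inf_eq]
      exact (ha i).trans (inf_le_left.trans (Y1_fin A s i))
    have hExt : Ext (fun x : BSet B => ⨅ y : BSet B, mem y U ⊓ rel f x y ⇨ sub q y) :=
      Ext.iInf fun y => Ext.himp (Ext.inf (Ext.const _) (Ext.rel1 f y)) (Ext.const _)
    have hall2 : T ⊓ mem q U ≤ ⨆ q : BSet B, mem q U ⊓
        all (mk ι (fun i => upr (A i) (A i)) a : BSet B)
          fun x => ⨅ y : BSet B, mem y U ⊓ rel f x y ⇨ sub q y := by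
      refine le_iSup_of_le q (le_inf inf_le_right ?_)
      rw [all_mk hExt]
      refine le_iInf fun i => ?_
      rw [le_himp_iff]
      refine le_iInf fun y => ?_
      rw [le_himp_iff]
      have h4 : T ≤ (finSub S (upr (A i) (A i)) ⊓ mem q U ⊓ mem y U ⊓
          rel f (upr (A i) (A i)) q ⊓ rel f (upr (A i) (A i)) y ⇨ eq q y) :=
        (inf_le_left.trans inf_le_right).trans
          ((iInf_le _ (upr (A i) (A i))).trans ((iInf_le _ q).trans (iInf_le _ y)))
      rw [le_himp_iff] at h4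
      have h5 : T ⊓ mem q U ⊓ a i ⊓ (mem y U ⊓ rel f (upr (A i) (A i)) y) ≤ eq q y := by
        refine le_trans ?_ h4
        have e1 : T ⊓ mem q U ⊓ a i ⊓ (mem y U ⊓ rel f (upr (A i) (A i)) y) ≤ T :=
          inf_le_left.trans (inf_le_left.trans inf_le_left)
        have e2 : T ⊓ mem q U ⊓ a i ⊓ (mem y U ⊓ rel f (upr (A i) (A i)) y) ≤ mem q U :=
          inf_le_left.trans (inf_le_left.trans inf_le_right)
        have e3 : T ⊓ mem q U ⊓ a i ⊓ (mem y U ⊓ rel f (upr (A i) (A i)) y) ≤ a i :=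
          inf_le_left.trans inf_le_right
        have e4 : T ⊓ mem q U ⊓ a i ⊓ (mem y U ⊓ rel f (upr (A i) (A i)) y) ≤ mem y U :=
          inf_le_right.trans inf_le_left
        have e5 : T ⊓ mem q U ⊓ a i ⊓ (mem y U ⊓ rel f (upr (A i) (A i)) y) ≤
            rel f (upr (A i) (A i)) y := inf_le_right.trans inf_le_right
        exact le_inf e1 (le_inf (le_inf (le_inf (le_inf
          (e3.trans ((ha i).trans (inf_le_left.trans (Y1_fin A s i)))) e2) e4)
          (e3.trans ((ha i).trans (inf_le_right.trans inf_le_left)))) e5)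
      have h6 : eq q y ≤ sub q y := by
        have h7 : eq q y ⊓ sub q q ≤ sub q y := Ext_sub_right q q y
        rw [Y1_sub_refl, inf_top_eq] at h7
        exact h7
      exact h5.trans h6
    have h8 : T ⊓ mem q U ≤ ⨆ p : BSet B, finSub S p ⊓
        all (mk ι (fun i => upr (A i) (A i)) a : BSet B) fun x => sub x p := by
      refine le_trans ?_ h3
      refine le_inf inf_le_left (le_inf ?_ hall2)
      rw [hall1]
      exact le_top
    refine h8.trans (iSup_le fun p => ?_)
    have h9 : finSub S p ≤ ⨆ F : Finset ι, eq p (fsub A F) := by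
      refine le_trans ?_ (isFin_le A p)
      refine inf_le_inf_right _ ?_
      unfold sub all
      refine iInf_mono fun t => himp_le_himp_left ?_
      show mem t (mk ι A s) ≤ mem t (mk ι A fun _ => ⊤)
      rw [mem_mk, mem_mk]
      exact iSup_mono fun i => inf_le_inf_right _ le_top
    have h10 : (all (mk ι (fun i => upr (A i) (A i)) a : BSet B) fun x => sub x p) =
        ⨅ i, (a i ⇨ mem (A i) p) := by
      rw [all_mk (Ext_sub_left p)]
      exact iInf_congr fun i => by rw [sub_upr]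
    rw [h10]
    refine (inf_le_inf_right _ h9).trans ?_
    rw [iSup_inf_eq]
    refine iSup_mono fun F => le_iInf fun i => ?_
    rw [le_himp_iff]
    have h11 : (⨅ i, (a i ⇨ mem (A i) p)) ⊓ a i ≤ mem (A i) p := by
      rw [← le_himp_iff]
      exact iInf_le _ i
    rw [inf_assoc]
    exact (inf_le_inf_left _ h11).trans (mem_congr_right _ _ _)
  calc T = T ⊓ mem q U ⊔ T ⊓ (mem q U)ᶜ := by
        rw [← inf_sup_left, sup_compl_eq_top, inf_top_eq]
    _ ≤ _ := sup_le hmain (inf_le_right.trans hm)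

end Pool.Agent.LibTk83
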