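import Pool.Agent.LibTk83.Y1
import Pool.Agent.LibTk83.X4

/-! Task Y2: the Boolean-valued injection. -/

namespace Pool.Agent.LibTk83

open Pool.Agent.LibPlas90 Pool.Agent.LibPlas90.BSet

variable {B : Type} [CompleteBooleanAlgebra B]

/- `exists_BInj` with `E i i' = eq (A i) (A i')` and
`Q i j = s i ⊓ (Ev i j ⊓ ⨅ j' < j, (Ev i j')ᶜ)`: `htot` from `Ev_total` and `iSup_least`, `hext` from
`Ev_ext`; `hfin` from `Ev_finite` and `locally_finite` with `κ = ι`,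
`d i' i = L i ⊓ eq (A i) (A i')` (`mem_fsub`), where `L i = s i ⊓ ⨅ i' < i, (s i' ⊓ eq (A i') (A i))ᶜ`. -/
theorem exists_BInj_of_isTk {ι Λ : Type} [LinearOrder ι] [WellFoundedLT ι] [LinearOrder Λ]
    [WellFoundedLT Λ] {f U : BSet B} (A : ι → BSet B) (s : ι → B) (e : Λ → ℕ → B)
    (he : ∀ X : ℕ → B, ⨆ j, ⨅ k, ((X k ⇨ e j k) ⊓ (e j k ⇨ X k)) = ⊤) :
    ∃ m : ι → Λ × ℕ → B, BInj (isUltra U (ck B ℕ) ⊓ isTk f (mk ι A s) U) s
      (fun i i' => eq (A i) (A i')) m := by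
  classical
  have hadj : ∀ {x y z : B}, x ⊓ y ≤ z → x ≤ y ⇨ z := fun h => le_himp_iff.2 h
  refine exists_BInj (isUltra U (ck B ℕ) ⊓ isTk f (mk ι A s) U) s
    (fun i i' => eq (A i) (A i')) (fun i => eq_refl _) (fun i i' => eq_symm _ _)
    (fun i i' i'' => eq_trans _ _ _)
    (fun i j => s i ⊓ (Ev f U A e i j ⊓ ⨅ j', ⨅ (_ : j' < j), (Ev f U A e i j')ᶜ)) ?_ ?_ ?_ ?_
  · -- totality
    intro i
    have h1 := Ev_total A s e he i (f := f) (U := U)
    rw [← iSup_least] at h1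
    have h2 := le_inf (inf_le_right : (isUltra U (ck B ℕ) ⊓ isTk f (mk ι A s) U) ⊓ s i ≤ s i) h1
    rw [inf_iSup_eq] at h2
    exact h2
  · -- extensionality
    intro i i' j
    refine le_inf (inf_le_left.trans inf_le_left) (le_inf ?_ ?_)
    · refine le_trans ?_ (Ev_ext f U A e i i' j)
      exact le_inf (inf_le_left.trans inf_le_right)
        (inf_le_right.trans (inf_le_right.trans inf_le_left))
    · refine le_iInf₂ fun j' hj' => ?_
      rw [le_compl_iff_disjoint_right, disjoint_iff_inf_le]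
      have h1 : eq (A i) (A i') ⊓ Ev f U A e i' j' ≤ Ev f U A e i j' := by
        rw [eq_symm (A i) (A i')]
        exact Ev_ext f U A e i' i j'
      have h2 : s i' ⊓ eq (A i) (A i') ⊓ (s i ⊓ (Ev f U A e i j ⊓
          ⨅ j', ⨅ (_ : j' < j), (Ev f U A e i j')ᶜ)) ≤ (Ev f U A e i j')ᶜ :=
        inf_le_right.trans (inf_le_right.trans (inf_le_right.trans (iInf₂_le j' hj')))
      calc s i' ⊓ eq (A i) (A i') ⊓ (s i ⊓ (Ev f U A e i j ⊓
          ⨅ j', ⨅ (_ : j' < j), (Ev f U A e i j')ᶜ)) ⊓ Ev f U A e i' j'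
          ≤ (Ev f U A e i j')ᶜ ⊓ Ev f U A e i j' := by
            refine le_inf (inf_le_left.trans h2) (le_trans ?_ h1)
            exact le_inf (inf_le_left.trans (inf_le_left.trans inf_le_right)) inf_le_right
        _ ≤ ⊥ := (compl_inf_self _).le
  · -- functionality
    have key : ∀ i (j j' : Λ), j < j' →
        (s i ⊓ (Ev f U A e i j ⊓ ⨅ j', ⨅ (_ : j' < j), (Ev f U A e i j')ᶜ)) ⊓
        (s i ⊓ (Ev f U A e i j' ⊓ ⨅ j'', ⨅ (_ : j'' < j'), (Ev f U A e i j'')ᶜ)) ≤ ⊥ := by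
      intro i j j' hj
      refine le_trans ?_ (inf_compl_self (Ev f U A e i j)).le
      exact le_inf (inf_le_left.trans (inf_le_right.trans inf_le_left))
        (inf_le_right.trans (inf_le_right.trans (inf_le_right.trans (iInf₂_le j hj))))
    intro i j j' hj
    rcases lt_or_gt_of_ne hj with h | h
    · exact key i j j' h
    · rw [inf_comm]
      exact key i j' j h
  · -- finiteness
    intro j
    set L : ι → B := fun i => s i ⊓ ⨅ i', ⨅ (_ : i' < i), (s i' ⊓ eq (A i') (A i))ᶜ with hL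
    set a : ι → B := fun i => L i ⊓
      (s i ⊓ (Ev f U A e i j ⊓ ⨅ j', ⨅ (_ : j' < j), (Ev f U A e i j')ᶜ)) with ha
    have h1 : isTk f (mk ι A s) U ≤ ⨆ F : Finset ι, ⨅ i, (a i ⇨ mem (A i) (fsub A F)) := by
      refine Ev_finite A s e j a fun i => ?_
      exact inf_le_right.trans (le_inf inf_le_left (inf_le_right.trans inf_le_left))
    refine inf_le_right.trans (h1.trans (iSup_le fun F => ?_))
    have hd : ∀ (e i i' : ι), i ≠ i' →
        (L i ⊓ eq (A i) (A e)) ⊓ (L i' ⊓ eq (A i') (A e)) = ⊥ := by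
      have key : ∀ (e i i' : ι), i < i' →
          (L i ⊓ eq (A i) (A e)) ⊓ (L i' ⊓ eq (A i') (A e)) ≤ ⊥ := by
        intro e i i' hii
        have h2 : (L i ⊓ eq (A i) (A e)) ⊓ (L i' ⊓ eq (A i') (A e)) ≤ s i ⊓ eq (A i) (A i') := by
          refine le_inf (inf_le_left.trans (inf_le_left.trans inf_le_left)) ?_
          refine le_trans ?_ (eq_trans (A i) (A e) (A i'))
          refine le_inf (inf_le_left.trans inf_le_right) ?_
          rw [eq_symm (A e) (A i')]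
          exact inf_le_right.trans inf_le_right
        have h3 : (L i ⊓ eq (A i) (A e)) ⊓ (L i' ⊓ eq (A i') (A e)) ≤
            (s i ⊓ eq (A i) (A i'))ᶜ :=
          inf_le_right.trans (inf_le_left.trans (inf_le_right.trans (iInf₂_le i hii)))
        exact (le_inf h2 h3).trans (inf_compl_self _).le
      intro e i i' hii
      rcases lt_or_gt_of_ne hii with h | h
      · exact le_bot_iff.1 (key e i i' h)
      · rw [inf_comm]
        exact le_bot_iff.1 (key e i' i h)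
    have h2 := locally_finite (fun (e i : ι) => L i ⊓ eq (A i) (A e)) hd F
    have h3 : (⨅ i, (a i ⇨ mem (A i) (fsub A F))) ≤ (⨅ i, (a i ⇨ mem (A i) (fsub A F))) ⊓
        ⨆ G : Finset ι, ⨅ i, ⨅ (_ : i ∉ G), (⨆ e ∈ F, (L i ⊓ eq (A i) (A e)))ᶜ := by
      rw [h2, inf_top_eq]
    refine h3.trans ?_
    rw [inf_iSup_eq]
    refine iSup_mono fun G => ?_
    refine le_iInf₂ fun i hi => ?_
    show _ ≤ (a i)ᶜ
    rw [le_compl_iff_disjoint_right, disjoint_iff_inf_le]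
    have h4 : ((⨅ i, (a i ⇨ mem (A i) (fsub A F))) ⊓
        ⨅ i, ⨅ (_ : i ∉ G), (⨆ e ∈ F, (L i ⊓ eq (A i) (A e)))ᶜ) ⊓ a i ≤
        ⨆ e ∈ F, (L i ⊓ eq (A i) (A e)) := by
      have h5 : ((⨅ i, (a i ⇨ mem (A i) (fsub A F))) ⊓
          ⨅ i, ⨅ (_ : i ∉ G), (⨆ e ∈ F, (L i ⊓ eq (A i) (A e)))ᶜ) ⊓ a i ≤
          mem (A i) (fsub A F) := by
        have h6 : (⨅ i, (a i ⇨ mem (A i) (fsub A F))) ⊓ a i ≤ mem (A i) (fsub A F) :=
          (inf_le_inf_right _ (iInf_le _ i)).trans himp_inf_le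
        exact (inf_le_inf_right _ inf_le_left).trans h6
      rw [mem_fsub] at h5
      have h7 := le_inf (inf_le_right.trans inf_le_left :
        ((⨅ i, (a i ⇨ mem (A i) (fsub A F))) ⊓
          ⨅ i, ⨅ (_ : i ∉ G), (⨆ e ∈ F, (L i ⊓ eq (A i) (A e)))ᶜ) ⊓ a i ≤ L i) h5
      rw [inf_iSup₂_eq] at h7
      exact h7
    have h5 : ((⨅ i, (a i ⇨ mem (A i) (fsub A F))) ⊓
        ⨅ i, ⨅ (_ : i ∉ G), (⨆ e ∈ F, (L i ⊓ eq (A i) (A e)))ᶜ) ⊓ a i ≤
        (⨆ e ∈ F, (L i ⊓ eq (A i) (A e)))ᶜ :=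
      inf_le_left.trans (inf_le_right.trans (iInf₂_le i hi))
    exact (le_inf h4 h5).trans (inf_compl_self _).le

end Pool.Agent.LibTk83
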